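import Pool.Agent.H583R2.TSI.Core5

/-! Choice of parameters. -/

namespace H583T
open Finset

theorem cfg_log_le (n S K L : ℕ) (hn4 : 4 ≤ n) (hnK : 2 * K + 1 ≤ n) (hS : S ≤ n ^ 2)
    (hS1 : 1 ≤ S) :
    Real.log ((2 * Fintype.card (Cfg n S K L) : ℕ) : ℝ) ≤
      (3 + (L : ℝ) * (8 * (K : ℝ) + 3)) * Real.log n := by
  have hnpos : (0 : ℝ) < n := by
    have : 0 < n := by omega
    exact_mod_cast this
  have h1 : 2 * Fintype.card (Cfg n S K L) ≤ n ^ (3 + L * (8 * K + 3)) := by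
    rw [cfg_card]
    have e1 : S ^ (2 * K + 1) ≤ (n ^ 2) ^ (2 * K + 1) := Nat.pow_le_pow_left hS _
    have e2 : (2 * K + 1) * ((n * n) ^ (2 * K) * S ^ (2 * K + 1)) ≤ n ^ (8 * K + 3) := by
      calc (2 * K + 1) * ((n * n) ^ (2 * K) * S ^ (2 * K + 1))
          ≤ n * ((n * n) ^ (2 * K) * (n ^ 2) ^ (2 * K + 1)) :=
            Nat.mul_le_mul hnK (Nat.mul_le_mul_left _ e1)
        _ = n ^ (8 * K + 3) := by ring
    have e3 : ((2 * K + 1) * ((n * n) ^ (2 * K) * S ^ (2 * K + 1))) ^ L ≤ n ^ (L * (8 * K + 3)) := by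
      calc _ ≤ (n ^ (8 * K + 3)) ^ L := Nat.pow_le_pow_left e2 L
        _ = n ^ (L * (8 * K + 3)) := by rw [← pow_mul, mul_comm]
    calc 2 * (2 * (S * ((2 * K + 1) * ((n * n) ^ (2 * K) * S ^ (2 * K + 1))) ^ L))
        = 4 * (S * ((2 * K + 1) * ((n * n) ^ (2 * K) * S ^ (2 * K + 1))) ^ L) := by ring
      _ ≤ n * (n ^ 2 * n ^ (L * (8 * K + 3))) := Nat.mul_le_mul hn4 (Nat.mul_le_mul hS e3)
      _ = n ^ (3 + L * (8 * K + 3)) := by rw [pow_add]; ring
  have hcpos : 0 < Fintype.card (Cfg n S K L) := by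
    rw [cfg_card]
    positivity
  have h2 : ((2 * Fintype.card (Cfg n S K L) : ℕ) : ℝ) ≤ (n : ℝ) ^ (3 + L * (8 * K + 3)) := by
    exact_mod_cast h1
  calc Real.log ((2 * Fintype.card (Cfg n S K L) : ℕ) : ℝ)
      ≤ Real.log ((n : ℝ) ^ (3 + L * (8 * K + 3))) := by
        apply Real.log_le_log _ h2
        have : 0 < 2 * Fintype.card (Cfg n S K L) := by omega
        exact_mod_cast this
    _ = (3 + (L : ℝ) * (8 * (K : ℝ) + 3)) * Real.log n := by
        rw [Real.log_pow]; push_cast; ring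

/-- for large `n` all parameter conditions can be met -/
theorem params (ε : ℝ) (hε : 0 < ε) (hε1 : ε ≤ 1) :
    ∃ K C n0 : ℕ, 1 ≤ K ∧ ∀ n : ℕ, n0 ≤ n → ∃ d d' S1 : ℕ, 1 ≤ n ∧ 1 ≤ d ∧
      2 * S1 * (16 * d) ^ 2 ≤ n ^ 2 ∧ K + 2 * K * 2 ^ (2 * K + 1) + d' ≤ d ∧
      n ^ 2 * (2 * K * (16 * d)) ^ K < d' ^ (2 * K) ∧ 32 * n ≤ S1 ∧
      (n : ℝ) ^ (2 - ε) ≤ S1 ∧
      ∀ w : ℕ, (C : ℝ) * Real.logb 2 n ≤ w → 1 ≤ w ∧ S1 ≤ 2 ^ (w - 1) ∧
        2 ^ (2 * K + 3) * (((2 * K : ℕ) : ℝ) + 8) *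
          (Real.log ((2 * Fintype.card (Cfg n S1 K (2 ^ (2 * K + 1))) : ℕ) : ℝ) +
          Real.log (2 * (n : ℝ) ^ 2)) < Real.log ((2 ^ (w - 1) : ℕ) : ℝ) := by
  obtain ⟨K, hK⟩ := exists_nat_gt (16 / ε)
  have hKpos : 0 < K := by
    have : (0 : ℝ) < K := lt_trans (by positivity) hK
    exact_mod_cast this
  have hKε : 16 < ε * K := by
    rw [div_lt_iff₀ hε] at hK
    linarith
  set L : ℕ := 2 ^ (2 * K + 1) with hL
  set A : ℝ := 2 ^ (2 * K + 3) * (((2 * K : ℕ) : ℝ) + 8) with hA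
  set Bc : ℝ := 3 + (L : ℝ) * (8 * (K : ℝ) + 3) + 3 with hBc
  obtain ⟨C0, hC0⟩ := exists_nat_gt (A * Bc + 1)
  set C : ℕ := C0 + 3 with hC
  -- eventual conditions
  have t1 : Filter.Tendsto (fun n : ℕ => (n : ℝ) ^ (ε / 8)) Filter.atTop Filter.atTop :=
    (tendsto_rpow_atTop (by positivity)).comp tendsto_natCast_atTop_atTop
  have t2 : Filter.Tendsto (fun n : ℕ => (n : ℝ) ^ (1 / 2 : ℝ)) Filter.atTop Filter.atTop :=
    (tendsto_rpow_atTop (by positivity)).comp tendsto_natCast_atTop_atTop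
  have t3 : Filter.Tendsto (fun n : ℕ => (n : ℝ) ^ (ε / 4)) Filter.atTop Filter.atTop :=
    (tendsto_rpow_atTop (by positivity)).comp tendsto_natCast_atTop_atTop
  have t4 : Filter.Tendsto (fun n : ℕ => (n : ℝ) ^ (ε / 2)) Filter.atTop Filter.atTop :=
    (tendsto_rpow_atTop (by positivity)).comp tendsto_natCast_atTop_atTop
  have e1 := t1.eventually_ge_atTop (256 * (K : ℝ))
  have e2 := t2.eventually_ge_atTop (512 * 40 : ℝ)
  have e3 := t3.eventually_ge_atTop (2 * ((K : ℝ) + 2 * K * L) + 2)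
  have e4 := t4.eventually_ge_atTop (1024 : ℝ)
  have e5 := Filter.eventually_ge_atTop (4 + (2 * K + 1))
  obtain ⟨n0, hn0⟩ := Filter.eventually_atTop.1 (((e1.and e2).and (e3.and e4)).and e5)
  refine ⟨K, C, n0, hKpos, ?_⟩
  intro n hn
  obtain ⟨⟨⟨f1, f2⟩, ⟨f3, f4⟩⟩, f5⟩ := hn0 n hn
  have hn4 : 4 ≤ n := by omega
  have hnK : 2 * K + 1 ≤ n := by omega
  have hnpos : (0 : ℝ) < n := by
    have : 0 < n := by omega
    exact_mod_cast this
  have hn1 : (1 : ℝ) ≤ n := by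
    have : 1 ≤ n := by omega
    exact_mod_cast this
  set X : ℝ := (n : ℝ) ^ (ε / 4) with hX
  have hXpos : 0 < X := by positivity
  set d : ℕ := ⌊X⌋₊ with hd
  have hdX : (d : ℝ) ≤ X := Nat.floor_le hXpos.le
  have hXd : X < d + 1 := Nat.lt_floor_add_one X
  set S1 : ℕ := ⌊(n : ℝ) ^ 2 / (512 * X ^ 2)⌋₊ with hS1
  have hS1le : (S1 : ℝ) ≤ (n : ℝ) ^ 2 / (512 * X ^ 2) := Nat.floor_le (by positivity)
  have hS1gt : (n : ℝ) ^ 2 / (512 * X ^ 2) < S1 + 1 := Nat.lt_floor_add_one _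
  set dd : ℕ := K + 2 * K * L with hdd
  have hddR : (dd : ℝ) = (K : ℝ) + 2 * K * L := by rw [hdd]; push_cast; ring
  have hdge : 2 * (dd : ℝ) + 1 < d := by rw [hddR]; linarith
  have hdge' : 2 * dd + 1 < d := by exact_mod_cast hdge
  have hX2 : X ^ 2 = (n : ℝ) ^ (ε / 2) := by
    rw [hX, ← Real.rpow_natCast, ← Real.rpow_mul hnpos.le]
    congr 1; push_cast; ring
  have hnX : (n : ℝ) ^ 2 / (512 * X ^ 2) = (n : ℝ) ^ (2 - ε / 2) / 512 := by
    rw [hX2, Real.rpow_sub hnpos, Real.rpow_two]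
    field_simp
  refine ⟨d, d - dd, S1, by omega, by omega, ?_, by omega, ?_, ?_, ?_, ?_⟩
  · -- H1
    have h1 : (2 * S1 * (16 * d) ^ 2 : ℝ) ≤ (n : ℝ) ^ 2 := by
      calc (2 * S1 * (16 * d) ^ 2 : ℝ) = 512 * (S1 : ℝ) * (d : ℝ) ^ 2 := by ring
        _ ≤ 512 * ((n : ℝ) ^ 2 / (512 * X ^ 2)) * X ^ 2 := by gcongr
        _ = (n : ℝ) ^ 2 := by field_simp
    exact_mod_cast h1
  · -- H3
    have hd2 : (d : ℝ) / 2 ≤ ((d - dd : ℕ) : ℝ) := by
      rw [Nat.cast_sub (by omega)]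
      linarith
    have hdX2 : X / 2 ≤ (d : ℝ) := by
      have : (1 : ℝ) ≤ d := by
        have : 1 ≤ d := by omega
        exact_mod_cast this
      linarith
    have hKR : (0 : ℝ) < K := by exact_mod_cast hKpos
    have hX8 : X = (n : ℝ) ^ (ε / 8) * (n : ℝ) ^ (ε / 8) := by
      rw [hX, ← Real.rpow_add hnpos]; congr 1; ring
    have hq : (n : ℝ) ^ (ε / 8) ≤ (d : ℝ) / (128 * K) := by
      rw [le_div_iff₀ (by positivity)]
      have hY : (0 : ℝ) < (n : ℝ) ^ (ε / 8) := by positivity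
      nlinarith
    have hpow : (n : ℝ) ^ 2 < ((n : ℝ) ^ (ε / 8)) ^ K := by
      rw [← Real.rpow_natCast ((n : ℝ) ^ (ε / 8)) K, ← Real.rpow_mul hnpos.le,
        ← Real.rpow_natCast (n : ℝ) 2]
      apply Real.rpow_lt_rpow_of_exponent_lt
      · have : (1 : ℝ) < 4 := by norm_num
        have h4 : (4 : ℝ) ≤ n := by exact_mod_cast hn4
        linarith
      · push_cast; linarith
    have h2 : (n : ℝ) ^ 2 * (2 * K * (16 * d)) ^ K < ((d - dd : ℕ) : ℝ) ^ (2 * K) := by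
      have hdpos : (0 : ℝ) < d := by linarith
      calc (n : ℝ) ^ 2 * (2 * K * (16 * d)) ^ K
          < ((n : ℝ) ^ (ε / 8)) ^ K * (2 * K * (16 * d)) ^ K := by gcongr
        _ ≤ ((d : ℝ) / (128 * K)) ^ K * (2 * K * (16 * d)) ^ K := by gcongr
        _ = ((d : ℝ) / 2) ^ (2 * K) := by
            rw [← mul_pow, pow_mul]
            congr 1
            field_simp
            ring
        _ ≤ ((d - dd : ℕ) : ℝ) ^ (2 * K) := by gcongr
    exact_mod_cast h2
  · -- H4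
    have h1 : (32 * n : ℝ) + 1 ≤ (n : ℝ) ^ 2 / (512 * X ^ 2) := by
      rw [hnX]
      have h2 : (n : ℝ) ^ (3 / 2 : ℝ) ≤ (n : ℝ) ^ (2 - ε / 2) := by
        apply Real.rpow_le_rpow_of_exponent_le hn1
        linarith
      have h3 : (n : ℝ) ^ (3 / 2 : ℝ) = n * (n : ℝ) ^ (1 / 2 : ℝ) := by
        have : (n : ℝ) * (n : ℝ) ^ (1 / 2 : ℝ) = (n : ℝ) ^ (1 : ℝ) * (n : ℝ) ^ (1 / 2 : ℝ) := by
          rw [Real.rpow_one]
        rw [this, ← Real.rpow_add hnpos]; norm_num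
      rw [le_div_iff₀ (by norm_num)]
      nlinarith
    have h2 : (32 * n : ℝ) < S1 := by linarith
    have h3 : 32 * n < S1 := by exact_mod_cast h2
    omega
  · -- S1 large
    have h1 : (n : ℝ) ^ (2 - ε) + 1 ≤ (n : ℝ) ^ 2 / (512 * X ^ 2) := by
      rw [hnX, le_div_iff₀ (by norm_num)]
      have h2 : (n : ℝ) ^ (2 - ε / 2) = (n : ℝ) ^ (2 - ε) * (n : ℝ) ^ (ε / 2) := by
        rw [← Real.rpow_add hnpos]; congr 1; ring
      have h3 : (1 : ℝ) ≤ (n : ℝ) ^ (2 - ε) := Real.one_le_rpow hn1 (by linarith)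
      rw [h2]
      nlinarith
    linarith
  · intro w hw
    have hlogn : 0 < Real.log n := Real.log_pos (by
      have h4 : (4 : ℝ) ≤ n := by exact_mod_cast hn4
      linarith)
    have hlog2 : 0 < Real.log 2 := Real.log_pos (by norm_num)
    have hlogn2 : 2 * Real.log 2 ≤ Real.log n := by
      have h4 : (4 : ℝ) ≤ n := by exact_mod_cast hn4
      have := Real.log_le_log (by norm_num) h4
      have h5 : Real.log 4 = 2 * Real.log 2 := by
        rw [show (4 : ℝ) = 2 ^ 2 by norm_num, Real.log_pow]; push_cast; ring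
      linarith
    have hwlog : (C : ℝ) * Real.log n ≤ w * Real.log 2 := by
      have : (C : ℝ) * Real.logb 2 n * Real.log 2 ≤ w * Real.log 2 :=
        mul_le_mul_of_nonneg_right hw hlog2.le
      rwa [mul_assoc, Real.logb, div_mul_cancel₀ _ hlog2.ne'] at this
    have hCR : (C : ℝ) = C0 + 3 := by rw [hC]; push_cast; ring
    have hC0pos : (0 : ℝ) ≤ C0 := by positivity
    have hw1 : 1 ≤ w := by
      rcases Nat.eq_zero_or_pos w with h | h
      · rw [h, hCR] at hwlog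
        push_cast at hwlog
        nlinarith
      · exact h
    have hlogw : Real.log ((2 ^ (w - 1) : ℕ) : ℝ) = (w : ℝ) * Real.log 2 - Real.log 2 := by
      push_cast
      rw [Real.log_pow, Nat.cast_sub hw1]
      push_cast; ring
    have hS1n : S1 ≤ n ^ 2 := by
      have hX1 : 1 ≤ X := by
        rw [hX]; exact Real.one_le_rpow hn1 (by positivity)
      have h1 : (S1 : ℝ) ≤ (n : ℝ) ^ 2 := by
        calc (S1 : ℝ) ≤ (n : ℝ) ^ 2 / (512 * X ^ 2) := hS1le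
          _ ≤ (n : ℝ) ^ 2 / 1 := by
              apply div_le_div_of_nonneg_left (by positivity) (by norm_num)
              nlinarith
          _ = (n : ℝ) ^ 2 := by ring
      exact_mod_cast h1
    have hn2w : n ^ 2 ≤ 2 ^ (w - 1) := by
      have h1 : Real.log ((n : ℝ) ^ 2) ≤ Real.log ((2 ^ (w - 1) : ℕ) : ℝ) := by
        rw [hlogw, Real.log_pow]
        push_cast
        nlinarith
      have h2 : ((n : ℝ) ^ 2) ≤ ((2 ^ (w - 1) : ℕ) : ℝ) :=
        (Real.log_le_log_iff (by positivity) (by positivity)).1 h1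
      exact_mod_cast h2
    refine ⟨hw1, le_trans hS1n hn2w, ?_⟩
    have hS1pos : 1 ≤ S1 := by
      rcases Nat.eq_zero_or_pos S1 with h | h
      · exfalso
        rw [h] at hS1gt
        have h1 : (1 : ℝ) ≤ (n : ℝ) ^ 2 / (512 * X ^ 2) := by
          rw [hnX, le_div_iff₀ (by norm_num)]
          have h2 : (n : ℝ) ^ (2 - ε / 2) = (n : ℝ) ^ (2 - ε) * (n : ℝ) ^ (ε / 2) := by
            rw [← Real.rpow_add hnpos]; congr 1; ring
          have h3 : (1 : ℝ) ≤ (n : ℝ) ^ (2 - ε) := Real.one_le_rpow hn1 (by linarith)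
          rw [h2]
          nlinarith
        push_cast at hS1gt
        linarith
      · exact h
    have hcfg := cfg_log_le n S1 K L hn4 hnK hS1n hS1pos
    have hlog2n : Real.log (2 * (n : ℝ) ^ 2) ≤ 3 * Real.log n := by
      rw [Real.log_mul (by norm_num) (by positivity), Real.log_pow]
      push_cast; linarith
    have hApos : 0 ≤ A := by positivity
    rw [hlogw]
    calc A * (Real.log ((2 * Fintype.card (Cfg n S1 K L) : ℕ) : ℝ) +
          Real.log (2 * (n : ℝ) ^ 2))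
        ≤ A * (Bc * Real.log n) := by
          apply mul_le_mul_of_nonneg_left _ hApos
          rw [hBc]; linarith
      _ = (A * Bc) * Real.log n := by ring
      _ < (w : ℝ) * Real.log 2 - Real.log 2 := by
          have h1 : (A * Bc + 1) * Real.log n < C0 * Real.log n := by
            exact mul_lt_mul_of_pos_right hC0 hlogn
          rw [hCR] at hwlog
          nlinarith

end H583T
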