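import Pool.Agent.H583R2.TSI.Core5

/-! Bound for the number of configurations. -/

namespace H583T
open Finset

theorem cfg_log_le (n S K L : ℕ) (hn4 : 4 ≤ n) (hnK : 2 * K + 1 ≤ n) (hS : S ≤ n ^ 2)
    (hS1 : 1 ≤ S) :
    Real.log ((2 * Fintype.card (Cfg n S K L) : ℕ) : ℝ) ≤
      (3 + (L : ℝ) * (8 * (K : ℝ) + 3)) * Real.log n := by
  have hnpos : (0 : ℝ) < n := by
    have : 0 < n := by omega
    exact_mod_cast this
  have h1 : 2 * Fintype.card (Cfg n S K L) ≤ n ^ (3 + L * (8 * K + 3)) := by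
    rw [cfg_card]
    have e1 : S ^ (2 * K + 1) ≤ (n ^ 2) ^ (2 * K + 1) := Nat.pow_le_pow_left hS _
    have e2 : (2 * K + 1) * ((n * n) ^ (2 * K) * S ^ (2 * K + 1)) ≤ n ^ (8 * K + 3) := by
      calc (2 * K + 1) * ((n * n) ^ (2 * K) * S ^ (2 * K + 1))
          ≤ n * ((n * n) ^ (2 * K) * (n ^ 2) ^ (2 * K + 1)) :=
            Nat.mul_le_mul hnK (Nat.mul_le_mul_left _ e1)
        _ = n ^ (8 * K + 3) := by ring
    have e3 : ((2 * K + 1) * ((n * n) ^ (2 * K) * S ^ (2 * K + 1))) ^ L ≤ n ^ (L * (8 * K + 3)) := by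
      calc _ ≤ (n ^ (8 * K + 3)) ^ L := Nat.pow_le_pow_left e2 L
        _ = n ^ (L * (8 * K + 3)) := by rw [← pow_mul, mul_comm]
    calc 2 * (2 * (S * ((2 * K + 1) * ((n * n) ^ (2 * K) * S ^ (2 * K + 1))) ^ L))
        = 4 * (S * ((2 * K + 1) * ((n * n) ^ (2 * K) * S ^ (2 * K + 1))) ^ L) := by ring
      _ ≤ n * (n ^ 2 * n ^ (L * (8 * K + 3))) := Nat.mul_le_mul hn4 (Nat.mul_le_mul hS e3)
      _ = n ^ (3 + L * (8 * K + 3)) := by rw [pow_add]; ring
  have hcpos : 0 < Fintype.card (Cfg n S K L) := by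
    rw [cfg_card]
    positivity
  have h2 : ((2 * Fintype.card (Cfg n S K L) : ℕ) : ℝ) ≤ (n : ℝ) ^ (3 + L * (8 * K + 3)) := by
    exact_mod_cast h1
  calc Real.log ((2 * Fintype.card (Cfg n S K L) : ℕ) : ℝ)
      ≤ Real.log ((n : ℝ) ^ (3 + L * (8 * K + 3))) := by
        apply Real.log_le_log _ h2
        have : 0 < 2 * Fintype.card (Cfg n S K L) := by omega
        exact_mod_cast this
    _ = (3 + (L : ℝ) * (8 * (K : ℝ) + 3)) * Real.log n := by
        rw [Real.log_pow]; push_cast; ring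

end H583T
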