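import Pool.Agent.H583R2.TSI.Defs

namespace H583T
open Finset

theorem cs_upd_sum {n M : ℕ} (j : Fin n) (g : (Fin n → Fin M) → ℕ) :
    ∑ b : Fin n → Fin M, ∑ x : Fin M, g (Function.update b j x) = M * ∑ b, g b := by
  have e : (∑ q : (Fin n → Fin M) × Fin M, g (Function.update q.1 j q.2)) =
      ∑ q : (Fin n → Fin M) × Fin M, g q.1 := by
    let E : ((Fin n → Fin M) × Fin M) ≃ ((Fin n → Fin M) × Fin M) :=
      { toFun := fun q => (Function.update q.1 j q.2, q.1 j)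
        invFun := fun q => (Function.update q.1 j q.2, q.1 j)
        left_inv := by
          rintro ⟨b, x⟩
          simp
        right_inv := by
          rintro ⟨b, x⟩
          simp }
    have := Equiv.sum_comp E (fun q => g q.1)
    simpa [E] using this
  rw [Fintype.sum_prod_type, Fintype.sum_prod_type] at e
  rw [e]
  simp [Finset.mul_sum]

theorem cs_fix_row {n M B : ℕ} (p : ℕ → ℕ)
    (hB : ∀ c, ((Finset.range (2 * M)).filter (fun z => p z = c)).card ≤ B)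
    (y : ℕ) (hy : y < M) (c : ℕ) :
    ∑ x : Fin M, (if p (y + (x : ℕ)) = c then 1 else 0) ≤ B := by
  rw [← Finset.card_filter]
  refine le_trans ?_ (hB c)
  refine Finset.card_le_card_of_injOn (fun x : Fin M => y + (x : ℕ)) ?_ ?_
  · intro x hx
    simp only [Finset.coe_filter, Finset.mem_univ, true_and, Set.mem_setOf_eq] at hx
    simp only [Finset.coe_filter, Finset.mem_range, Set.mem_setOf_eq]
    exact ⟨by have := x.2; omega, hx⟩
  · intro x _ x' _ h
    apply Fin.ext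
    have : y + (x : ℕ) = y + (x' : ℕ) := h
    omega

/-- second coordinate conflicts -/
theorem cs_two {n M B : ℕ} (p : ℕ → ℕ)
    (hB : ∀ c, ((Finset.range (2 * M)).filter (fun z => p z = c)).card ≤ B)
    (i j j' : Fin n) (hj : j' ≠ j) :
    M * ∑ ω : (Fin n → Fin M) × (Fin n → Fin M),
      (if p ((ω.1 i : ℕ) + (ω.2 j' : ℕ)) = p ((ω.1 i : ℕ) + (ω.2 j : ℕ)) then 1 else 0) ≤
      B * (M ^ n * M ^ n) := by
  rw [Fintype.sum_prod_type, Finset.mul_sum]
  have h : ∀ a : Fin n → Fin M, M * ∑ b : Fin n → Fin M,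
      (if p ((a i : ℕ) + (b j' : ℕ)) = p ((a i : ℕ) + (b j : ℕ)) then 1 else 0) ≤ B * M ^ n := by
    intro a
    rw [← cs_upd_sum j']
    have h2 : ∀ b : Fin n → Fin M, ∑ x : Fin M,
        (if p ((a i : ℕ) + (Function.update b j' x j' : ℕ)) =
          p ((a i : ℕ) + (Function.update b j' x j : ℕ)) then 1 else 0) ≤ B := by
      intro b
      have h3 := cs_fix_row (n := n) p hB (a i : ℕ) (a i).2 (p ((a i : ℕ) + (b j : ℕ)))
      simpa [Function.update_of_ne hj.symm] using h3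
    refine le_trans (Finset.sum_le_sum fun b _ => h2 b) ?_
    simp [mul_comm]
  refine le_trans (Finset.sum_le_sum fun a _ => h a) ?_
  simp
  nlinarith [Nat.zero_le 1]

/-- first coordinate conflicts -/
theorem cs_one {n M B : ℕ} (p : ℕ → ℕ)
    (hB : ∀ c, ((Finset.range (2 * M)).filter (fun z => p z = c)).card ≤ B)
    (i i' j : Fin n) (hi : i' ≠ i) :
    M * ∑ ω : (Fin n → Fin M) × (Fin n → Fin M),
      (if p ((ω.1 i' : ℕ) + (ω.2 j : ℕ)) = p ((ω.1 i : ℕ) + (ω.2 j : ℕ)) then 1 else 0) ≤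
      B * (M ^ n * M ^ n) := by
  have h := cs_two (M := M) p hB j i i' hi
  have e : (∑ ω : (Fin n → Fin M) × (Fin n → Fin M),
      (if p ((ω.1 i' : ℕ) + (ω.2 j : ℕ)) = p ((ω.1 i : ℕ) + (ω.2 j : ℕ)) then 1 else 0)) =
      ∑ ω : (Fin n → Fin M) × (Fin n → Fin M),
      (if p ((ω.1 j : ℕ) + (ω.2 i' : ℕ)) = p ((ω.1 j : ℕ) + (ω.2 i : ℕ)) then 1 else 0) := by
    rw [← Equiv.sum_comp (Equiv.prodComm (Fin n → Fin M) (Fin n → Fin M))]
    refine Finset.sum_congr rfl fun ω _ => ?_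
    simp [add_comm]
  rw [e]
  exact h

theorem cs_conf_le {n M : ℕ} (p : ℕ → ℕ) (ω : (Fin n → Fin M) × (Fin n → Fin M)) :
    (conf p ω).card ≤
      (∑ i : Fin n, ∑ j : Fin n, ∑ j' : Fin n,
        if j' ≠ j then (if p ((ω.1 i : ℕ) + (ω.2 j' : ℕ)) = p ((ω.1 i : ℕ) + (ω.2 j : ℕ))
          then 1 else 0) else 0) +
      ∑ i : Fin n, ∑ j : Fin n, ∑ i' : Fin n,
        if i' ≠ i then (if p ((ω.1 i' : ℕ) + (ω.2 j : ℕ)) = p ((ω.1 i : ℕ) + (ω.2 j : ℕ))
          then 1 else 0) else 0 := by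
  classical
  unfold conf
  rw [Finset.filter_or]
  refine le_trans (Finset.card_union_le _ _) (add_le_add ?_ ?_)
  · rw [Finset.card_filter, Fintype.sum_prod_type]
    refine Finset.sum_le_sum fun i _ => Finset.sum_le_sum fun j _ => ?_
    split_ifs with h
    · obtain ⟨j', hj', hp⟩ := h
      refine le_trans ?_ (Finset.single_le_sum (fun x _ => Nat.zero_le _) (Finset.mem_univ j'))
      simp only at hj' hp
      simp [hj', hp]
    · exact Nat.zero_le _
  · rw [Finset.card_filter, Fintype.sum_prod_type]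
    refine Finset.sum_le_sum fun i _ => Finset.sum_le_sum fun j _ => ?_
    split_ifs with h
    · obtain ⟨j', hj', hp⟩ := h
      refine le_trans ?_ (Finset.single_le_sum (fun x _ => Nat.zero_le _) (Finset.mem_univ j'))
      simp only at hj' hp
      simp [hj', hp]
    · exact Nat.zero_le _

theorem conflict_sum (n M B : ℕ) (p : ℕ → ℕ)
    (hB : ∀ c, ((Finset.range (2 * M)).filter (fun z => p z = c)).card ≤ B) :
    M * ∑ ω : (Fin n → Fin M) × (Fin n → Fin M), (conf p ω).card ≤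
      2 * n ^ 3 * B * (M ^ n * M ^ n) := by
  have h1 : M * ∑ ω : (Fin n → Fin M) × (Fin n → Fin M), (conf p ω).card ≤
      M * ∑ ω : (Fin n → Fin M) × (Fin n → Fin M),
      ((∑ i : Fin n, ∑ j : Fin n, ∑ j' : Fin n,
        if j' ≠ j then (if p ((ω.1 i : ℕ) + (ω.2 j' : ℕ)) = p ((ω.1 i : ℕ) + (ω.2 j : ℕ))
          then 1 else 0) else 0) +
      ∑ i : Fin n, ∑ j : Fin n, ∑ i' : Fin n,
        if i' ≠ i then (if p ((ω.1 i' : ℕ) + (ω.2 j : ℕ)) = p ((ω.1 i : ℕ) + (ω.2 j : ℕ))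
          then 1 else 0) else 0) :=
    Nat.mul_le_mul_left _ (Finset.sum_le_sum fun ω _ => cs_conf_le p ω)
  refine le_trans h1 ?_
  rw [Finset.sum_add_distrib, mul_add]
  have hA : M * ∑ ω : (Fin n → Fin M) × (Fin n → Fin M),
      (∑ i : Fin n, ∑ j : Fin n, ∑ j' : Fin n,
        if j' ≠ j then (if p ((ω.1 i : ℕ) + (ω.2 j' : ℕ)) = p ((ω.1 i : ℕ) + (ω.2 j : ℕ))
          then 1 else 0) else 0) ≤ n ^ 3 * (B * (M ^ n * M ^ n)) := by
    have e : M * ∑ ω : (Fin n → Fin M) × (Fin n → Fin M),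
      (∑ i : Fin n, ∑ j : Fin n, ∑ j' : Fin n,
        if j' ≠ j then (if p ((ω.1 i : ℕ) + (ω.2 j' : ℕ)) = p ((ω.1 i : ℕ) + (ω.2 j : ℕ))
          then 1 else 0) else 0) = ∑ i : Fin n, ∑ j : Fin n, ∑ j' : Fin n,
        (M * ∑ ω : (Fin n → Fin M) × (Fin n → Fin M),
        if j' ≠ j then (if p ((ω.1 i : ℕ) + (ω.2 j' : ℕ)) = p ((ω.1 i : ℕ) + (ω.2 j : ℕ))
          then 1 else 0) else 0) := by
      rw [Finset.sum_comm, Finset.mul_sum]
      refine Finset.sum_congr rfl fun i _ => ?_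
      rw [Finset.sum_comm, Finset.mul_sum]
      refine Finset.sum_congr rfl fun j _ => ?_
      rw [Finset.sum_comm, Finset.mul_sum]
    rw [e]
    have h : ∀ i j j' : Fin n, (M * ∑ ω : (Fin n → Fin M) × (Fin n → Fin M),
        if j' ≠ j then (if p ((ω.1 i : ℕ) + (ω.2 j' : ℕ)) = p ((ω.1 i : ℕ) + (ω.2 j : ℕ))
          then 1 else 0) else 0) ≤ B * (M ^ n * M ^ n) := by
      intro i j j'
      by_cases hj : j' ≠ j
      · simp only [hj, if_true, ne_eq, not_false_eq_true]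
        exact cs_two p hB i j j' hj
      · simp [hj]
    refine le_trans (Finset.sum_le_sum fun i _ => Finset.sum_le_sum fun j _ =>
      Finset.sum_le_sum fun j' _ => h i j j') ?_
    simp
    ring_nf
    exact le_rfl
  have hA' : M * ∑ ω : (Fin n → Fin M) × (Fin n → Fin M),
      (∑ i : Fin n, ∑ j : Fin n, ∑ i' : Fin n,
        if i' ≠ i then (if p ((ω.1 i' : ℕ) + (ω.2 j : ℕ)) = p ((ω.1 i : ℕ) + (ω.2 j : ℕ))
          then 1 else 0) else 0) ≤ n ^ 3 * (B * (M ^ n * M ^ n)) := by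
    have e : M * ∑ ω : (Fin n → Fin M) × (Fin n → Fin M),
      (∑ i : Fin n, ∑ j : Fin n, ∑ i' : Fin n,
        if i' ≠ i then (if p ((ω.1 i' : ℕ) + (ω.2 j : ℕ)) = p ((ω.1 i : ℕ) + (ω.2 j : ℕ))
          then 1 else 0) else 0) = ∑ i : Fin n, ∑ j : Fin n, ∑ i' : Fin n,
        (M * ∑ ω : (Fin n → Fin M) × (Fin n → Fin M),
        if i' ≠ i then (if p ((ω.1 i' : ℕ) + (ω.2 j : ℕ)) = p ((ω.1 i : ℕ) + (ω.2 j : ℕ))
          then 1 else 0) else 0) := by
      rw [Finset.sum_comm, Finset.mul_sum]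
      refine Finset.sum_congr rfl fun i _ => ?_
      rw [Finset.sum_comm, Finset.mul_sum]
      refine Finset.sum_congr rfl fun j _ => ?_
      rw [Finset.sum_comm, Finset.mul_sum]
    rw [e]
    have h : ∀ i j i' : Fin n, (M * ∑ ω : (Fin n → Fin M) × (Fin n → Fin M),
        if i' ≠ i then (if p ((ω.1 i' : ℕ) + (ω.2 j : ℕ)) = p ((ω.1 i : ℕ) + (ω.2 j : ℕ))
          then 1 else 0) else 0) ≤ B * (M ^ n * M ^ n) := by
      intro i j i'
      by_cases hj : i' ≠ i
      · simp only [hj, if_true, ne_eq, not_false_eq_true]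
        exact cs_one p hB i i' j hj
      · simp [hj]
    refine le_trans (Finset.sum_le_sum fun i _ => Finset.sum_le_sum fun j _ =>
      Finset.sum_le_sum fun j' _ => h i j j') ?_
    simp
    ring_nf
    exact le_rfl
  have : 2 * n ^ 3 * B * (M ^ n * M ^ n) =
    n ^ 3 * (B * (M ^ n * M ^ n)) + n ^ 3 * (B * (M ^ n * M ^ n)) := by ring
  rw [this]
  exact add_le_add hA hA'

end H583T
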