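import Pool.Agent.H583R2.TSI.Refine

namespace H583T
open Finset

theorem extract_ramsey {n : ℕ} (X : Finset (Fin n × Fin n)) (mu : ℕ) (hmu : 1 ≤ mu)
    (hX : X.card ≤ mu ^ 2) :
    ∃ (X' : Finset (Fin n × Fin n)) (ty : Bool), X' ⊆ X ∧ X.card ≤ mu * X'.card ∧
      X'.card ≤ mu ∧ ∀ e ∈ X', ∀ e' ∈ X', lb ty e = lb ty e' → e = e' := by
  classical
  by_cases h : X.card ≤ mu * (X.image Prod.snd).card
  · -- one representative per column
    have hch : ∀ b : Fin n, ∃ e : Fin n × Fin n, b ∈ X.image Prod.snd → e ∈ X ∧ e.2 = b := by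
      intro b
      by_cases hb : b ∈ X.image Prod.snd
      · obtain ⟨e, he, heb⟩ := Finset.mem_image.1 hb
        exact ⟨e, fun _ => ⟨he, heb⟩⟩
      · exact ⟨(b, b), fun h => absurd h hb⟩
    choose g hg using hch
    obtain ⟨Y, hY, hYc⟩ := Finset.exists_subset_card_eq
      (show min (X.image Prod.snd).card mu ≤ (X.image Prod.snd).card from min_le_left _ _)
    refine ⟨Y.image g, true, ?_, ?_, ?_, ?_⟩
    · intro e he
      obtain ⟨b, hb, rfl⟩ := Finset.mem_image.1 he
      exact (hg b (hY hb)).1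
    · have hinj : (Y.image g).card = Y.card := by
        apply Finset.card_image_of_injOn
        intro a ha b hb hab
        have h1 := (hg a (hY ha)).2
        have h2 := (hg b (hY hb)).2
        rw [← h1, ← h2]
        exact congrArg Prod.snd hab
      rw [hinj, hYc]
      rcases le_total (X.image Prod.snd).card mu with h1 | h1
      · rw [min_eq_left h1]; exact h
      · rw [min_eq_right h1]; nlinarith
    · refine le_trans Finset.card_image_le ?_
      rw [hYc]
      exact min_le_right _ _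
    · intro e he e' he' hee
      obtain ⟨b, hb, rfl⟩ := Finset.mem_image.1 he
      obtain ⟨b', hb', rfl⟩ := Finset.mem_image.1 he'
      have h1 := (hg b (hY hb)).2
      have h2 := (hg b' (hY hb')).2
      simp only [lb, if_true] at hee
      rw [h1, h2] at hee
      rw [hee]
  · push Not at h
    have hmaps : ∀ a ∈ X, Prod.snd a ∈ X.image Prod.snd := fun a ha => Finset.mem_image_of_mem _ ha
    have hlt : (X.image Prod.snd).card * mu < X.card := by rw [mul_comm]; exact h
    obtain ⟨b, _, hb⟩ := Finset.exists_lt_card_fiber_of_mul_lt_card_of_maps_to hmaps hlt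
    obtain ⟨X', hX', hX'c⟩ := Finset.exists_subset_card_eq (le_of_lt hb)
    refine ⟨X', false, ?_, ?_, ?_, ?_⟩
    · exact fun e he => (Finset.mem_filter.1 (hX' he)).1
    · rw [hX'c]; nlinarith
    · exact le_of_eq hX'c
    · intro e he e' he' hee
      have h1 := (Finset.mem_filter.1 (hX' he)).2
      have h2 := (Finset.mem_filter.1 (hX' he')).2
      simp only [lb, Bool.false_eq_true, if_false] at hee
      exact Prod.ext hee (h1.trans h2.symm)

theorem extract_prune {α : Type} [DecidableEq α] (d : ℕ) (E3 : Finset α) (c v : α → ℕ)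
    (h : d * ((E3.image c).card + (E3.image v).card) < E3.card) :
    ∃ E4 ⊆ E3, E4.Nonempty ∧
      (∀ e ∈ E4, d ≤ (E4.filter (fun e' => c e' = c e)).card) ∧
      (∀ e ∈ E4, d ≤ (E4.filter (fun e' => v e' = v e)).card) := by
  classical
  let f : Finset α → ℤ := fun E => (E.card : ℤ) - d * ((E.image c).card + (E.image v).card)
  obtain ⟨E4, hE4, hmax⟩ := Finset.exists_max_image E3.powerset f ⟨E3, Finset.mem_powerset_self _⟩
  rw [Finset.mem_powerset] at hE4
  have key : ∀ (p q : α → ℕ), (∀ E : Finset α, f E = (E.card : ℤ) - d * ((E.image p).card + (E.image q).card)) →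
      ∀ e ∈ E4, d ≤ (E4.filter (fun e' => p e' = p e)).card := by
    intro p q hpq e he
    by_contra hcon
    push Not at hcon
    have h1 := hmax (E4.filter (fun e' => ¬ p e' = p e))
      (Finset.mem_powerset.2 ((Finset.filter_subset _ _).trans hE4))
    rw [hpq, hpq] at h1
    have h2 : (E4.filter (fun e' => p e' = p e)).card +
        (E4.filter (fun e' => ¬ p e' = p e)).card = E4.card :=
      Finset.card_filter_add_card_filter_not _
    have h3 : ((E4.filter (fun e' => ¬ p e' = p e)).image p).card + 1 ≤ (E4.image p).card := by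
      have h4 : (E4.filter (fun e' => ¬ p e' = p e)).image p ⊆ (E4.image p).erase (p e) := by
        intro x hx
        obtain ⟨y, hy, rfl⟩ := Finset.mem_image.1 hx
        rw [Finset.mem_filter] at hy
        exact Finset.mem_erase.2 ⟨hy.2, Finset.mem_image_of_mem _ hy.1⟩
      have h5 := Finset.card_le_card h4
      have h6 := Finset.card_erase_add_one (Finset.mem_image_of_mem p he)
      omega
    have h4 : ((E4.filter (fun e' => ¬ p e' = p e)).image q).card ≤ (E4.image q).card :=
      Finset.card_le_card (Finset.image_subset_image (Finset.filter_subset _ _))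
    have h5 : (d : ℤ) * ((((E4.filter (fun e' => ¬ p e' = p e)).image p).card : ℤ) +
        (((E4.filter (fun e' => ¬ p e' = p e)).image q).card : ℤ)) + d ≤
        d * (((E4.image p).card : ℤ) + ((E4.image q).card : ℤ)) := by
      have : (((E4.filter (fun e' => ¬ p e' = p e)).image p).card : ℤ) +
        (((E4.filter (fun e' => ¬ p e' = p e)).image q).card : ℤ) + 1 ≤
        ((E4.image p).card : ℤ) + ((E4.image q).card : ℤ) := by exact_mod_cast (by omega)
      nlinarith
    have h6 : ((E4.filter (fun e' => p e' = p e)).card : ℤ) +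
        ((E4.filter (fun e' => ¬ p e' = p e)).card : ℤ) = E4.card := by exact_mod_cast h2
    have h7 : ((E4.filter (fun e' => p e' = p e)).card : ℤ) < d := by exact_mod_cast hcon
    linarith
  refine ⟨E4, hE4, ?_, ?_, ?_⟩
  · by_contra hne
    rw [Finset.not_nonempty_iff_eq_empty] at hne
    have h1 := hmax E3 (Finset.mem_powerset_self _)
    have h2 : (0 : ℤ) < f E3 := by
      have : (d : ℤ) * (((E3.image c).card : ℤ) + ((E3.image v).card : ℤ)) < E3.card := by
        exact_mod_cast h
      simp only [f]; linarith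
    have h3 : f E4 = 0 := by simp [f, hne]
    linarith
  · exact key c v (fun E => rfl)
  · exact key v c (fun E => by simp only [f]; ring)

theorem extract {n : ℕ} (mu d S Q : ℕ) (E1 : Finset (Fin n × Fin n)) (c v : Fin n × Fin n → ℕ)
    (hc : ∀ e ∈ E1, ∀ e' ∈ E1, c e = c e' → (e.1 = e'.1 ∨ e.2 = e'.2) → e = e')
    (hcQ : (E1.image c).card ≤ Q) (hvS : (E1.image v).card ≤ S)
    (hmu : mu = 16 * d) (hd : 1 ≤ d) (hsize : (Q + S) * mu ^ 2 ≤ 3 * E1.card)
    (hne : E1.Nonempty) :
    ∃ (E4 : Finset (Fin n × Fin n)) (c4 v4 : Fin n × Fin n → ℕ) (ty : Bool),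
      E4 ⊆ E1 ∧ E4.Nonempty ∧
      (∀ e ∈ E4, ∀ e' ∈ E4, c4 e = c4 e' → c e = c e') ∧
      (∀ e ∈ E4, ∀ e' ∈ E4, v4 e = v4 e' → v e = v e') ∧
      (∀ e ∈ E4, ∀ e' ∈ E4, c4 e = c4 e' → lb ty e = lb ty e' → e = e') ∧
      (∀ e ∈ E4, ∀ e' ∈ E4, v4 e = v4 e' → lb ty e = lb ty e' → e = e') ∧
      (∀ e ∈ E4, d ≤ (E4.filter (fun e' => c4 e' = c4 e)).card) ∧
      (∀ e ∈ E4, d ≤ (E4.filter (fun e' => v4 e' = v4 e)).card) ∧
      (∀ e ∈ E4, (E4.filter (fun e' => c4 e' = c4 e)).card ≤ mu) ∧
      (∀ e ∈ E4, (E4.filter (fun e' => v4 e' = v4 e)).card ≤ mu) := by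
  classical
  have hmu1 : 1 ≤ mu := by omega
  obtain ⟨v', hv1, hv2, hv3⟩ := refine_part v E1 (mu ^ 2) (Nat.one_le_pow _ _ hmu1)
  -- selection inside every class
  have hsel : ∀ w : ℕ, ∃ (X' : Finset (Fin n × Fin n)) (ty : Bool),
      X' ⊆ E1.filter (fun e => v' e = w) ∧ (E1.filter (fun e => v' e = w)).card ≤ mu * X'.card ∧
      X'.card ≤ mu ∧ ∀ e ∈ X', ∀ e' ∈ X', lb ty e = lb ty e' → e = e' := by
    intro w
    apply extract_ramsey _ mu hmu1
    by_cases hw : ∃ e ∈ E1, v' e = w
    · obtain ⟨e, he, rfl⟩ := hw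
      exact hv2 e he
    · push Not at hw
      rw [Finset.filter_eq_empty_iff.2 (fun e he => hw e he)]
      simp
  choose sel tyf hs1 hs2 hs3 hs4 using hsel
  let E3 : Bool → Finset (Fin n × Fin n) := fun ty =>
    E1.filter (fun e => e ∈ sel (v' e) ∧ tyf (v' e) = ty)
  have hE3sub : ∀ ty, E3 ty ⊆ E1 := fun ty => Finset.filter_subset _ _
  -- counting
  have hcount : E1.card ≤ mu * ((E3 true).card + (E3 false).card) := by
    have h1 : E1.card = ∑ w ∈ E1.image v', (E1.filter (fun e => v' e = w)).card :=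
      Finset.card_eq_sum_card_image v' E1
    have h2 : ∀ ty, (E3 ty).card = ∑ w ∈ E1.image v', ((E3 ty).filter (fun e => v' e = w)).card := by
      intro ty
      apply Finset.card_eq_sum_card_fiberwise
      intro e he
      exact Finset.mem_coe.2 (Finset.mem_image_of_mem _ (hE3sub ty he))
    have h3 : ∀ w, (sel w).card ≤ ((E3 true).filter (fun e => v' e = w)).card +
        ((E3 false).filter (fun e => v' e = w)).card := by
      intro w
      have h4 : ∀ ty, tyf w = ty → sel w ⊆ (E3 ty).filter (fun e => v' e = w) := by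
        intro ty hty e he
        have h5 := Finset.mem_filter.1 (hs1 w he)
        refine Finset.mem_filter.2 ⟨Finset.mem_filter.2 ⟨h5.1, ?_, ?_⟩, h5.2⟩
        · rw [h5.2]; exact he
        · rw [h5.2]; exact hty
      rcases htw : tyf w with _ | _
      · exact le_trans (Finset.card_le_card (h4 false htw)) (Nat.le_add_left _ _)
      · exact le_trans (Finset.card_le_card (h4 true htw)) (Nat.le_add_right _ _)
    rw [h1, h2 true, h2 false, ← Finset.sum_add_distrib, Finset.mul_sum]
    apply Finset.sum_le_sum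
    intro w _
    exact le_trans (hs2 w) (Nat.mul_le_mul_left _ (h3 w))
  obtain ⟨ty, hty⟩ : ∃ ty, E1.card ≤ 2 * mu * (E3 ty).card := by
    rcases le_total (E3 true).card (E3 false).card with h | h
    · exact ⟨false, by nlinarith⟩
    · exact ⟨true, by nlinarith⟩
  have hE1pos : 0 < E1.card := Finset.card_pos.2 hne
  have hE3pos : 0 < (E3 ty).card := by
    rcases Nat.eq_zero_or_pos (E3 ty).card with h | h
    · rw [h] at hty; omega
    · exact h
  obtain ⟨c4, hc1, hc2, hc3⟩ := refine_part c (E3 ty) mu hmu1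
  -- numbers of classes
  have hqR : ((E3 ty).image v').card ≤ S + E1.card / mu ^ 2 :=
    le_trans (Finset.card_le_card (Finset.image_subset_image (hE3sub ty)))
      (le_trans hv3 (Nat.add_le_add_right hvS _))
  have hqL : ((E3 ty).image c4).card ≤ Q + (E3 ty).card / mu :=
    le_trans hc3 (Nat.add_le_add_right
      (le_trans (Finset.card_le_card (Finset.image_subset_image (hE3sub ty))) hcQ) _)
  have hnum : d * (((E3 ty).image c4).card + ((E3 ty).image v').card) < (E3 ty).card := by
    set q1 := ((E3 ty).image c4).card with hq1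
    set q2 := ((E3 ty).image v').card with hq2
    set e1 := E1.card with he1
    set e3 := (E3 ty).card with he3
    have h1 : mu ^ 2 * (e1 / mu ^ 2) ≤ e1 := Nat.mul_div_le _ _
    have h2 : mu * (e3 / mu) ≤ e3 := Nat.mul_div_le _ _
    have h3 : mu ^ 2 * q2 ≤ mu ^ 2 * S + e1 := by
      calc mu ^ 2 * q2 ≤ mu ^ 2 * (S + e1 / mu ^ 2) := Nat.mul_le_mul_left _ hqR
        _ = mu ^ 2 * S + mu ^ 2 * (e1 / mu ^ 2) := by ring
        _ ≤ mu ^ 2 * S + e1 := by omega
    have h4 : mu ^ 2 * q1 ≤ mu ^ 2 * Q + mu * e3 := by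
      calc mu ^ 2 * q1 ≤ mu ^ 2 * (Q + e3 / mu) := Nat.mul_le_mul_left _ hqL
        _ = mu ^ 2 * Q + mu * (mu * (e3 / mu)) := by ring
        _ ≤ mu ^ 2 * Q + mu * e3 := Nat.add_le_add_left (Nat.mul_le_mul_left _ h2) _
    have h5 : mu * (mu * (q1 + q2)) ≤ mu * (9 * e3) := by
      have h6 : mu * (mu * (q1 + q2)) = mu ^ 2 * q1 + mu ^ 2 * q2 := by ring
      have h7 : (Q + S) * mu ^ 2 = mu ^ 2 * Q + mu ^ 2 * S := by ring
      have h8 : 2 * mu * e3 = 2 * (mu * e3) := by ring
      have h9 : mu * (9 * e3) = 9 * (mu * e3) := by ring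
      rw [h6, h9]
      rw [h7] at hsize
      rw [h8] at hty
      omega
    have h6 : mu * (q1 + q2) ≤ 9 * e3 := Nat.le_of_mul_le_mul_left h5 (by omega)
    rw [hmu] at h6
    have h7 : 16 * d * (q1 + q2) = 16 * (d * (q1 + q2)) := by ring
    rw [h7] at h6
    omega
  obtain ⟨E4, hE4, hE4ne, hd1, hd2⟩ := extract_prune d (E3 ty) c4 v' hnum
  have hE41 : E4 ⊆ E1 := hE4.trans (hE3sub ty)
  refine ⟨E4, c4, v', ty, hE41, hE4ne, ?_, ?_, ?_, ?_, hd1, hd2, ?_, ?_⟩
  · exact fun e he e' he' h => hc1 e (hE4 he) e' (hE4 he') h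
  · exact fun e he e' he' h => hv1 e (hE41 he) e' (hE41 he') h
  · intro e he e' he' h hl
    apply hc e (hE41 he) e' (hE41 he') (hc1 e (hE4 he) e' (hE4 he') h)
    cases ty
    · left; simpa [lb] using hl
    · right; simpa [lb] using hl
  · intro e he e' he' h hl
    have h1 := Finset.mem_filter.1 (hE4 he)
    have h2 := Finset.mem_filter.1 (hE4 he')
    have h3 := h1.2.2
    refine hs4 (v' e) e h1.2.1 e' ?_ ?_
    · rw [h]; exact h2.2.1
    · rw [h3]; exact hl
  · intro e he
    exact le_trans (Finset.card_le_card (Finset.filter_subset_filter _ hE4)) (hc2 e (hE4 he))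
  · intro e he
    refine le_trans (Finset.card_le_card ?_) (hs3 (v' e))
    intro e' he'
    rw [Finset.mem_filter] at he'
    have h2 := Finset.mem_filter.1 (hE4 he'.1)
    rw [← he'.2]
    exact h2.2.1

end H583T
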