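import Pool.Agent.H583R2.TSI.Defs

/-! T2: the polymatroid lemma. -/

namespace H583T
open Finset

section PM
variable {ι Λ : Type} [DecidableEq ι] [DecidableEq Λ] {h : Finset ι → ℝ}

/-- diminishing returns -/
lemma PM_dr (hp : Polym h) (B : Finset ι) {U V : Finset ι} (hUV : U ⊆ V) :
    h (B ∪ V) + h U ≤ h (B ∪ U) + h V := by
  have h1 := hp.submod (B ∪ U) V
  have h2 : B ∪ U ∪ V = B ∪ V := by
    rw [Finset.union_assoc, Finset.union_eq_right.mpr hUV]
  have h3 : h U ≤ h ((B ∪ U) ∩ V) :=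
    hp.mono _ _ (Finset.subset_inter Finset.subset_union_right hUV)
  rw [h2] at h1
  linarith

lemma PM_sub (hp : Polym h) (A B : Finset ι) : h (A ∪ B) ≤ h A + h B := by
  have h1 := PM_dr hp A (Finset.empty_subset B)
  rw [hp.empty, Finset.union_empty] at h1
  linarith

lemma PM_mono (hp : Polym h) {A B : Finset ι} (hAB : A ⊆ B) : h A ≤ h B := hp.mono _ _ hAB

/-- the `x`-image of the labels at positions `[a, b)` -/
def PM_Z (x : Λ → ι) (y : ℕ → Λ) (a b : ℕ) : Finset ι := ((Finset.Ico a b).image y).image x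

lemma PM_Z_split (x : Λ → ι) (y : ℕ → Λ) {a p b : ℕ} (h1 : a ≤ p) (h2 : p < b) :
    PM_Z x y a b = insert (x (y p)) (PM_Z x y a p ∪ PM_Z x y (p + 1) b) := by
  unfold PM_Z
  ext z
  simp only [Finset.mem_image, Finset.mem_Ico, Finset.mem_insert, Finset.mem_union]
  constructor
  · rintro ⟨w, ⟨t, ht, rfl⟩, rfl⟩
    rcases lt_trichotomy t p with h | h | h
    · exact Or.inr (Or.inl ⟨_, ⟨t, ⟨ht.1, h⟩, rfl⟩, rfl⟩)
    · left; rw [h]
    · exact Or.inr (Or.inr ⟨_, ⟨t, ⟨h, ht.2⟩, rfl⟩, rfl⟩)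
  · rintro (h | ⟨w, ⟨t, ht, rfl⟩, rfl⟩ | ⟨w, ⟨t, ht, rfl⟩, rfl⟩)
    · exact ⟨_, ⟨p, ⟨h1, h2⟩, rfl⟩, h.symm⟩
    · exact ⟨_, ⟨t, ⟨ht.1, by omega⟩, rfl⟩, rfl⟩
    · exact ⟨_, ⟨t, ⟨by omega, ht.2⟩, rfl⟩, rfl⟩

lemma PM_unique_bound (x : Λ → ι) (lam η : ℝ)
    (P1 : ∀ (y : Λ) (T : Finset Λ), y ∉ T →
      lam - η ≤ h (insert (x y) (T.image x)) - h (T.image x))
    (y : ℕ → Λ) {a p b : ℕ} (_h1 : a ≤ p) (_h2 : p < b)
    (hu : ∀ p', a ≤ p' → p' < b → y p' = y p → p' = p) :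
    lam - η ≤ h (insert (x (y p)) (PM_Z x y a p ∪ PM_Z x y (p + 1) b)) -
      h (PM_Z x y a p ∪ PM_Z x y (p + 1) b) := by
  have h3 := P1 (y p) ((Finset.Ico a p).image y ∪ (Finset.Ico (p + 1) b).image y) (by
    simp only [Finset.mem_union, Finset.mem_image, Finset.mem_Ico, not_or, not_exists, not_and]
    refine ⟨fun t ht he => ?_, fun t ht he => ?_⟩
    · have := hu t ht.1 (by omega) he
      omega
    · have := hu t (by omega) ht.2 he
      omega)
  rw [Finset.image_union] at h3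
  exact h3

/-- one walk -/
lemma PM_walk (hp : Polym h) (x : Λ → ι) (lam η : ℝ) (hη : 0 ≤ η)
    (P1 : ∀ (y : Λ) (T : Finset Λ), y ∉ T →
      lam - η ≤ h (insert (x y) (T.image x)) - h (T.image x))
    (y : ℕ → Λ) (r : ℕ → ι) (n : ℕ) :
    ∀ (a b : ℕ) (θ : ℝ), a ≤ b → b - a = n → 0 ≤ θ → NoTight y a b →
      (∀ t, a ≤ t → t ≤ b → h {r t} ≤ lam + η) →
      (∀ t, a ≤ t → t < b → h {x (y t), r t, r (t + 1)} ≤ h {r t, r (t + 1)} + η) →
      h {r a} + h (PM_Z x y a b) - h ({r a} ∪ PM_Z x y a b) ≤ θ →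
      h ({r b} ∪ ({r a} ∪ PM_Z x y a b)) - h ({r a} ∪ PM_Z x y a b) ≤
        ((2 : ℝ) ^ n - 1) * (θ + 3 * η) := by
  induction n using Nat.strong_induction_on with
  | _ n ih =>
    intro a b θ hab hn hθ hnt hc hs hI
    rcases Nat.eq_zero_or_pos n with h0 | hpos
    · have hba : b = a := by omega
      subst hba
      subst h0
      have h1 : {r b} ∪ ({r b} ∪ PM_Z x y b b) = {r b} ∪ PM_Z x y b b := by
        rw [← Finset.union_assoc, Finset.union_self]
      rw [h1]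
      simp
    · obtain ⟨p, hap, hpb, hu⟩ := hnt a b le_rfl (by omega) le_rfl
      have hsplit := PM_Z_split x y hap hpb
      have hP1 := PM_unique_bound x lam η P1 y hap hpb hu
      obtain ⟨ZL, hZL⟩ : ∃ ZL, ZL = PM_Z x y a p := ⟨_, rfl⟩
      obtain ⟨ZR, hZR⟩ : ∃ ZR, ZR = PM_Z x y (p + 1) b := ⟨_, rfl⟩
      obtain ⟨X, hX⟩ : ∃ X, X = PM_Z x y a b := ⟨_, rfl⟩
      obtain ⟨xp, hxp⟩ : ∃ xp, xp = x (y p) := ⟨_, rfl⟩
      rw [← hZL, ← hZR, ← hX, ← hxp] at hsplit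
      rw [← hZL, ← hZR, ← hxp] at hP1
      rw [← hX] at hI ⊢
      have hXeq : X = {xp} ∪ (ZL ∪ ZR) := by rw [hsplit, Finset.insert_eq]
      rw [Finset.insert_eq] at hP1
      -- left part
      have hIL : h {r a} + h ZL - h ({r a} ∪ ZL) ≤ θ := by
        have h1 := PM_dr hp {r a} (U := ZL) (V := X) (by
          rw [hXeq]; intro z hz; simp [hz])
        linarith
      have hL := ih (p - a) (by omega) a p θ hap rfl hθ
        (fun s t h1 h2 h3 => hnt s t h1 h2 (by omega))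
        (fun t h1 h2 => hc t h1 (by omega)) (fun t h1 h2 => hs t h1 (by omega))
        (by rw [← hZL]; exact hIL)
      rw [← hZL] at hL
      obtain ⟨u, hu'⟩ : ∃ u : ℝ, u = (2 : ℝ) ^ (p - a) := ⟨_, rfl⟩
      obtain ⟨v, hv'⟩ : ∃ v : ℝ, v = (2 : ℝ) ^ (b - (p + 1)) := ⟨_, rfl⟩
      have hu1 : 1 ≤ u := by rw [hu']; exact one_le_pow₀ (by norm_num)
      have hv1 : 1 ≤ v := by rw [hv']; exact one_le_pow₀ (by norm_num)
      rw [← hu'] at hL
      -- lower bound for `x` given `Z', r a`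
      have hlow : lam - η - θ ≤ h ({xp} ∪ ({r a} ∪ (ZL ∪ ZR))) - h ({r a} ∪ (ZL ∪ ZR)) := by
        have h1 := PM_sub hp {r a} (ZL ∪ ZR)
        have h2 : {xp} ∪ ({r a} ∪ (ZL ∪ ZR)) = {r a} ∪ X := by
          rw [hXeq]; exact Finset.union_left_comm _ _ _
        rw [h2]
        rw [← hXeq] at hP1
        linarith
      -- upper bound for `x` given `Z', r a, r (p+1)`
      have hup : h ({xp} ∪ ({r (p + 1)} ∪ ({r a} ∪ (ZL ∪ ZR)))) -
          h ({r (p + 1)} ∪ ({r a} ∪ (ZL ∪ ZR))) ≤ (u - 1) * (θ + 3 * η) + η := by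
        obtain ⟨W, hW⟩ : ∃ W, W = {r (p + 1)} ∪ ({r a} ∪ (ZL ∪ ZR)) := ⟨_, rfl⟩
        rw [← hW]
        have h1 : h ({xp} ∪ W) ≤ h ({xp} ∪ ({r p} ∪ W)) :=
          hp.mono _ _ (Finset.union_subset_union_right Finset.subset_union_right)
        have h2 := PM_dr hp {xp} (U := {r p, r (p + 1)}) (V := {r p} ∪ W) (by
          rw [hW]; intro z hz
          simp only [Finset.mem_insert, Finset.mem_singleton] at hz
          simp only [Finset.mem_union, Finset.mem_singleton]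
          tauto)
        have h3 : h ({xp} ∪ {r p, r (p + 1)}) ≤ h {r p, r (p + 1)} + η := by
          have := hs p hap hpb
          rw [← hxp] at this
          rw [← Finset.insert_eq]
          exact this
        have h4 := PM_dr hp {r p} (U := {r a} ∪ ZL) (V := W) (by
          rw [hW]; intro z hz
          simp only [Finset.mem_union, Finset.mem_singleton] at hz ⊢
          tauto)
        linarith
      -- consequences for `r (p+1)`
      have hswap : {xp} ∪ ({r (p + 1)} ∪ ({r a} ∪ (ZL ∪ ZR))) =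
          {r (p + 1)} ∪ ({r a} ∪ X) := by
        rw [hXeq]
        ext z
        simp only [Finset.mem_union, Finset.mem_singleton]
        tauto
      have hswap2 : {xp} ∪ ({r a} ∪ (ZL ∪ ZR)) = {r a} ∪ X := by
        rw [hXeq]; exact Finset.union_left_comm _ _ _
      rw [hswap] at hup
      rw [hswap2] at hlow
      have hr1 := hc (p + 1) (by omega) (by omega)
      have hsub1 : h ({r (p + 1)} ∪ ({r a} ∪ (ZL ∪ ZR))) - h ({r a} ∪ (ZL ∪ ZR)) ≤
          h {r (p + 1)} := by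
        have := PM_sub hp {r (p + 1)} ({r a} ∪ (ZL ∪ ZR))
        linarith
      have hβa : h ({r (p + 1)} ∪ ({r a} ∪ X)) - h ({r a} ∪ X) ≤ u * (θ + 3 * η) := by
        nlinarith
      have hβb : lam + η - u * (θ + 3 * η) ≤
          h ({r (p + 1)} ∪ ({r a} ∪ (ZL ∪ ZR))) - h ({r a} ∪ (ZL ∪ ZR)) := by
        have h1 : h ({r a} ∪ X) ≤ h ({r (p + 1)} ∪ ({r a} ∪ X)) :=
          hp.mono _ _ Finset.subset_union_right
        nlinarith
      have hIR : h {r (p + 1)} + h ZR - h ({r (p + 1)} ∪ ZR) ≤ u * (θ + 3 * η) := by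
        have h1 := PM_dr hp {r (p + 1)} (U := ZR) (V := {r a} ∪ (ZL ∪ ZR)) (by
          intro z hz; simp [hz])
        linarith
      have hs0 : 0 ≤ θ + 3 * η := by linarith
      have hβ0 : 0 ≤ u * (θ + 3 * η) := mul_nonneg (by linarith) hs0
      have hR := ih (b - (p + 1)) (by omega) (p + 1) b (u * (θ + 3 * η)) (by omega) rfl hβ0
        (fun s t h1 h2 h3 => hnt s t (by omega) h2 h3)
        (fun t h1 h2 => hc t (by omega) h2) (fun t h1 h2 => hs t (by omega) h2)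
        (by rw [← hZR]; exact hIR)
      rw [← hZR, ← hv'] at hR
      -- combine
      have hcomb : h ({r b} ∪ ({r a} ∪ X)) - h ({r a} ∪ X) ≤
          u * (θ + 3 * η) + (v - 1) * (u * (θ + 3 * η) + 3 * η) := by
        have h1 : h ({r b} ∪ ({r a} ∪ X)) ≤ h ({r b} ∪ ({r (p + 1)} ∪ ({r a} ∪ X))) :=
          hp.mono _ _ (Finset.union_subset_union_right Finset.subset_union_right)
        have h2 := PM_dr hp {r b} (U := {r (p + 1)} ∪ ZR) (V := {r (p + 1)} ∪ ({r a} ∪ X)) (by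
          rw [hXeq]; intro z hz
          simp only [Finset.mem_union, Finset.mem_singleton] at hz ⊢
          tauto)
        linarith
      have hpow : (2 : ℝ) ^ n = 2 * u * v := by
        rw [hu', hv', mul_assoc, ← pow_add, ← pow_succ']
        congr 1
        omega
      rw [hpow]
      have hu3 : 3 * η ≤ u * (θ + 3 * η) := by nlinarith
      have h5 : (v - 1) * (u * (θ + 3 * η) + 3 * η) ≤ (v - 1) * (2 * (u * (θ + 3 * η))) :=
        mul_le_mul_of_nonneg_left (by linarith) (by linarith)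
      have h6 : 0 ≤ (u - 1) * (θ + 3 * η) := mul_nonneg (by linarith) hs0
      nlinarith

/-- one closed walk -/
lemma PM_closed (hp : Polym h) (x : Λ → ι) (lam η : ℝ) (hη : 0 ≤ η)
    (P1 : ∀ (y : Λ) (T : Finset Λ), y ∉ T →
      lam - η ≤ h (insert (x y) (T.image x)) - h (T.image x))
    (y : ℕ → Λ) (r : ℕ → ι) (r0 : ι) (n : ℕ) (hn : 1 ≤ n) (h0 : r 0 = r0) (he : r n = r0)
    (hnt : NoTight y 0 n) (hc : ∀ t, t ≤ n → h {r t} ≤ lam + η)
    (hs : ∀ t, t < n → h {x (y t), r t, r (t + 1)} ≤ h {r t, r (t + 1)} + η) :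
    lam ≤ 2 * η + (2 : ℝ) ^ n *
      ((h {r0} + h (PM_Z x y 0 n) - h ({r0} ∪ PM_Z x y 0 n)) + 3 * η) := by
  obtain ⟨θ, hθ⟩ : ∃ θ, θ = h {r0} + h (PM_Z x y 0 n) - h ({r0} ∪ PM_Z x y 0 n) := ⟨_, rfl⟩
  rw [← hθ]
  have hθ0 : 0 ≤ θ := by
    have := PM_sub hp {r0} (PM_Z x y 0 n)
    linarith
  obtain ⟨p, -, hpn, hu⟩ := hnt 0 n le_rfl (by omega) le_rfl
  have hsplit := PM_Z_split x y (Nat.zero_le p) hpn
  have hP1 := PM_unique_bound x lam η P1 y (Nat.zero_le p) hpn hu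
  -- left
  have hIL : h {r 0} + h (PM_Z x y 0 p) - h ({r 0} ∪ PM_Z x y 0 p) ≤ θ := by
    have h1 := PM_dr hp {r0} (U := PM_Z x y 0 p) (V := PM_Z x y 0 n) (by
      rw [hsplit]; intro z hz; simp [hz])
    rw [h0]; linarith
  have hL := PM_walk hp x lam η hη P1 y r p 0 p θ (Nat.zero_le p) (by omega) hθ0
    (fun s t h1 h2 h3 => hnt s t h1 h2 (by omega))
    (fun t _ h2 => hc t (by omega)) (fun t _ h2 => hs t (by omega)) hIL
  -- right, reversed
  have hZrev : PM_Z x (fun t => y (n - 1 - t)) 0 (n - 1 - p) = PM_Z x y (p + 1) n := by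
    unfold PM_Z
    congr 1
    ext z
    simp only [Finset.mem_image, Finset.mem_Ico]
    constructor
    · rintro ⟨t, ht, rfl⟩
      exact ⟨n - 1 - t, ⟨by omega, by omega⟩, rfl⟩
    · rintro ⟨t, ht, rfl⟩
      exact ⟨n - 1 - t, ⟨by omega, by omega⟩, by congr 1; omega⟩
  have hIR : h {r (n - 0)} + h (PM_Z x (fun t => y (n - 1 - t)) 0 (n - 1 - p)) -
      h ({r (n - 0)} ∪ PM_Z x (fun t => y (n - 1 - t)) 0 (n - 1 - p)) ≤ θ := by
    have h1 := PM_dr hp {r0} (U := PM_Z x y (p + 1) n) (V := PM_Z x y 0 n) (by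
      rw [hsplit]; intro z hz; simp [hz])
    rw [hZrev, Nat.sub_zero, he]; linarith
  have hR := PM_walk hp x lam η hη P1 (fun t => y (n - 1 - t)) (fun t => r (n - t)) (n - 1 - p)
    0 (n - 1 - p) θ (Nat.zero_le _) (by omega) hθ0
    (by
      intro s t _ h2 h3
      obtain ⟨q, hq1, hq2, hq3⟩ := hnt (n - t) (n - s) (by omega) (by omega) (by omega)
      refine ⟨n - 1 - q, by omega, by omega, ?_⟩
      intro p' hp1 hp2 hp3
      have hp3' : y (n - 1 - p') = y q := by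
        have : n - 1 - (n - 1 - q) = q := by omega
        simp only [this] at hp3
        exact hp3
      have := hq3 (n - 1 - p') (by omega) (by omega) hp3'
      omega)
    (fun t _ _ => hc (n - t) (by omega))
    (by
      intro t _ h2
      have h3 := hs (n - 1 - t) (by omega)
      have h4 : n - 1 - t + 1 = n - t := by omega
      have h5 : n - (t + 1) = n - 1 - t := by omega
      rw [h4] at h3
      simp only [h5]
      have h6 : ({x (y (n - 1 - t)), r (n - t), r (n - 1 - t)} : Finset ι) =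
          {x (y (n - 1 - t)), r (n - 1 - t), r (n - t)} := by
        ext z; simp only [Finset.mem_insert, Finset.mem_singleton]; tauto
      have h7 : ({r (n - t), r (n - 1 - t)} : Finset ι) = {r (n - 1 - t), r (n - t)} := by
        ext z; simp only [Finset.mem_insert, Finset.mem_singleton]; tauto
      rw [h6, h7]
      exact h3)
    hIR
  have hsub : n - (n - 1 - p) = p + 1 := by omega
  simp only [hsub, Nat.sub_zero, hZrev, he] at hR
  rw [h0] at hL
  obtain ⟨ZL, hZL⟩ : ∃ ZL, ZL = PM_Z x y 0 p := ⟨_, rfl⟩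
  obtain ⟨ZR, hZR⟩ : ∃ ZR, ZR = PM_Z x y (p + 1) n := ⟨_, rfl⟩
  obtain ⟨X, hX⟩ : ∃ X, X = PM_Z x y 0 n := ⟨_, rfl⟩
  obtain ⟨xp, hxp⟩ : ∃ xp, xp = x (y p) := ⟨_, rfl⟩
  rw [← hZL, ← hZR, ← hX, ← hxp, Finset.insert_eq] at hsplit
  rw [← hZL, ← hZR, ← hxp, Finset.insert_eq, ← hsplit] at hP1
  rw [← hZL] at hL
  rw [← hZR] at hR
  rw [← hX] at hθ
  obtain ⟨u, hu'⟩ : ∃ u : ℝ, u = (2 : ℝ) ^ p := ⟨_, rfl⟩
  obtain ⟨v, hv'⟩ : ∃ v : ℝ, v = (2 : ℝ) ^ (n - 1 - p) := ⟨_, rfl⟩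
  have hu1 : 1 ≤ u := by rw [hu']; exact one_le_pow₀ (by norm_num)
  have hv1 : 1 ≤ v := by rw [hv']; exact one_le_pow₀ (by norm_num)
  rw [← hu'] at hL
  rw [← hv'] at hR
  have hpow : (2 : ℝ) ^ n = 2 * u * v := by
    rw [hu', hv', mul_assoc, ← pow_add, ← pow_succ']
    congr 1
    omega
  have hlow : lam - η - θ ≤ h ({r0} ∪ X) - h ({r0} ∪ (ZL ∪ ZR)) := by
    have h1 := PM_sub hp {r0} (ZL ∪ ZR)
    linarith
  have hup : h ({r0} ∪ X) - h ({r0} ∪ (ZL ∪ ZR)) ≤
      (u - 1) * (θ + 3 * η) + (v - 1) * (θ + 3 * η) + η := by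
    obtain ⟨W, hW⟩ : ∃ W, W = {r0} ∪ (ZL ∪ ZR) := ⟨_, rfl⟩
    have h1 : h ({r0} ∪ X) ≤ h ({xp} ∪ ({r p} ∪ ({r (p + 1)} ∪ W))) := by
      apply hp.mono
      rw [hsplit, hW]
      intro z hz
      simp only [Finset.mem_union, Finset.mem_singleton] at hz ⊢
      tauto
    have h2 := PM_dr hp {xp} (U := {r p, r (p + 1)}) (V := {r p} ∪ ({r (p + 1)} ∪ W)) (by
      intro z hz
      simp only [Finset.mem_insert, Finset.mem_singleton] at hz
      simp only [Finset.mem_union, Finset.mem_singleton]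
      tauto)
    have h3 : h ({xp} ∪ {r p, r (p + 1)}) ≤ h {r p, r (p + 1)} + η := by
      have := hs p hpn
      rw [← hxp] at this
      rw [← Finset.insert_eq]
      exact this
    have h4 := PM_dr hp {r p} (U := {r0} ∪ ZL) (V := {r (p + 1)} ∪ W) (by
      rw [hW]; intro z hz
      simp only [Finset.mem_union, Finset.mem_singleton] at hz ⊢
      tauto)
    have h5 := PM_dr hp {r (p + 1)} (U := {r0} ∪ ZR) (V := W) (by
      rw [hW]; intro z hz
      simp only [Finset.mem_union, Finset.mem_singleton] at hz ⊢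
      tauto)
    rw [← hW]
    linarith
  rw [hpow]
  have hs0 : 0 ≤ θ + 3 * η := by linarith
  have huv : u + v - 1 ≤ 2 * u * v := by nlinarith
  have h6 : (u + v - 1) * (θ + 3 * η) ≤ 2 * u * v * (θ + 3 * η) :=
    mul_le_mul_of_nonneg_right huv hs0
  nlinarith

end PM

theorem no_config {ι Λ : Type} [DecidableEq ι] [DecidableEq Λ] (h : Finset ι → ℝ)
    (hp : Polym h) (x : Λ → ι) (lam η : ℝ) (hη : 0 ≤ η)
    (P1 : ∀ (y : Λ) (T : Finset Λ), y ∉ T →
      lam - η ≤ h (insert (x y) (T.image x)) - h (T.image x))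
    (P2 : ∀ y, h {x y} ≤ lam)
    (m L : ℕ) (hL : 2 ^ (m + 1) ≤ L) (r0 : ι)
    (len : Fin L → ℕ) (lab : Fin L → ℕ → Λ) (cell : Fin L → ℕ → ι)
    (hlen1 : ∀ l, 1 ≤ len l) (hlen2 : ∀ l, len l ≤ m)
    (h0 : ∀ l, cell l 0 = r0) (hend : ∀ l, cell l (len l) = r0)
    (hc : ∀ l t, t ≤ len l → h {cell l t} ≤ lam + η)
    (hs : ∀ l t, t < len l →
      h {x (lab l t), cell l t, cell l (t + 1)} ≤ h {cell l t, cell l (t + 1)} + η)
    (hnt : ∀ l, NoTight (lab l) 0 (len l))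
    (hdisj : ∀ l l', l ≠ l' → ∀ t t', t < len l → t' < len l' → lab l t ≠ lab l' t')
    (big : 2 ^ (m + 3) * ((m : ℝ) + 8) * η < lam) : False := by
  -- label sets
  obtain ⟨X, hX⟩ : ∃ X : Fin L → Finset Λ, ∀ l, X l = (Finset.Ico 0 (len l)).image (lab l) :=
    ⟨_, fun _ => rfl⟩
  have hXZ : ∀ l, PM_Z x (lab l) 0 (len l) = (X l).image x := fun l => by rw [hX]; rfl
  have hXcard : ∀ l, (X l).card ≤ m := fun l => by
    rw [hX]
    refine Finset.card_image_le.trans ?_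
    rw [Nat.card_Ico]; have := hlen2 l; omega
  have hXdisj : ∀ l l', l ≠ l' → Disjoint (X l) (X l') := by
    intro l l' hne
    rw [Finset.disjoint_left]
    intro z hz hz'
    rw [hX, Finset.mem_image] at hz hz'
    obtain ⟨t, ht, rfl⟩ := hz
    obtain ⟨t', ht', he⟩ := hz'
    rw [Finset.mem_Ico] at ht ht'
    exact hdisj l l' hne t t' ht.2 ht'.2 he.symm
  -- each walk is correlated with `r0`
  have hθ : ∀ l, lam / 2 ^ m - 5 * η ≤
      h {r0} + h ((X l).image x) - h ({r0} ∪ (X l).image x) := by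
    intro l
    have h1 := PM_closed hp x lam η hη P1 (lab l) (cell l) r0 (len l) (hlen1 l) (h0 l) (hend l)
      (hnt l) (hc l) (hs l)
    rw [hXZ] at h1
    obtain ⟨θ, hθ⟩ : ∃ θ, θ = h {r0} + h ((X l).image x) - h ({r0} ∪ (X l).image x) := ⟨_, rfl⟩
    rw [← hθ] at h1 ⊢
    have hθ0 : 0 ≤ θ := by
      have := PM_sub hp {r0} ((X l).image x)
      linarith
    have h2 : (2 : ℝ) ^ len l ≤ 2 ^ m := pow_le_pow_right₀ (by norm_num) (hlen2 l)
    have h3 : (1 : ℝ) ≤ 2 ^ m := one_le_pow₀ (by norm_num)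
    have h4 : (2 : ℝ) ^ len l * (θ + 3 * η) ≤ 2 ^ m * (θ + 3 * η) :=
      mul_le_mul_of_nonneg_right h2 (by linarith)
    have h5 : lam / 2 ^ m ≤ θ + 5 * η := by
      rw [div_le_iff₀ (by positivity)]
      nlinarith
    linarith
  -- adding labels one by one
  have hadd : ∀ (T S : Finset Λ), Disjoint T S →
      (S.card : ℝ) * (lam - η) ≤ h ((T ∪ S).image x) - h (T.image x) := by
    intro T S
    induction S using Finset.induction_on with
    | empty => intro _; simp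
    | insert s S hsS ih =>
      intro hd
      rw [Finset.disjoint_insert_right] at hd
      have h1 := ih hd.2
      have h2 := P1 s (T ∪ S) (by
        rw [Finset.mem_union, not_or]; exact ⟨hd.1, hsS⟩)
      rw [Finset.union_insert, Finset.image_insert, Finset.card_insert_of_notMem hsS]
      push_cast
      linarith
  have hcap : ∀ (S : Finset Λ), h (S.image x) ≤ (S.card : ℝ) * lam := by
    intro S
    induction S using Finset.induction_on with
    | empty => simp [hp.empty]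
    | insert s S hsS ih =>
      rw [Finset.image_insert, Finset.card_insert_of_notMem hsS, Finset.insert_eq]
      have h1 := PM_sub hp {x s} (S.image x)
      have h2 := P2 s
      push_cast
      linarith
  -- union of the first `k` label sets
  obtain ⟨XX, hXX⟩ : ∃ XX : ℕ → Finset Λ, ∀ k,
      XX k = (Finset.univ.filter (fun l : Fin L => l.val < k)).biUnion X := ⟨_, fun _ => rfl⟩
  have hXX0 : XX 0 = ∅ := by rw [hXX]; simp
  have hXXs : ∀ k (hk : k < L), XX (k + 1) = XX k ∪ X ⟨k, hk⟩ := by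
    intro k hk
    rw [hXX, hXX]
    ext z
    simp only [Finset.mem_biUnion, Finset.mem_filter, Finset.mem_univ, true_and,
      Finset.mem_union]
    constructor
    · rintro ⟨l, hl, hz⟩
      rcases Nat.lt_succ_iff_lt_or_eq.mp hl with h1 | h1
      · exact Or.inl ⟨l, h1, hz⟩
      · right
        have : l = ⟨k, hk⟩ := Fin.ext h1
        rw [← this]; exact hz
    · rintro (⟨l, hl, hz⟩ | hz)
      · exact ⟨l, by omega, hz⟩
      · exact ⟨⟨k, hk⟩, by simp, hz⟩
  have hXXd : ∀ k (hk : k < L), Disjoint (XX k) (X ⟨k, hk⟩) := by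
    intro k hk
    rw [hXX, Finset.disjoint_biUnion_left]
    intro l hl
    apply hXdisj
    intro he
    rw [he] at hl
    simp at hl
  obtain ⟨G, hG⟩ : ∃ G : ℕ → ℝ, ∀ k,
      G k = h ({r0} ∪ (XX k).image x) - h ((XX k).image x) := ⟨_, fun _ => rfl⟩
  have hG0 : G 0 ≤ lam + η := by
    rw [hG, hXX0, Finset.image_empty, Finset.union_empty, hp.empty, sub_zero]
    have hLpos : 0 < L := lt_of_lt_of_le (by positivity) hL
    have := hc ⟨0, hLpos⟩ 0 (Nat.zero_le _)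
    rwa [h0] at this
  have hGnn : ∀ k, 0 ≤ G k := by
    intro k
    rw [hG]
    have := hp.mono ((XX k).image x) ({r0} ∪ (XX k).image x) Finset.subset_union_right
    linarith
  have hstep : ∀ k, k < L → G (k + 1) ≤ G k - (lam / 2 ^ m - 5 * η - m * η) := by
    intro k hk
    obtain ⟨A, hA⟩ : ∃ A, A = (XX k).image x := ⟨_, rfl⟩
    obtain ⟨B, hB⟩ : ∃ B, B = (X ⟨k, hk⟩).image x := ⟨_, rfl⟩
    have hAB : (XX (k + 1)).image x = A ∪ B := by rw [hXXs k hk, Finset.image_union, hA, hB]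
    rw [hG, hG, hAB, ← hA]
    have h1 := hadd (XX k) (X ⟨k, hk⟩) (hXXd k hk)
    rw [← hXXs k hk, hAB, ← hA] at h1
    have h2 := hcap (X ⟨k, hk⟩)
    rw [← hB] at h2
    have h3 := hθ ⟨k, hk⟩
    rw [← hB] at h3
    have h4 : ((X ⟨k, hk⟩).card : ℝ) ≤ m := by exact_mod_cast hXcard ⟨k, hk⟩
    have h5 := PM_dr hp B (U := {r0}) (V := {r0} ∪ A) Finset.subset_union_left
    have h6 : B ∪ ({r0} ∪ A) = {r0} ∪ (A ∪ B) := by
      ext z; simp only [Finset.mem_union]; tauto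
    have h7 : B ∪ {r0} = {r0} ∪ B := Finset.union_comm _ _
    rw [h6, h7] at h5
    have h8 : ((X ⟨k, hk⟩).card : ℝ) * η ≤ m * η := mul_le_mul_of_nonneg_right h4 hη
    nlinarith
  have hfin : ∀ k, k ≤ L → G k ≤ lam + η - k * (lam / 2 ^ m - 5 * η - m * η) := by
    intro k
    induction k with
    | zero => intro _; simpa using hG0
    | succ k ih =>
      intro hk
      have h1 := ih (by omega)
      have h2 := hstep k (by omega)
      push_cast
      linarith
  have h1 := hfin (2 ^ (m + 1)) hL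
  have h2 := hGnn (2 ^ (m + 1))
  have h3 : (1 : ℝ) ≤ 2 ^ m := one_le_pow₀ (by norm_num)
  have h4 : ((2 ^ (m + 1) : ℕ) : ℝ) * (lam / 2 ^ m - 5 * η - m * η) =
      2 * lam - 2 * 2 ^ m * (m + 5) * η := by
    push_cast
    rw [pow_succ]
    field_simp
    ring
  rw [h4] at h1
  have h5 : (2 : ℝ) ^ (m + 3) = 8 * 2 ^ m := by rw [pow_add]; ring
  rw [h5] at big
  have hm0 : (0 : ℝ) ≤ m := Nat.cast_nonneg m
  have h6 : 0 ≤ 2 ^ m * (m : ℝ) * η := by positivity
  have h7 : η ≤ 2 ^ m * η := by nlinarith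
  nlinarith

end H583T
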