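import Pool.Agent.H583R2.TSI.Defs

namespace H583T
open Finset

theorem refine_part_aux {α : Type} [DecidableEq α] (p : α → ℕ) (B : ℕ) (hB : 1 ≤ B) :
    ∀ (n : ℕ) (E : Finset α), E.card = n →
    ∃ p' : α → ℕ, (∀ e ∈ E, ∀ e' ∈ E, p' e = p' e' → p e = p e') ∧
      (∀ e ∈ E, (E.filter (fun e' => p' e' = p' e)).card ≤ B) ∧
      (E.image p').card ≤ (E.image p).card + E.card / B := by
  intro n
  induction n using Nat.strong_induction_on with
  | _ n ih =>
    intro E hE
    by_cases hall : ∀ e ∈ E, (E.filter (fun e' => p e' = p e)).card ≤ B
    · exact ⟨p, fun e _ e' _ h => h, hall, Nat.le_add_right _ _⟩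
    · push Not at hall
      obtain ⟨e0, he0, hlt⟩ := hall
      obtain ⟨F, hF, hFc⟩ := Finset.exists_subset_card_eq (le_of_lt hlt)
      have hFE : F ⊆ E := hF.trans (Finset.filter_subset _ _)
      have hcard : (E \ F).card + B = E.card := by
        rw [← hFc]; exact Finset.card_sdiff_add_card_eq_card hFE
      obtain ⟨q, hq1, hq2, hq3⟩ := ih (E \ F).card (by omega) (E \ F) rfl
      set N := (E.sup q) + 1 with hN
      have hfresh : ∀ e ∈ E, q e ≠ N := by
        intro e he
        have := Finset.le_sup (f := q) he
        omega
      have hpF : ∀ e ∈ F, p e = p e0 := fun e he => (Finset.mem_filter.1 (hF he)).2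
      refine ⟨fun e => if e ∈ F then N else q e, ?_, ?_, ?_⟩
      · intro e he e' he' h
        by_cases h1 : e ∈ F <;> by_cases h2 : e' ∈ F
        · rw [hpF e h1, hpF e' h2]
        · simp only [h1, h2, if_true, if_false] at h
          exact absurd h.symm (hfresh e' he')
        · simp only [h1, h2, if_true, if_false] at h
          exact absurd h (hfresh e he)
        · simp only [h1, h2, if_false] at h
          exact hq1 e (Finset.mem_sdiff.2 ⟨he, h1⟩) e' (Finset.mem_sdiff.2 ⟨he', h2⟩) h
      · intro e he
        by_cases h1 : e ∈ F
        · simp only [h1, if_true]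
          rw [← hFc]
          apply Finset.card_le_card
          intro e' he'
          rw [Finset.mem_filter] at he'
          by_contra h2
          rw [if_neg h2] at he'
          exact hfresh e' he'.1 he'.2
        · simp only [h1, if_false]
          refine le_trans (Finset.card_le_card ?_) (hq2 e (Finset.mem_sdiff.2 ⟨he, h1⟩))
          intro e' he'
          rw [Finset.mem_filter] at he'
          by_cases h2 : e' ∈ F
          · rw [if_pos h2] at he'
            exact absurd he'.2.symm (hfresh e he)
          · rw [if_neg h2] at he'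
            exact Finset.mem_filter.2 ⟨Finset.mem_sdiff.2 ⟨he'.1, h2⟩, he'.2⟩
      · have h1 : E.image (fun e => if e ∈ F then N else q e) ⊆ insert N ((E \ F).image q) := by
          intro x hx
          obtain ⟨e, he, rfl⟩ := Finset.mem_image.1 hx
          by_cases h2 : e ∈ F
          · simp [h2]
          · rw [if_neg h2]
            exact Finset.mem_insert_of_mem (Finset.mem_image_of_mem _ (Finset.mem_sdiff.2 ⟨he, h2⟩))
        have h2 : ((E \ F).image p).card ≤ (E.image p).card :=
          Finset.card_le_card (Finset.image_subset_image Finset.sdiff_subset)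
        have h3 : E.card / B = (E \ F).card / B + 1 := by
          rw [← hcard, Nat.add_div_right _ (by omega)]
        calc (E.image (fun e => if e ∈ F then N else q e)).card
            ≤ (insert N ((E \ F).image q)).card := Finset.card_le_card h1
          _ ≤ ((E \ F).image q).card + 1 := Finset.card_insert_le _ _
          _ ≤ (E.image p).card + E.card / B := by omega

theorem refine_part {α : Type} [DecidableEq α] (p : α → ℕ) (E : Finset α) (B : ℕ) (hB : 1 ≤ B) :
    ∃ p' : α → ℕ, (∀ e ∈ E, ∀ e' ∈ E, p' e = p' e' → p e = p e') ∧
      (∀ e ∈ E, (E.filter (fun e' => p' e' = p' e)).card ≤ B) ∧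
      (E.image p').card ≤ (E.image p).card + E.card / B :=
  refine_part_aux p B hB E.card E rfl

end H583T
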