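import Pool.Agent.H583R2.TSI.Defs

namespace H583T
open Finset

section Walk
variable {ε κ Λ : Type} [DecidableEq ε] [DecidableEq κ] [DecidableEq Λ]

/-- end class of a (reversed) walk starting at time `j` in the class `h` -/
def wEn (cl : ℕ → ε → κ) (j : ℕ) (h : κ) : List ε → κ
  | [] => h
  | e :: l => cl (j + l.length + 1) e

/-- the (reversed) walks of length `r` starting at time `j` in the class `h` -/
def wk (E : Finset ε) (cl : ℕ → ε → κ) (lab : ε → Λ) (j : ℕ) (h : κ) : ℕ → Finset (List ε)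
  | 0 => {[]}
  | r + 1 => (((wk E cl lab j h r) ×ˢ E).filter (fun p => cl (j + r) p.2 = wEn cl j h p.1 ∧
      lab p.2 ∉ p.1.map lab)).image (fun p => p.2 :: p.1)

variable (E : Finset ε) (cl : ℕ → ε → κ) (lab : ε → Λ)

theorem mem_wk_succ (j : ℕ) (h : κ) (r : ℕ) (l : List ε) :
    l ∈ wk E cl lab j h (r + 1) ↔ ∃ e l', l = e :: l' ∧ l' ∈ wk E cl lab j h r ∧ e ∈ E ∧
      cl (j + r) e = wEn cl j h l' ∧ lab e ∉ l'.map lab := by
  rw [wk, Finset.mem_image]
  constructor
  · rintro ⟨⟨l', e⟩, h1, rfl⟩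
    rw [Finset.mem_filter, Finset.mem_product] at h1
    exact ⟨e, l', rfl, h1.1.1, h1.1.2, h1.2.1, h1.2.2⟩
  · rintro ⟨e, l', rfl, h1, h2, h3, h4⟩
    exact ⟨(l', e), Finset.mem_filter.2 ⟨Finset.mem_product.2 ⟨h1, h2⟩, h3, h4⟩, rfl⟩

theorem wk_length (j : ℕ) (h : κ) : ∀ (r : ℕ) (l : List ε), l ∈ wk E cl lab j h r → l.length = r
  | 0, l, hl => by
      rw [wk, Finset.mem_singleton] at hl
      rw [hl]; rfl
  | r + 1, l, hl => by
      obtain ⟨e, l', rfl, h1, -⟩ := (mem_wk_succ E cl lab j h r l).1 hl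
      rw [List.length_cons, wk_length j h r l' h1]

theorem wk_mem (j : ℕ) (h : κ) : ∀ (r : ℕ) (l : List ε), l ∈ wk E cl lab j h r → ∀ e ∈ l, e ∈ E
  | 0, l, hl => by
      rw [wk, Finset.mem_singleton] at hl
      rw [hl]; intro e he; exact absurd he (List.not_mem_nil)
  | r + 1, l, hl => by
      obtain ⟨e, l', rfl, h1, h2, -⟩ := (mem_wk_succ E cl lab j h r l).1 hl
      intro e' he'
      rcases List.mem_cons.1 he' with h3 | h3
      · rw [h3]; exact h2
      · exact wk_mem j h r l' h1 e' h3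

theorem wk_nodup (j : ℕ) (h : κ) : ∀ (r : ℕ) (l : List ε), l ∈ wk E cl lab j h r →
    (l.map lab).Nodup
  | 0, l, hl => by
      rw [wk, Finset.mem_singleton] at hl
      rw [hl]; simp
  | r + 1, l, hl => by
      obtain ⟨e, l', rfl, h1, -, -, h4⟩ := (mem_wk_succ E cl lab j h r l).1 hl
      rw [List.map_cons, List.nodup_cons]
      exact ⟨h4, wk_nodup j h r l' h1⟩

/-- decomposition of a walk -/
theorem wk_split (j : ℕ) (h : κ) (p : ℕ) : ∀ (r : ℕ) (l : List ε), l ∈ wk E cl lab j h (p + r) →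
    l.drop r ∈ wk E cl lab j h p ∧
      l.take r ∈ wk E cl lab (j + p) (wEn cl j h (l.drop r)) r ∧
      wEn cl j h l = wEn cl (j + p) (wEn cl j h (l.drop r)) (l.take r)
  | 0, l, hl => by
      refine ⟨by simpa using hl, ?_, ?_⟩
      · simp [wk]
      · simp [wEn]
  | r + 1, l, hl => by
      rw [← Nat.add_assoc] at hl
      obtain ⟨e, l', rfl, h1, h2, h3, h4⟩ := (mem_wk_succ E cl lab j h (p + r) l).1 hl
      obtain ⟨h5, h6, h7⟩ := wk_split j h p r l' h1
      have hlen := wk_length E cl lab j h (p + r) l' h1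
      have hlen2 : (l'.take r).length = r := by rw [List.length_take, hlen]; omega
      rw [List.drop_succ_cons, List.take_succ_cons]
      refine ⟨h5, ?_, ?_⟩
      · rw [mem_wk_succ]
        refine ⟨e, l'.take r, rfl, h6, h2, ?_, ?_⟩
        · rw [← h7, ← h3, Nat.add_assoc]
        · intro h8
          apply h4
          obtain ⟨x, hx, hx2⟩ := List.mem_map.1 h8
          exact List.mem_map.2 ⟨x, List.mem_of_mem_take hx, hx2⟩
      · show cl (j + l'.length + 1) e = cl (j + p + (l'.take r).length + 1) e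
        rw [hlen, hlen2, Nat.add_assoc j p r]

theorem wk_card (D : ℕ) (hD : ∀ t h, (E.filter (fun e => cl t e = h)).card ≤ D) (j : ℕ) (h : κ) :
    ∀ r : ℕ, (wk E cl lab j h r).card ≤ D ^ r
  | 0 => by simp [wk]
  | r + 1 => by
      have h1 : wk E cl lab j h (r + 1) ⊆ (wk E cl lab j h r).biUnion (fun l =>
          (E.filter (fun e => cl (j + r) e = wEn cl j h l)).image (fun e => e :: l)) := by
        intro l hl
        obtain ⟨e, l', rfl, h1, h2, h3, -⟩ := (mem_wk_succ E cl lab j h r l).1 hl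
        exact Finset.mem_biUnion.2 ⟨l', h1, Finset.mem_image.2
          ⟨e, Finset.mem_filter.2 ⟨h2, h3⟩, rfl⟩⟩
      calc (wk E cl lab j h (r + 1)).card ≤ _ := Finset.card_le_card h1
        _ ≤ ∑ l ∈ wk E cl lab j h r, ((E.filter (fun e => cl (j + r) e = wEn cl j h l)).image
              (fun e => e :: l)).card := Finset.card_biUnion_le
        _ ≤ ∑ l ∈ wk E cl lab j h r, D := Finset.sum_le_sum (fun l _ =>
              le_trans Finset.card_image_le (hD _ _))
        _ = (wk E cl lab j h r).card * D := by rw [Finset.sum_const, smul_eq_mul]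
        _ ≤ D ^ r * D := Nat.mul_le_mul_right _ (wk_card D hD j h r)
        _ = D ^ (r + 1) := (pow_succ _ _).symm

/-- start class -/
def wSt (cl : ℕ → ε → κ) (j : ℕ) (h0 : κ) (s : List ε) : κ :=
  (s.getLast?).elim h0 (cl j)

theorem wk_start (h0 : κ) (j : ℕ) (h : κ) : ∀ (r : ℕ) (s : List ε),
    s ∈ wk E cl lab j h (r + 1) → wSt cl j h0 s = h
  | 0, s, hs => by
      obtain ⟨e, l', rfl, h1, h2, h3, h4⟩ := (mem_wk_succ E cl lab j h 0 s).1 hs
      rw [wk, Finset.mem_singleton] at h1
      subst h1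
      simpa [wSt, wEn] using h3
  | r + 1, s, hs => by
      obtain ⟨e, l', rfl, h1, h2, h3, h4⟩ := (mem_wk_succ E cl lab j h (r + 1) s).1 hs
      have h5 := wk_start h0 j h r l' h1
      have h6 := wk_length E cl lab j h (r + 1) l' h1
      have h7 : (e :: l').getLast? = l'.getLast? := by
        cases l' with
        | nil => simp at h6
        | cons a b => rw [List.getLast?_cons_cons]
      unfold wSt at *
      rw [h7]; exact h5

/-- walks read backwards with labels in `L` -/
def rv (E : Finset ε) (cl : ℕ → ε → κ) (lab : ε → Λ) (j : ℕ) (L : Finset Λ) :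
    ℕ → κ → Finset (List ε)
  | 0, _ => {[]}
  | r + 1, g => (E.filter (fun f => cl (j + r + 1) f = g ∧ lab f ∈ L)).biUnion
      (fun f => (rv E cl lab j L r (cl (j + r) f)).image (List.cons f))

theorem rv_card (hinj : ∀ t, ∀ e ∈ E, ∀ e' ∈ E, cl t e = cl t e' → lab e = lab e' → e = e')
    (j : ℕ) (L : Finset Λ) : ∀ (r : ℕ) (g : κ), (rv E cl lab j L r g).card ≤ L.card ^ r
  | 0, g => by simp [rv]
  | r + 1, g => by
      have h1 : (E.filter (fun f => cl (j + r + 1) f = g ∧ lab f ∈ L)).card ≤ L.card := by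
        apply Finset.card_le_card_of_injOn lab
        · intro f hf
          exact (Finset.mem_filter.1 hf).2.2
        · intro f hf f' hf' hff
          have h2 := Finset.mem_filter.1 hf
          have h3 := Finset.mem_filter.1 hf'
          exact hinj _ f h2.1 f' h3.1 (h2.2.1.trans h3.2.1.symm) hff
      rw [rv]
      calc _ ≤ ∑ f ∈ E.filter (fun f => cl (j + r + 1) f = g ∧ lab f ∈ L),
              ((rv E cl lab j L r (cl (j + r) f)).image (List.cons f)).card :=
                Finset.card_biUnion_le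
        _ ≤ ∑ f ∈ E.filter (fun f => cl (j + r + 1) f = g ∧ lab f ∈ L), L.card ^ r :=
              Finset.sum_le_sum (fun f _ => le_trans Finset.card_image_le
                (rv_card hinj j L r _))
        _ = (E.filter (fun f => cl (j + r + 1) f = g ∧ lab f ∈ L)).card * L.card ^ r := by
              rw [Finset.sum_const, smul_eq_mul]
        _ ≤ L.card * L.card ^ r := Nat.mul_le_mul_right _ h1
        _ = L.card ^ (r + 1) := by rw [pow_succ, mul_comm]

theorem mem_rv (j : ℕ) (h : κ) (L : Finset Λ) : ∀ (r : ℕ) (s : List ε),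
    s ∈ wk E cl lab j h r → (∀ e ∈ s, lab e ∈ L) → s ∈ rv E cl lab j L r (wEn cl j h s)
  | 0, s, hs, _ => by
      rw [wk, Finset.mem_singleton] at hs
      rw [hs, rv]; simp
  | r + 1, s, hs, hL => by
      obtain ⟨e, l', rfl, h1, h2, h3, h4⟩ := (mem_wk_succ E cl lab j h r s).1 hs
      have h5 := mem_rv j h L r l' h1 (fun e' he' => hL e' (List.mem_cons_of_mem _ he'))
      have h6 := wk_length E cl lab j h r l' h1
      rw [rv, Finset.mem_biUnion]
      refine ⟨e, Finset.mem_filter.2 ⟨h2, ?_, hL e List.mem_cons_self⟩,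
        Finset.mem_image.2 ⟨l', ?_, rfl⟩⟩
      · show _ = cl (j + l'.length + 1) e
        rw [h6]
      · rw [h3]; exact h5

/-- the set of labels of the last `r` edges -/
def wLs (lab : ε → Λ) (r : ℕ) (l : List ε) : Finset Λ := ((l.take r).map lab).toFinset

/-- number of walks ending in `h` -/
def wCnt (E : Finset ε) (cl : ℕ → ε → κ) (lab : ε → Λ) (h0 : κ) (p : ℕ) (h : κ) : ℕ :=
  ((wk E cl lab 0 h0 p).filter (fun q => wEn cl 0 h0 q = h)).card

/-- pairs of walks with the same end -/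
def wPair (E : Finset ε) (cl : ℕ → ε → κ) (lab : ε → Λ) (h0 : κ) (k : ℕ) :
    Finset (List ε × List ε) :=
  (wk E cl lab 0 h0 k ×ˢ wk E cl lab 0 h0 k).filter (fun x => wEn cl 0 h0 x.1 = wEn cl 0 h0 x.2)

theorem wPair_card (h0 : κ) (k : ℕ) : (wPair E cl lab h0 k).card =
    ∑ h ∈ (wk E cl lab 0 h0 k).image (wEn cl 0 h0), wCnt E cl lab h0 k h ^ 2 := by
  have h1 : (wPair E cl lab h0 k).card =
      ∑ h ∈ (wk E cl lab 0 h0 k).image (wEn cl 0 h0),
        ((wPair E cl lab h0 k).filter (fun x => wEn cl 0 h0 x.1 = h)).card := by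
    apply Finset.card_eq_sum_card_fiberwise
    intro x hx
    have h2 := Finset.mem_product.1 (Finset.mem_filter.1 hx).1
    exact Finset.mem_coe.2 (Finset.mem_image_of_mem _ h2.1)
  rw [h1]
  apply Finset.sum_congr rfl
  intro h _
  rw [sq, wCnt, ← Finset.card_product]
  congr 1
  ext ⟨a, b⟩
  simp only [wPair, Finset.mem_filter, Finset.mem_product]
  constructor
  · rintro ⟨⟨⟨h2, h3⟩, h4⟩, h5⟩
    exact ⟨⟨h2, h5⟩, h3, h4.symm.trans h5⟩
  · rintro ⟨⟨h2, h5⟩, h3, h4⟩
    exact ⟨⟨⟨h2, h3⟩, h5.trans h4.symm⟩, h5⟩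

/-- the main counting lemma -/
theorem bad_card (D : ℕ)
    (hinj : ∀ t, ∀ e ∈ E, ∀ e' ∈ E, cl t e = cl t e' → lab e = lab e' → e = e')
    (hD : ∀ t h, (E.filter (fun e => cl t e = h)).card ≤ D) (h0 : κ) (p r : ℕ) (hr : 1 ≤ r) :
    ((wPair E cl lab h0 (p + r)).filter (fun x => wLs lab r x.1 = wLs lab r x.2)).card ≤
      D ^ r * r ^ r * (wPair E cl lab h0 p).card := by
  classical
  obtain ⟨r', rfl⟩ : ∃ r', r = r' + 1 := ⟨r - 1, by omega⟩
  set r := r' + 1 with hrdef
  set H := (wk E cl lab 0 h0 p).image (wEn cl 0 h0) with hH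
  set S := H.biUnion (fun h => wk E cl lab p h r) with hS
  have hSmem : ∀ s ∈ S, s ∈ wk E cl lab p (wSt cl p h0 s) r ∧ wSt cl p h0 s ∈ H := by
    intro s hs
    obtain ⟨h, hh, hs2⟩ := Finset.mem_biUnion.1 hs
    rw [wk_start E cl lab h0 p h r' s hs2]
    exact ⟨hs2, hh⟩
  have hen : ∀ s ∈ S, ∀ h, wEn cl p h s = wEn cl p h0 s := by
    intro s hs h
    have h1 := wk_length _ _ _ _ _ _ _ (hSmem s hs).1
    cases s with
    | nil => simp [hrdef] at h1
    | cons a b => rfl
  let Ls : List ε → Finset Λ := fun s => (s.map lab).toFinset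
  set B := (S ×ˢ S).filter (fun y => wEn cl p h0 y.1 = wEn cl p h0 y.2 ∧ Ls y.1 = Ls y.2) with hB
  let c : List ε → ℕ := fun s => wCnt E cl lab h0 p (wSt cl p h0 s)
  set Bad := (wPair E cl lab h0 (p + r)).filter (fun x => wLs lab r x.1 = wLs lab r x.2) with hBad
  -- decomposition of the members
  have hdec : ∀ l ∈ wk E cl lab 0 h0 (p + r), l.take r ∈ S ∧
      l.drop r ∈ (wk E cl lab 0 h0 p).filter (fun q => wEn cl 0 h0 q = wSt cl p h0 (l.take r)) ∧
      wEn cl 0 h0 l = wEn cl p h0 (l.take r) := by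
    intro l hl
    obtain ⟨h1, h2, h3⟩ := wk_split E cl lab 0 h0 p r l hl
    rw [Nat.zero_add] at h2 h3
    have h4 : l.take r ∈ S := Finset.mem_biUnion.2
      ⟨_, Finset.mem_image_of_mem _ h1, h2⟩
    refine ⟨h4, Finset.mem_filter.2 ⟨h1, ?_⟩, ?_⟩
    · rw [wk_start E cl lab h0 p _ r' _ h2]
    · rw [h3, hen _ h4]
  have hstep1 : Bad.card ≤ ∑ y ∈ B, c y.1 * c y.2 := by
    have h1 : Bad.card = ∑ y ∈ B, (Bad.filter (fun x => (x.1.take r, x.2.take r) = y)).card := by
      apply Finset.card_eq_sum_card_fiberwise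
      intro x hx
      have h2 := Finset.mem_filter.1 hx
      have h3 := Finset.mem_filter.1 h2.1
      have h4 := Finset.mem_product.1 h3.1
      obtain ⟨h5, h6, h7⟩ := hdec _ h4.1
      obtain ⟨h8, h9, h10⟩ := hdec _ h4.2
      refine Finset.mem_coe.2 (Finset.mem_filter.2 ⟨Finset.mem_product.2 ⟨h5, h8⟩, ?_, h2.2⟩)
      rw [← h7, ← h10]; exact h3.2
    rw [h1]
    apply Finset.sum_le_sum
    intro y _
    have h2 : c y.1 * c y.2 = (((wk E cl lab 0 h0 p).filter
        (fun q => wEn cl 0 h0 q = wSt cl p h0 y.1)) ×ˢ ((wk E cl lab 0 h0 p).filter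
        (fun q => wEn cl 0 h0 q = wSt cl p h0 y.2))).card := by
      rw [Finset.card_product]; rfl
    rw [h2]
    apply Finset.card_le_card_of_injOn (fun x => (x.1.drop r, x.2.drop r))
    · intro x hx
      have h3 := Finset.mem_filter.1 (Finset.mem_coe.1 hx)
      have h4 := Finset.mem_filter.1 h3.1
      have h5 := Finset.mem_product.1 (Finset.mem_filter.1 h4.1).1
      have h6 := (hdec _ h5.1).2.1
      have h7 := (hdec _ h5.2).2.1
      have h8 : y.1 = x.1.take r := by rw [← h3.2]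
      have h9 : y.2 = x.2.take r := by rw [← h3.2]
      rw [h8, h9]
      exact Finset.mem_coe.2 (Finset.mem_product.2 ⟨h6, h7⟩)
    · intro x hx x' hx' hxx
      have h3 := (Finset.mem_filter.1 (Finset.mem_coe.1 hx)).2
      have h3' := (Finset.mem_filter.1 (Finset.mem_coe.1 hx')).2
      have h4 := h3.trans h3'.symm
      have h5 := Prod.ext_iff.1 h4
      have h6 := Prod.ext_iff.1 hxx
      apply Prod.ext
      · rw [← List.take_append_drop r x.1, ← List.take_append_drop r x'.1]
        exact congrArg₂ _ h5.1 h6.1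
      · rw [← List.take_append_drop r x.2, ← List.take_append_drop r x'.2]
        exact congrArg₂ _ h5.2 h6.2
  have hstep2 : ∑ y ∈ B, c y.1 * c y.2 ≤ ∑ y ∈ B, c y.1 ^ 2 := by
    have hswap : ∑ y ∈ B, c y.2 ^ 2 = ∑ y ∈ B, c y.1 ^ 2 := by
      apply Finset.sum_nbij' (fun y => (y.2, y.1)) (fun y => (y.2, y.1))
      · intro y hy
        have h1 := Finset.mem_filter.1 hy
        have h2 := Finset.mem_product.1 h1.1
        exact Finset.mem_filter.2 ⟨Finset.mem_product.2 ⟨h2.2, h2.1⟩, h1.2.1.symm, h1.2.2.symm⟩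
      · intro y hy
        have h1 := Finset.mem_filter.1 hy
        have h2 := Finset.mem_product.1 h1.1
        exact Finset.mem_filter.2 ⟨Finset.mem_product.2 ⟨h2.2, h2.1⟩, h1.2.1.symm, h1.2.2.symm⟩
      · intro y _; rfl
      · intro y _; rfl
      · intro y _; rfl
    have h1 : ∑ y ∈ B, (2 * (c y.1 * c y.2)) ≤ ∑ y ∈ B, (c y.1 ^ 2 + c y.2 ^ 2) := by
      apply Finset.sum_le_sum
      intro y _
      have : 2 * ((c y.1 : ℤ) * c y.2) ≤ (c y.1 : ℤ) ^ 2 + (c y.2 : ℤ) ^ 2 := by
        nlinarith [sq_nonneg ((c y.1 : ℤ) - c y.2)]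
      exact_mod_cast this
    rw [← Finset.mul_sum, Finset.sum_add_distrib, hswap] at h1
    omega
  have hstep3 : ∑ y ∈ B, c y.1 ^ 2 ≤ ∑ s ∈ S, c s ^ 2 * r ^ r := by
    rw [hB, Finset.sum_filter, Finset.sum_product]
    apply Finset.sum_le_sum
    intro s hs
    rw [← Finset.sum_filter]
    simp only
    rw [Finset.sum_const, smul_eq_mul, mul_comm]
    apply Nat.mul_le_mul_left
    have h1 : S.filter (fun s' => wEn cl p h0 s = wEn cl p h0 s' ∧ Ls s = Ls s') ⊆
        rv E cl lab p (Ls s) r (wEn cl p h0 s) := by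
      intro s' hs'
      obtain ⟨h2, h3, h4⟩ := Finset.mem_filter.1 hs'
      have h5 := mem_rv E cl lab p _ (Ls s) r s' (hSmem s' h2).1 (by
        intro e he
        rw [h4]
        exact List.mem_toFinset.2 (List.mem_map.2 ⟨e, he, rfl⟩))
      rw [hen s' h2, ← h3] at h5
      exact h5
    refine le_trans (Finset.card_le_card h1) (le_trans (rv_card E cl lab hinj p _ r _) ?_)
    apply Nat.pow_le_pow_left
    refine le_trans (List.toFinset_card_le _) ?_
    rw [List.length_map, wk_length _ _ _ _ _ _ _ (hSmem s hs).1]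
  have hstep4 : ∑ s ∈ S, c s ^ 2 ≤ ∑ h ∈ H, D ^ r * wCnt E cl lab h0 p h ^ 2 := by
    rw [← Finset.sum_fiberwise_of_maps_to (s := S) (t := H) (g := wSt cl p h0)
      (fun s hs => (hSmem s hs).2)]
    apply Finset.sum_le_sum
    intro h _
    have h1 : ∀ s ∈ S.filter (fun s => wSt cl p h0 s = h), c s ^ 2 =
        wCnt E cl lab h0 p h ^ 2 := by
      intro s hs
      rw [← (Finset.mem_filter.1 hs).2]
    rw [Finset.sum_congr rfl h1, Finset.sum_const, smul_eq_mul]
    apply Nat.mul_le_mul_right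
    refine le_trans (Finset.card_le_card ?_) (wk_card E cl lab D hD p h r)
    intro s hs
    obtain ⟨h2, h3⟩ := Finset.mem_filter.1 hs
    rw [← h3]
    exact (hSmem s h2).1
  calc Bad.card ≤ ∑ s ∈ S, c s ^ 2 * r ^ r := le_trans hstep1 (le_trans hstep2 hstep3)
    _ = (∑ s ∈ S, c s ^ 2) * r ^ r := by rw [Finset.sum_mul]
    _ ≤ (∑ h ∈ H, D ^ r * wCnt E cl lab h0 p h ^ 2) * r ^ r := Nat.mul_le_mul_right _ hstep4
    _ = D ^ r * r ^ r * (wPair E cl lab h0 p).card := by
        rw [wPair_card, ← Finset.mul_sum]; ring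

theorem wk_index (j : ℕ) (h : κ) (e0 : ε) : ∀ (r : ℕ) (l : List ε), l ∈ wk E cl lab j h r →
    ∀ i, i < r → cl (j + (r - 1 - i)) (l.getD i e0) =
      if i + 1 = r then h else cl (j + (r - 1 - i)) (l.getD (i + 1) e0)
  | 0, l, _, i, hi => by omega
  | r + 1, l, hl, i, hi => by
      obtain ⟨e, l', rfl, h1, h2, h3, h4⟩ := (mem_wk_succ E cl lab j h r l).1 hl
      have hlen := wk_length E cl lab j h r l' h1
      cases i with
      | zero =>
        cases l' with
        | nil =>
          simp only [List.length_nil] at hlen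
          subst hlen
          simpa [wEn] using h3
        | cons a b =>
          have h5 : r ≠ 0 := by intro h; rw [h] at hlen; simp at hlen
          have h6 : b.length + 1 = r := by simpa using hlen
          rw [if_neg (by omega)]
          simp only [List.getD_cons_zero, List.getD_cons_succ, Nat.zero_add]
          have h7 : r + 1 - 1 - 0 = r := by omega
          rw [h7, h3]
          show cl (j + b.length + 1) a = _
          rw [Nat.add_assoc, h6]
      | succ i =>
        have h5 := wk_index j h e0 r l' h1 i (by omega)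
        have h6 : r + 1 - 1 - (i + 1) = r - 1 - i := by omega
        simp only [List.getD_cons_succ]
        rw [h6, h5]
        by_cases h7 : i + 1 = r
        · rw [if_pos h7, if_pos (by omega)]
        · rw [if_neg h7, if_neg (by omega)]

theorem wk_grow (h0 : κ) (K d' : ℕ)
    (hinj : ∀ t, ∀ e ∈ E, ∀ e' ∈ E, cl t e = cl t e' → lab e = lab e' → e = e')
    (hd0 : K + d' ≤ (E.filter (fun e => cl 0 e = h0)).card)
    (hd : ∀ t, ∀ e ∈ E, K + d' ≤ (E.filter (fun e' => cl t e' = cl t e)).card) :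
    ∀ k, k ≤ K → d' ^ k ≤ (wk E cl lab 0 h0 k).card
  | 0, _ => by simp [wk]
  | k + 1, hk => by
      have ih := wk_grow h0 K d' hinj hd0 hd k (by omega)
      have h1 : (wk E cl lab 0 h0 (k + 1)).card = ∑ l ∈ wk E cl lab 0 h0 k,
          (E.filter (fun e => cl (0 + k) e = wEn cl 0 h0 l ∧ lab e ∉ l.map lab)).card := by
        rw [wk, Finset.card_image_of_injective, Finset.card_filter, Finset.sum_product]
        · apply Finset.sum_congr rfl
          intro l _
          rw [Finset.card_filter]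
        · rintro ⟨a, b⟩ ⟨a', b'⟩ hab
          simp only [List.cons.injEq] at hab
          rw [hab.1, hab.2]
      have h2 : ∀ l ∈ wk E cl lab 0 h0 k, d' ≤
          (E.filter (fun e => cl (0 + k) e = wEn cl 0 h0 l ∧ lab e ∉ l.map lab)).card := by
        intro l hl
        have hlen := wk_length E cl lab 0 h0 k l hl
        have h3 : K + d' ≤ (E.filter (fun e => cl (0 + k) e = wEn cl 0 h0 l)).card := by
          cases l with
          | nil =>
            simp only [List.length_nil] at hlen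
            subst hlen
            exact hd0
          | cons a b =>
            have h4 := wk_mem E cl lab 0 h0 k _ hl a List.mem_cons_self
            have h5 : 0 + b.length + 1 = 0 + k := by simp at hlen; omega
            have h6 := hd (0 + k) a h4
            show K + d' ≤ (E.filter (fun e => cl (0 + k) e = cl (0 + b.length + 1) a)).card
            rw [h5]; exact h6
        have h4 : (E.filter (fun e => cl (0 + k) e = wEn cl 0 h0 l)).card ≤
            (E.filter (fun e => cl (0 + k) e = wEn cl 0 h0 l ∧ lab e ∉ l.map lab)).card + k := by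
          have h5 : E.filter (fun e => cl (0 + k) e = wEn cl 0 h0 l) ⊆
              (E.filter (fun e => cl (0 + k) e = wEn cl 0 h0 l ∧ lab e ∉ l.map lab)) ∪
              (E.filter (fun e => cl (0 + k) e = wEn cl 0 h0 l ∧ lab e ∈ l.map lab)) := by
            intro e he
            have h6 := Finset.mem_filter.1 he
            by_cases h7 : lab e ∈ l.map lab
            · exact Finset.mem_union_right _ (Finset.mem_filter.2 ⟨h6.1, h6.2, h7⟩)
            · exact Finset.mem_union_left _ (Finset.mem_filter.2 ⟨h6.1, h6.2, h7⟩)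
          have h6 : (E.filter (fun e => cl (0 + k) e = wEn cl 0 h0 l ∧ lab e ∈ l.map lab)).card ≤
              ((l.map lab).toFinset).card := by
            apply Finset.card_le_card_of_injOn lab
            · intro e he
              exact Finset.mem_coe.2 (List.mem_toFinset.2 (Finset.mem_filter.1 he).2.2)
            · intro e he e' he' hee
              have h7 := Finset.mem_filter.1 (Finset.mem_coe.1 he)
              have h8 := Finset.mem_filter.1 (Finset.mem_coe.1 he')
              exact hinj _ e h7.1 e' h8.1 (h7.2.1.trans h8.2.1.symm) hee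
          have h7 : ((l.map lab).toFinset).card ≤ k := by
            refine le_trans (List.toFinset_card_le _) ?_
            rw [List.length_map, hlen]
          calc _ ≤ _ := Finset.card_le_card h5
            _ ≤ _ := Finset.card_union_le _ _
            _ ≤ _ := by omega
        omega
      rw [h1, pow_succ]
      calc d' ^ k * d' ≤ (wk E cl lab 0 h0 k).card * d' := Nat.mul_le_mul_right _ ih
        _ = ∑ l ∈ wk E cl lab 0 h0 k, d' := by rw [Finset.sum_const, smul_eq_mul]
        _ ≤ _ := Finset.sum_le_sum h2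

theorem sum_two_pow : ∀ k : ℕ, ∑ r ∈ Finset.Icc 1 k, 2 ^ (k - r) + 1 ≤ 2 ^ k
  | 0 => by simp
  | k + 1 => by
      have ih := sum_two_pow k
      rw [Finset.sum_Icc_succ_top (by omega)]
      have h1 : ∑ r ∈ Finset.Icc 1 k, 2 ^ (k + 1 - r) = 2 * ∑ r ∈ Finset.Icc 1 k, 2 ^ (k - r) := by
        rw [Finset.mul_sum]
        apply Finset.sum_congr rfl
        intro r hr
        have h2 := (Finset.mem_Icc.1 hr).2
        rw [Nat.succ_sub h2, pow_succ, mul_comm]
      rw [h1, pow_succ, Nat.sub_self, pow_zero]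
      omega

theorem wPair_bound (D : ℕ)
    (hinj : ∀ t, ∀ e ∈ E, ∀ e' ∈ E, cl t e = cl t e' → lab e = lab e' → e = e')
    (hD : ∀ t h, (E.filter (fun e => cl t e = h)).card ≤ D) (h0 : κ) (K : ℕ)
    (hbad : ∀ k, 1 ≤ k → k ≤ K → ∀ x ∈ wPair E cl lab h0 k, ∃ r, 1 ≤ r ∧ r ≤ k ∧
      wLs lab r x.1 = wLs lab r x.2) :
    ∀ k, k ≤ K → (wPair E cl lab h0 k).card ≤ (2 * K * D) ^ k := by
  intro k
  induction k using Nat.strong_induction_on with
  | _ k ih =>
    intro hk
    rcases Nat.eq_zero_or_pos k with h | h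
    · subst h
      rw [pow_zero, wPair]
      refine le_trans (Finset.card_filter_le _ _) ?_
      rw [Finset.card_product]
      simp [wk]
    · have h1 : wPair E cl lab h0 k ⊆ (Finset.Icc 1 k).biUnion (fun r =>
          (wPair E cl lab h0 (k - r + r)).filter (fun x => wLs lab r x.1 = wLs lab r x.2)) := by
        intro x hx
        obtain ⟨r, h2, h3, h4⟩ := hbad k h hk x hx
        refine Finset.mem_biUnion.2 ⟨r, Finset.mem_Icc.2 ⟨h2, h3⟩, Finset.mem_filter.2 ⟨?_, h4⟩⟩
        rw [Nat.sub_add_cancel h3]; exact hx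
      calc (wPair E cl lab h0 k).card ≤ _ := Finset.card_le_card h1
        _ ≤ ∑ r ∈ Finset.Icc 1 k, ((wPair E cl lab h0 (k - r + r)).filter
              (fun x => wLs lab r x.1 = wLs lab r x.2)).card := Finset.card_biUnion_le
        _ ≤ ∑ r ∈ Finset.Icc 1 k, (K * D) ^ k * 2 ^ (k - r) := by
            apply Finset.sum_le_sum
            intro r hr
            obtain ⟨h2, h3⟩ := Finset.mem_Icc.1 hr
            refine le_trans (bad_card E cl lab D hinj hD h0 (k - r) r h2) ?_
            calc D ^ r * r ^ r * (wPair E cl lab h0 (k - r)).card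
                ≤ D ^ r * K ^ r * (2 * K * D) ^ (k - r) := by
                  apply Nat.mul_le_mul
                  · exact Nat.mul_le_mul_left _ (Nat.pow_le_pow_left (h3.trans hk) _)
                  · exact ih (k - r) (by omega) (by omega)
              _ = (K * D) ^ (r + (k - r)) * 2 ^ (k - r) := by
                  rw [pow_add, mul_pow K D r, mul_assoc 2 K D, mul_pow 2 (K * D)]; ring
              _ = (K * D) ^ k * 2 ^ (k - r) := by rw [Nat.add_sub_cancel' h3]
        _ = (K * D) ^ k * ∑ r ∈ Finset.Icc 1 k, 2 ^ (k - r) := by rw [Finset.mul_sum]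
        _ ≤ (K * D) ^ k * 2 ^ k := Nat.mul_le_mul_left _ (by have := sum_two_pow k; omega)
        _ = (2 * K * D) ^ k := by rw [← mul_pow]; congr 1; ring

theorem getD_mem_of_lt (l : List ε) (i : ℕ) (e0 : ε) (h : i < l.length) : l.getD i e0 ∈ l := by
  rw [List.getD_eq_getElem _ _ h]
  exact List.getElem_mem h

theorem wLs_eq (l : List ε) (k r : ℕ) (e0 : ε) (hlen : l.length = k) (hr : r ≤ k) :
    (Finset.Ico (k - r) k).image (fun t => lab (l.getD (k - 1 - t) e0)) = wLs lab r l := by
  ext x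
  simp only [wLs, Finset.mem_image, Finset.mem_Ico, List.mem_toFinset, List.mem_map]
  constructor
  · rintro ⟨t, ⟨h1, h2⟩, rfl⟩
    have h3 : k - 1 - t < r := by omega
    have h4 : k - 1 - t < l.length := by omega
    refine ⟨l.getD (k - 1 - t) e0, ?_, rfl⟩
    rw [List.getD_eq_getElem _ _ h4, List.mem_take_iff_getElem]
    exact ⟨k - 1 - t, by omega, rfl⟩
  · rintro ⟨a, ha, rfl⟩
    obtain ⟨i, hi, rfl⟩ := List.mem_take_iff_getElem.1 ha
    refine ⟨k - 1 - i, ⟨by omega, by omega⟩, ?_⟩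
    have h1 : k - 1 - (k - 1 - i) = i := by omega
    rw [h1, List.getD_eq_getElem _ _ (by omega)]

theorem good_pair_core (D : ℕ)
    (hinj : ∀ t, ∀ e ∈ E, ∀ e' ∈ E, cl t e = cl t e' → lab e = lab e' → e = e')
    (hD : ∀ t h, (E.filter (fun e => cl t e = h)).card ≤ D) (h0 : κ) (K d' : ℕ) (hK1 : 1 ≤ K)
    (hd0 : K + d' ≤ (E.filter (fun e => cl 0 e = h0)).card)
    (hd : ∀ t, ∀ e ∈ E, K + d' ≤ (E.filter (fun e' => cl t e' = cl t e)).card)
    (hK : E.card * (2 * K * D) ^ K < d' ^ (2 * K)) :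
    ∃ k, 1 ≤ k ∧ k ≤ K ∧ ∃ x ∈ wPair E cl lab h0 k, ∀ r, 1 ≤ r → r ≤ k →
      wLs lab r x.1 ≠ wLs lab r x.2 := by
  by_contra hcon
  push Not at hcon
  have h1 := wPair_bound E cl lab D hinj hD h0 K (fun k h2 h3 x hx => by
    obtain ⟨r, h4, h5, h6⟩ := hcon k h2 h3 x hx
    exact ⟨r, h4, h5, h6⟩) K le_rfl
  have h2 := wk_grow E cl lab h0 K d' hinj hd0 hd K le_rfl
  have h3 : (wk E cl lab 0 h0 K).card =
      ∑ h ∈ (wk E cl lab 0 h0 K).image (wEn cl 0 h0), wCnt E cl lab h0 K h :=
    Finset.card_eq_sum_card_image (wEn cl 0 h0) _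
  have h4 : ((wk E cl lab 0 h0 K).image (wEn cl 0 h0)).card ≤ E.card := by
    have h5 : (wk E cl lab 0 h0 K).image (wEn cl 0 h0) ⊆ E.image (cl K) := by
      intro h hh
      obtain ⟨l, hl, rfl⟩ := Finset.mem_image.1 hh
      have hlen := wk_length E cl lab 0 h0 K l hl
      cases l with
      | nil => simp at hlen; omega
      | cons a b =>
        have h6 := wk_mem E cl lab 0 h0 K _ hl a List.mem_cons_self
        refine Finset.mem_image.2 ⟨a, h6, ?_⟩
        show cl K a = cl (0 + b.length + 1) a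
        rw [List.length_cons] at hlen
        rw [Nat.zero_add, hlen]
    exact le_trans (Finset.card_le_card h5) Finset.card_image_le
  have h5 : (wk E cl lab 0 h0 K).card ^ 2 ≤ E.card * (wPair E cl lab h0 K).card := by
    rw [wPair_card, h3]
    refine le_trans sq_sum_le_card_mul_sum_sq ?_
    exact Nat.mul_le_mul_right _ h4
  have h6 : d' ^ (2 * K) ≤ (wk E cl lab 0 h0 K).card ^ 2 := by
    rw [mul_comm, pow_mul]
    exact Nat.pow_le_pow_left h2 2
  have h7 : E.card * (wPair E cl lab h0 K).card ≤ E.card * (2 * K * D) ^ K :=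
    Nat.mul_le_mul_left _ h1
  omega

end Walk

theorem exists_good_pair {ε κ Λ : Type} [DecidableEq ε] [DecidableEq κ] [DecidableEq Λ]
    (E : Finset ε) (cl : ℕ → ε → κ) (lab : ε → Λ) (d D : ℕ)
    (hinj : ∀ t, ∀ e ∈ E, ∀ e' ∈ E, cl t e = cl t e' → lab e = lab e' → e = e')
    (hd : ∀ t, ∀ e ∈ E, d ≤ (E.filter (fun e' => cl t e' = cl t e)).card)
    (hD : ∀ t, ∀ e ∈ E, (E.filter (fun e' => cl t e' = cl t e)).card ≤ D)
    (e0 : ε) (he0 : e0 ∈ E) (Y : Finset Λ) (K d' : ℕ) (hK1 : 1 ≤ K)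
    (hdK : K + Y.card + d' ≤ d) (hK : E.card * (2 * K * D) ^ K < d' ^ (2 * K)) :
    ∃ k, 1 ≤ k ∧ k ≤ K ∧ ∃ e e' : ℕ → ε,
      (∀ t < k, e t ∈ E ∧ e' t ∈ E) ∧ cl 0 (e 0) = cl 0 e0 ∧ cl 0 (e' 0) = cl 0 e0 ∧
      (∀ t, t + 1 < k → cl (t + 1) (e t) = cl (t + 1) (e (t + 1))) ∧
      (∀ t, t + 1 < k → cl (t + 1) (e' t) = cl (t + 1) (e' (t + 1))) ∧
      cl k (e (k - 1)) = cl k (e' (k - 1)) ∧
      (∀ t < k, ∀ t' < k, lab (e t) = lab (e t') → t = t') ∧
      (∀ t < k, ∀ t' < k, lab (e' t) = lab (e' t') → t = t') ∧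
      (∀ t < k, lab (e t) ∉ Y ∧ lab (e' t) ∉ Y) ∧
      (∀ r, 1 ≤ r → r ≤ k →
        (Finset.Ico (k - r) k).image (fun t => lab (e t)) ≠
          (Finset.Ico (k - r) k).image (fun t => lab (e' t))) := by
  classical
  set E' := E.filter (fun e => lab e ∉ Y) with hE'
  have hsub : E' ⊆ E := Finset.filter_subset _ _
  have hinj' : ∀ t, ∀ e ∈ E', ∀ e' ∈ E', cl t e = cl t e' → lab e = lab e' → e = e' :=
    fun t e he e' he' => hinj t e (hsub he) e' (hsub he')
  have hD' : ∀ t h, (E'.filter (fun e => cl t e = h)).card ≤ D := by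
    intro t h
    by_cases hex : ∃ e ∈ E, cl t e = h
    · obtain ⟨e, he, rfl⟩ := hex
      exact le_trans (Finset.card_le_card (Finset.filter_subset_filter _ hsub)) (hD t e he)
    · push Not at hex
      rw [Finset.filter_eq_empty_iff.2 (fun e he => hex e (hsub he))]
      simp
  have hclass : ∀ t, ∀ e ∈ E, K + d' ≤ (E'.filter (fun e' => cl t e' = cl t e)).card := by
    intro t e he
    have h1 := hd t e he
    have h2 : (E.filter (fun e' => cl t e' = cl t e)).card ≤
        (E'.filter (fun e' => cl t e' = cl t e)).card + Y.card := by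
      have h3 : E.filter (fun e' => cl t e' = cl t e) ⊆
          (E'.filter (fun e' => cl t e' = cl t e)) ∪
          (E.filter (fun e' => cl t e' = cl t e ∧ lab e' ∈ Y)) := by
        intro e' he'
        have h4 := Finset.mem_filter.1 he'
        by_cases h5 : lab e' ∈ Y
        · exact Finset.mem_union_right _ (Finset.mem_filter.2 ⟨h4.1, h4.2, h5⟩)
        · exact Finset.mem_union_left _
            (Finset.mem_filter.2 ⟨Finset.mem_filter.2 ⟨h4.1, h5⟩, h4.2⟩)
      have h4 : (E.filter (fun e' => cl t e' = cl t e ∧ lab e' ∈ Y)).card ≤ Y.card := by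
        apply Finset.card_le_card_of_injOn lab
        · intro a ha
          exact (Finset.mem_filter.1 (Finset.mem_coe.1 ha)).2.2
        · intro a ha b hb hab
          have h5 := Finset.mem_filter.1 (Finset.mem_coe.1 ha)
          have h6 := Finset.mem_filter.1 (Finset.mem_coe.1 hb)
          exact hinj t a h5.1 b h6.1 (h5.2.1.trans h6.2.1.symm) hab
      calc _ ≤ _ := Finset.card_le_card h3
        _ ≤ _ := Finset.card_union_le _ _
        _ ≤ _ := by omega
    omega
  have hK' : E'.card * (2 * K * D) ^ K < d' ^ (2 * K) :=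
    lt_of_le_of_lt (Nat.mul_le_mul_right _ (Finset.card_le_card hsub)) hK
  obtain ⟨k, hk1, hkK, ⟨l, l'⟩, hx, hgood⟩ := good_pair_core E' cl lab D hinj' hD' (cl 0 e0) K d'
    hK1 (hclass 0 e0 he0) (fun t e he => hclass t e (hsub he)) hK'
  obtain ⟨hx1, hx2⟩ := Finset.mem_filter.1 hx
  obtain ⟨hl, hl'⟩ := Finset.mem_product.1 hx1
  simp only at hx2 hl hl' hgood
  have key : ∀ l ∈ wk E' cl lab 0 (cl 0 e0) k,
      (∀ t < k, l.getD (k - 1 - t) e0 ∈ E ∧ lab (l.getD (k - 1 - t) e0) ∉ Y) ∧
      cl 0 (l.getD (k - 1 - 0) e0) = cl 0 e0 ∧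
      (∀ t, t + 1 < k → cl (t + 1) (l.getD (k - 1 - t) e0) =
        cl (t + 1) (l.getD (k - 1 - (t + 1)) e0)) ∧
      cl k (l.getD (k - 1 - (k - 1)) e0) = wEn cl 0 (cl 0 e0) l ∧
      (∀ t < k, ∀ t' < k, lab (l.getD (k - 1 - t) e0) = lab (l.getD (k - 1 - t') e0) →
        t = t') := by
    intro l hl
    have hlen := wk_length E' cl lab 0 _ k l hl
    have hidx := wk_index E' cl lab 0 (cl 0 e0) e0 k l hl
    refine ⟨?_, ?_, ?_, ?_, ?_⟩
    · intro t ht
      have h1 := wk_mem E' cl lab 0 _ k l hl _ (getD_mem_of_lt l (k - 1 - t) e0 (by omega))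
      exact ⟨hsub h1, (Finset.mem_filter.1 h1).2⟩
    · have h1 := hidx (k - 1) (by omega)
      have h2 : 0 + (k - 1 - (k - 1)) = 0 := by omega
      rw [h2, if_pos (by omega)] at h1
      exact h1
    · intro t ht
      have h1 := hidx (k - 1 - (t + 1)) (by omega)
      have h2 : 0 + (k - 1 - (k - 1 - (t + 1))) = t + 1 := by omega
      have h3 : k - 1 - (t + 1) + 1 = k - 1 - t := by omega
      rw [h2, if_neg (by omega), h3] at h1
      exact h1.symm
    · rw [Nat.sub_self]
      cases l with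
      | nil => simp at hlen; omega
      | cons a b =>
        show cl k a = cl (0 + b.length + 1) a
        rw [List.length_cons] at hlen
        rw [Nat.zero_add, hlen]
    · intro t ht t' ht' htt
      have hnd := wk_nodup E' cl lab 0 _ k l hl
      have h1 : k - 1 - t < l.length := by omega
      have h2 : k - 1 - t' < l.length := by omega
      rw [List.getD_eq_getElem _ _ h1, List.getD_eq_getElem _ _ h2] at htt
      have h3 : (l.map lab)[k - 1 - t]'(by rw [List.length_map]; exact h1) =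
          (l.map lab)[k - 1 - t']'(by rw [List.length_map]; exact h2) := by
        rw [List.getElem_map, List.getElem_map]; exact htt
      have h4 := (List.Nodup.getElem_inj_iff hnd).1 h3
      omega
  obtain ⟨a1, a2, a3, a4, a5⟩ := key l hl
  obtain ⟨b1, b2, b3, b4, b5⟩ := key l' hl'
  refine ⟨k, hk1, hkK, fun t => l.getD (k - 1 - t) e0, fun t => l'.getD (k - 1 - t) e0,
    fun t ht => ⟨(a1 t ht).1, (b1 t ht).1⟩, a2, b2, a3, b3, ?_, a5, b5,
    fun t ht => ⟨(a1 t ht).2, (b1 t ht).2⟩, ?_⟩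
  · show cl k (l.getD (k - 1 - (k - 1)) e0) = cl k (l'.getD (k - 1 - (k - 1)) e0)
    rw [a4, b4]; exact hx2
  · intro r hr hrk
    rw [wLs_eq lab l k r e0 (wk_length E' cl lab 0 _ k l hl) hrk,
      wLs_eq lab l' k r e0 (wk_length E' cl lab 0 _ k l' hl') hrk]
    exact hgood r hr hrk

end H583T
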