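import Pool.Agent.H583R2.TSI.Ent
import Pool.Agent.H583R2.TSI.Poly
import Pool.Agent.H583R2.TSI.Walk
import Pool.Agent.H583R2.TSI.Refine
import Pool.Agent.H583R2.TSI.Extract
import Pool.Agent.H583R2.TSI.Count

/-! Contracted entropy function and its basic bounds. -/

namespace H583T
open Finset

variable {Ω ι : Type} [DecidableEq ι]

/-- entropy conditional on the variables in `C` -/
noncomputable def cent (O : Finset Ω) (V : ι → Ω → ℕ) (C : Finset ι) (S : Finset ι) : ℝ :=
  ent O V (S ∪ C) - ent O V C

theorem cent_polym (O : Finset Ω) (V : ι → Ω → ℕ) (C : Finset ι) : Polym (cent O V C) where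
  empty := by simp [cent]
  mono := by
    intro S T h
    unfold cent
    have := ent_mono O V (S ∪ C) (T ∪ C) (Finset.union_subset_union h (Finset.Subset.refl _))
    linarith
  submod := by
    intro S T
    unfold cent
    have h1 := ent_submod O V (S ∪ C) (T ∪ C)
    have e1 : (S ∪ C) ∪ (T ∪ C) = (S ∪ T) ∪ C := by
      ext x; simp only [Finset.mem_union]; tauto
    have e2 : (S ∪ C) ∩ (T ∪ C) = (S ∩ T) ∪ C := by
      ext x; simp only [Finset.mem_union, Finset.mem_inter]; tauto
    rw [e1, e2] at h1
    linarith

theorem ent_le_card_mul (O : Finset Ω) (hO : O.Nonempty) (V : ι → Ω → ℕ) (M : ℕ) (hM : 1 ≤ M)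
    (S : Finset ι) (h : ∀ i ∈ S, ∀ ω ∈ O, V i ω < M) :
    ent O V S ≤ S.card * Real.log M := by
  induction S using Finset.induction_on with
  | empty => simp [ent_empty O V hO]
  | insert i S hi ih =>
    have h1 := ih (fun j hj => h j (Finset.mem_insert_of_mem hj))
    have h2 := ent_insert_le O V S i M hM (by
      intro ω hω
      have : ((O.filter (fun ω' => ∀ j ∈ S, V j ω' = V j ω)).image (V i)) ⊆ Finset.range M := by
        intro a ha
        rw [Finset.mem_image] at ha
        obtain ⟨ω', hω', rfl⟩ := ha
        rw [Finset.mem_range]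
        exact h i (Finset.mem_insert_self _ _) ω' (Finset.mem_filter.1 hω').1
      calc _ ≤ (Finset.range M).card := Finset.card_le_card this
        _ = M := Finset.card_range M)
    rw [Finset.card_insert_of_notMem hi]
    push_cast
    linarith

theorem cent_insert_le (O : Finset Ω) (V : ι → Ω → ℕ) (C S : Finset ι) (i : ι) (m : ℕ) (hm : 1 ≤ m)
    (h : ∀ ω ∈ O, ((O.filter (fun ω' => ∀ j ∈ S ∪ C, V j ω' = V j ω)).image (V i)).card ≤ m) :
    cent O V C (insert i S) ≤ cent O V C S + Real.log m := by
  unfold cent
  have := ent_insert_le O V (S ∪ C) i m hm h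
  rw [Finset.insert_union]
  linarith

theorem cent_single_le (O : Finset Ω) (V : ι → Ω → ℕ) (C : Finset ι) (i : ι) (m : ℕ) (hm : 1 ≤ m)
    (h : ∀ ω ∈ O, V i ω < m) :
    cent O V C {i} ≤ Real.log m := by
  have := cent_insert_le O V C ∅ i m hm (by
    intro ω hω
    have : ((O.filter (fun ω' => ∀ j ∈ (∅ : Finset ι) ∪ C, V j ω' = V j ω)).image (V i)) ⊆ Finset.range m := by
      intro a ha
      rw [Finset.mem_image] at ha
      obtain ⟨ω', hω', rfl⟩ := ha
      rw [Finset.mem_range]
      exact h ω' (Finset.mem_filter.1 hω').1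
    calc _ ≤ (Finset.range m).card := Finset.card_le_card this
      _ = m := Finset.card_range m)
  have h0 := (cent_polym O V C).empty
  rw [h0] at this
  simpa using this

/-- the lower bound for the entropy of one variable given others, from the total entropy -/
theorem cent_lower (O : Finset Ω) (V : ι → Ω → ℕ) (C T U : Finset ι) (i : ι)
    (hiU : i ∈ U) (hTC : T ∪ C ⊆ U.erase i) (a b : ℝ)
    (ha : a ≤ ent O V U) (hb : ent O V (U.erase i) ≤ b) :
    a - b ≤ cent O V C (insert i T) - cent O V C T := by
  unfold cent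
  have h1 := ent_submod O V (insert i T ∪ C) (U.erase i)
  have e1 : (insert i T ∪ C) ∪ U.erase i = U := by
    ext x
    simp only [Finset.mem_union, Finset.mem_insert, Finset.mem_erase]
    constructor
    · rintro ((( rfl | h) | h) | ⟨_, h⟩)
      · exact hiU
      · exact Finset.mem_of_mem_erase (hTC (Finset.mem_union_left _ h))
      · exact Finset.mem_of_mem_erase (hTC (Finset.mem_union_right _ h))
      · exact h
    · intro h
      by_cases hx : x = i
      · left; left; left; exact hx
      · right; exact ⟨hx, h⟩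
  have e2 : T ∪ C ⊆ (insert i T ∪ C) ∩ U.erase i := by
    intro x hx
    rw [Finset.mem_inter]
    refine ⟨?_, hTC hx⟩
    rcases Finset.mem_union.1 hx with h | h
    · exact Finset.mem_union_left _ (Finset.mem_insert_of_mem h)
    · exact Finset.mem_union_right _ h
  rw [e1] at h1
  have h2 := ent_mono O V _ _ e2
  linarith

end H583T
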