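import Pool.Agent.H583R2.TSI.Contr

/-! From a fixed configuration of closed walks to a contradiction. -/

namespace H583T
open Finset

/-- the inputs: two arrays of `n` numbers below `M` -/
abbrev Inp (n M : ℕ) : Type := (Fin n → Fin M) × (Fin n → Fin M)

/-- all variables: rows, columns, memory cells -/
def VV {n M : ℕ} (mem : Inp n M → ℕ → ℕ) : (Fin n ⊕ (Fin n ⊕ ℕ)) → Inp n M → ℕ
  | Sum.inl i => fun ω => (ω.1 i : ℕ)
  | Sum.inr (Sum.inl j) => fun ω => (ω.2 j : ℕ)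
  | Sum.inr (Sum.inr s) => fun ω => mem ω s

/-- the sum belonging to a pair of indices -/
def zz {n M : ℕ} (ω : Inp n M) (e : Fin n × Fin n) : ℕ := (ω.1 e.1 : ℕ) + (ω.2 e.2 : ℕ)

/-- the sum of the pair `e` is certified by the two cells `c`, `c'` (in one of the two
possible orders): the first cell is `u z`, the second one is accepted by `acc` -/
def Step {n M : ℕ} (S : ℕ) (u : ℕ → ℕ) (acc : ℕ → ℕ → ℕ → ℕ → Bool) (mem : Inp n M → ℕ → ℕ)
    (ω : Inp n M) (e : Fin n × Fin n) (c c' : ℕ) : Prop :=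
  (u (zz ω e) = c ∧ c' < S ∧ acc (zz ω e) (mem ω c) c' (mem ω c') = true) ∨
  (u (zz ω e) = c' ∧ c < S ∧ acc (zz ω e) (mem ω c') c (mem ω c) = true)

/-- correctness of the scheme with respect to the memory `mem`: a query `z` has a positive answer
iff some cell `s < S` is accepted -/
def Corr {n M : ℕ} (S : ℕ) (u : ℕ → ℕ) (acc : ℕ → ℕ → ℕ → ℕ → Bool)
    (mem : Inp n M → ℕ → ℕ) : Prop :=
  (∀ ω s, mem ω s < 2 * M) ∧
  ∀ ω : Inp n M, ∀ z, z < 2 * M →
    ((∃ s, s < S ∧ acc z (mem ω (u z)) s (mem ω s) = true) ↔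
      ∃ i j, (ω.1 i : ℕ) + (ω.2 j : ℕ) = z)

/-- index of the label variable -/
def xv {n : ℕ} (ty : Bool) (y : Fin n) : Fin n ⊕ (Fin n ⊕ ℕ) :=
  if ty then Sum.inr (Sum.inl y) else Sum.inl y

/-- the variables on which we condition -/
def cv {n : ℕ} (ty : Bool) : Finset (Fin n ⊕ (Fin n ⊕ ℕ)) :=
  univ.image (xv (!ty))

theorem xv_inj {n : ℕ} (ty : Bool) : Function.Injective (xv (n := n) ty) := by
  intro a b h
  cases ty <;> simp_all [xv]

/-- the accepted queries with given cells and contents are few -/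
theorem few_accepted {n M : ℕ} (S : ℕ) (u : ℕ → ℕ) (acc : ℕ → ℕ → ℕ → ℕ → Bool)
    (mem : Inp n M → ℕ → ℕ) (hcorr : Corr S u acc mem) (ω : Inp n M) (c c' : ℕ) :
    ((Finset.range (2 * M)).filter (fun z => u z = c ∧ c' < S ∧
      acc z (mem ω c) c' (mem ω c') = true)).card ≤ n ^ 2 := by
  have hsub : ((Finset.range (2 * M)).filter (fun z => u z = c ∧ c' < S ∧
      acc z (mem ω c) c' (mem ω c') = true)) ⊆ (univ : Finset (Fin n × Fin n)).image (zz ω) := by
    intro z hz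
    rw [Finset.mem_filter, Finset.mem_range] at hz
    obtain ⟨hz0, hz1, hz2, hz3⟩ := hz
    have := (hcorr.2 ω z hz0).1 ⟨c', hz2, by rw [hz1]; exact hz3⟩
    obtain ⟨i, j, hij⟩ := this
    rw [Finset.mem_image]
    exact ⟨(i, j), Finset.mem_univ _, hij⟩
  calc _ ≤ ((univ : Finset (Fin n × Fin n)).image (zz ω)).card := Finset.card_le_card hsub
    _ ≤ (univ : Finset (Fin n × Fin n)).card := Finset.card_image_le
    _ = n ^ 2 := by rw [Finset.card_univ, Fintype.card_prod, Fintype.card_fin]; ring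

theorem zz_lt {n M : ℕ} (ω : Inp n M) (e : Fin n × Fin n) : zz ω e < 2 * M := by
  unfold zz
  have h1 := (ω.1 e.1).isLt
  have h2 := (ω.2 e.2).isLt
  omega

/-- accepted: the sum of the pair is accepted -/
theorem zz_acc {n M : ℕ} (S : ℕ) (u : ℕ → ℕ) (acc : ℕ → ℕ → ℕ → ℕ → Bool)
    (mem : Inp n M → ℕ → ℕ) (hcorr : Corr S u acc mem) (ω : Inp n M) (e : Fin n × Fin n) :
    ∃ s, s < S ∧ acc (zz ω e) (mem ω (u (zz ω e))) s (mem ω s) = true :=
  (hcorr.2 ω (zz ω e) (zz_lt ω e)).2 ⟨e.1, e.2, rfl⟩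

theorem step_few {n M : ℕ} (S : ℕ) (u : ℕ → ℕ) (acc : ℕ → ℕ → ℕ → ℕ → Bool)
    (mem : Inp n M → ℕ → ℕ) (hcorr : Corr S u acc mem) (O : Finset (Inp n M))
    (ty : Bool) (e : Fin n × Fin n) (c c' : ℕ) (hO : ∀ ω ∈ O, Step S u acc mem ω e c c')
    (ω : Inp n M) :
    ((O.filter (fun ω' => ∀ j ∈ ({Sum.inr (Sum.inr c), Sum.inr (Sum.inr c')} :
        Finset (Fin n ⊕ (Fin n ⊕ ℕ))) ∪ cv ty, VV mem j ω' = VV mem j ω)).image
        (VV mem (xv ty (lb ty e)))).card ≤ 2 * n ^ 2 := by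
  set Z1 := ((Finset.range (2 * M)).filter (fun z => u z = c ∧ c' < S ∧
      acc z (mem ω c) c' (mem ω c') = true)) with hZ1
  set Z2 := ((Finset.range (2 * M)).filter (fun z => u z = c' ∧ c < S ∧
      acc z (mem ω c') c (mem ω c) = true)) with hZ2
  have h1 := few_accepted S u acc mem hcorr ω c c'
  have h2 := few_accepted S u acc mem hcorr ω c' c
  rw [← hZ1] at h1
  rw [← hZ2] at h2
  have hsub : ((O.filter (fun ω' => ∀ j ∈ ({Sum.inr (Sum.inr c), Sum.inr (Sum.inr c')} :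
        Finset (Fin n ⊕ (Fin n ⊕ ℕ))) ∪ cv ty, VV mem j ω' = VV mem j ω)).image
        (VV mem (xv ty (lb ty e)))) ⊆ (Z1 ∪ Z2).image (fun z => z - VV mem (xv (!ty) (lb (!ty) e)) ω) := by
    intro a ha
    rw [Finset.mem_image] at ha
    obtain ⟨ω', hω', rfl⟩ := ha
    rw [Finset.mem_filter] at hω'
    obtain ⟨hω'O, hag⟩ := hω'
    have hc : mem ω' c = mem ω c := hag (Sum.inr (Sum.inr c)) (by simp)
    have hc' : mem ω' c' = mem ω c' := hag (Sum.inr (Sum.inr c')) (by simp)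
    have hx : VV mem (xv (!ty) (lb (!ty) e)) ω' = VV mem (xv (!ty) (lb (!ty) e)) ω := by
      apply hag
      apply Finset.mem_union_right
      unfold cv
      exact Finset.mem_image_of_mem _ (Finset.mem_univ _)
    have hz : zz ω' e = VV mem (xv ty (lb ty e)) ω' + VV mem (xv (!ty) (lb (!ty) e)) ω' := by
      cases ty
      · simp [zz, VV, xv, lb]
      · simp [zz, VV, xv, lb]; ring
    rw [Finset.mem_image]
    refine ⟨zz ω' e, ?_, ?_⟩
    · rw [Finset.mem_union]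
      rcases hO ω' hω'O with ⟨s1, s2, s3⟩ | ⟨s1, s2, s3⟩
      · left
        rw [hZ1, Finset.mem_filter, Finset.mem_range]
        rw [hc, hc'] at s3
        exact ⟨zz_lt ω' e, s1, s2, s3⟩
      · right
        rw [hZ2, Finset.mem_filter, Finset.mem_range]
        rw [hc, hc'] at s3
        exact ⟨zz_lt ω' e, s1, s2, s3⟩
    · show zz ω' e - _ = _
      rw [hz, hx]
      omega
  calc _ ≤ ((Z1 ∪ Z2).image (fun z => z - VV mem (xv (!ty) (lb (!ty) e)) ω)).card :=
        Finset.card_le_card hsub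
    _ ≤ (Z1 ∪ Z2).card := Finset.card_image_le
    _ ≤ Z1.card + Z2.card := Finset.card_union_le _ _
    _ ≤ 2 * n ^ 2 := by omega

end H583T
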