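import Pool.Agent.H583R2.TSI.Core1

namespace H583T
open Finset

/-- all input variables -/
def abv (n : ℕ) : Finset (Fin n ⊕ (Fin n ⊕ ℕ)) :=
  univ.image (xv true) ∪ univ.image (xv false)

theorem xv_mem_abv {n : ℕ} (ty : Bool) (y : Fin n) : xv ty y ∈ abv n := by
  unfold abv
  cases ty
  · exact Finset.mem_union_right _ (Finset.mem_image_of_mem _ (Finset.mem_univ _))
  · exact Finset.mem_union_left _ (Finset.mem_image_of_mem _ (Finset.mem_univ _))

theorem xv_ne {n : ℕ} (ty : Bool) (y y' : Fin n) : xv ty y ≠ xv (!ty) y' := by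
  cases ty <;> simp [xv]

theorem abv_card (n : ℕ) : (abv n).card ≤ 2 * n := by
  unfold abv
  calc _ ≤ (univ.image (xv (n := n) true)).card + (univ.image (xv (n := n) false)).card :=
        Finset.card_union_le _ _
    _ ≤ (univ : Finset (Fin n)).card + (univ : Finset (Fin n)).card :=
        Nat.add_le_add Finset.card_image_le Finset.card_image_le
    _ = 2 * n := by rw [Finset.card_univ, Fintype.card_fin]; ring

theorem abv_lt {n M : ℕ} (mem : Inp n M → ℕ → ℕ) (i : Fin n ⊕ (Fin n ⊕ ℕ)) (hi : i ∈ abv n)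
    (ω : Inp n M) : VV mem i ω < M := by
  unfold abv at hi
  rcases Finset.mem_union.1 hi with h | h
  · obtain ⟨y, _, rfl⟩ := Finset.mem_image.1 h
    simp [xv, VV]
  · obtain ⟨y, _, rfl⟩ := Finset.mem_image.1 h
    simp [xv, VV]

theorem abv_full {n M : ℕ} (mem : Inp n M → ℕ → ℕ) (ω ω' : Inp n M)
    (h : ∀ i ∈ abv n, VV mem i ω' = VV mem i ω) : ω' = ω := by
  apply Prod.ext
  · funext i
    have := h (xv false i) (xv_mem_abv false i)
    simp only [xv, VV] at this
    exact Fin.ext this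
  · funext j
    have := h (xv true j) (xv_mem_abv true j)
    simp only [xv, VV] at this
    exact Fin.ext this

theorem no_big_O {n M K L NC : ℕ} (hn : 1 ≤ n) (hM : 1 ≤ M) (hNC : 2 ≤ NC)
    (S : ℕ) (u : ℕ → ℕ) (acc : ℕ → ℕ → ℕ → ℕ → Bool)
    (mem : Inp n M → ℕ → ℕ) (hcorr : Corr S u acc mem) (O : Finset (Inp n M))
    (hO : M ^ n * M ^ n ≤ NC * O.card)
    (ty : Bool) (c0 : ℕ) (hL : 2 ^ (2 * K + 1) ≤ L)
    (len : Fin L → ℕ) (ed : Fin L → ℕ → Fin n × Fin n) (ce : Fin L → ℕ → ℕ)
    (hlen1 : ∀ l, 1 ≤ len l) (hlen2 : ∀ l, len l ≤ 2 * K)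
    (h0 : ∀ l, ce l 0 = c0) (hend : ∀ l, ce l (len l) = c0)
    (hst : ∀ ω ∈ O, ∀ l t, t < len l → Step S u acc mem ω (ed l t) (ce l t) (ce l (t + 1)))
    (hnt : ∀ l, NoTight (fun t => lb ty (ed l t)) 0 (len l))
    (hdisj : ∀ l l', l ≠ l' → ∀ t t', t < len l → t' < len l' →
      lb ty (ed l t) ≠ lb ty (ed l' t'))
    (big : 2 ^ (2 * K + 3) * (((2 * K : ℕ) : ℝ) + 8) *
      (Real.log NC + Real.log (2 * (n : ℝ) ^ 2)) < Real.log M) : False := by
  have hn' : (1 : ℝ) ≤ n := by exact_mod_cast hn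
  have hNC' : (2 : ℝ) ≤ NC := by exact_mod_cast hNC
  have hM' : (1 : ℝ) ≤ M := by exact_mod_cast hM
  have hlogNC : Real.log 2 ≤ Real.log NC := Real.log_le_log (by norm_num) hNC'
  have hlog2 : 0 ≤ Real.log 2 := Real.log_nonneg (by norm_num)
  have hlogn : 0 ≤ Real.log (2 * (n : ℝ) ^ 2) := Real.log_nonneg (by nlinarith)
  have hpos : 0 < M ^ n * M ^ n := by positivity
  have hOpos : 0 < O.card := by
    rcases Nat.eq_zero_or_pos O.card with h | h
    · rw [h] at hO; omega
    · exact h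
  have hOne : O.Nonempty := Finset.card_pos.1 hOpos
  refine no_config (cent O (VV mem) (cv ty)) (cent_polym O (VV mem) (cv ty)) (xv ty) (Real.log M)
    (Real.log NC + Real.log (2 * (n : ℝ) ^ 2)) (by linarith) ?_ ?_ (2 * K) L hL
    (Sum.inr (Sum.inr c0)) len (fun l t => lb ty (ed l t)) (fun l t => Sum.inr (Sum.inr (ce l t)))
    hlen1 hlen2 (fun l => by simp [h0 l]) (fun l => by simp [hend l]) ?_ ?_ hnt hdisj ?_
  · -- P1
    intro y T hy
    have hfull : ent O (VV mem) (abv n) = Real.log O.card :=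
      ent_full O (VV mem) (abv n) (fun ω _ ω' _ h => abv_full mem ω ω' h)
    have hb : ent O (VV mem) ((abv n).erase (xv ty y)) ≤ (2 * (n : ℝ) - 1) * Real.log M := by
      have h1 := ent_le_card_mul O hOne (VV mem) M hM ((abv n).erase (xv ty y))
        (fun i hi ω _ => abv_lt mem i (Finset.mem_of_mem_erase hi) ω)
      have h2 : (((abv n).erase (xv ty y)).card : ℝ) ≤ 2 * (n : ℝ) - 1 := by
        rw [Finset.card_erase_of_mem (xv_mem_abv ty y)]
        have h3 := abv_card n
        have h4 : (abv n).card - 1 + 1 ≤ 2 * n := by omega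
        have h5 : (((abv n).card - 1 : ℕ) : ℝ) + 1 ≤ 2 * (n : ℝ) := by exact_mod_cast h4
        linarith
      calc _ ≤ (((abv n).erase (xv ty y)).card : ℝ) * Real.log M := h1
        _ ≤ (2 * (n : ℝ) - 1) * Real.log M :=
            mul_le_mul_of_nonneg_right h2 (Real.log_nonneg hM')
    have hlogO : 2 * (n : ℝ) * Real.log M ≤ Real.log NC + Real.log O.card := by
      have h1 : ((M : ℝ) ^ n * (M : ℝ) ^ n) ≤ (NC : ℝ) * (O.card : ℝ) := by exact_mod_cast hO
      have h2 := Real.log_le_log (by positivity) h1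
      rw [Real.log_mul (by positivity) (by positivity), Real.log_pow,
        Real.log_mul (by positivity) (by
          have : (0 : ℝ) < O.card := by exact_mod_cast hOpos
          positivity)] at h2
      linarith
    have key := cent_lower O (VV mem) (cv ty) (T.image (xv ty)) (abv n) (xv ty y)
      (xv_mem_abv ty y) (by
        intro i hi
        rw [Finset.mem_erase]
        rcases Finset.mem_union.1 hi with h | h
        · obtain ⟨y', hy', rfl⟩ := Finset.mem_image.1 h
          refine ⟨fun he => hy ?_, xv_mem_abv _ _⟩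
          rw [← xv_inj ty he]; exact hy'
        · unfold cv at h
          obtain ⟨y', _, rfl⟩ := Finset.mem_image.1 h
          exact ⟨(xv_ne ty y y').symm, xv_mem_abv _ _⟩)
      (Real.log O.card) ((2 * (n : ℝ) - 1) * Real.log M) (le_of_eq hfull.symm) hb
    linarith
  · -- P2
    intro y
    exact cent_single_le O (VV mem) (cv ty) (xv ty y) M hM
      (fun ω _ => abv_lt mem _ (xv_mem_abv ty y) ω)
  · -- cells
    intro l t _
    have h1 := cent_single_le O (VV mem) (cv ty) (Sum.inr (Sum.inr (ce l t))) (2 * M) (by omega)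
      (fun ω _ => hcorr.1 ω (ce l t))
    have h2 : Real.log ((2 * M : ℕ) : ℝ) = Real.log 2 + Real.log M := by
      push_cast
      rw [Real.log_mul (by norm_num) (by positivity)]
    rw [h2] at h1
    linarith
  · -- steps
    intro l t ht
    have h1 := cent_insert_le O (VV mem) (cv ty)
      ({Sum.inr (Sum.inr (ce l t)), Sum.inr (Sum.inr (ce l (t + 1)))} :
        Finset (Fin n ⊕ (Fin n ⊕ ℕ))) (xv ty (lb ty (ed l t))) (2 * n ^ 2) (by nlinarith)
      (fun ω _ => step_few S u acc mem hcorr O ty (ed l t) (ce l t) (ce l (t + 1))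
        (fun ω' hω' => hst ω' hω' l t ht) ω)
    have h2 : Real.log ((2 * n ^ 2 : ℕ) : ℝ) = Real.log (2 * (n : ℝ) ^ 2) := by push_cast; rfl
    rw [h2] at h1
    linarith
  · exact big

end H583T
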