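import Pool.Agent.H583R2.TSI.Core2

/-! From pairs of walks with a common endpoint to closed walks. -/

namespace H583T
open Finset

theorem notight_closed {Λ : Type} [DecidableEq Λ] (k : ℕ) (a b : ℕ → Λ)
    (ha : ∀ t < k, ∀ t' < k, a t = a t' → t = t')
    (hb : ∀ t < k, ∀ t' < k, b t = b t' → t = t')
    (hg : ∀ r, 1 ≤ r → r ≤ k →
      (Finset.Ico (k - r) k).image a ≠ (Finset.Ico (k - r) k).image b) :
    NoTight (fun t => if t < k then a t else b (2 * k - 1 - t)) 0 (2 * k) := by
  intro s t _ hst ht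
  by_cases h1 : t ≤ k
  · refine ⟨s, le_refl _, hst, ?_⟩
    intro p' hp1 hp2 he
    have e1 : p' < k := by omega
    have e2 : s < k := by omega
    simp only [e1, e2, if_true] at he
    exact ha _ e1 _ e2 he
  by_cases h2 : k ≤ s
  · refine ⟨s, le_refl _, hst, ?_⟩
    intro p' hp1 hp2 he
    have e1 : ¬ p' < k := by omega
    have e2 : ¬ s < k := by omega
    simp only [e1, e2, if_false] at he
    have := hb (2 * k - 1 - p') (by omega) (2 * k - 1 - s) (by omega) he
    omega
  push Not at h1 h2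
  by_contra hcon
  push Not at hcon
  -- labels of the two parts
  have hAB : (Finset.Ico s k).image a = (Finset.Ico (2 * k - t) k).image b := by
    apply Finset.Subset.antisymm
    · intro x hx
      obtain ⟨τ, hτ, rfl⟩ := Finset.mem_image.1 hx
      rw [Finset.mem_Ico] at hτ
      obtain ⟨p', hp1, hp2, he, hne⟩ := hcon τ hτ.1 (by omega)
      have e2 : τ < k := hτ.2
      by_cases e1 : p' < k
      · simp only [e1, e2, if_true] at he
        exact absurd (ha _ e1 _ e2 he) hne
      · simp only [e1, e2, if_true, if_false] at he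
        rw [Finset.mem_image]
        exact ⟨2 * k - 1 - p', Finset.mem_Ico.2 ⟨by omega, by omega⟩, he⟩
    · intro x hx
      obtain ⟨τ, hτ, rfl⟩ := Finset.mem_image.1 hx
      rw [Finset.mem_Ico] at hτ
      have e0 : 2 * k - 1 - (2 * k - 1 - τ) = τ := by omega
      obtain ⟨p', hp1, hp2, he, hne⟩ := hcon (2 * k - 1 - τ) (by omega) (by omega)
      have e2 : ¬ (2 * k - 1 - τ < k) := by omega
      by_cases e1 : p' < k
      · simp only [e1, e2, if_true, if_false, e0] at he
        rw [Finset.mem_image]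
        exact ⟨p', Finset.mem_Ico.2 ⟨hp1, e1⟩, he⟩
      · simp only [e1, e2, if_false, e0] at he
        have := hb _ (by omega) _ hτ.2 he
        omega
  have c1 : ((Finset.Ico s k).image a).card = k - s := by
    rw [Finset.card_image_of_injOn, Nat.card_Ico]
    intro x hx y hy hxy
    simp only [Finset.coe_Ico, Set.mem_Ico] at hx hy
    exact ha x hx.2 y hy.2 hxy
  have c2 : ((Finset.Ico (2 * k - t) k).image b).card = k - (2 * k - t) := by
    rw [Finset.card_image_of_injOn, Nat.card_Ico]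
    intro x hx y hy hxy
    simp only [Finset.coe_Ico, Set.mem_Ico] at hx hy
    exact hb x hx.2 y hy.2 hxy
  rw [hAB, c2] at c1
  have e3 : 2 * k - t = s := by omega
  have := hg (k - s) (by omega) (by omega)
  apply this
  have e4 : k - (k - s) = s := by omega
  rw [e4, hAB, e3]

/-- the cell read at an even (first probe) or odd (second probe) time -/
def cellAt {n M : ℕ} (u : ℕ → ℕ) (sel : Inp n M → Fin n × Fin n → ℕ) (ω : Inp n M)
    (τ : ℕ) (e : Fin n × Fin n) : ℕ :=
  if τ % 2 = 0 then u (zz ω e) else sel ω e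

/-- `sel` chooses an accepted second cell -/
def SelOK {n M : ℕ} (S : ℕ) (u : ℕ → ℕ) (acc : ℕ → ℕ → ℕ → ℕ → Bool) (mem : Inp n M → ℕ → ℕ)
    (sel : Inp n M → Fin n × Fin n → ℕ) : Prop :=
  ∀ ω e, sel ω e < S ∧ acc (zz ω e) (mem ω (u (zz ω e))) (sel ω e) (mem ω (sel ω e)) = true

theorem step_cellAt {n M : ℕ} (S : ℕ) (u : ℕ → ℕ) (acc : ℕ → ℕ → ℕ → ℕ → Bool)
    (mem : Inp n M → ℕ → ℕ) (sel : Inp n M → Fin n × Fin n → ℕ) (hsel : SelOK S u acc mem sel)
    (ω : Inp n M) (τ : ℕ) (e : Fin n × Fin n) :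
    Step S u acc mem ω e (cellAt u sel ω τ e) (cellAt u sel ω (τ + 1) e) := by
  unfold Step cellAt
  obtain ⟨h1, h2⟩ := hsel ω e
  rcases Nat.mod_two_eq_zero_or_one τ with h | h
  · have h' : (τ + 1) % 2 = 1 := by omega
    left
    simp [h, h', h1, h2]
  · have h' : (τ + 1) % 2 = 0 := by omega
    right
    simp [h, h', h1, h2]

theorem step_symm {n M : ℕ} (S : ℕ) (u : ℕ → ℕ) (acc : ℕ → ℕ → ℕ → ℕ → Bool)
    (mem : Inp n M → ℕ → ℕ) (ω : Inp n M)
    (e : Fin n × Fin n) (c c' : ℕ) (h : Step S u acc mem ω e c c') :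
    Step S u acc mem ω e c' c :=
  Or.symm h

/-- closed walks at `c0` for the input `ω`, avoiding the labels in `Y` -/
def CW {n M : ℕ} (S : ℕ) (u : ℕ → ℕ) (acc : ℕ → ℕ → ℕ → ℕ → Bool) (mem : Inp n M → ℕ → ℕ)
    (ω : Inp n M) (ty : Bool)
    (c0 K : ℕ) (Y : Finset (Fin n)) (len : ℕ) (g : ℕ → Fin n × Fin n) (s : ℕ → ℕ) : Prop :=
  1 ≤ len ∧ len ≤ 2 * K ∧ s 0 = c0 ∧ s len = c0 ∧
  (∀ t, t < len → Step S u acc mem ω (g t) (s t) (s (t + 1))) ∧
  NoTight (fun t => lb ty (g t)) 0 len ∧ (∀ t, t < len → lb ty (g t) ∉ Y)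

theorem closed_of_pair {n M : ℕ} (S : ℕ) (u : ℕ → ℕ) (acc : ℕ → ℕ → ℕ → ℕ → Bool)
    (mem : Inp n M → ℕ → ℕ) (sel : Inp n M → Fin n × Fin n → ℕ) (hsel : SelOK S u acc mem sel)
    (ω : Inp n M) (ty : Bool) (E : Finset (Fin n × Fin n)) (cl : ℕ → Fin n × Fin n → ℕ)
    (hcl : ∀ τ, ∀ e ∈ E, ∀ e' ∈ E, cl τ e = cl τ e' →
      cellAt u sel ω τ e = cellAt u sel ω τ e')
    (K : ℕ) (Y : Finset (Fin n)) (e0 : Fin n × Fin n) (he0 : e0 ∈ E)
    (k : ℕ) (hk1 : 1 ≤ k) (hkK : k ≤ K) (e e' : ℕ → Fin n × Fin n)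
    (hE : ∀ t < k, e t ∈ E ∧ e' t ∈ E)
    (h00 : cl 0 (e 0) = cl 0 e0) (h00' : cl 0 (e' 0) = cl 0 e0)
    (hw : ∀ t, t + 1 < k → cl (t + 1) (e t) = cl (t + 1) (e (t + 1)))
    (hw' : ∀ t, t + 1 < k → cl (t + 1) (e' t) = cl (t + 1) (e' (t + 1)))
    (hend : cl k (e (k - 1)) = cl k (e' (k - 1)))
    (ha : ∀ t < k, ∀ t' < k, lb ty (e t) = lb ty (e t') → t = t')
    (hb : ∀ t < k, ∀ t' < k, lb ty (e' t) = lb ty (e' t') → t = t')
    (hY : ∀ t < k, lb ty (e t) ∉ Y ∧ lb ty (e' t) ∉ Y)
    (hg : ∀ r, 1 ≤ r → r ≤ k →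
        (Finset.Ico (k - r) k).image (fun t => lb ty (e t)) ≠
          (Finset.Ico (k - r) k).image (fun t => lb ty (e' t))) :
    ∃ (len : ℕ) (g : ℕ → Fin n × Fin n) (s : ℕ → ℕ),
      CW S u acc mem ω ty (cellAt u sel ω 0 e0) K Y len g s := by
  set c0 := cellAt u sel ω 0 e0 with hc0
  refine ⟨2 * k, fun t => if t < k then e t else e' (2 * k - 1 - t),
    fun t => if t = 0 then c0 else if t ≤ k then cellAt u sel ω t (e (t - 1))
      else if t < 2 * k then cellAt u sel ω (2 * k - t) (e' (2 * k - t - 1)) else c0,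
    by omega, by omega, by simp, ?_, ?_, ?_, ?_⟩
  · have e1 : ¬ (2 * k = 0) := by omega
    have e2 : ¬ (2 * k ≤ k) := by omega
    simp [e1, e2]
  · intro t ht
    by_cases h1 : t < k
    · -- first part
      have e3 : ¬ (t + 1 = 0) := by omega
      have e4 : t + 1 ≤ k := by omega
      simp only [h1, if_true, e3, if_false, e4, Nat.add_sub_cancel]
      have hst : (if t = 0 then c0 else if t ≤ k then cellAt u sel ω t (e (t - 1))
          else if t < 2 * k then cellAt u sel ω (2 * k - t) (e' (2 * k - t - 1)) else c0)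
          = cellAt u sel ω t (e t) := by
        by_cases h0 : t = 0
        · subst h0
          simp only [if_true]
          rw [hc0]
          exact hcl 0 e0 he0 (e 0) (hE 0 (by omega)).1 h00.symm
        · have e5 : t ≤ k := by omega
          simp only [h0, if_false, e5, if_true]
          obtain ⟨t', rfl⟩ : ∃ t', t = t' + 1 := ⟨t - 1, by omega⟩
          simp only [Nat.add_sub_cancel]
          exact hcl (t' + 1) (e t') (hE t' (by omega)).1 (e (t' + 1)) (hE _ (by omega)).1
            (hw t' (by omega))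
      rw [hst]
      exact step_cellAt S u acc mem sel hsel ω t (e t)
    · -- second part
      obtain ⟨j, hj, hjk⟩ : ∃ j, 2 * k - 1 - t = j ∧ j < k := ⟨2 * k - 1 - t, rfl, by omega⟩
      have hs1 : (if t = 0 then c0 else if t ≤ k then cellAt u sel ω t (e (t - 1))
          else if t < 2 * k then cellAt u sel ω (2 * k - t) (e' (2 * k - t - 1)) else c0)
          = cellAt u sel ω (j + 1) (e' j) := by
        have e5 : ¬ t = 0 := by omega
        by_cases h2 : t ≤ k
        · have htk : t = k := by omega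
          simp only [e5, if_false, h2, if_true]
          rw [htk]
          have hj1 : j = k - 1 := by omega
          have hj2 : j + 1 = k := by omega
          rw [hj2, hj1]
          exact hcl k _ (hE _ (by omega)).1 _ (hE _ (by omega)).2 hend
        · have e6 : 2 * k - t = j + 1 := by omega
          have e7 : 2 * k - t - 1 = j := by omega
          simp only [e5, if_false, h2, ht, if_true]
          rw [e7, e6]
      have hs2 : (if t + 1 = 0 then c0 else if t + 1 ≤ k then cellAt u sel ω (t + 1) (e (t + 1 - 1))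
          else if t + 1 < 2 * k then cellAt u sel ω (2 * k - (t + 1)) (e' (2 * k - (t + 1) - 1))
          else c0) = cellAt u sel ω j (e' j) := by
        have e5 : ¬ t + 1 = 0 := by omega
        have e6 : ¬ t + 1 ≤ k := by omega
        by_cases h2 : t + 1 < 2 * k
        · simp only [e5, if_false, e6, h2, if_true]
          obtain ⟨j', rfl⟩ : ∃ j', j = j' + 1 := ⟨j - 1, by omega⟩
          have e7 : 2 * k - (t + 1) = j' + 1 := by omega
          have e8 : 2 * k - (t + 1) - 1 = j' := by omega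
          rw [e8, e7]
          exact hcl (j' + 1) (e' j') (hE j' (by omega)).2 (e' (j' + 1)) (hE _ (by omega)).2
            (hw' j' (by omega))
        · have hj0 : j = 0 := by omega
          simp only [e5, if_false, e6, h2]
          rw [hj0, hc0]
          exact hcl 0 e0 he0 (e' 0) (hE 0 (by omega)).2 h00'.symm
      simp only [h1, if_false]
      rw [hs1, hs2, hj]
      exact step_symm S u acc mem ω _ _ _ (step_cellAt S u acc mem sel hsel ω j (e' j))
  · have := notight_closed k (fun t => lb ty (e t)) (fun t => lb ty (e' t)) ha hb hg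
    have hfun : (fun t => lb ty (if t < k then e t else e' (2 * k - 1 - t))) =
        (fun t => if t < k then lb ty (e t) else lb ty (e' (2 * k - 1 - t))) := by
      funext t
      split_ifs <;> rfl
    rw [hfun]
    exact this
  · intro t ht
    by_cases h1 : t < k
    · simp only [h1, if_true]
      exact (hY t h1).1
    · simp only [h1, if_false]
      exact (hY (2 * k - 1 - t) (by omega)).2

end H583T
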