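import Pool.Agent.H583R2.TSI.Core3

/-! For a good input: many closed walks with disjoint labels. -/

namespace H583T
open Finset

theorem family_of_walks {n M : ℕ} (S : ℕ) (u : ℕ → ℕ) (acc : ℕ → ℕ → ℕ → ℕ → Bool)
    (mem : Inp n M → ℕ → ℕ)
    (ω : Inp n M) (ty : Bool) (c0 K L : ℕ)
    (h : ∀ Y : Finset (Fin n), Y.card ≤ 2 * K * L →
      ∃ (len : ℕ) (g : ℕ → Fin n × Fin n) (s : ℕ → ℕ), CW S u acc mem ω ty c0 K Y len g s) :
    ∀ q, q ≤ L → ∃ (len : ℕ → ℕ) (g : ℕ → ℕ → Fin n × Fin n) (s : ℕ → ℕ → ℕ),
      (∀ l < q, CW S u acc mem ω ty c0 K ∅ (len l) (g l) (s l)) ∧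
      (∀ l < q, ∀ l' < q, l ≠ l' → ∀ t t', t < len l → t' < len l' →
        lb ty (g l t) ≠ lb ty (g l' t')) := by
  intro q
  induction q with
  | zero =>
    intro _
    exact ⟨fun _ => 0, fun _ _ => by
      by_cases hn : 0 < n
      · exact (⟨0, hn⟩, ⟨0, hn⟩)
      · exfalso
        obtain ⟨len, g, s, _⟩ := h ∅ (by simp)
        have := (g 0).1.isLt
        omega, fun _ _ => 0, by intro l hl; omega, by intro l hl; omega⟩
  | succ q ih =>
    intro hq
    obtain ⟨len, g, s, h1, h2⟩ := ih (by omega)
    set Y : Finset (Fin n) := (Finset.range q).biUnion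
      (fun l => (Finset.range (len l)).image (fun t => lb ty (g l t))) with hY
    have hYc : Y.card ≤ 2 * K * L := by
      calc Y.card ≤ ∑ l ∈ Finset.range q,
            ((Finset.range (len l)).image (fun t => lb ty (g l t))).card := Finset.card_biUnion_le
        _ ≤ ∑ l ∈ Finset.range q, 2 * K := by
            apply Finset.sum_le_sum
            intro l hl
            calc _ ≤ (Finset.range (len l)).card := Finset.card_image_le
              _ = len l := Finset.card_range _
              _ ≤ 2 * K := (h1 l (Finset.mem_range.1 hl)).2.1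
        _ = q * (2 * K) := by rw [Finset.sum_const, Finset.card_range, smul_eq_mul]
        _ ≤ 2 * K * L := by
            rw [mul_comm]
            exact Nat.mul_le_mul_left _ (by omega)
    obtain ⟨len0, g0, s0, hnew⟩ := h Y hYc
    have hmemY : ∀ l < q, ∀ t, t < len l → lb ty (g l t) ∈ Y := by
      intro l hl t ht
      rw [hY, Finset.mem_biUnion]
      exact ⟨l, Finset.mem_range.2 hl, Finset.mem_image.2 ⟨t, Finset.mem_range.2 ht, rfl⟩⟩
    have hnewY := hnew.2.2.2.2.2.2
    refine ⟨fun l => if l < q then len l else len0, fun l => if l < q then g l else g0,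
      fun l => if l < q then s l else s0, ?_, ?_⟩
    · intro l hl
      by_cases hlq : l < q
      · simp only [hlq, if_true]
        exact h1 l hlq
      · simp only [hlq, if_false]
        obtain ⟨a1, a2, a3, a4, a5, a6, a7⟩ := hnew
        exact ⟨a1, a2, a3, a4, a5, a6, fun t _ => Finset.notMem_empty _⟩
    · intro l hl l' hl' hne t t' ht ht'
      by_cases hlq : l < q
      · by_cases hlq' : l' < q
        · simp only [hlq, hlq', if_true] at ht ht' ⊢
          exact h2 l hlq l' hlq' hne t t' ht ht'
        · simp only [hlq, hlq', if_true, if_false] at ht ht' ⊢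
          intro he
          exact hnewY t' ht' (he ▸ hmemY l hlq t ht)
      · by_cases hlq' : l' < q
        · simp only [hlq, hlq', if_true, if_false] at ht ht' ⊢
          intro he
          exact hnewY t ht (he.symm ▸ hmemY l' hlq' t' ht')
        · omega

theorem good_input_family {n M : ℕ} (hn : 1 ≤ n) (S : ℕ) (u : ℕ → ℕ)
    (acc : ℕ → ℕ → ℕ → ℕ → Bool)
    (mem : Inp n M → ℕ → ℕ) (sel : Inp n M → Fin n × Fin n → ℕ) (hsel : SelOK S u acc mem sel)
    (p : ℕ → ℕ) (K L d d' : ℕ) (hK1 : 1 ≤ K) (hd : 1 ≤ d)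
    (hpu : ∀ z < 2 * M, ∀ z' < 2 * M, p z = p z' → u z = u z')
    (hpQ : ((Finset.range (2 * M)).image p).card ≤ 2 * S)
    (H1 : 2 * S * (16 * d) ^ 2 ≤ n ^ 2)
    (H2 : K + 2 * K * L + d' ≤ d)
    (H3 : n ^ 2 * (2 * K * (16 * d)) ^ K < d' ^ (2 * K))
    (ω : Inp n M) (hω : 2 * (conf p ω).card ≤ n ^ 2) :
    ∃ (ty : Bool) (e0 : Fin n × Fin n), ∀ Y : Finset (Fin n), Y.card ≤ 2 * K * L →
      ∃ (len : ℕ) (g : ℕ → Fin n × Fin n) (s : ℕ → ℕ),
        CW S u acc mem ω ty (cellAt u sel ω 0 e0) K Y len g s := by
  classical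
  set E1 : Finset (Fin n × Fin n) := univ \ conf p ω with hE1
  have hE1c : n ^ 2 ≤ 2 * E1.card := by
    have h1 : E1.card = n ^ 2 - (conf p ω).card := by
      rw [hE1, Finset.card_sdiff_of_subset (Finset.subset_univ _), Finset.card_univ,
        Fintype.card_prod, Fintype.card_fin]
      congr 1; ring
    omega
  have hc : ∀ e ∈ E1, ∀ e' ∈ E1, p (zz ω e) = p (zz ω e') → (e.1 = e'.1 ∨ e.2 = e'.2) → e = e' := by
    intro e he e' he' hp hor
    by_contra hne
    rw [hE1, Finset.mem_sdiff] at he
    apply he.2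
    unfold conf
    rw [Finset.mem_filter]
    refine ⟨Finset.mem_univ _, ?_⟩
    rcases hor with h | h
    · left
      refine ⟨e'.2, ?_, ?_⟩
      · intro h2
        exact hne (Prod.ext h h2.symm)
      · unfold zz at hp
        rw [← h] at hp
        exact hp.symm
    · right
      refine ⟨e'.1, ?_, ?_⟩
      · intro h2
        exact hne (Prod.ext h2.symm h)
      · unfold zz at hp
        rw [← h] at hp
        exact hp.symm
  obtain ⟨E4, c4, v4, ty, hsub, hne, hc4, hv4, hci, hvi, hcd, hvd, hcm, hvm⟩ :=
    extract (16 * d) d S (2 * S) E1 (fun e => p (zz ω e))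
      (fun e => sel ω e) hc
      (by
        calc _ ≤ ((Finset.range (2 * M)).image p).card := by
              apply Finset.card_le_card
              intro a ha
              obtain ⟨e, _, rfl⟩ := Finset.mem_image.1 ha
              exact Finset.mem_image_of_mem _ (Finset.mem_range.2 (zz_lt ω e))
          _ ≤ 2 * S := hpQ)
      (by
        calc _ ≤ (Finset.range S).card := by
              apply Finset.card_le_card
              intro a ha
              obtain ⟨e, _, rfl⟩ := Finset.mem_image.1 ha
              exact Finset.mem_range.2 (hsel ω e).1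
          _ = S := Finset.card_range S)
      rfl hd (by nlinarith) (by
        rw [← Finset.card_pos]
        have : 1 ≤ n ^ 2 := Nat.one_le_pow _ _ hn
        omega)
  obtain ⟨e0, he0⟩ := hne
  refine ⟨ty, e0, ?_⟩
  intro Y hY
  have hE4c : E4.card ≤ n ^ 2 := by
    calc E4.card ≤ (univ : Finset (Fin n × Fin n)).card := Finset.card_le_univ _
      _ = n ^ 2 := by rw [Finset.card_univ, Fintype.card_prod, Fintype.card_fin]; ring
  obtain ⟨k, hk1, hkK, e, e', a1, a2, a3, a4, a5, a6, a7, a8, a9, a10⟩ :=
    exists_good_pair E4 (fun τ e => if τ % 2 = 0 then c4 e else v4 e) (lb ty) d (16 * d)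
      (by
        intro t e he e' he' h1 h2
        by_cases ht : t % 2 = 0
        · simp only [ht, if_true] at h1
          exact hci e he e' he' h1 h2
        · simp only [ht, if_false] at h1
          exact hvi e he e' he' h1 h2)
      (by
        intro t e he
        by_cases ht : t % 2 = 0
        · simp only [ht, if_true]
          exact hcd e he
        · simp only [ht, if_false]
          exact hvd e he)
      (by
        intro t e he
        by_cases ht : t % 2 = 0
        · simp only [ht, if_true]
          exact hcm e he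
        · simp only [ht, if_false]
          exact hvm e he)
      e0 he0 Y K d' hK1 (by omega)
      (by
        calc E4.card * (2 * K * (16 * d)) ^ K ≤ n ^ 2 * (2 * K * (16 * d)) ^ K :=
              Nat.mul_le_mul_right _ hE4c
          _ < d' ^ (2 * K) := H3)
  refine closed_of_pair S u acc mem sel hsel ω ty E4 (fun τ e => if τ % 2 = 0 then c4 e else v4 e) ?_ K Y e0 he0
    k hk1 hkK e e' a1 a2 a3 a4 a5 a6 a7 a8 a9 a10
  intro τ e he e' he' h1
  unfold cellAt
  by_cases ht : τ % 2 = 0
  · simp only [ht, if_true] at h1 ⊢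
    exact hpu _ (zz_lt ω e) _ (zz_lt ω e') (hc4 e he e' he' h1)
  · simp only [ht, if_false] at h1 ⊢
    exact hv4 e he e' he' h1

end H583T
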