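import Pool.Agent.H583R2.TSI.Core4

/-! The finite form of the two-probe lower bound. -/

namespace H583T
open Finset

/-- configurations of `L` closed walks -/
abbrev Cfg (n S K L : ℕ) : Type :=
  Bool × Fin S × (Fin L → Fin (2 * K + 1) × (Fin (2 * K) → Fin n × Fin n) × (Fin (2 * K + 1) → Fin S))

def cfLen {n S K L : ℕ} (κ : Cfg n S K L) (l : Fin L) : ℕ := ((κ.2.2 l).1 : ℕ)

def cfEd {n S K L : ℕ} (d0 : Fin n × Fin n) (κ : Cfg n S K L) (l : Fin L) (t : ℕ) : Fin n × Fin n :=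
  if h : t < 2 * K then (κ.2.2 l).2.1 ⟨t, h⟩ else d0

def cfCe {n S K L : ℕ} (κ : Cfg n S K L) (l : Fin L) (t : ℕ) : ℕ :=
  if h : t < 2 * K + 1 then ((κ.2.2 l).2.2 ⟨t, h⟩ : ℕ) else 0

theorem cfg_card (n S K L : ℕ) : Fintype.card (Cfg n S K L) =
    2 * (S * ((2 * K + 1) * ((n * n) ^ (2 * K) * S ^ (2 * K + 1))) ^ L) := by
  simp [Cfg, Fintype.card_prod, Fintype.card_pi, Fintype.card_fin, Finset.prod_const]

theorem notight_congr {Λ : Type} (y y' : ℕ → Λ) (b : ℕ) (h : ∀ t < b, y t = y' t)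
    (hy : NoTight y 0 b) : NoTight y' 0 b := by
  intro s t h1 h2 h3
  obtain ⟨p, p1, p2, p3⟩ := hy s t h1 h2 h3
  refine ⟨p, p1, p2, ?_⟩
  intro p' q1 q2 q3
  apply p3 p' q1 q2
  rw [h p' (by omega), h p (by omega)]
  exact q3

/-- the configuration `κ` is realised by the input `ω` -/
def GoodC {n M S K L : ℕ} (u : ℕ → ℕ) (acc : ℕ → ℕ → ℕ → ℕ → Bool) (mem : Inp n M → ℕ → ℕ)
    (d0 : Fin n × Fin n) (ω : Inp n M) (κ : Cfg n S K L) : Prop :=
  (∀ l, 1 ≤ cfLen κ l) ∧ (∀ l, cfLen κ l ≤ 2 * K) ∧ (∀ l, cfCe κ l 0 = κ.2.1) ∧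
  (∀ l, cfCe κ l (cfLen κ l) = κ.2.1) ∧
  (∀ l t, t < cfLen κ l → Step S u acc mem ω (cfEd d0 κ l t) (cfCe κ l t) (cfCe κ l (t + 1))) ∧
  (∀ l, NoTight (fun t => lb κ.1 (cfEd d0 κ l t)) 0 (cfLen κ l)) ∧
  (∀ l l', l ≠ l' → ∀ t t', t < cfLen κ l → t' < cfLen κ l' →
    lb κ.1 (cfEd d0 κ l t) ≠ lb κ.1 (cfEd d0 κ l' t'))

theorem exists_cfg {n M S K L : ℕ} (hS : 0 < S) (u : ℕ → ℕ) (acc : ℕ → ℕ → ℕ → ℕ → Bool)
    (mem : Inp n M → ℕ → ℕ) (d0 : Fin n × Fin n)
    (hu : ∀ z < 2 * M, u z < S)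
    (ω : Inp n M) (ty : Bool) (c0 : ℕ) (hc0 : c0 < S)
    (len : ℕ → ℕ) (g : ℕ → ℕ → Fin n × Fin n) (s : ℕ → ℕ → ℕ)
    (h1 : ∀ l < L, CW S u acc mem ω ty c0 K ∅ (len l) (g l) (s l))
    (h2 : ∀ l < L, ∀ l' < L, l ≠ l' → ∀ t t', t < len l → t' < len l' →
        lb ty (g l t) ≠ lb ty (g l' t')) :
    ∃ κ : Cfg n S K L, GoodC u acc mem d0 ω κ := by
  have hsS : ∀ l < L, ∀ t ≤ len l, s l t < S := by
    intro l hl t ht
    obtain ⟨a1, a2, a3, a4, a5, a6, a7⟩ := h1 l hl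
    have hstep : ∀ t < len l, s l t < S ∧ s l (t + 1) < S := by
      intro t ht
      rcases a5 t ht with ⟨b1, b2, _⟩ | ⟨b1, b2, _⟩
      · exact ⟨b1 ▸ hu _ (zz_lt _ _), b2⟩
      · exact ⟨b2, b1 ▸ hu _ (zz_lt _ _)⟩
    rcases Nat.lt_or_ge t (len l) with h | h
    · exact (hstep t h).1
    · obtain ⟨t', rfl⟩ : ∃ t', t = t' + 1 := ⟨t - 1, by omega⟩
      exact (hstep t' (by omega)).2
  refine ⟨(ty, ⟨c0, hc0⟩, fun l => (⟨len l, by have := (h1 l l.2).2.1; omega⟩,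
    fun t => g l t, fun t => if h : s l t < S then ⟨s l t, h⟩ else ⟨0, hS⟩)), ?_⟩
  set κ : Cfg n S K L := (ty, ⟨c0, hc0⟩, fun l => (⟨len l, by have := (h1 l l.2).2.1; omega⟩,
    fun t => g l t, fun t => if h : s l t < S then ⟨s l t, h⟩ else ⟨0, hS⟩)) with hκ
  have eL : ∀ l : Fin L, cfLen κ l = len l := fun l => rfl
  have eE : ∀ (l : Fin L) t, t < len l → cfEd d0 κ l t = g l t := by
    intro l t ht
    have := (h1 l l.2).2.1
    unfold cfEd
    rw [dif_pos (by omega)]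
  have eC : ∀ (l : Fin L) t, t ≤ len l → cfCe κ l t = s l t := by
    intro l t ht
    have h3 := (h1 l l.2).2.1
    unfold cfCe
    rw [dif_pos (by omega)]
    show (((if h : s l t < S then (⟨s l t, h⟩ : Fin S) else ⟨0, hS⟩) : Fin S) : ℕ) = s l t
    rw [dif_pos (hsS l l.2 t ht)]
  refine ⟨fun l => (h1 l l.2).1, fun l => (h1 l l.2).2.1, ?_, ?_, ?_, ?_, ?_⟩
  · intro l
    rw [eC l 0 (Nat.zero_le _)]
    exact (h1 l l.2).2.2.1
  · intro l
    rw [eL, eC l _ le_rfl]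
    exact (h1 l l.2).2.2.2.1
  · intro l t ht
    rw [eL] at ht
    rw [eE l t ht, eC l t (by omega), eC l (t + 1) (by omega)]
    exact (h1 l l.2).2.2.2.2.1 t ht
  · intro l
    rw [eL]
    refine notight_congr (fun t => lb ty (g l t)) _ _ ?_ (h1 l l.2).2.2.2.2.2.1
    intro t ht
    show _ = lb ty (cfEd d0 κ l t)
    rw [eE l t ht]
  · intro l l' hne t t' ht ht'
    rw [eL] at ht ht'
    rw [eE l t ht, eE l' t' ht']
    exact h2 l l.2 l' l'.2 (fun h => hne (Fin.ext h)) t t' ht ht'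

/-- **Two-probe lower bound, finite form.** -/
theorem two_probe_finite (n M S K d d' : ℕ) (hn : 1 ≤ n) (hK1 : 1 ≤ K) (hd : 1 ≤ d)
    (u : ℕ → ℕ) (acc : ℕ → ℕ → ℕ → ℕ → Bool)
    (hu : ∀ z < 2 * M, u z < S)
    (hsol : ∀ ω : Inp n M, ∃ mem : ℕ → ℕ, (∀ s, mem s < 2 * M) ∧ ∀ z < 2 * M,
      ((∃ s, s < S ∧ acc z (mem (u z)) s (mem s) = true) ↔
        ∃ i j, (ω.1 i : ℕ) + (ω.2 j : ℕ) = z))
    (H1 : 2 * S * (16 * d) ^ 2 ≤ n ^ 2)
    (H2 : K + 2 * K * 2 ^ (2 * K + 1) + d' ≤ d)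
    (H3 : n ^ 2 * (2 * K * (16 * d)) ^ K < d' ^ (2 * K))
    (H4 : 32 * n ≤ S) (H5 : S ≤ M)
    (H6 : 2 ^ (2 * K + 3) * (((2 * K : ℕ) : ℝ) + 8) *
      (Real.log ((2 * Fintype.card (Cfg n S K (2 ^ (2 * K + 1))) : ℕ) : ℝ) +
        Real.log (2 * (n : ℝ) ^ 2)) < Real.log M) : False := by
  classical
  set L := 2 ^ (2 * K + 1) with hL
  have hSpos : 0 < S := by omega
  have hMpos : 0 < M := by omega
  choose mem hmem hmcorr using hsol
  have hcorr : Corr S u acc mem := ⟨hmem, hmcorr⟩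
  choose sel hsel using fun (ω : Inp n M) (e : Fin n × Fin n) => zz_acc S u acc mem hcorr ω e
  have hsel' : SelOK S u acc mem sel := hsel
  -- refined classes
  obtain ⟨p, hp1, hp2, hp3⟩ := refine_part u (Finset.range (2 * M)) (2 * M / S + 1) (Nat.le_add_left 1 _)
  have hBS : 2 * M / (2 * M / S + 1) ≤ S := by
    apply Nat.div_le_of_le_mul
    have h1 := Nat.div_add_mod (2 * M) S
    have h2 := Nat.mod_lt (2 * M) hSpos
    nlinarith
  have hpQ : ((Finset.range (2 * M)).image p).card ≤ 2 * S := by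
    have h1 : ((Finset.range (2 * M)).image u).card ≤ S := by
      calc _ ≤ (Finset.range S).card := by
            apply Finset.card_le_card
            intro a ha
            obtain ⟨z, hz, rfl⟩ := Finset.mem_image.1 ha
            exact Finset.mem_range.2 (hu z (Finset.mem_range.1 hz))
        _ = S := Finset.card_range S
    rw [Finset.card_range] at hp3
    omega
  have hpB : ∀ c, ((Finset.range (2 * M)).filter (fun z => p z = c)).card ≤ 2 * M / S + 1 := by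
    intro c
    by_cases hc : ∃ z ∈ Finset.range (2 * M), p z = c
    · obtain ⟨z, hz, rfl⟩ := hc
      exact hp2 z hz
    · have : (Finset.range (2 * M)).filter (fun z => p z = c) = ∅ := by
        apply Finset.filter_eq_empty_iff.2
        intro z hz hzc
        exact hc ⟨z, hz, hzc⟩
      rw [this]
      simp
  have hcount := conflict_sum n M (2 * M / S + 1) p hpB
  -- most inputs have few conflicts
  set Om0 : Finset (Inp n M) := univ.filter (fun ω => 2 * (conf p ω).card ≤ n ^ 2) with hOm0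
  have hcardO : Fintype.card (Inp n M) = M ^ n * M ^ n := by
    simp [Inp, Fintype.card_prod, Fintype.card_pi, Fintype.card_fin, Finset.prod_const]
  have h8 : 8 * n * (2 * M / S + 1) ≤ M := by
    have h1 : S * (2 * M / S) ≤ 2 * M := Nat.mul_div_le (2 * M) S
    have h2 : S * (8 * n * (2 * M / S + 1)) ≤ S * M := by
      calc S * (8 * n * (2 * M / S + 1)) = 8 * n * (S * (2 * M / S)) + 8 * n * S := by ring
        _ ≤ 8 * n * (2 * M) + 8 * n * S := by
            apply Nat.add_le_add_right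
            exact Nat.mul_le_mul_left _ h1
        _ ≤ S * M := by nlinarith
    exact Nat.le_of_mul_le_mul_left h2 hSpos
  have hhalf : M ^ n * M ^ n ≤ 2 * Om0.card := by
    by_contra hcon
    push Not at hcon
    have hsplit : Om0.card + (univ \ Om0).card = M ^ n * M ^ n := by
      rw [← hcardO, ← Finset.card_univ, ← Finset.card_sdiff_add_card_inter univ Om0,
        Finset.univ_inter]
      ring
    have hbad : (univ \ Om0).card * n ^ 2 ≤
        2 * ∑ ω : Inp n M, (conf p ω).card := by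
      calc (univ \ Om0).card * n ^ 2 = ∑ ω ∈ univ \ Om0, n ^ 2 := by
            rw [Finset.sum_const, smul_eq_mul]
        _ ≤ ∑ ω ∈ univ \ Om0, 2 * (conf p ω).card := by
            apply Finset.sum_le_sum
            intro ω hω
            rw [Finset.mem_sdiff, hOm0, Finset.mem_filter] at hω
            have : ¬ (2 * (conf p ω).card ≤ n ^ 2) := fun h => hω.2 ⟨Finset.mem_univ _, h⟩
            omega
        _ ≤ ∑ ω : Inp n M, 2 * (conf p ω).card :=
            Finset.sum_le_sum_of_subset (Finset.subset_univ _)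
        _ = 2 * ∑ ω : Inp n M, (conf p ω).card := by rw [Finset.mul_sum]
    set W := M ^ n * M ^ n with hW
    set Sg := ∑ ω : Inp n M, (conf p ω).card with hSg
    have hWpos : 0 < W := by positivity
    have e1 : W < 2 * (univ \ Om0).card := by omega
    have hn2 : 0 < n ^ 2 := by positivity
    have e2 : W * n ^ 2 < 4 * Sg := by nlinarith
    have e3 : M * (W * n ^ 2) < M * (4 * Sg) := Nat.mul_lt_mul_of_pos_left e2 hMpos
    have e4 : M * (4 * Sg) ≤ n ^ 2 * W * (8 * n * (2 * M / S + 1)) := by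
      calc M * (4 * Sg) = 4 * (M * Sg) := by ring
        _ ≤ 4 * (2 * n ^ 3 * (2 * M / S + 1) * W) := Nat.mul_le_mul_left _ hcount
        _ = n ^ 2 * W * (8 * n * (2 * M / S + 1)) := by ring
    have e5 : n ^ 2 * W * (8 * n * (2 * M / S + 1)) ≤ n ^ 2 * W * M := Nat.mul_le_mul_left _ h8
    have e6 : M * (W * n ^ 2) = n ^ 2 * W * M := by ring
    omega
  -- configurations
  have d0 : Fin n × Fin n := (⟨0, hn⟩, ⟨0, hn⟩)
  have hex : ∀ ω ∈ Om0, ∃ κ : Cfg n S K L, GoodC u acc mem d0 ω κ := by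
    intro ω hω
    rw [hOm0, Finset.mem_filter] at hω
    obtain ⟨ty, e0, hall⟩ := good_input_family hn S u acc mem sel hsel' p K L d d' hK1 hd
      (fun z hz z' hz' h => hp1 z (Finset.mem_range.2 hz) z' (Finset.mem_range.2 hz') h)
      hpQ H1 H2 H3 ω hω.2
    obtain ⟨len, g, s, g1, g2⟩ := family_of_walks S u acc mem ω ty _ K L hall L le_rfl
    refine exists_cfg hSpos u acc mem d0 hu ω ty _ ?_ len g s g1 g2
    unfold cellAt
    simp only [Nat.zero_mod, if_true]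
    exact hu _ (zz_lt _ _)
  have hex' : ∀ ω : Inp n M, ∃ κ : Cfg n S K L, ω ∈ Om0 → GoodC u acc mem d0 ω κ := by
    intro ω
    by_cases h : ω ∈ Om0
    · obtain ⟨κ, hκ⟩ := hex ω h
      exact ⟨κ, fun _ => hκ⟩
    · exact ⟨(true, ⟨0, hSpos⟩, fun _ => (⟨0, by omega⟩, fun _ => d0, fun _ => ⟨0, hSpos⟩)),
        fun h' => absurd h' h⟩
  choose F hF using hex'
  -- pigeonhole
  have hpig : ∃ κ ∈ (univ : Finset (Cfg n S K L)),
      Om0.card ≤ Fintype.card (Cfg n S K L) * (Om0.filter (fun ω => F ω = κ)).card := by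
    by_contra hcon
    push Not at hcon
    have h1 : Om0.card = ∑ κ : Cfg n S K L, (Om0.filter (fun ω => F ω = κ)).card :=
      Finset.card_eq_sum_card_fiberwise (fun _ _ => Finset.mem_coe.2 (Finset.mem_univ _))
    have hne : (univ : Finset (Cfg n S K L)).Nonempty :=
      ⟨(true, ⟨0, hSpos⟩, fun _ => (⟨0, by omega⟩, fun _ => d0, fun _ => ⟨0, hSpos⟩)),
        Finset.mem_univ _⟩
    have h2 : ∑ κ : Cfg n S K L, Fintype.card (Cfg n S K L) *
        (Om0.filter (fun ω => F ω = κ)).card < ∑ κ : Cfg n S K L, Om0.card :=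
      Finset.sum_lt_sum_of_nonempty hne hcon
    rw [← Finset.mul_sum, ← h1, Finset.sum_const, Finset.card_univ, smul_eq_mul] at h2
    exact lt_irrefl _ h2
  obtain ⟨κ, _, hκ⟩ := hpig
  set O := Om0.filter (fun ω => F ω = κ) with hOdef
  have hO : M ^ n * M ^ n ≤ (2 * Fintype.card (Cfg n S K L)) * O.card := by
    calc M ^ n * M ^ n ≤ 2 * Om0.card := hhalf
      _ ≤ 2 * (Fintype.card (Cfg n S K L) * O.card) := Nat.mul_le_mul_left _ hκ
      _ = (2 * Fintype.card (Cfg n S K L)) * O.card := by ring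
  have hWpos : 0 < M ^ n * M ^ n := by positivity
  have hOpos : 0 < O.card := by
    rcases Nat.eq_zero_or_pos O.card with h | h
    · rw [h] at hO; omega
    · exact h
  have hCpos : 0 < Fintype.card (Cfg n S K L) := by
    rcases Nat.eq_zero_or_pos (Fintype.card (Cfg n S K L)) with h | h
    · rw [h] at hO; omega
    · exact h
  have hgood : ∀ ω ∈ O, GoodC u acc mem d0 ω κ := by
    intro ω hω
    rw [hOdef, Finset.mem_filter] at hω
    rw [← hω.2]
    exact hF ω hω.1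
  obtain ⟨ω0, hω0⟩ := Finset.card_pos.1 hOpos
  obtain ⟨b1, b2, b3, b4, b5, b6, b7⟩ := hgood ω0 hω0
  exact no_big_O hn hMpos (by omega) S u acc mem hcorr O hO κ.1 κ.2.1 (le_refl _)
    (cfLen κ) (cfEd d0 κ) (cfCe κ) b1 b2 b3 b4
    (fun ω hω => (hgood ω hω).2.2.2.2.1) b6 b7 H6

end H583T
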