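import Mathlib

/-! Definitions for the two-probe lower bound for 3SUM-Indexing (MP_e016b3_lc). -/

namespace H583T
open Finset

/-- number of points of `O` agreeing with `ω` on all variables in `S` -/
def agr {Ω ι : Type} (O : Finset Ω) (V : ι → Ω → ℕ) (S : Finset ι) (ω : Ω) : ℕ :=
  (O.filter (fun ω' => ∀ i ∈ S, V i ω' = V i ω)).card

/-- Shannon entropy (in nats) of the tuple of variables `V i`, `i ∈ S`, for the uniform
distribution on the finite set `O` -/
noncomputable def ent {Ω ι : Type} (O : Finset Ω) (V : ι → Ω → ℕ) (S : Finset ι) : ℝ :=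
  Real.log O.card - (∑ ω ∈ O, Real.log (agr O V S ω)) / O.card

/-- polymatroids -/
structure Polym {ι : Type} [DecidableEq ι] (h : Finset ι → ℝ) : Prop where
  empty : h ∅ = 0
  mono : ∀ S T, S ⊆ T → h S ≤ h T
  submod : ∀ S T, h (S ∪ T) + h (S ∩ T) ≤ h S + h T

/-- every nonempty interval of positions inside `[a,b)` contains a label which occurs only once
in this interval -/
def NoTight {Λ : Type} (y : ℕ → Λ) (a b : ℕ) : Prop :=
  ∀ s t, a ≤ s → s < t → t ≤ b →
    ∃ p, s ≤ p ∧ p < t ∧ ∀ p', s ≤ p' → p' < t → y p' = y p → p' = p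

/-- the pairs `(i,j)` whose sum shares its `p`-class with another sum in the same row or column -/
def conf {n M : ℕ} (p : ℕ → ℕ) (ω : (Fin n → Fin M) × (Fin n → Fin M)) : Finset (Fin n × Fin n) :=
  univ.filter (fun e =>
    (∃ j', j' ≠ e.2 ∧ p ((ω.1 e.1 : ℕ) + (ω.2 j' : ℕ)) = p ((ω.1 e.1 : ℕ) + (ω.2 e.2 : ℕ))) ∨
    (∃ i', i' ≠ e.1 ∧ p ((ω.1 i' : ℕ) + (ω.2 e.2 : ℕ)) = p ((ω.1 e.1 : ℕ) + (ω.2 e.2 : ℕ))))

/-- label of a pair: column (`true`) or row (`false`) -/
def lb {n : ℕ} (ty : Bool) (e : Fin n × Fin n) : Fin n := if ty then e.2 else e.1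

end H583T
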