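import Pool.Agent.H583R2.TSI.Defs

namespace H583T
open Finset

theorem et_agr_pos {Ω ι : Type} (O : Finset Ω) (V : ι → Ω → ℕ) (S : Finset ι) (w : Ω)
    (hw : w ∈ O) : 0 < agr O V S w := by
  unfold agr
  exact Finset.card_pos.2 ⟨w, Finset.mem_filter.2 ⟨hw, fun i _ => rfl⟩⟩

theorem et_agr_congr {Ω ι : Type} (O : Finset Ω) (V : ι → Ω → ℕ) (S : Finset ι) (u w : Ω)
    (h : ∀ i ∈ S, V i u = V i w) : agr O V S u = agr O V S w := by
  unfold agr
  congr 1
  apply Finset.filter_congr
  intro x _
  constructor
  · intro hx i hi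
    rw [hx i hi, h i hi]
  · intro hx i hi
    rw [hx i hi, h i hi]

theorem ent_empty {Ω ι : Type} (O : Finset Ω) (V : ι → Ω → ℕ) (hO : O.Nonempty) :
    ent O V ∅ = 0 := by
  have h0 : (O.card : ℝ) ≠ 0 := by exact_mod_cast (Finset.card_pos.2 hO).ne'
  unfold ent agr
  simp
  field_simp
  ring

theorem ent_mono {Ω ι : Type} (O : Finset Ω) (V : ι → Ω → ℕ) (S T : Finset ι) (h : S ⊆ T) :
    ent O V S ≤ ent O V T := by
  unfold ent
  have h1 : (∑ w ∈ O, Real.log (agr O V T w)) ≤ ∑ w ∈ O, Real.log (agr O V S w) := by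
    refine Finset.sum_le_sum fun w hw => ?_
    apply Real.log_le_log
    · exact_mod_cast et_agr_pos O V T w hw
    · have : agr O V T w ≤ agr O V S w := by
        unfold agr
        apply Finset.card_le_card
        intro x hx
        rw [Finset.mem_filter] at hx ⊢
        exact ⟨hx.1, fun i hi => hx.2 i (h hi)⟩
      exact_mod_cast this
  have h2 := div_le_div_of_nonneg_right h1 (Nat.cast_nonneg (α := ℝ) O.card)
  linarith

/-- indicator of agreement -/
noncomputable def etI {Ω ι : Type} (V : ι → Ω → ℕ) (S : Finset ι) (u w : Ω) : ℝ :=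
  if ∀ i ∈ S, V i u = V i w then 1 else 0

theorem et_agr_sum {Ω ι : Type} (O : Finset Ω) (V : ι → Ω → ℕ) (S : Finset ι) (w : Ω) :
    (agr O V S w : ℝ) = ∑ u ∈ O, etI V S u w := by
  unfold agr etI
  rw [Finset.card_filter]
  push_cast
  rfl

theorem etI_nonneg {Ω ι : Type} (V : ι → Ω → ℕ) (S : Finset ι) (u w : Ω) : 0 ≤ etI V S u w := by
  unfold etI; split_ifs <;> norm_num

theorem et_inner {Ω ι : Type} [DecidableEq ι] (O : Finset Ω) (V : ι → Ω → ℕ) (S T : Finset ι)
    (u v : Ω) :
    ∑ w ∈ O, etI V S u w * etI V T v w * (1 / (agr O V (S ∪ T) w : ℝ)) ≤ etI V (S ∩ T) v u := by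
  classical
  by_cases hex : ∃ w0 ∈ O, (∀ i ∈ S, V i u = V i w0) ∧ (∀ i ∈ T, V i v = V i w0)
  · obtain ⟨w0, hw0, hu, hv⟩ := hex
    have h1 : etI V (S ∩ T) v u = 1 := by
      unfold etI
      rw [if_pos]
      intro i hi
      rw [Finset.mem_inter] at hi
      rw [hv i hi.2, hu i hi.1]
    rw [h1]
    have h2 : ∀ w ∈ O, etI V S u w * etI V T v w * (1 / (agr O V (S ∪ T) w : ℝ)) =
        (if ∀ i ∈ S ∪ T, V i w = V i w0 then 1 else 0) * (1 / (agr O V (S ∪ T) w0 : ℝ)) := by
      intro w hw
      by_cases hc : ∀ i ∈ S ∪ T, V i w = V i w0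
      · rw [if_pos hc]
        have e1 : etI V S u w = 1 := by
          unfold etI
          rw [if_pos]
          intro i hi
          rw [hu i hi, hc i (Finset.mem_union_left _ hi)]
        have e2 : etI V T v w = 1 := by
          unfold etI
          rw [if_pos]
          intro i hi
          rw [hv i hi, hc i (Finset.mem_union_right _ hi)]
        rw [e1, e2, et_agr_congr O V (S ∪ T) w w0 hc]
        ring
      · rw [if_neg hc]
        have : etI V S u w * etI V T v w = 0 := by
          by_contra hne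
          apply hc
          have hS : etI V S u w ≠ 0 := left_ne_zero_of_mul hne
          have hT : etI V T v w ≠ 0 := right_ne_zero_of_mul hne
          unfold etI at hS hT
          have hS' : ∀ i ∈ S, V i u = V i w := by
            by_contra hcc
            rw [if_neg hcc] at hS
            exact hS rfl
          have hT' : ∀ i ∈ T, V i v = V i w := by
            by_contra hcc
            rw [if_neg hcc] at hT
            exact hT rfl
          intro i hi
          rcases Finset.mem_union.1 hi with hi | hi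
          · rw [← hS' i hi, hu i hi]
          · rw [← hT' i hi, hv i hi]
        rw [this]
        ring
    rw [Finset.sum_congr rfl h2, ← Finset.sum_mul]
    have h3 : (∑ w ∈ O, (if ∀ i ∈ S ∪ T, V i w = V i w0 then (1 : ℝ) else 0)) =
        (agr O V (S ∪ T) w0 : ℝ) := by
      rw [et_agr_sum]
      rfl
    rw [h3]
    have h4 : (agr O V (S ∪ T) w0 : ℝ) ≠ 0 := by
      exact_mod_cast (et_agr_pos O V (S ∪ T) w0 hw0).ne'
    rw [mul_one_div_cancel h4]
  · have h0 : ∀ w ∈ O, etI V S u w * etI V T v w * (1 / (agr O V (S ∪ T) w : ℝ)) = 0 := by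
      intro w hw
      have : etI V S u w * etI V T v w = 0 := by
        by_contra hne
        apply hex
        have hS : etI V S u w ≠ 0 := left_ne_zero_of_mul hne
        have hT : etI V T v w ≠ 0 := right_ne_zero_of_mul hne
        unfold etI at hS hT
        have hS' : ∀ i ∈ S, V i u = V i w := by
          by_contra hcc
          rw [if_neg hcc] at hS
          exact hS rfl
        have hT' : ∀ i ∈ T, V i v = V i w := by
          by_contra hcc
          rw [if_neg hcc] at hT
          exact hT rfl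
        exact ⟨w, hw, hS', hT'⟩
      rw [this]
      ring
    rw [Finset.sum_congr rfl h0]
    simp [etI_nonneg]

theorem et_key {Ω ι : Type} [DecidableEq ι] (O : Finset Ω) (V : ι → Ω → ℕ) (S T : Finset ι) :
    ∑ w ∈ O, ((agr O V S w : ℝ) * agr O V T w) / (agr O V (S ∪ T) w * agr O V (S ∩ T) w) ≤
      O.card := by
  have h1 : ∀ w ∈ O, ((agr O V S w : ℝ) * agr O V T w) /
      (agr O V (S ∪ T) w * agr O V (S ∩ T) w) =
      ∑ u ∈ O, ∑ v ∈ O, (1 / (agr O V (S ∩ T) u : ℝ)) *
        (etI V S u w * etI V T v w * (1 / (agr O V (S ∪ T) w : ℝ))) := by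
    intro w hw
    rw [et_agr_sum O V S w, et_agr_sum O V T w, Finset.sum_mul_sum, Finset.sum_div]
    refine Finset.sum_congr rfl fun u hu => ?_
    rw [Finset.sum_div]
    refine Finset.sum_congr rfl fun v hv => ?_
    by_cases hS : ∀ i ∈ S, V i u = V i w
    · have : agr O V (S ∩ T) u = agr O V (S ∩ T) w :=
        et_agr_congr O V (S ∩ T) u w fun i hi => hS i (Finset.mem_inter.1 hi).1
      rw [this]
      have h4 : (agr O V (S ∪ T) w : ℝ) ≠ 0 := by
        exact_mod_cast (et_agr_pos O V (S ∪ T) w hw).ne'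
      have h5 : (agr O V (S ∩ T) w : ℝ) ≠ 0 := by
        exact_mod_cast (et_agr_pos O V (S ∩ T) w hw).ne'
      field_simp
    · have : etI V S u w = 0 := by
        unfold etI
        rw [if_neg hS]
      rw [this]
      simp
  rw [Finset.sum_congr rfl h1, Finset.sum_comm]
  have h2 : ∀ u ∈ O, (∑ w ∈ O, ∑ v ∈ O, (1 / (agr O V (S ∩ T) u : ℝ)) *
        (etI V S u w * etI V T v w * (1 / (agr O V (S ∪ T) w : ℝ)))) ≤ 1 := by
    intro u hu
    rw [Finset.sum_comm]
    have h5 : (0 : ℝ) < (agr O V (S ∩ T) u : ℝ) := by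
      exact_mod_cast (et_agr_pos O V (S ∩ T) u hu)
    calc (∑ v ∈ O, ∑ w ∈ O, (1 / (agr O V (S ∩ T) u : ℝ)) *
        (etI V S u w * etI V T v w * (1 / (agr O V (S ∪ T) w : ℝ))))
        = ∑ v ∈ O, (1 / (agr O V (S ∩ T) u : ℝ)) * ∑ w ∈ O,
          (etI V S u w * etI V T v w * (1 / (agr O V (S ∪ T) w : ℝ))) := by
          refine Finset.sum_congr rfl fun v _ => ?_
          rw [Finset.mul_sum]
      _ ≤ ∑ v ∈ O, (1 / (agr O V (S ∩ T) u : ℝ)) * etI V (S ∩ T) v u := by
          refine Finset.sum_le_sum fun v _ => ?_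
          exact mul_le_mul_of_nonneg_left (et_inner O V S T u v) (by positivity)
      _ = 1 := by
          rw [← Finset.mul_sum, ← et_agr_sum]
          field_simp
  refine le_trans (Finset.sum_le_sum h2) ?_
  simp

theorem ent_submod {Ω ι : Type} [DecidableEq ι] (O : Finset Ω) (V : ι → Ω → ℕ) (S T : Finset ι) :
    ent O V (S ∪ T) + ent O V (S ∩ T) ≤ ent O V S + ent O V T := by
  rcases O.eq_empty_or_nonempty with rfl | hO
  · simp [ent]
  have h0 : (0 : ℝ) < (O.card : ℝ) := by exact_mod_cast (Finset.card_pos.2 hO)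
  have hkey := et_key O V S T
  have h1 : ∀ w ∈ O, 1 - ((agr O V S w : ℝ) * agr O V T w) /
      (agr O V (S ∪ T) w * agr O V (S ∩ T) w) ≤
      Real.log (agr O V (S ∪ T) w) + Real.log (agr O V (S ∩ T) w) -
        Real.log (agr O V S w) - Real.log (agr O V T w) := by
    intro w hw
    have a1 : (0 : ℝ) < agr O V (S ∪ T) w := by exact_mod_cast et_agr_pos O V (S ∪ T) w hw
    have a2 : (0 : ℝ) < agr O V (S ∩ T) w := by exact_mod_cast et_agr_pos O V (S ∩ T) w hw
    have a3 : (0 : ℝ) < agr O V S w := by exact_mod_cast et_agr_pos O V S w hw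
    have a4 : (0 : ℝ) < agr O V T w := by exact_mod_cast et_agr_pos O V T w hw
    have h := Real.one_sub_inv_le_log_of_pos (x := ((agr O V (S ∪ T) w : ℝ) * agr O V (S ∩ T) w) /
      ((agr O V S w : ℝ) * agr O V T w)) (by positivity)
    rw [inv_div, Real.log_div (by positivity) (by positivity), Real.log_mul a1.ne' a2.ne',
      Real.log_mul a3.ne' a4.ne'] at h
    linarith
  have h2 := Finset.sum_le_sum h1
  rw [Finset.sum_sub_distrib, Finset.sum_sub_distrib, Finset.sum_sub_distrib,
    Finset.sum_add_distrib] at h2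
  simp only [Finset.sum_const, nsmul_eq_mul, mul_one] at h2
  unfold ent
  have h3 : (∑ w ∈ O, Real.log (agr O V S w)) + (∑ w ∈ O, Real.log (agr O V T w)) ≤
      (∑ w ∈ O, Real.log (agr O V (S ∪ T) w)) + ∑ w ∈ O, Real.log (agr O V (S ∩ T) w) := by
    linarith
  have h4 := div_le_div_of_nonneg_right h3 h0.le
  rw [add_div, add_div] at h4
  linarith

theorem et_fib {Ω : Type} (C : Finset Ω) (g : Ω → ℕ) :
    ∑ w ∈ C, (fun c => 1 / (((C.filter (fun a => g a = c)).card : ℝ))) (g w) =
      ((C.image g).card : ℝ) := by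
  rw [Finset.sum_comp (fun c => 1 / (((C.filter (fun a => g a = c)).card : ℝ))) g]
  have e4 : ∀ b ∈ C.image g, (C.filter (fun a => g a = b)).card •
      (1 / (((C.filter (fun a => g a = b)).card : ℝ))) = 1 := by
    intro b hb
    obtain ⟨a, ha, rfl⟩ := Finset.mem_image.1 hb
    have : 0 < (C.filter (fun x => g x = g a)).card :=
      Finset.card_pos.2 ⟨a, Finset.mem_filter.2 ⟨ha, rfl⟩⟩
    have hne : ((C.filter (fun x => g x = g a)).card : ℝ) ≠ 0 := by exact_mod_cast this.ne'
    rw [nsmul_eq_mul]
    exact mul_one_div_cancel hne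
  rw [Finset.sum_congr rfl e4]
  simp

theorem ent_insert_le {Ω ι : Type} [DecidableEq ι] (O : Finset Ω) (V : ι → Ω → ℕ) (S : Finset ι)
    (i : ι) (m : ℕ) (hm : 1 ≤ m)
    (h : ∀ ω ∈ O, ((O.filter (fun ω' => ∀ j ∈ S, V j ω' = V j ω)).image (V i)).card ≤ m) :
    ent O V (insert i S) ≤ ent O V S + Real.log m := by
  have hlogm : 0 ≤ Real.log m := Real.log_natCast_nonneg m
  rcases O.eq_empty_or_nonempty with rfl | hO
  · simpa [ent] using hlogm
  have h0 : (0 : ℝ) < (O.card : ℝ) := by exact_mod_cast (Finset.card_pos.2 hO)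
  have hmR : (0 : ℝ) < (m : ℝ) := by exact_mod_cast hm
  -- key sum
  have hsum : ∑ w ∈ O, (agr O V S w : ℝ) / agr O V (insert i S) w ≤ m * O.card := by
    have e1 : ∀ w ∈ O, (agr O V S w : ℝ) / agr O V (insert i S) w =
        ∑ u ∈ O, etI V S u w * (1 / (agr O V (insert i S) w : ℝ)) := by
      intro w _
      rw [et_agr_sum O V S w, Finset.sum_div]
      refine Finset.sum_congr rfl fun u _ => ?_
      ring
    rw [Finset.sum_congr rfl e1, Finset.sum_comm]
    have e2 : ∀ u ∈ O, ∑ w ∈ O, etI V S u w * (1 / (agr O V (insert i S) w : ℝ)) ≤ m := by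
      intro u hu
      have e3 : ∑ w ∈ O, etI V S u w * (1 / (agr O V (insert i S) w : ℝ)) =
          ∑ w ∈ O.filter (fun w => ∀ j ∈ S, V j w = V j u),
            (fun c => 1 / (((O.filter (fun w => ∀ j ∈ S, V j w = V j u)).filter
              (fun a => V i a = c)).card : ℝ)) (V i w) := by
        rw [Finset.sum_filter]
        refine Finset.sum_congr rfl fun w hw => ?_
        by_cases hc : ∀ j ∈ S, V j w = V j u
        · rw [if_pos hc]
          have : etI V S u w = 1 := by
            unfold etI
            rw [if_pos]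
            intro j hj
            exact (hc j hj).symm
          rw [this, one_mul]
          have : agr O V (insert i S) w = ((O.filter (fun w => ∀ j ∈ S, V j w = V j u)).filter
              (fun a => V i a = V i w)).card := by
            unfold agr
            rw [Finset.filter_filter]
            congr 1
            apply Finset.filter_congr
            intro x _
            constructor
            · intro hx
              refine ⟨fun j hj => ?_, hx i (Finset.mem_insert_self _ _)⟩
              rw [hx j (Finset.mem_insert_of_mem hj), hc j hj]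
            · rintro ⟨hx1, hx2⟩ j hj
              rcases Finset.mem_insert.1 hj with rfl | hj
              · exact hx2
              · rw [hx1 j hj, hc j hj]
          rw [this]
        · rw [if_neg hc]
          have : etI V S u w = 0 := by
            unfold etI
            rw [if_neg]
            intro hcc
            exact hc fun j hj => (hcc j hj).symm
          rw [this, zero_mul]
      rw [e3, et_fib]
      exact_mod_cast h u hu
    refine le_trans (Finset.sum_le_sum e2) ?_
    simp [mul_comm]
  have h1 : ∀ w ∈ O, Real.log (agr O V S w) - Real.log (agr O V (insert i S) w) ≤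
      Real.log m + (((agr O V S w : ℝ) / agr O V (insert i S) w) / m - 1) := by
    intro w hw
    have a1 : (0 : ℝ) < agr O V (insert i S) w := by
      exact_mod_cast et_agr_pos O V (insert i S) w hw
    have a3 : (0 : ℝ) < agr O V S w := by exact_mod_cast et_agr_pos O V S w hw
    have hh := Real.log_le_sub_one_of_pos
      (x := ((agr O V S w : ℝ) / agr O V (insert i S) w) / m) (by positivity)
    rw [Real.log_div (by positivity) hmR.ne', Real.log_div a3.ne' a1.ne'] at hh
    linarith
  have h2 := Finset.sum_le_sum h1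
  rw [Finset.sum_sub_distrib, Finset.sum_add_distrib, Finset.sum_sub_distrib,
    ← Finset.sum_div] at h2
  simp only [Finset.sum_const, nsmul_eq_mul, mul_one] at h2
  have h3 : (∑ w ∈ O, (agr O V S w : ℝ) / agr O V (insert i S) w) / m ≤ O.card := by
    rw [div_le_iff₀ hmR]
    linarith
  have h4 : (∑ w ∈ O, Real.log (agr O V S w)) ≤
      (∑ w ∈ O, Real.log (agr O V (insert i S) w)) + O.card * Real.log m := by
    linarith
  unfold ent
  have h5 := div_le_div_of_nonneg_right h4 h0.le
  rw [add_div, mul_div_cancel_left₀ _ h0.ne'] at h5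
  linarith

theorem ent_full {Ω ι : Type} (O : Finset Ω) (V : ι → Ω → ℕ) (S : Finset ι)
    (h : ∀ ω ∈ O, ∀ ω' ∈ O, (∀ i ∈ S, V i ω' = V i ω) → ω' = ω) :
    ent O V S = Real.log O.card := by
  unfold ent
  have h1 : ∀ w ∈ O, Real.log (agr O V S w) = 0 := by
    intro w hw
    have : agr O V S w = 1 := by
      unfold agr
      rw [Finset.card_eq_one]
      refine ⟨w, ?_⟩
      ext x
      rw [Finset.mem_filter, Finset.mem_singleton]
      constructor
      · rintro ⟨hx, hx'⟩
        exact h w hw x hx hx'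
      · rintro rfl
        exact ⟨hw, fun i _ => rfl⟩
    rw [this]
    simp
  rw [Finset.sum_congr rfl h1]
  simp

end H583T
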