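import Pool.Agent.H583R2.TSI.Defs

namespace H583T
open Finset

/-! ### T1 entropy -/
theorem ent_empty {Ω ι : Type} (O : Finset Ω) (V : ι → Ω → ℕ) (hO : O.Nonempty) :
    ent O V ∅ = 0 := by sorry

theorem ent_mono {Ω ι : Type} (O : Finset Ω) (V : ι → Ω → ℕ) (S T : Finset ι) (h : S ⊆ T) :
    ent O V S ≤ ent O V T := by sorry

theorem ent_submod {Ω ι : Type} [DecidableEq ι] (O : Finset Ω) (V : ι → Ω → ℕ) (S T : Finset ι) :
    ent O V (S ∪ T) + ent O V (S ∩ T) ≤ ent O V S + ent O V T := by sorry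

theorem ent_insert_le {Ω ι : Type} [DecidableEq ι] (O : Finset Ω) (V : ι → Ω → ℕ) (S : Finset ι)
    (i : ι) (m : ℕ) (hm : 1 ≤ m)
    (h : ∀ ω ∈ O, ((O.filter (fun ω' => ∀ j ∈ S, V j ω' = V j ω)).image (V i)).card ≤ m) :
    ent O V (insert i S) ≤ ent O V S + Real.log m := by sorry

theorem ent_full {Ω ι : Type} (O : Finset Ω) (V : ι → Ω → ℕ) (S : Finset ι)
    (h : ∀ ω ∈ O, ∀ ω' ∈ O, (∀ i ∈ S, V i ω' = V i ω) → ω' = ω) :
    ent O V S = Real.log O.card := by sorry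

/-! ### T2 polymatroid lemma -/
theorem no_config {ι Λ : Type} [DecidableEq ι] [DecidableEq Λ] (h : Finset ι → ℝ)
    (hp : Polym h) (x : Λ → ι) (lam η : ℝ) (hη : 0 ≤ η)
    (P1 : ∀ (y : Λ) (T : Finset Λ), y ∉ T →
      lam - η ≤ h (insert (x y) (T.image x)) - h (T.image x))
    (P2 : ∀ y, h {x y} ≤ lam)
    (m L : ℕ) (hL : 2 ^ (m + 1) ≤ L) (r0 : ι)
    (len : Fin L → ℕ) (lab : Fin L → ℕ → Λ) (cell : Fin L → ℕ → ι)
    (hlen1 : ∀ l, 1 ≤ len l) (hlen2 : ∀ l, len l ≤ m)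
    (h0 : ∀ l, cell l 0 = r0) (hend : ∀ l, cell l (len l) = r0)
    (hc : ∀ l t, t ≤ len l → h {cell l t} ≤ lam + η)
    (hs : ∀ l t, t < len l →
      h {x (lab l t), cell l t, cell l (t + 1)} ≤ h {cell l t, cell l (t + 1)} + η)
    (hnt : ∀ l, NoTight (lab l) 0 (len l))
    (hdisj : ∀ l l', l ≠ l' → ∀ t t', t < len l → t' < len l' → lab l t ≠ lab l' t')
    (big : 2 ^ (m + 3) * ((m : ℝ) + 8) * η < lam) : False := by sorry

/-! ### T3 walks -/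
theorem exists_good_pair {ε κ Λ : Type} [DecidableEq ε] [DecidableEq κ] [DecidableEq Λ]
    (E : Finset ε) (cl : ℕ → ε → κ) (lab : ε → Λ) (d D : ℕ)
    (hinj : ∀ t, ∀ e ∈ E, ∀ e' ∈ E, cl t e = cl t e' → lab e = lab e' → e = e')
    (hd : ∀ t, ∀ e ∈ E, d ≤ (E.filter (fun e' => cl t e' = cl t e)).card)
    (hD : ∀ t, ∀ e ∈ E, (E.filter (fun e' => cl t e' = cl t e)).card ≤ D)
    (e0 : ε) (he0 : e0 ∈ E) (Y : Finset Λ) (K d' : ℕ) (hK1 : 1 ≤ K)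
    (hdK : K + Y.card + d' ≤ d) (hK : E.card * (2 * K * D) ^ K < d' ^ (2 * K)) :
    ∃ k, 1 ≤ k ∧ k ≤ K ∧ ∃ e e' : ℕ → ε,
      (∀ t < k, e t ∈ E ∧ e' t ∈ E) ∧ cl 0 (e 0) = cl 0 e0 ∧ cl 0 (e' 0) = cl 0 e0 ∧
      (∀ t, t + 1 < k → cl (t + 1) (e t) = cl (t + 1) (e (t + 1))) ∧
      (∀ t, t + 1 < k → cl (t + 1) (e' t) = cl (t + 1) (e' (t + 1))) ∧
      cl k (e (k - 1)) = cl k (e' (k - 1)) ∧
      (∀ t < k, ∀ t' < k, lab (e t) = lab (e t') → t = t') ∧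
      (∀ t < k, ∀ t' < k, lab (e' t) = lab (e' t') → t = t') ∧
      (∀ t < k, lab (e t) ∉ Y ∧ lab (e' t) ∉ Y) ∧
      (∀ r, 1 ≤ r → r ≤ k →
        (Finset.Ico (k - r) k).image (fun t => lab (e t)) ≠
          (Finset.Ico (k - r) k).image (fun t => lab (e' t))) := by sorry

/-! ### T4 refining a partition -/
theorem refine_part {α : Type} [DecidableEq α] (p : α → ℕ) (E : Finset α) (B : ℕ) (hB : 1 ≤ B) :
    ∃ p' : α → ℕ, (∀ e ∈ E, ∀ e' ∈ E, p' e = p' e' → p e = p e') ∧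
      (∀ e ∈ E, (E.filter (fun e' => p' e' = p' e)).card ≤ B) ∧
      (E.image p').card ≤ (E.image p).card + E.card / B := by sorry

/-! ### T5 extraction of a nearly regular labelled structure -/
theorem extract {n : ℕ} (mu d S Q : ℕ) (E1 : Finset (Fin n × Fin n)) (c v : Fin n × Fin n → ℕ)
    (hc : ∀ e ∈ E1, ∀ e' ∈ E1, c e = c e' → (e.1 = e'.1 ∨ e.2 = e'.2) → e = e')
    (hcQ : (E1.image c).card ≤ Q) (hvS : (E1.image v).card ≤ S)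
    (hmu : mu = 16 * d) (hd : 1 ≤ d) (hsize : (Q + S) * mu ^ 2 ≤ 3 * E1.card)
    (hne : E1.Nonempty) :
    ∃ (E4 : Finset (Fin n × Fin n)) (c4 v4 : Fin n × Fin n → ℕ) (ty : Bool),
      E4 ⊆ E1 ∧ E4.Nonempty ∧
      (∀ e ∈ E4, ∀ e' ∈ E4, c4 e = c4 e' → c e = c e') ∧
      (∀ e ∈ E4, ∀ e' ∈ E4, v4 e = v4 e' → v e = v e') ∧
      (∀ e ∈ E4, ∀ e' ∈ E4, c4 e = c4 e' → lb ty e = lb ty e' → e = e') ∧
      (∀ e ∈ E4, ∀ e' ∈ E4, v4 e = v4 e' → lb ty e = lb ty e' → e = e') ∧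
      (∀ e ∈ E4, d ≤ (E4.filter (fun e' => c4 e' = c4 e)).card) ∧
      (∀ e ∈ E4, d ≤ (E4.filter (fun e' => v4 e' = v4 e)).card) ∧
      (∀ e ∈ E4, (E4.filter (fun e' => c4 e' = c4 e)).card ≤ mu) ∧
      (∀ e ∈ E4, (E4.filter (fun e' => v4 e' = v4 e)).card ≤ mu) := by sorry

/-! ### T6 counting conflicts -/
theorem conflict_sum (n M B : ℕ) (p : ℕ → ℕ)
    (hB : ∀ c, ((Finset.range (2 * M)).filter (fun z => p z = c)).card ≤ B) :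
    M * ∑ ω : (Fin n → Fin M) × (Fin n → Fin M), (conf p ω).card ≤
      2 * n ^ 3 * B * (M ^ n * M ^ n) := by sorry

end H583T
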