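import Pool.Agent.H583R2.TSI.Defs

namespace H583T
open Finset

/-! ### T7 tail bound for conflicts in one row -/
theorem tail_count (n M B t : ℕ) (ht : 16 * t ≤ n + 15) (p : ℕ → ℕ)
    (hB : ∀ c, ((Finset.range (2 * M)).filter (fun z => p z = c)).card ≤ B) (a : ℕ) (ha : a < M) :
    (univ.filter (fun b : Fin n → Fin M => n ≤ 8 * (univ.filter (fun j : Fin n =>
        ∃ j', j' ≠ j ∧ p (a + (b j' : ℕ)) = p (a + (b j : ℕ)))).card)).card * M ^ t ≤
      2 ^ n * (n * B) ^ t * M ^ n := by sorry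

end H583T
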