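import Pool.Agent.H583R2.TSI.VDefs

namespace H583T
open Finset

/-! ### U1 sequential lower tail (exponential moments, induction on `n`) -/
theorem seq_tail (n M : ℕ) (F : Fin n → (Fin n → Fin M) → ℝ) (mu s : ℝ)
    (hmu0 : 0 ≤ mu) (hmu : mu ≤ 1)
    (h0 : ∀ j x, 0 ≤ F j x) (h1 : ∀ j x, F j x ≤ 1)
    (hdep : ∀ j x x', (∀ i, i ≤ j → x i = x' i) → F j x = F j x')
    (hmean : ∀ j x, mu * M ≤ ∑ y : Fin M, F j (Function.update x j y)) :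
    (((univ : Finset (Fin n → Fin M)).filter (fun x => ∑ j, F j x ≤ s)).card : ℝ) ≤
      (M : ℝ) ^ n * (2 : ℝ) ^ s * (1 - mu / 2) ^ n := by sorry

/-! ### U2 phase 1 : the rows `a` -/
theorem phase1 (n M B q0 D : ℕ) (Q : Finset ℕ) (p : ℕ → ℕ)
    (hQ : ∀ z ∈ Q, M ≤ 2 * z + 2 ∧ 2 * z + 2 ≤ 3 * M) (hQc : Q.card = q0)
    (hB : ∀ c, (Q.filter (fun z => p z = c)).card ≤ B)
    (hD : D * M ≤ q0 * n) (hDB : 16 * (D * B) ≤ q0) :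
    ∃ N : (Fin n → Fin M) → Fin M → Finset (Fin n),
      (∀ a b, (N a b).card ≤ D) ∧
      (∀ a b, ∀ i ∈ N a b, (a i : ℕ) + (b : ℕ) ∈ Q) ∧
      (∀ a b, ∀ i ∈ N a b, ∀ i' ∈ N a b,
        p ((a i : ℕ) + (b : ℕ)) = p ((a i' : ℕ) + (b : ℕ)) → i = i') ∧
      (((univ : Finset (Fin n → Fin M)).filter
        (fun a => 8 * ∑ b, (N a b).card < D * M)).card : ℝ) ≤ (M : ℝ) ^ n * (93 / 100) ^ n := by
  sorry

/-! ### U3 phase 2 : the columns `b`, for fixed `a` -/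
theorem phase2 (n M B q0 D : ℕ) (hD1 : 1 ≤ D) (Q : Finset ℕ) (p : ℕ → ℕ) (hQc : Q.card = q0)
    (hB : ∀ c, (Q.filter (fun z => p z = c)).card ≤ B)
    (hq : q0 * n ≤ 2 * (D * M)) (hnB : 32 * (n * B) ≤ M)
    (a : Fin n → Fin M) (N : Fin M → Finset (Fin n)) (hN1 : ∀ b, (N b).card ≤ D)
    (hN2 : ∀ b, ∀ i ∈ N b, (a i : ℕ) + (b : ℕ) ∈ Q)
    (hN3 : D * M ≤ 8 * ∑ b, (N b).card)
    (Y : Finset (Fin n)) (hY : 64 * Y.card ≤ n) :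
    (((univ : Finset (Fin n → Fin M)).filter
      (fun b => 64 * ∑ j, (stV p a N b j \ Y).card ≤ n * D)).card : ℝ) ≤
        (M : ℝ) ^ n * (49 / 50) ^ n := by sorry

/-! ### U4 typical inputs -/
open Classical in
theorem typical (n M B q0 D : ℕ) (hD1 : 1 ≤ D) (Q : Finset ℕ) (p : ℕ → ℕ)
    (hQ : ∀ z ∈ Q, M ≤ 2 * z + 2 ∧ 2 * z + 2 ≤ 3 * M) (hQc : Q.card = q0)
    (hB : ∀ c, (Q.filter (fun z => p z = c)).card ≤ B)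
    (hD : D * M ≤ q0 * n) (hq : q0 * n ≤ 2 * (D * M)) (hnB : 32 * (n * B) ≤ M) :
    (((univ : Finset (Inp n M)).filter (fun ω => ¬ TypV Q p D ω)).card : ℝ) ≤
      2 * (99 / 100) ^ n * ((M : ℝ) ^ n * (M : ℝ) ^ n) := by sorry

/-! ### U5 parameters (asymptotics); `t` = number of deterministic probes -/
theorem paramsV (t : ℕ) (ht : 1 ≤ t) (ε : ℝ) (hε : 0 < ε) :
    ∃ (K : ℕ) (δ C : ℝ) (n0 : ℕ), 1 ≤ K ∧ 0 < δ ∧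
      ∀ n : ℕ, n0 ≤ n → ∀ w κ S0 : ℕ, C * Real.logb 2 n ≤ w → (w : ℝ) ^ (t - 1) ≤ (n : ℝ) ^ δ →
        (κ : ℝ) * w ≤ δ * n → (S0 : ℝ) ≤ (n : ℝ) ^ (1 + 1 / (t : ℝ) - ε) →
        ∃ S k d d' q D q0 : ℕ, S0 ≤ S ∧ 1 ≤ S ∧ 1 ≤ k ∧ 1 ≤ d ∧ 2 ≤ w ∧ 1 ≤ n ∧ 1 ≤ D ∧ 1 ≤ q ∧
          32 * (n * (2 ^ (w - 1) / S + 1)) ≤ 2 ^ (w - 1) ∧
          D * 2 ^ (w - 1) ≤ q0 * n ∧ q0 * n ≤ 2 * (D * 2 ^ (w - 1)) ∧
          128 * (S * (16 * d) ^ 2) ≤ n * D ∧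
          K + 2 * K * 2 ^ (2 * K + 1) + d' ≤ d ∧
          n ^ 2 * (2 * K * (16 * d)) ^ K < d' ^ (2 * K) ∧
          4096 * (q * (2 * K * 2 ^ (2 * K + 1))) ≤ n ∧
          q0 * (2 * k ^ (t - 1)) ≤ 2 ^ (w - 1) ∧
          ((2 : ℝ) ^ w) ^ (κ + (t - 1) * (S / k + 1)) * (2 * (99 / 100) ^ n) *
            (2 * (2 * (k : ℝ) ^ (t - 1))) ≤ 1 ∧
          2 ^ (2 * K + 3) * (((2 * K : ℕ) : ℝ) + 8) *
            (2 / q * Real.log (2 * (2 * (k : ℝ) ^ (t - 1)) *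
                ((2 : ℝ) ^ w) ^ (κ + (t - 1) * (S / k + 1)) *
                (Fintype.card (Cfg n S K (2 ^ (2 * K + 1))) : ℝ) ^ q) +
              Real.log (2 * (n : ℝ) ^ 2)) < Real.log ((2 ^ (w - 1) : ℕ) : ℝ) := by sorry

end H583T
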