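import Pool.Agent.H583R2.TSI.Defs

/-! T7: tail bound for conflicts in one row (union bound and sequential counting). -/

namespace H583T
open Finset

/-- the positions in `T` are repeated -/
def TailGood (M : ℕ) (p : ℕ → ℕ) (a : ℕ) (T : Finset ℕ) (n : ℕ) (b : Fin n → Fin M) : Prop :=
  ∀ j : Fin n, (j : ℕ) ∈ T → ∃ j' : Fin n, j' < j ∧ p (a + (b j' : ℕ)) = p (a + (b j : ℕ))

theorem tail_fibre (n M B : ℕ) (p : ℕ → ℕ)
    (hB : ∀ c, ((Finset.range (2 * M)).filter (fun z => p z = c)).card ≤ B) (a : ℕ) (ha : a < M)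
    (b : Fin n → Fin M) :
    (univ.filter (fun x : Fin M => ∃ j' : Fin n,
      p (a + (b j' : ℕ)) = p (a + (x : ℕ)))).card ≤ n * B := by
  classical
  have h1 : (univ.filter (fun x : Fin M => ∃ j' : Fin n,
      p (a + (b j' : ℕ)) = p (a + (x : ℕ)))) =
      (univ : Finset (Fin n)).biUnion (fun j' => univ.filter (fun x : Fin M =>
        p (a + (b j' : ℕ)) = p (a + (x : ℕ)))) := by
    ext x
    simp
  rw [h1]
  refine Finset.card_biUnion_le.trans ?_
  have h2 : ∀ j' ∈ (univ : Finset (Fin n)), (univ.filter (fun x : Fin M =>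
        p (a + (b j' : ℕ)) = p (a + (x : ℕ)))).card ≤ B := by
    intro j' _
    refine le_trans ?_ (hB (p (a + (b j' : ℕ))))
    apply Finset.card_le_card_of_injOn (fun x : Fin M => a + (x : ℕ))
    · intro x hx
      have hx' : p (a + (b j' : ℕ)) = p (a + (x : ℕ)) := (Finset.mem_filter.mp hx).2
      refine Finset.mem_coe.mpr (Finset.mem_filter.mpr ⟨Finset.mem_range.mpr ?_, hx'.symm⟩)
      show a + (x : ℕ) < 2 * M
      have := x.2
      omega
    · intro x _ y _ hxy
      have hxy' : a + (x : ℕ) = a + (y : ℕ) := hxy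
      exact Fin.ext (by omega)
  refine (Finset.sum_le_sum h2).trans ?_
  simp

open Classical in
theorem tail_seq (K M B : ℕ) (p : ℕ → ℕ)
    (hB : ∀ c, ((Finset.range (2 * M)).filter (fun z => p z = c)).card ≤ B) (a : ℕ) (ha : a < M)
    (T : Finset ℕ) (n : ℕ) (hn : n ≤ K) :
    (univ.filter (TailGood M p a T n)).card * M ^ ((range n).filter (fun j => j ∈ T)).card ≤
      (K * B) ^ ((range n).filter (fun j => j ∈ T)).card * M ^ n := by
  induction n with
  | zero =>
    have h : (univ.filter (TailGood M p a T 0)).card ≤ 1 :=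
      (Finset.card_le_card (Finset.filter_subset _ _)).trans (by simp)
    simpa using h
  | succ n ih =>
    have ih' := ih (by omega)
    have hmap : ∀ b ∈ univ.filter (TailGood M p a T (n + 1)),
        (fun b : Fin (n + 1) → Fin M => (Fin.init b : Fin n → Fin M)) b ∈
          univ.filter (TailGood M p a T n) := by
      intro b hb
      refine Finset.mem_filter.mpr ⟨Finset.mem_univ _, ?_⟩
      intro j hj
      obtain ⟨j', h1, h2⟩ := (Finset.mem_filter.mp hb).2 j.castSucc hj
      have h3 : (j' : ℕ) < n := lt_trans h1 j.2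
      refine ⟨⟨j', h3⟩, h1, ?_⟩
      exact h2
    have hinj : ∀ b' : Fin n → Fin M, Set.InjOn (fun b : Fin (n + 1) → Fin M => b (Fin.last n))
        {b | (Fin.init b : Fin n → Fin M) = b'} := by
      intro b' b₁ h₁ b₂ h₂ h
      have h₁' : (Fin.init b₁ : Fin n → Fin M) = b' := h₁
      have h₂' : (Fin.init b₂ : Fin n → Fin M) = b' := h₂
      have h' : b₁ (Fin.last n) = b₂ (Fin.last n) := h
      have e1 : Fin.snoc (Fin.init b₁) (b₁ (Fin.last n)) = b₁ := Fin.snoc_init_self b₁
      have e2 : Fin.snoc (Fin.init b₂) (b₂ (Fin.last n)) = b₂ := Fin.snoc_init_self b₂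
      rw [← e1, ← e2, h₁', h₂', h']
    by_cases hT : n ∈ T
    · have hc : ((range (n + 1)).filter (fun j => j ∈ T)).card =
          ((range n).filter (fun j => j ∈ T)).card + 1 := by
        rw [Finset.range_add_one, Finset.filter_insert, if_pos hT, Finset.card_insert_of_notMem]
        simp
      have hfib : ∀ b' ∈ univ.filter (TailGood M p a T n),
          ((univ.filter (TailGood M p a T (n + 1))).filter (fun b =>
            (fun b : Fin (n + 1) → Fin M => (Fin.init b : Fin n → Fin M)) b = b')).card ≤
              K * B := by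
        intro b' _
        refine le_trans ?_ ((tail_fibre n M B p hB a ha b').trans
          (Nat.mul_le_mul_right B (by omega : n ≤ K)))
        apply Finset.card_le_card_of_injOn (fun b : Fin (n + 1) → Fin M => b (Fin.last n))
        · intro b hb
          obtain ⟨h1, h2⟩ := Finset.mem_filter.mp (Finset.mem_coe.mp hb)
          obtain ⟨j', h3, h4⟩ := (Finset.mem_filter.mp h1).2 (Fin.last n) (by simpa using hT)
          refine Finset.mem_coe.mpr (Finset.mem_filter.mpr ⟨Finset.mem_univ _, ?_⟩)
          have h5 : (j' : ℕ) < n := h3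
          refine ⟨⟨j', h5⟩, ?_⟩
          have h6 : b' ⟨j', h5⟩ = b j' := by
            rw [← h2]
            rfl
          rw [h6]
          exact h4
        · intro b₁ h₁ b₂ h₂ h
          exact hinj b' ((Finset.mem_filter.mp (Finset.mem_coe.mp h₁)).2)
            ((Finset.mem_filter.mp (Finset.mem_coe.mp h₂)).2) h
      have h := Finset.card_le_mul_card_image_of_maps_to hmap (K * B) hfib
      rw [hc]
      calc (univ.filter (TailGood M p a T (n + 1))).card *
            M ^ (((range n).filter (fun j => j ∈ T)).card + 1)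
          ≤ (K * B * (univ.filter (TailGood M p a T n)).card) *
            M ^ (((range n).filter (fun j => j ∈ T)).card + 1) := Nat.mul_le_mul_right _ h
        _ = K * B * ((univ.filter (TailGood M p a T n)).card *
            M ^ ((range n).filter (fun j => j ∈ T)).card) * M := by ring
        _ ≤ K * B * ((K * B) ^ ((range n).filter (fun j => j ∈ T)).card * M ^ n) * M :=
            Nat.mul_le_mul_right _ (Nat.mul_le_mul_left _ ih')
        _ = (K * B) ^ (((range n).filter (fun j => j ∈ T)).card + 1) * M ^ (n + 1) := by ring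
    · have hc : ((range (n + 1)).filter (fun j => j ∈ T)).card =
          ((range n).filter (fun j => j ∈ T)).card := by
        rw [Finset.range_add_one, Finset.filter_insert, if_neg hT]
      have hfib : ∀ b' ∈ univ.filter (TailGood M p a T n),
          ((univ.filter (TailGood M p a T (n + 1))).filter (fun b =>
            (fun b : Fin (n + 1) → Fin M => (Fin.init b : Fin n → Fin M)) b = b')).card ≤ M := by
        intro b' _
        have hM : (univ : Finset (Fin M)).card = M := by simp
        refine le_trans ?_ hM.le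
        apply Finset.card_le_card_of_injOn (fun b : Fin (n + 1) → Fin M => b (Fin.last n))
        · intro b _
          simp
        · intro b₁ h₁ b₂ h₂ h
          exact hinj b' ((Finset.mem_filter.mp (Finset.mem_coe.mp h₁)).2)
            ((Finset.mem_filter.mp (Finset.mem_coe.mp h₂)).2) h
      have h := Finset.card_le_mul_card_image_of_maps_to hmap M hfib
      rw [hc]
      calc (univ.filter (TailGood M p a T (n + 1))).card *
            M ^ ((range n).filter (fun j => j ∈ T)).card
          ≤ (M * (univ.filter (TailGood M p a T n)).card) *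
            M ^ ((range n).filter (fun j => j ∈ T)).card := Nat.mul_le_mul_right _ h
        _ = ((univ.filter (TailGood M p a T n)).card *
            M ^ ((range n).filter (fun j => j ∈ T)).card) * M := by ring
        _ ≤ ((K * B) ^ ((range n).filter (fun j => j ∈ T)).card * M ^ n) * M :=
            Nat.mul_le_mul_right _ ih'
        _ = (K * B) ^ ((range n).filter (fun j => j ∈ T)).card * M ^ (n + 1) := by ring

/-- the number of repeated positions is at most twice the number of repetitions -/
theorem tail_rep {n : ℕ} (c : Fin n → ℕ) :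
    (univ.filter (fun j : Fin n => ∃ j', j' ≠ j ∧ c j' = c j)).card ≤
      2 * (univ.filter (fun j : Fin n => ∃ j', j' < j ∧ c j' = c j)).card := by
  classical
  set R := univ.filter (fun j : Fin n => ∃ j', j' ≠ j ∧ c j' = c j) with hR
  set J := univ.filter (fun j : Fin n => ∃ j', j' < j ∧ c j' = c j) with hJ
  have h1 : R.card ≤ J.card + (R \ J).card := by
    have := Finset.card_le_card_sdiff_add_card (s := R) (t := J)
    omega
  have h2 : (R \ J).card ≤ J.card := by
    have hex : ∀ j ∈ R \ J, ∃ j', j < j' ∧ c j' = c j := by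
      intro j hj
      obtain ⟨h3, h4⟩ := Finset.mem_sdiff.mp hj
      obtain ⟨-, j', h5, h6⟩ := Finset.mem_filter.mp h3
      rcases lt_or_gt_of_ne h5 with h | h
      · exact absurd (Finset.mem_filter.mpr ⟨Finset.mem_univ _, j', h, h6⟩) h4
      · exact ⟨j', h, h6⟩
    choose! f hf using hex
    apply Finset.card_le_card_of_injOn f
    · intro j hj
      obtain ⟨h3, h4⟩ := hf j (Finset.mem_coe.mp hj)
      exact Finset.mem_coe.mpr (Finset.mem_filter.mpr ⟨Finset.mem_univ _, j, h3, h4.symm⟩)
    · intro j₁ h₁ j₂ h₂ h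
      have hc : c j₁ = c j₂ := by
        rw [← (hf j₁ (Finset.mem_coe.mp h₁)).2, ← (hf j₂ (Finset.mem_coe.mp h₂)).2, h]
      by_contra hne
      rcases lt_or_gt_of_ne hne with hlt | hlt
      · exact (Finset.mem_sdiff.mp (Finset.mem_coe.mp h₂)).2
          (Finset.mem_filter.mpr ⟨Finset.mem_univ _, j₁, hlt, hc⟩)
      · exact (Finset.mem_sdiff.mp (Finset.mem_coe.mp h₁)).2
          (Finset.mem_filter.mpr ⟨Finset.mem_univ _, j₂, hlt, hc.symm⟩)
  omega

/-! ### T7 tail bound for conflicts in one row -/
theorem tail_count (n M B t : ℕ) (ht : 16 * t ≤ n + 15) (p : ℕ → ℕ)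
    (hB : ∀ c, ((Finset.range (2 * M)).filter (fun z => p z = c)).card ≤ B) (a : ℕ) (ha : a < M) :
    (univ.filter (fun b : Fin n → Fin M => n ≤ 8 * (univ.filter (fun j : Fin n =>
        ∃ j', j' ≠ j ∧ p (a + (b j' : ℕ)) = p (a + (b j : ℕ)))).card)).card * M ^ t ≤
      2 ^ n * (n * B) ^ t * M ^ n := by
  classical
  have hsub : (univ.filter (fun b : Fin n → Fin M => n ≤ 8 * (univ.filter (fun j : Fin n =>
        ∃ j', j' ≠ j ∧ p (a + (b j' : ℕ)) = p (a + (b j : ℕ)))).card)) ⊆
      (Finset.powersetCard t (range n)).biUnion (fun T => univ.filter (TailGood M p a T n)) := by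
    intro b hb
    have h1 := (Finset.mem_filter.mp hb).2
    have h2 := tail_rep (fun j : Fin n => p (a + (b j : ℕ)))
    have h3 : t ≤ (univ.filter (fun j : Fin n => ∃ j', j' < j ∧
        p (a + (b j' : ℕ)) = p (a + (b j : ℕ)))).card := by
      have h4 : (univ.filter (fun j : Fin n => ∃ j', j' ≠ j ∧
        p (a + (b j' : ℕ)) = p (a + (b j : ℕ)))).card ≤
        2 * (univ.filter (fun j : Fin n => ∃ j', j' < j ∧
        p (a + (b j' : ℕ)) = p (a + (b j : ℕ)))).card := h2
      omega
    have h5 : t ≤ ((univ.filter (fun j : Fin n => ∃ j', j' < j ∧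
        p (a + (b j' : ℕ)) = p (a + (b j : ℕ)))).map Fin.valEmbedding).card := by
      rw [Finset.card_map]
      exact h3
    obtain ⟨T, hT1, hT2⟩ := Finset.exists_subset_card_eq h5
    refine Finset.mem_biUnion.mpr ⟨T, Finset.mem_powersetCard.mpr ⟨?_, hT2⟩, ?_⟩
    · intro x hx
      obtain ⟨j, -, rfl⟩ := Finset.mem_map.mp (hT1 hx)
      exact Finset.mem_range.mpr j.2
    · refine Finset.mem_filter.mpr ⟨Finset.mem_univ _, ?_⟩
      intro j hj
      obtain ⟨j₁, h6, h7⟩ := Finset.mem_map.mp (hT1 hj)
      have h8 : j₁ = j := Fin.ext h7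
      subst h8
      exact (Finset.mem_filter.mp h6).2
  have hT : ∀ T ∈ Finset.powersetCard t (range n),
      (univ.filter (TailGood M p a T n)).card * M ^ t ≤ (n * B) ^ t * M ^ n := by
    intro T hT
    obtain ⟨h1, h2⟩ := Finset.mem_powersetCard.mp hT
    have h3 : (range n).filter (fun j => j ∈ T) = T := by
      ext x
      rw [Finset.mem_filter]
      exact ⟨fun h => h.2, fun h => ⟨h1 h, h⟩⟩
    have h4 := tail_seq n M B p hB a ha T n le_rfl
    rw [h3, h2] at h4
    exact h4
  calc (univ.filter (fun b : Fin n → Fin M => n ≤ 8 * (univ.filter (fun j : Fin n =>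
        ∃ j', j' ≠ j ∧ p (a + (b j' : ℕ)) = p (a + (b j : ℕ)))).card)).card * M ^ t
      ≤ (∑ T ∈ Finset.powersetCard t (range n), (univ.filter (TailGood M p a T n)).card) *
        M ^ t :=
        Nat.mul_le_mul_right _ ((Finset.card_le_card hsub).trans Finset.card_biUnion_le)
    _ = ∑ T ∈ Finset.powersetCard t (range n),
        (univ.filter (TailGood M p a T n)).card * M ^ t := Finset.sum_mul _ _ _
    _ ≤ ∑ T ∈ Finset.powersetCard t (range n), (n * B) ^ t * M ^ n := Finset.sum_le_sum hT
    _ = (Nat.choose n t) * ((n * B) ^ t * M ^ n) := by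
        rw [Finset.sum_const, Finset.card_powersetCard, Finset.card_range, smul_eq_mul]
    _ ≤ 2 ^ n * ((n * B) ^ t * M ^ n) := Nat.mul_le_mul_right _ (Nat.choose_le_two_pow n t)
    _ = 2 ^ n * (n * B) ^ t * M ^ n := by ring

end H583T
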