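import Pool.Agent.H583R2.TSI.Core5

/-! Definitions for the T-probe lower bound (second version). -/

namespace H583T
open Finset

/-- the rows of column `j` which are kept: those `i ∈ N (b j)` whose class has not been met before
in row `i` -/
def stV {n M : ℕ} (p : ℕ → ℕ) (a : Fin n → Fin M) (N : Fin M → Finset (Fin n))
    (b : Fin n → Fin M) (j : Fin n) : Finset (Fin n) :=
  (N (b j)).filter (fun i => ∀ j' : Fin n, j' < j → i ∈ N (b j') →
    p ((a i : ℕ) + (b j' : ℕ)) ≠ p ((a i : ℕ) + (b j : ℕ)))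

/-- typical inputs: after deleting a few rows and columns there are still many pairs without
conflicts whose sums lie in `Q` -/
def TypV {n M : ℕ} (Q : Finset ℕ) (p : ℕ → ℕ) (D : ℕ) (ω : Inp n M) : Prop :=
  ∀ Yr Yc : Finset (Fin n), 4096 * Yr.card ≤ n → 4096 * Yc.card ≤ n →
    ∃ E1 : Finset (Fin n × Fin n), n * D ≤ 128 * E1.card ∧
      (∀ e ∈ E1, zz ω e ∈ Q ∧ e.1 ∉ Yr ∧ e.2 ∉ Yc) ∧
      (∀ e ∈ E1, ∀ e' ∈ E1, p (zz ω e) = p (zz ω e') → (e.1 = e'.1 ∨ e.2 = e'.2) → e = e')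

end H583T
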