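import Pool.Agent.H583R2.TSI.VDefs

/-! Entropy argument for many configurations. -/

namespace H583T
open Finset

/-- soundness: accepted queries are sums, for the inputs in `O` -/
def SoundV {n M : ℕ} (S : ℕ) (u : ℕ → ℕ) (acc : ℕ → ℕ → ℕ → ℕ → Bool)
    (mem : Inp n M → ℕ → ℕ) (O : Finset (Inp n M)) : Prop :=
  (∀ ω s, mem ω s < 2 * M) ∧
  ∀ ω ∈ O, ∀ z, z < 2 * M → ∀ s, s < S → acc z (mem ω (u z)) s (mem ω s) = true →
    ∃ i j, (ω.1 i : ℕ) + (ω.2 j : ℕ) = z

theorem few_acceptedV {n M : ℕ} (S : ℕ) (u : ℕ → ℕ) (acc : ℕ → ℕ → ℕ → ℕ → Bool)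
    (mem : Inp n M → ℕ → ℕ) (O : Finset (Inp n M)) (hcorr : SoundV S u acc mem O)
    (ω : Inp n M) (hω : ω ∈ O) (c c' : ℕ) :
    ((Finset.range (2 * M)).filter (fun z => u z = c ∧ c' < S ∧
      acc z (mem ω c) c' (mem ω c') = true)).card ≤ n ^ 2 := by
  have hsub : ((Finset.range (2 * M)).filter (fun z => u z = c ∧ c' < S ∧
      acc z (mem ω c) c' (mem ω c') = true)) ⊆ (univ : Finset (Fin n × Fin n)).image (zz ω) := by
    intro z hz
    rw [Finset.mem_filter, Finset.mem_range] at hz
    obtain ⟨hz0, hz1, hz2, hz3⟩ := hz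
    have := hcorr.2 ω hω z hz0 c' hz2 (by rw [hz1]; exact hz3)
    obtain ⟨i, j, hij⟩ := this
    rw [Finset.mem_image]
    exact ⟨(i, j), Finset.mem_univ _, hij⟩
  calc _ ≤ ((univ : Finset (Fin n × Fin n)).image (zz ω)).card := Finset.card_le_card hsub
    _ ≤ (univ : Finset (Fin n × Fin n)).card := Finset.card_image_le
    _ = n ^ 2 := by rw [Finset.card_univ, Fintype.card_prod, Fintype.card_fin]; ring

theorem step_fewV {n M : ℕ} (S : ℕ) (u : ℕ → ℕ) (acc : ℕ → ℕ → ℕ → ℕ → Bool)
    (mem : Inp n M → ℕ → ℕ) (O : Finset (Inp n M)) (hcorr : SoundV S u acc mem O)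
    (ty : Bool) (C : Finset (Fin n ⊕ (Fin n ⊕ ℕ))) (hC : cv ty ⊆ C)
    (e : Fin n × Fin n) (c c' : ℕ) (hO : ∀ ω ∈ O, Step S u acc mem ω e c c')
    (ω : Inp n M) (hω : ω ∈ O) :
    ((O.filter (fun ω' => ∀ j ∈ ({Sum.inr (Sum.inr c), Sum.inr (Sum.inr c')} :
        Finset (Fin n ⊕ (Fin n ⊕ ℕ))) ∪ C, VV mem j ω' = VV mem j ω)).image
        (VV mem (xv ty (lb ty e)))).card ≤ 2 * n ^ 2 := by
  set Z1 := ((Finset.range (2 * M)).filter (fun z => u z = c ∧ c' < S ∧
      acc z (mem ω c) c' (mem ω c') = true)) with hZ1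
  set Z2 := ((Finset.range (2 * M)).filter (fun z => u z = c' ∧ c < S ∧
      acc z (mem ω c') c (mem ω c) = true)) with hZ2
  have h1 := few_acceptedV S u acc mem O hcorr ω hω c c'
  have h2 := few_acceptedV S u acc mem O hcorr ω hω c' c
  rw [← hZ1] at h1
  rw [← hZ2] at h2
  have hsub : ((O.filter (fun ω' => ∀ j ∈ ({Sum.inr (Sum.inr c), Sum.inr (Sum.inr c')} :
        Finset (Fin n ⊕ (Fin n ⊕ ℕ))) ∪ C, VV mem j ω' = VV mem j ω)).image
        (VV mem (xv ty (lb ty e)))) ⊆ (Z1 ∪ Z2).image (fun z => z - VV mem (xv (!ty) (lb (!ty) e)) ω) := by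
    intro a ha
    rw [Finset.mem_image] at ha
    obtain ⟨ω', hω', rfl⟩ := ha
    rw [Finset.mem_filter] at hω'
    obtain ⟨hω'O, hag⟩ := hω'
    have hc : mem ω' c = mem ω c := hag (Sum.inr (Sum.inr c)) (by simp)
    have hc' : mem ω' c' = mem ω c' := hag (Sum.inr (Sum.inr c')) (by simp)
    have hx : VV mem (xv (!ty) (lb (!ty) e)) ω' = VV mem (xv (!ty) (lb (!ty) e)) ω := by
      apply hag
      apply Finset.mem_union_right
      apply hC
      unfold cv
      exact Finset.mem_image_of_mem _ (Finset.mem_univ _)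
    have hz : zz ω' e = VV mem (xv ty (lb ty e)) ω' + VV mem (xv (!ty) (lb (!ty) e)) ω' := by
      cases ty
      · simp [zz, VV, xv, lb]
      · simp [zz, VV, xv, lb]; ring
    rw [Finset.mem_image]
    refine ⟨zz ω' e, ?_, ?_⟩
    · rw [Finset.mem_union]
      rcases hO ω' hω'O with ⟨s1, s2, s3⟩ | ⟨s1, s2, s3⟩
      · left
        rw [hZ1, Finset.mem_filter, Finset.mem_range]
        rw [hc, hc'] at s3
        exact ⟨zz_lt ω' e, s1, s2, s3⟩
      · right
        rw [hZ2, Finset.mem_filter, Finset.mem_range]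
        rw [hc, hc'] at s3
        exact ⟨zz_lt ω' e, s1, s2, s3⟩
    · show zz ω' e - _ = _
      rw [hz, hx]
      omega
  calc _ ≤ ((Z1 ∪ Z2).image (fun z => z - VV mem (xv (!ty) (lb (!ty) e)) ω)).card :=
        Finset.card_le_card hsub
    _ ≤ (Z1 ∪ Z2).card := Finset.card_image_le
    _ ≤ Z1.card + Z2.card := Finset.card_union_le _ _
    _ ≤ 2 * n ^ 2 := by omega

theorem ent_union_le {Ω ι : Type} [DecidableEq ι] (O : Finset Ω) (V : ι → Ω → ℕ)
    (M : ℕ) (hM : 1 ≤ M) (C R : Finset ι) (h : ∀ i ∈ R, ∀ ω ∈ O, V i ω < M) :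
    ent O V (R ∪ C) ≤ ent O V C + R.card * Real.log M := by
  induction R using Finset.induction_on with
  | empty => simp
  | insert i R hi ih =>
    have h1 := ih (fun j hj => h j (Finset.mem_insert_of_mem hj))
    have h2 := ent_insert_le O V (R ∪ C) i M hM (by
      intro ω hω
      have : ((O.filter (fun ω' => ∀ j ∈ R ∪ C, V j ω' = V j ω)).image (V i)) ⊆ Finset.range M := by
        intro a ha
        rw [Finset.mem_image] at ha
        obtain ⟨ω', hω', rfl⟩ := ha
        rw [Finset.mem_range]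
        exact h i (Finset.mem_insert_self _ _) ω' (Finset.mem_filter.1 hω').1
      calc _ ≤ (Finset.range M).card := Finset.card_le_card this
        _ = M := Finset.card_range M)
    rw [Finset.card_insert_of_notMem hi, Finset.insert_union]
    push_cast
    linarith

theorem no_big_OV {n M K L q : ℕ} {NT : ℝ} (hn : 1 ≤ n) (hM : 1 ≤ M) (hNT : 1 ≤ NT) (hq : 1 ≤ q)
    (S : ℕ) (u : ℕ → ℕ) (acc : ℕ → ℕ → ℕ → ℕ → Bool)
    (mem : Inp n M → ℕ → ℕ) (O : Finset (Inp n M)) (hcorr : SoundV S u acc mem O)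
    (hOne : O.Nonempty) (hO : (M : ℝ) ^ n * (M : ℝ) ^ n ≤ NT * O.card)
    (ty : Fin q → Bool) (c0 : Fin q → ℕ) (hL : 2 ^ (2 * K + 1) ≤ L)
    (len : Fin q → Fin L → ℕ) (ed : Fin q → Fin L → ℕ → Fin n × Fin n)
    (ce : Fin q → Fin L → ℕ → ℕ)
    (hlen1 : ∀ k l, 1 ≤ len k l) (hlen2 : ∀ k l, len k l ≤ 2 * K)
    (h0 : ∀ k l, ce k l 0 = c0 k) (hend : ∀ k l, ce k l (len k l) = c0 k)
    (hst : ∀ ω ∈ O, ∀ k l t, t < len k l →
      Step S u acc mem ω (ed k l t) (ce k l t) (ce k l (t + 1)))
    (hnt : ∀ k l, NoTight (fun t => lb (ty k) (ed k l t)) 0 (len k l))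
    (hdisj : ∀ k l l', l ≠ l' → ∀ t t', t < len k l → t' < len k l' →
      lb (ty k) (ed k l t) ≠ lb (ty k) (ed k l' t'))
    (hdisj2 : ∀ k k', k ≠ k' → ∀ tb l l' t t', t < len k l → t' < len k' l' →
      lb tb (ed k l t) ≠ lb tb (ed k' l' t'))
    (big : 2 ^ (2 * K + 3) * (((2 * K : ℕ) : ℝ) + 8) *
      (2 / q * Real.log NT + Real.log (2 * (n : ℝ) ^ 2)) < Real.log M) : False := by
  classical
  have hn' : (1 : ℝ) ≤ n := by exact_mod_cast hn
  have hM' : (1 : ℝ) ≤ M := by exact_mod_cast hM
  have hq' : (1 : ℝ) ≤ q := by exact_mod_cast hq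
  have hlogNT : 0 ≤ Real.log NT := Real.log_nonneg hNT
  have hlog2 : 0 ≤ Real.log 2 := Real.log_nonneg (by norm_num)
  have hlogn : Real.log 2 ≤ Real.log (2 * (n : ℝ) ^ 2) :=
    Real.log_le_log (by norm_num) (by nlinarith)
  have hlogM : 0 ≤ Real.log M := Real.log_nonneg hM'
  have hOpos : (0 : ℝ) < O.card := by exact_mod_cast Finset.card_pos.2 hOne
  set V := VV (n := n) (M := M) mem with hV
  -- majority type
  obtain ⟨tb, htb⟩ : ∃ tb : Bool, q ≤ 2 * ((univ : Finset (Fin q)).filter (fun k => ty k = tb)).card := by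
    have h1 : ((univ : Finset (Fin q)).filter (fun k => ty k = true)).card +
        ((univ : Finset (Fin q)).filter (fun k => ty k = false)).card = q := by
      have h2 := Finset.card_filter_add_card_filter_not (s := (univ : Finset (Fin q)))
        (fun k => ty k = true)
      rw [Finset.card_univ, Fintype.card_fin] at h2
      have h3 : (univ : Finset (Fin q)).filter (fun k => ty k = false) =
          (univ : Finset (Fin q)).filter (fun k => ¬ ty k = true) := by
        ext k; simp
      rw [h3]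
      exact h2
    rcases Nat.le_total ((univ : Finset (Fin q)).filter (fun k => ty k = true)).card
      ((univ : Finset (Fin q)).filter (fun k => ty k = false)).card with h | h
    · exact ⟨false, by omega⟩
    · exact ⟨true, by omega⟩
  set Ks := (univ : Finset (Fin q)).filter (fun k => ty k = tb) with hKs
  have hKspos : 0 < Ks.card := by omega
  have hKsR : (q : ℝ) ≤ 2 * Ks.card := by exact_mod_cast htb
  have hKsposR : (0 : ℝ) < Ks.card := by exact_mod_cast hKspos
  set tau : ℝ := Real.log NT / Ks.card with htau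
  have htau0 : 0 ≤ tau := div_nonneg hlogNT hKsposR.le
  have htau1 : tau ≤ 2 / q * Real.log NT := by
    rw [htau, div_le_iff₀ hKsposR]
    have hqpos : (0 : ℝ) < q := by linarith
    have : 1 ≤ 2 / q * (Ks.card : ℝ) := by
      rw [div_mul_eq_mul_div, le_div_iff₀ hqpos]
      linarith
    nlinarith
  -- label sets
  set Lab : Fin q → Finset (Fin n) := fun k => (univ : Finset (Fin L)).biUnion
    (fun l => (Finset.range (len k l)).image (fun t => lb tb (ed k l t))) with hLab
  have hLabmem : ∀ k l t, t < len k l → lb tb (ed k l t) ∈ Lab k := by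
    intro k l t ht
    rw [hLab]
    simp only [Finset.mem_biUnion, Finset.mem_univ, true_and, Finset.mem_image, Finset.mem_range]
    exact ⟨l, t, ht, rfl⟩
  set XL : Fin q → Finset (Fin n ⊕ (Fin n ⊕ ℕ)) := fun k => (Lab k).image (xv tb) with hXL
  have hXLcard : ∀ k, (XL k).card = (Lab k).card := fun k =>
    Finset.card_image_of_injective _ (xv_inj tb)
  have hXLab : ∀ k, XL k ⊆ abv n := by
    intro k i hi
    obtain ⟨y, _, rfl⟩ := Finset.mem_image.1 hi
    exact xv_mem_abv _ _
  have hXLdisj : ∀ k k', k ≠ k' → Disjoint (XL k) (XL k') := by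
    intro k k' hne
    rw [Finset.disjoint_left]
    intro i hi hi'
    obtain ⟨y, hy, rfl⟩ := Finset.mem_image.1 hi
    obtain ⟨y', hy', he⟩ := Finset.mem_image.1 hi'
    have he' : y' = y := xv_inj tb he
    subst he'
    rw [hLab] at hy hy'
    simp only [Finset.mem_biUnion, Finset.mem_univ, true_and, Finset.mem_image,
      Finset.mem_range] at hy hy'
    obtain ⟨l, t, ht, h1⟩ := hy
    obtain ⟨l', t', ht', h2⟩ := hy'
    exact hdisj2 k k' hne tb l l' t t' ht ht' (h1.trans h2.symm)
  set CC : Finset (Fin q) → Finset (Fin n ⊕ (Fin n ⊕ ℕ)) :=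
    fun A => abv n \ (Ks \ A).biUnion XL with hCC
  have hCCins : ∀ A k, k ∈ Ks → k ∉ A → CC (insert k A) = XL k ∪ CC A := by
    intro A k hk hkA
    ext i
    simp only [hCC, Finset.mem_sdiff, Finset.mem_biUnion, Finset.mem_insert, Finset.mem_union,
      not_exists, not_and]
    constructor
    · rintro ⟨h1, h2⟩
      by_cases hi : i ∈ XL k
      · exact Or.inl hi
      · refine Or.inr ⟨h1, ?_⟩
        intro k' hk'
        by_cases hkk : k' = k
        · subst hkk; exact hi
        · exact h2 k' ⟨hk'.1, by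
            intro hor
            rcases hor with h | h
            · exact hkk h
            · exact hk'.2 h⟩
    · rintro (h | ⟨h1, h2⟩)
      · refine ⟨hXLab k h, ?_⟩
        intro k' hk' hmem
        have hne : k ≠ k' := fun he => hk'.2 (Or.inl he.symm)
        exact (Finset.disjoint_left.1 (hXLdisj k k' hne)) h hmem
      · refine ⟨h1, ?_⟩
        intro k' hk'
        exact h2 k' ⟨hk'.1, fun h => hk'.2 (Or.inr h)⟩
  have hCCdisj : ∀ A k, k ∈ Ks → k ∉ A → Disjoint (XL k) (CC A) := by
    intro A k hk hkA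
    rw [Finset.disjoint_left]
    intro i hi hi'
    simp only [hCC, Finset.mem_sdiff, Finset.mem_biUnion, not_exists, not_and] at hi'
    exact hi'.2 k ⟨hk, hkA⟩ hi
  have hCCfull : CC Ks = abv n := by
    simp [hCC]
  have hCC0 : (CC ∅).card + ∑ k ∈ Ks, (Lab k).card ≤ 2 * n := by
    have h1 : ((Ks \ ∅).biUnion XL).card = ∑ k ∈ Ks, (Lab k).card := by
      rw [Finset.sdiff_empty, Finset.card_biUnion (fun k _ k' _ hne => hXLdisj k k' hne)]
      exact Finset.sum_congr rfl (fun k _ => hXLcard k)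
    have h2 : (Ks \ ∅).biUnion XL ⊆ abv n := by
      intro i hi
      obtain ⟨k, _, hk⟩ := Finset.mem_biUnion.1 hi
      exact hXLab k hk
    have h3 : (CC ∅).card + ((Ks \ ∅).biUnion XL).card = (abv n).card :=
      Finset.card_sdiff_add_card_eq_card h2
    have h4 := abv_card n
    omega
  -- the good configuration
  have hfull : ent O V (abv n) = Real.log O.card :=
    ent_full O V (abv n) (fun ω _ ω' _ h => abv_full mem ω ω' h)
  have hlogO : 2 * (n : ℝ) * Real.log M ≤ Real.log NT + Real.log O.card := by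
    have h2 := Real.log_le_log (by positivity) hO
    rw [Real.log_mul (by positivity) (by positivity), Real.log_pow,
      Real.log_mul (by positivity) (by positivity)] at h2
    linarith
  obtain ⟨A, k, hkK, hkA, hAk⟩ : ∃ (A : Finset (Fin q)) (k : Fin q), k ∈ Ks ∧ k ∉ A ∧
      ((Lab k).card : ℝ) * Real.log M - tau ≤ ent O V (CC (insert k A)) - ent O V (CC A) := by
    by_contra hcon
    push Not at hcon
    have hind : ∀ A : Finset (Fin q), A ⊆ Ks → A.Nonempty → ent O V (CC A) <
        ent O V (CC ∅) + ∑ k ∈ A, (((Lab k).card : ℝ) * Real.log M - tau) := by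
      intro A
      induction A using Finset.induction_on with
      | empty => intro _ h; exact absurd h (by simp)
      | insert k A hk ih =>
        intro hsub _
        have hkK : k ∈ Ks := hsub (Finset.mem_insert_self _ _)
        have h1 := hcon A k hkK hk
        rw [Finset.sum_insert hk]
        by_cases hAe : A.Nonempty
        · have h2 := ih (fun x hx => hsub (Finset.mem_insert_of_mem hx)) hAe
          linarith
        · rw [Finset.not_nonempty_iff_eq_empty] at hAe
          subst hAe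
          rw [Finset.sum_empty]
          linarith
    have h1 := hind Ks (Finset.Subset.refl _) (Finset.card_pos.1 hKspos)
    rw [hCCfull, hfull, Finset.sum_sub_distrib, ← Finset.sum_mul, Finset.sum_const,
      nsmul_eq_mul] at h1
    have h2 := ent_le_card_mul O hOne V M hM (CC ∅) (fun i hi ω _ => by
      simp only [hCC, Finset.mem_sdiff] at hi
      exact abv_lt mem i hi.1 ω)
    have h3 : (Ks.card : ℝ) * tau = Real.log NT := by
      rw [htau]; field_simp
    have h4 : ((CC ∅).card : ℝ) + ∑ k ∈ Ks, ((Lab k).card : ℝ) ≤ 2 * n := by exact_mod_cast hCC0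
    have h5 := mul_le_mul_of_nonneg_right h4 hlogM
    rw [add_mul] at h5
    linarith
  have hLpos : 0 < L := lt_of_lt_of_le (by positivity) hL
  set C := CC A with hC
  have hcvC : cv tb ⊆ C := by
    intro i hi
    unfold cv at hi
    obtain ⟨y, _, rfl⟩ := Finset.mem_image.1 hi
    simp only [hC, hCC, Finset.mem_sdiff, Finset.mem_biUnion, not_exists, not_and]
    refine ⟨xv_mem_abv _ _, ?_⟩
    intro k' _ hmem
    obtain ⟨y', _, he⟩ := Finset.mem_image.1 hmem
    exact xv_ne tb y' y he
  have htyk : ty k = tb := (Finset.mem_filter.1 hkK).2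
  have hU : CC (insert k A) = XL k ∪ C := hCCins A k hkK hkA
  have hdis : Disjoint (XL k) C := hCCdisj A k hkK hkA
  -- labels as a subtype
  let y0 : {y // y ∈ Lab k} := ⟨lb tb (ed k ⟨0, hLpos⟩ 0), hLabmem k ⟨0, hLpos⟩ 0 (hlen1 k _)⟩
  let lab : Fin L → ℕ → {y // y ∈ Lab k} := fun l t =>
    if h : t < len k l then ⟨lb tb (ed k l t), hLabmem k l t h⟩ else y0
  have hlab : ∀ l t, t < len k l → (lab l t : Fin n) = lb tb (ed k l t) := by
    intro l t h
    have h1 : lab l t = ⟨lb tb (ed k l t), hLabmem k l t h⟩ := dif_pos h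
    rw [h1]
  refine no_config (cent O V C) (cent_polym O V C) (fun y : {y // y ∈ Lab k} => xv tb (y : Fin n))
    (Real.log M) (2 / q * Real.log NT + Real.log (2 * (n : ℝ) ^ 2))
    (by linarith) ?_ ?_ (2 * K) L hL
    (Sum.inr (Sum.inr (c0 k))) (len k) lab (fun l t => Sum.inr (Sum.inr (ce k l t)))
    (hlen1 k) (hlen2 k) (fun l => by simp [h0 k l]) (fun l => by simp [hend k l]) ?_ ?_ ?_ ?_ big
  · -- P1
    intro y T hy
    have hxyL : xv tb (y : Fin n) ∈ XL k := Finset.mem_image_of_mem _ y.2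
    have hxyU : xv tb (y : Fin n) ∈ CC (insert k A) := by
      rw [hU]; exact Finset.mem_union_left _ hxyL
    have hb : ent O V ((CC (insert k A)).erase (xv tb (y : Fin n))) ≤
        ent O V C + (((Lab k).card : ℝ) - 1) * Real.log M := by
      have e1 : (CC (insert k A)).erase (xv tb (y : Fin n)) =
          (XL k).erase (xv tb (y : Fin n)) ∪ C := by
        rw [hU, Finset.erase_union_distrib, Finset.erase_eq_of_notMem (s := C)
          (Finset.disjoint_left.1 hdis hxyL)]
      rw [e1]
      have h1 := ent_union_le O V M hM C ((XL k).erase (xv tb (y : Fin n)))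
        (fun i hi ω _ => abv_lt mem i (hXLab k (Finset.mem_of_mem_erase hi)) ω)
      have h2 : (((XL k).erase (xv tb (y : Fin n))).card : ℝ) = ((Lab k).card : ℝ) - 1 := by
        rw [Finset.card_erase_of_mem hxyL, hXLcard]
        have : 1 ≤ (Lab k).card := Finset.card_pos.2 ⟨_, y.2⟩
        rw [Nat.cast_sub this, Nat.cast_one]
      rw [h2] at h1
      exact h1
    have key := cent_lower O V C (T.image (fun y : {y // y ∈ Lab k} => xv tb (y : Fin n)))
      (CC (insert k A)) (xv tb (y : Fin n)) hxyU (by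
        intro i hi
        rw [Finset.mem_erase]
        rcases Finset.mem_union.1 hi with h | h
        · obtain ⟨y', hy', rfl⟩ := Finset.mem_image.1 h
          refine ⟨fun he => hy ?_, ?_⟩
          · have : y' = y := Subtype.ext (xv_inj tb he)
            rw [← this]; exact hy'
          · rw [hU]
            exact Finset.mem_union_left _ (Finset.mem_image_of_mem _ y'.2)
        · refine ⟨fun he => ?_, by rw [hU]; exact Finset.mem_union_right _ h⟩
          rw [he] at h
          exact Finset.disjoint_left.1 hdis hxyL h)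
      (ent O V (CC (insert k A))) (ent O V C + (((Lab k).card : ℝ) - 1) * Real.log M)
      le_rfl hb
    have h3 : Real.log M - tau ≤ ent O V (CC (insert k A)) -
        (ent O V C + (((Lab k).card : ℝ) - 1) * Real.log M) := by
      have h4 : (((Lab k).card : ℝ) - 1) * Real.log M =
          ((Lab k).card : ℝ) * Real.log M - Real.log M := by ring
      rw [h4]
      linarith
    linarith
  · -- P2
    intro y
    exact cent_single_le O V C (xv tb (y : Fin n)) M hM
      (fun ω _ => abv_lt mem _ (xv_mem_abv tb (y : Fin n)) ω)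
  · -- cells
    intro l t _
    have h1 := cent_single_le O V C (Sum.inr (Sum.inr (ce k l t))) (2 * M) (by omega)
      (fun ω _ => hcorr.1 ω (ce k l t))
    have h2 : Real.log ((2 * M : ℕ) : ℝ) = Real.log 2 + Real.log M := by
      push_cast
      rw [Real.log_mul (by norm_num) (by positivity)]
    rw [h2] at h1
    have h3 : 0 ≤ 2 / (q : ℝ) * Real.log NT := by positivity
    linarith
  · -- steps
    intro l t ht
    have h1 := cent_insert_le O V C
      ({Sum.inr (Sum.inr (ce k l t)), Sum.inr (Sum.inr (ce k l (t + 1)))} :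
        Finset (Fin n ⊕ (Fin n ⊕ ℕ))) (xv tb (lb tb (ed k l t))) (2 * n ^ 2) (by nlinarith)
      (fun ω hω => step_fewV S u acc mem O hcorr tb C hcvC (ed k l t) (ce k l t) (ce k l (t + 1))
        (fun ω' hω' => hst ω' hω' k l t ht) ω hω)
    have h2 : Real.log ((2 * n ^ 2 : ℕ) : ℝ) = Real.log (2 * (n : ℝ) ^ 2) := by push_cast; rfl
    rw [h2] at h1
    have h3 : 0 ≤ 2 / (q : ℝ) * Real.log NT := by positivity
    show cent O V C {xv tb (lab l t : Fin n), _, _} ≤ _
    rw [hlab l t ht]
    linarith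
  · -- NoTight
    intro l
    have h1 := hnt k l
    rw [htyk] at h1
    intro s t a1 a2 a3
    obtain ⟨p, p1, p2, p3⟩ := h1 s t a1 a2 a3
    refine ⟨p, p1, p2, ?_⟩
    intro p' q1 q2 q3
    apply p3 p' q1 q2
    have e1 := hlab l p' (by omega)
    have e2 := hlab l p (by omega)
    rw [q3, e2] at e1
    exact e1.symm
  · -- disjoint labels
    intro l l' hne t t' ht ht' he
    have e1 := hlab l t ht
    have e2 := hlab l' t' ht'
    rw [he, e2] at e1
    have := hdisj k l l' hne t t' ht ht'
    rw [htyk] at this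
    exact this e1.symm

end H583T
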