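import Pool.Agent.H583R2.TSI.VDefs

/-! Families of closed walks inside a given conflict-free set of pairs, and many disjoint
configurations for a typical input. -/

namespace H583T
open Finset

/-- `sel` chooses an accepted second cell for the pairs in `E` -/
def SelV {n M : ℕ} (S : ℕ) (u : ℕ → ℕ) (acc : ℕ → ℕ → ℕ → ℕ → Bool) (mem : Inp n M → ℕ → ℕ)
    (sel : Inp n M → Fin n × Fin n → ℕ) (ω : Inp n M) (E : Finset (Fin n × Fin n)) : Prop :=
  ∀ e ∈ E, sel ω e < S ∧ acc (zz ω e) (mem ω (u (zz ω e))) (sel ω e) (mem ω (sel ω e)) = true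

theorem step_cellAtV {n M : ℕ} (S : ℕ) (u : ℕ → ℕ) (acc : ℕ → ℕ → ℕ → ℕ → Bool)
    (mem : Inp n M → ℕ → ℕ) (sel : Inp n M → Fin n × Fin n → ℕ)
    (ω : Inp n M) (E : Finset (Fin n × Fin n)) (hsel : SelV S u acc mem sel ω E)
    (τ : ℕ) (e : Fin n × Fin n) (he : e ∈ E) :
    Step S u acc mem ω e (cellAt u sel ω τ e) (cellAt u sel ω (τ + 1) e) := by
  unfold Step cellAt
  obtain ⟨h1, h2⟩ := hsel e he
  rcases Nat.mod_two_eq_zero_or_one τ with h | h
  · have h' : (τ + 1) % 2 = 1 := by omega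
    left
    simp [h, h', h1, h2]
  · have h' : (τ + 1) % 2 = 0 := by omega
    right
    simp [h, h', h1, h2]

/-- closed walks at `c0` for the input `ω` with pairs in `E`, avoiding the labels in `Y` -/
def CWV {n M : ℕ} (S : ℕ) (u : ℕ → ℕ) (acc : ℕ → ℕ → ℕ → ℕ → Bool) (mem : Inp n M → ℕ → ℕ)
    (ω : Inp n M) (ty : Bool)
    (c0 K : ℕ) (E : Finset (Fin n × Fin n)) (Y : Finset (Fin n)) (len : ℕ)
    (g : ℕ → Fin n × Fin n) (s : ℕ → ℕ) : Prop :=
  1 ≤ len ∧ len ≤ 2 * K ∧ s 0 = c0 ∧ s len = c0 ∧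
  (∀ t, t < len → Step S u acc mem ω (g t) (s t) (s (t + 1))) ∧
  NoTight (fun t => lb ty (g t)) 0 len ∧ (∀ t, t < len → lb ty (g t) ∉ Y) ∧
  (∀ t, t < len → g t ∈ E)

theorem closed_of_pairV {n M : ℕ} (S : ℕ) (u : ℕ → ℕ) (acc : ℕ → ℕ → ℕ → ℕ → Bool)
    (mem : Inp n M → ℕ → ℕ) (sel : Inp n M → Fin n × Fin n → ℕ)
    (ω : Inp n M) (ty : Bool) (E : Finset (Fin n × Fin n)) (hsel : SelV S u acc mem sel ω E)
    (cl : ℕ → Fin n × Fin n → ℕ)
    (hcl : ∀ τ, ∀ e ∈ E, ∀ e' ∈ E, cl τ e = cl τ e' →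
      cellAt u sel ω τ e = cellAt u sel ω τ e')
    (K : ℕ) (Y : Finset (Fin n)) (e0 : Fin n × Fin n) (he0 : e0 ∈ E)
    (k : ℕ) (hk1 : 1 ≤ k) (hkK : k ≤ K) (e e' : ℕ → Fin n × Fin n)
    (hE : ∀ t < k, e t ∈ E ∧ e' t ∈ E)
    (h00 : cl 0 (e 0) = cl 0 e0) (h00' : cl 0 (e' 0) = cl 0 e0)
    (hw : ∀ t, t + 1 < k → cl (t + 1) (e t) = cl (t + 1) (e (t + 1)))
    (hw' : ∀ t, t + 1 < k → cl (t + 1) (e' t) = cl (t + 1) (e' (t + 1)))
    (hend : cl k (e (k - 1)) = cl k (e' (k - 1)))
    (ha : ∀ t < k, ∀ t' < k, lb ty (e t) = lb ty (e t') → t = t')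
    (hb : ∀ t < k, ∀ t' < k, lb ty (e' t) = lb ty (e' t') → t = t')
    (hY : ∀ t < k, lb ty (e t) ∉ Y ∧ lb ty (e' t) ∉ Y)
    (hg : ∀ r, 1 ≤ r → r ≤ k →
        (Finset.Ico (k - r) k).image (fun t => lb ty (e t)) ≠
          (Finset.Ico (k - r) k).image (fun t => lb ty (e' t))) :
    ∃ (len : ℕ) (g : ℕ → Fin n × Fin n) (s : ℕ → ℕ),
      CWV S u acc mem ω ty (cellAt u sel ω 0 e0) K E Y len g s := by
  set c0 := cellAt u sel ω 0 e0 with hc0
  refine ⟨2 * k, fun t => if t < k then e t else e' (2 * k - 1 - t),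
    fun t => if t = 0 then c0 else if t ≤ k then cellAt u sel ω t (e (t - 1))
      else if t < 2 * k then cellAt u sel ω (2 * k - t) (e' (2 * k - t - 1)) else c0,
    by omega, by omega, by simp, ?_, ?_, ?_, ?_, ?_⟩
  · have e1 : ¬ (2 * k = 0) := by omega
    have e2 : ¬ (2 * k ≤ k) := by omega
    simp [e1, e2]
  · intro t ht
    by_cases h1 : t < k
    · -- first part
      have e3 : ¬ (t + 1 = 0) := by omega
      have e4 : t + 1 ≤ k := by omega
      simp only [h1, if_true, e3, if_false, e4, Nat.add_sub_cancel]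
      have hst : (if t = 0 then c0 else if t ≤ k then cellAt u sel ω t (e (t - 1))
          else if t < 2 * k then cellAt u sel ω (2 * k - t) (e' (2 * k - t - 1)) else c0)
          = cellAt u sel ω t (e t) := by
        by_cases h0 : t = 0
        · subst h0
          simp only [if_true]
          rw [hc0]
          exact hcl 0 e0 he0 (e 0) (hE 0 (by omega)).1 h00.symm
        · have e5 : t ≤ k := by omega
          simp only [h0, if_false, e5, if_true]
          obtain ⟨t', rfl⟩ : ∃ t', t = t' + 1 := ⟨t - 1, by omega⟩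
          simp only [Nat.add_sub_cancel]
          exact hcl (t' + 1) (e t') (hE t' (by omega)).1 (e (t' + 1)) (hE _ (by omega)).1
            (hw t' (by omega))
      rw [hst]
      exact step_cellAtV S u acc mem sel ω E hsel t (e t) (hE t h1).1
    · -- second part
      obtain ⟨j, hj, hjk⟩ : ∃ j, 2 * k - 1 - t = j ∧ j < k := ⟨2 * k - 1 - t, rfl, by omega⟩
      have hs1 : (if t = 0 then c0 else if t ≤ k then cellAt u sel ω t (e (t - 1))
          else if t < 2 * k then cellAt u sel ω (2 * k - t) (e' (2 * k - t - 1)) else c0)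
          = cellAt u sel ω (j + 1) (e' j) := by
        have e5 : ¬ t = 0 := by omega
        by_cases h2 : t ≤ k
        · have htk : t = k := by omega
          simp only [e5, if_false, h2, if_true]
          rw [htk]
          have hj1 : j = k - 1 := by omega
          have hj2 : j + 1 = k := by omega
          rw [hj2, hj1]
          exact hcl k _ (hE _ (by omega)).1 _ (hE _ (by omega)).2 hend
        · have e6 : 2 * k - t = j + 1 := by omega
          have e7 : 2 * k - t - 1 = j := by omega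
          simp only [e5, if_false, h2, ht, if_true]
          rw [e7, e6]
      have hs2 : (if t + 1 = 0 then c0 else if t + 1 ≤ k then cellAt u sel ω (t + 1) (e (t + 1 - 1))
          else if t + 1 < 2 * k then cellAt u sel ω (2 * k - (t + 1)) (e' (2 * k - (t + 1) - 1))
          else c0) = cellAt u sel ω j (e' j) := by
        have e5 : ¬ t + 1 = 0 := by omega
        have e6 : ¬ t + 1 ≤ k := by omega
        by_cases h2 : t + 1 < 2 * k
        · simp only [e5, if_false, e6, h2, if_true]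
          obtain ⟨j', rfl⟩ : ∃ j', j = j' + 1 := ⟨j - 1, by omega⟩
          have e7 : 2 * k - (t + 1) = j' + 1 := by omega
          have e8 : 2 * k - (t + 1) - 1 = j' := by omega
          rw [e8, e7]
          exact hcl (j' + 1) (e' j') (hE j' (by omega)).2 (e' (j' + 1)) (hE _ (by omega)).2
            (hw' j' (by omega))
        · have hj0 : j = 0 := by omega
          simp only [e5, if_false, e6, h2]
          rw [hj0, hc0]
          exact hcl 0 e0 he0 (e' 0) (hE 0 (by omega)).2 h00'.symm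
      simp only [h1, if_false]
      rw [hs1, hs2, hj]
      exact step_symm S u acc mem ω _ _ _ (step_cellAtV S u acc mem sel ω E hsel j (e' j)
        (hE j hjk).2)
  · have := notight_closed k (fun t => lb ty (e t)) (fun t => lb ty (e' t)) ha hb hg
    have hfun : (fun t => lb ty (if t < k then e t else e' (2 * k - 1 - t))) =
        (fun t => if t < k then lb ty (e t) else lb ty (e' (2 * k - 1 - t))) := by
      funext t
      split_ifs <;> rfl
    rw [hfun]
    exact this
  · intro t ht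
    by_cases h1 : t < k
    · simp only [h1, if_true]
      exact (hY t h1).1
    · simp only [h1, if_false]
      exact (hY (2 * k - 1 - t) (by omega)).2
  · intro t ht
    by_cases h1 : t < k
    · simp only [h1, if_true]
      exact (hE t h1).1
    · simp only [h1, if_false]
      exact (hE (2 * k - 1 - t) (by omega)).2

theorem family_of_walksV {n M : ℕ} (S : ℕ) (u : ℕ → ℕ) (acc : ℕ → ℕ → ℕ → ℕ → Bool)
    (mem : Inp n M → ℕ → ℕ)
    (ω : Inp n M) (ty : Bool) (c0 K L : ℕ) (E : Finset (Fin n × Fin n)) (hn : 1 ≤ n)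
    (h : ∀ Y : Finset (Fin n), Y.card ≤ 2 * K * L →
      ∃ (len : ℕ) (g : ℕ → Fin n × Fin n) (s : ℕ → ℕ), CWV S u acc mem ω ty c0 K E Y len g s) :
    ∀ q, q ≤ L → ∃ (len : ℕ → ℕ) (g : ℕ → ℕ → Fin n × Fin n) (s : ℕ → ℕ → ℕ),
      (∀ l < q, CWV S u acc mem ω ty c0 K E ∅ (len l) (g l) (s l)) ∧
      (∀ l < q, ∀ l' < q, l ≠ l' → ∀ t t', t < len l → t' < len l' →
        lb ty (g l t) ≠ lb ty (g l' t')) := by
  intro q
  induction q with
  | zero =>
    intro _
    exact ⟨fun _ => 0, fun _ _ => (⟨0, hn⟩, ⟨0, hn⟩), fun _ _ => 0, by intro l hl; omega,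
      by intro l hl; omega⟩
  | succ q ih =>
    intro hq
    obtain ⟨len, g, s, h1, h2⟩ := ih (by omega)
    set Y : Finset (Fin n) := (Finset.range q).biUnion
      (fun l => (Finset.range (len l)).image (fun t => lb ty (g l t))) with hY
    have hYc : Y.card ≤ 2 * K * L := by
      calc Y.card ≤ ∑ l ∈ Finset.range q,
            ((Finset.range (len l)).image (fun t => lb ty (g l t))).card := Finset.card_biUnion_le
        _ ≤ ∑ l ∈ Finset.range q, 2 * K := by
            apply Finset.sum_le_sum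
            intro l hl
            calc _ ≤ (Finset.range (len l)).card := Finset.card_image_le
              _ = len l := Finset.card_range _
              _ ≤ 2 * K := (h1 l (Finset.mem_range.1 hl)).2.1
        _ = q * (2 * K) := by rw [Finset.sum_const, Finset.card_range, smul_eq_mul]
        _ ≤ 2 * K * L := by
            rw [mul_comm]
            exact Nat.mul_le_mul_left _ (by omega)
    obtain ⟨len0, g0, s0, hnew⟩ := h Y hYc
    have hmemY : ∀ l < q, ∀ t, t < len l → lb ty (g l t) ∈ Y := by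
      intro l hl t ht
      rw [hY, Finset.mem_biUnion]
      exact ⟨l, Finset.mem_range.2 hl, Finset.mem_image.2 ⟨t, Finset.mem_range.2 ht, rfl⟩⟩
    have hnewY := hnew.2.2.2.2.2.2.1
    refine ⟨fun l => if l < q then len l else len0, fun l => if l < q then g l else g0,
      fun l => if l < q then s l else s0, ?_, ?_⟩
    · intro l hl
      by_cases hlq : l < q
      · simp only [hlq, if_true]
        exact h1 l hlq
      · simp only [hlq, if_false]
        obtain ⟨a1, a2, a3, a4, a5, a6, a7, a8⟩ := hnew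
        exact ⟨a1, a2, a3, a4, a5, a6, fun t _ => Finset.notMem_empty _, a8⟩
    · intro l hl l' hl' hne t t' ht ht'
      by_cases hlq : l < q
      · by_cases hlq' : l' < q
        · simp only [hlq, hlq', if_true] at ht ht' ⊢
          exact h2 l hlq l' hlq' hne t t' ht ht'
        · simp only [hlq, hlq', if_true, if_false] at ht ht' ⊢
          intro he
          exact hnewY t' ht' (he ▸ hmemY l hlq t ht)
      · by_cases hlq' : l' < q
        · simp only [hlq, hlq', if_true, if_false] at ht ht' ⊢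
          intro he
          exact hnewY t ht (he.symm ▸ hmemY l' hlq' t' ht')
        · omega

/-- walks in a large conflict-free set of pairs -/
theorem good_input_familyV {n M : ℕ} (S : ℕ) (u : ℕ → ℕ)
    (acc : ℕ → ℕ → ℕ → ℕ → Bool)
    (mem : Inp n M → ℕ → ℕ) (sel : Inp n M → Fin n × Fin n → ℕ)
    (p : ℕ → ℕ) (Q : Finset ℕ) (K L d d' : ℕ) (hK1 : 1 ≤ K) (hd : 1 ≤ d)
    (hpu : ∀ z ∈ Q, ∀ z' ∈ Q, p z = p z' → u z = u z')
    (hpQ : (Q.image p).card ≤ 2 * S)
    (H2 : K + 2 * K * L + d' ≤ d)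
    (H3 : n ^ 2 * (2 * K * (16 * d)) ^ K < d' ^ (2 * K))
    (ω : Inp n M) (E1 : Finset (Fin n × Fin n)) (hsel : SelV S u acc mem sel ω E1)
    (hne1 : E1.Nonempty) (hsize : S * (16 * d) ^ 2 ≤ E1.card)
    (hEQ : ∀ e ∈ E1, zz ω e ∈ Q)
    (hc : ∀ e ∈ E1, ∀ e' ∈ E1, p (zz ω e) = p (zz ω e') → (e.1 = e'.1 ∨ e.2 = e'.2) → e = e') :
    ∃ (ty : Bool) (e0 : Fin n × Fin n), ∀ Y : Finset (Fin n), Y.card ≤ 2 * K * L →
      ∃ (len : ℕ) (g : ℕ → Fin n × Fin n) (s : ℕ → ℕ),
        CWV S u acc mem ω ty (cellAt u sel ω 0 e0) K E1 Y len g s := by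
  classical
  obtain ⟨E4, c4, v4, ty, hsub, hne, hc4, hv4, hci, hvi, hcd, hvd, hcm, hvm⟩ :=
    extract (16 * d) d S (2 * S) E1 (fun e => p (zz ω e))
      (fun e => sel ω e) hc
      (by
        calc _ ≤ (Q.image p).card := by
              apply Finset.card_le_card
              intro a ha
              obtain ⟨e, he, rfl⟩ := Finset.mem_image.1 ha
              exact Finset.mem_image_of_mem _ (hEQ e he)
          _ ≤ 2 * S := hpQ)
      (by
        calc _ ≤ (Finset.range S).card := by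
              apply Finset.card_le_card
              intro a ha
              obtain ⟨e, he, rfl⟩ := Finset.mem_image.1 ha
              exact Finset.mem_range.2 (hsel e he).1
          _ = S := Finset.card_range S)
      rfl hd (by nlinarith) hne1
  obtain ⟨e0, he0⟩ := hne
  refine ⟨ty, e0, ?_⟩
  intro Y hY
  have hE4c : E4.card ≤ n ^ 2 := by
    calc E4.card ≤ (univ : Finset (Fin n × Fin n)).card := Finset.card_le_univ _
      _ = n ^ 2 := by rw [Finset.card_univ, Fintype.card_prod, Fintype.card_fin]; ring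
  obtain ⟨k, hk1, hkK, e, e', a1, a2, a3, a4, a5, a6, a7, a8, a9, a10⟩ :=
    exists_good_pair E4 (fun τ e => if τ % 2 = 0 then c4 e else v4 e) (lb ty) d (16 * d)
      (by
        intro t e he e' he' h1 h2
        by_cases ht : t % 2 = 0
        · simp only [ht, if_true] at h1
          exact hci e he e' he' h1 h2
        · simp only [ht, if_false] at h1
          exact hvi e he e' he' h1 h2)
      (by
        intro t e he
        by_cases ht : t % 2 = 0
        · simp only [ht, if_true]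
          exact hcd e he
        · simp only [ht, if_false]
          exact hvd e he)
      (by
        intro t e he
        by_cases ht : t % 2 = 0
        · simp only [ht, if_true]
          exact hcm e he
        · simp only [ht, if_false]
          exact hvm e he)
      e0 he0 Y K d' hK1 (by omega)
      (by
        calc E4.card * (2 * K * (16 * d)) ^ K ≤ n ^ 2 * (2 * K * (16 * d)) ^ K :=
              Nat.mul_le_mul_right _ hE4c
          _ < d' ^ (2 * K) := H3)
  obtain ⟨len, g, s, hcw⟩ := closed_of_pairV S u acc mem sel ω ty E4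
    (fun e he => hsel e (hsub he))
    (fun τ e => if τ % 2 = 0 then c4 e else v4 e) (by
      intro τ e he e' he' h1
      unfold cellAt
      by_cases ht : τ % 2 = 0
      · simp only [ht, if_true] at h1 ⊢
        exact hpu _ (hEQ e (hsub he)) _ (hEQ e' (hsub he')) (hc4 e he e' he' h1)
      · simp only [ht, if_false] at h1 ⊢
        exact hv4 e he e' he' h1) K Y e0 he0
    k hk1 hkK e e' a1 a2 a3 a4 a5 a6 a7 a8 a9 a10
  obtain ⟨b1, b2, b3, b4, b5, b6, b7, b8⟩ := hcw
  exact ⟨len, g, s, b1, b2, b3, b4, b5, b6, b7, fun t ht => hsub (b8 t ht)⟩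

theorem exists_cfgV {n M S K L : ℕ} (hS : 0 < S) (u : ℕ → ℕ) (acc : ℕ → ℕ → ℕ → ℕ → Bool)
    (mem : Inp n M → ℕ → ℕ) (d0 : Fin n × Fin n)
    (hu : ∀ z, u z < S)
    (ω : Inp n M) (ty : Bool) (c0 : ℕ) (hc0 : c0 < S) (E : Finset (Fin n × Fin n))
    (len : ℕ → ℕ) (g : ℕ → ℕ → Fin n × Fin n) (s : ℕ → ℕ → ℕ)
    (h1 : ∀ l < L, CWV S u acc mem ω ty c0 K E ∅ (len l) (g l) (s l))
    (h2 : ∀ l < L, ∀ l' < L, l ≠ l' → ∀ t t', t < len l → t' < len l' →
        lb ty (g l t) ≠ lb ty (g l' t')) :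
    ∃ κ : Cfg n S K L, GoodC u acc mem d0 ω κ ∧
      ∀ l t, t < cfLen κ l → cfEd d0 κ l t ∈ E := by
  have hsS : ∀ l < L, ∀ t ≤ len l, s l t < S := by
    intro l hl t ht
    obtain ⟨a1, a2, a3, a4, a5, a6, a7, a8⟩ := h1 l hl
    have hstep : ∀ t < len l, s l t < S ∧ s l (t + 1) < S := by
      intro t ht
      rcases a5 t ht with ⟨b1, b2, _⟩ | ⟨b1, b2, _⟩
      · exact ⟨b1 ▸ hu _, b2⟩
      · exact ⟨b2, b1 ▸ hu _⟩
    rcases Nat.lt_or_ge t (len l) with h | h
    · exact (hstep t h).1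
    · obtain ⟨t', rfl⟩ : ∃ t', t = t' + 1 := ⟨t - 1, by omega⟩
      exact (hstep t' (by omega)).2
  refine ⟨(ty, ⟨c0, hc0⟩, fun l => (⟨len l, by have := (h1 l l.2).2.1; omega⟩,
    fun t => g l t, fun t => if h : s l t < S then ⟨s l t, h⟩ else ⟨0, hS⟩)), ?_⟩
  set κ : Cfg n S K L := (ty, ⟨c0, hc0⟩, fun l => (⟨len l, by have := (h1 l l.2).2.1; omega⟩,
    fun t => g l t, fun t => if h : s l t < S then ⟨s l t, h⟩ else ⟨0, hS⟩)) with hκ
  have eL : ∀ l : Fin L, cfLen κ l = len l := fun l => rfl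
  have eE : ∀ (l : Fin L) t, t < len l → cfEd d0 κ l t = g l t := by
    intro l t ht
    have := (h1 l l.2).2.1
    unfold cfEd
    rw [dif_pos (by omega)]
  have eC : ∀ (l : Fin L) t, t ≤ len l → cfCe κ l t = s l t := by
    intro l t ht
    have h3 := (h1 l l.2).2.1
    unfold cfCe
    rw [dif_pos (by omega)]
    show (((if h : s l t < S then (⟨s l t, h⟩ : Fin S) else ⟨0, hS⟩) : Fin S) : ℕ) = s l t
    rw [dif_pos (hsS l l.2 t ht)]
  refine ⟨⟨fun l => (h1 l l.2).1, fun l => (h1 l l.2).2.1, ?_, ?_, ?_, ?_, ?_⟩, ?_⟩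
  · intro l
    rw [eC l 0 (Nat.zero_le _)]
    exact (h1 l l.2).2.2.1
  · intro l
    rw [eL, eC l _ le_rfl]
    exact (h1 l l.2).2.2.2.1
  · intro l t ht
    rw [eL] at ht
    rw [eE l t ht, eC l t (by omega), eC l (t + 1) (by omega)]
    exact (h1 l l.2).2.2.2.2.1 t ht
  · intro l
    rw [eL]
    refine notight_congr (fun t => lb ty (g l t)) _ _ ?_ (h1 l l.2).2.2.2.2.2.1
    intro t ht
    show _ = lb ty (cfEd d0 κ l t)
    rw [eE l t ht]
  · intro l l' hne t t' ht ht'
    rw [eL] at ht ht'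
    rw [eE l t ht, eE l' t' ht']
    exact h2 l l.2 l' l'.2 (fun h => hne (Fin.ext h)) t t' ht ht'
  · intro l t ht
    rw [eL] at ht
    rw [eE l t ht]
    exact (h1 l l.2).2.2.2.2.2.2.2 t ht

/-- one configuration avoiding given rows and columns, for a typical input -/
theorem typ_cfg {n M S K d d' D : ℕ} (hn : 1 ≤ n) (hK1 : 1 ≤ K) (hd : 1 ≤ d) (hS : 0 < S)
    (hD : 1 ≤ D) (u : ℕ → ℕ) (hu : ∀ z, u z < S)
    (acc : ℕ → ℕ → ℕ → ℕ → Bool)
    (mem : Inp n M → ℕ → ℕ) (d0 : Fin n × Fin n)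
    (p : ℕ → ℕ) (Q : Finset ℕ)
    (hpu : ∀ z ∈ Q, ∀ z' ∈ Q, p z = p z' → u z = u z')
    (hpQ : (Q.image p).card ≤ 2 * S)
    (H1 : 128 * (S * (16 * d) ^ 2) ≤ n * D)
    (H2 : K + 2 * K * 2 ^ (2 * K + 1) + d' ≤ d)
    (H3 : n ^ 2 * (2 * K * (16 * d)) ^ K < d' ^ (2 * K))
    (ω : Inp n M) (htyp : TypV Q p D ω)
    (hcomp : ∀ e : Fin n × Fin n, zz ω e ∈ Q →
      ∃ s, s < S ∧ acc (zz ω e) (mem ω (u (zz ω e))) s (mem ω s) = true)
    (Yr Yc : Finset (Fin n)) (hYr : 4096 * Yr.card ≤ n) (hYc : 4096 * Yc.card ≤ n) :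
    ∃ κ : Cfg n S K (2 ^ (2 * K + 1)), GoodC u acc mem d0 ω κ ∧
      ∀ l t, t < cfLen κ l → (cfEd d0 κ l t).1 ∉ Yr ∧ (cfEd d0 κ l t).2 ∉ Yc := by
  classical
  obtain ⟨E1, hE1, hE2, hE3⟩ := htyp Yr Yc hYr hYc
  have hsel0 : ∀ e : Fin n × Fin n, ∃ s, zz ω e ∈ Q →
      s < S ∧ acc (zz ω e) (mem ω (u (zz ω e))) s (mem ω s) = true := by
    intro e
    by_cases h : zz ω e ∈ Q
    · obtain ⟨s, hs⟩ := hcomp e h
      exact ⟨s, fun _ => hs⟩
    · exact ⟨0, fun h' => absurd h' h⟩
  choose sl hsl using hsel0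
  have hpos : 0 < E1.card := by
    have : 0 < n * D := Nat.mul_pos (by omega) (by omega)
    omega
  obtain ⟨ty, e0, hall⟩ := good_input_familyV S u acc mem (fun _ e => sl e) p Q K
    (2 ^ (2 * K + 1)) d d' hK1 hd hpu hpQ H2 H3 ω E1
    (fun e he => hsl e (hE2 e he).1) (Finset.card_pos.1 hpos) (by omega)
    (fun e he => (hE2 e he).1) hE3
  obtain ⟨len, g, s, g1, g2⟩ := family_of_walksV S u acc mem ω ty _ K (2 ^ (2 * K + 1)) E1 hn hall
    (2 ^ (2 * K + 1)) le_rfl
  obtain ⟨κ, h1, h2⟩ := exists_cfgV (K := K) hS u acc mem d0 hu ω ty _ (by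
    unfold cellAt
    simp only [Nat.zero_mod, if_true]
    exact hu _) E1 len g s g1 g2
  exact ⟨κ, h1, fun l t ht => (hE2 _ (h2 l t ht)).2⟩

/-- rows (`false`) or columns (`true`) used by a configuration -/
def useC {n S K L : ℕ} (d0 : Fin n × Fin n) (κ : Cfg n S K L) (tb : Bool) : Finset (Fin n) :=
  (univ : Finset (Fin L)).biUnion
    (fun l => (Finset.range (cfLen κ l)).image (fun t => lb tb (cfEd d0 κ l t)))

theorem useC_card {n S K L : ℕ} (d0 : Fin n × Fin n) (κ : Cfg n S K L) (tb : Bool)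
    (h : ∀ l, cfLen κ l ≤ 2 * K) : (useC d0 κ tb).card ≤ 2 * K * L := by
  unfold useC
  calc _ ≤ ∑ l ∈ (univ : Finset (Fin L)),
        ((Finset.range (cfLen κ l)).image (fun t => lb tb (cfEd d0 κ l t))).card :=
        Finset.card_biUnion_le
    _ ≤ ∑ l ∈ (univ : Finset (Fin L)), 2 * K := by
        apply Finset.sum_le_sum
        intro l _
        calc _ ≤ (Finset.range (cfLen κ l)).card := Finset.card_image_le
          _ = cfLen κ l := Finset.card_range _
          _ ≤ 2 * K := h l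
    _ = 2 * K * L := by
        rw [Finset.sum_const, Finset.card_univ, Fintype.card_fin, smul_eq_mul]; ring

theorem mem_useC {n S K L : ℕ} (d0 : Fin n × Fin n) (κ : Cfg n S K L) (tb : Bool)
    (l : Fin L) (t : ℕ) (ht : t < cfLen κ l) : lb tb (cfEd d0 κ l t) ∈ useC d0 κ tb := by
  unfold useC
  simp only [Finset.mem_biUnion, Finset.mem_univ, true_and, Finset.mem_image, Finset.mem_range]
  exact ⟨l, t, ht, rfl⟩

/-- many disjoint configurations -/
theorem many_cfg {n M S K L q : ℕ} (hne : Nonempty (Cfg n S K L)) (u : ℕ → ℕ)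
    (acc : ℕ → ℕ → ℕ → ℕ → Bool)
    (mem : Inp n M → ℕ → ℕ) (d0 : Fin n × Fin n) (ω : Inp n M)
    (hone : ∀ Yr Yc : Finset (Fin n), 4096 * Yr.card ≤ n → 4096 * Yc.card ≤ n →
      ∃ κ : Cfg n S K L, GoodC u acc mem d0 ω κ ∧
        ∀ l t, t < cfLen κ l → (cfEd d0 κ l t).1 ∉ Yr ∧ (cfEd d0 κ l t).2 ∉ Yc)
    (H7 : 4096 * (q * (2 * K * L)) ≤ n) :
    ∀ m, m ≤ q → ∃ F : ℕ → Cfg n S K L, (∀ k < m, GoodC u acc mem d0 ω (F k)) ∧
      (∀ k < m, ∀ k' < m, k ≠ k' → ∀ tb l l' t t', t < cfLen (F k) l → t' < cfLen (F k') l' →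
        lb tb (cfEd d0 (F k) l t) ≠ lb tb (cfEd d0 (F k') l' t')) := by
  classical
  intro m
  induction m with
  | zero =>
    intro _
    obtain ⟨κ⟩ := hne
    exact ⟨fun _ => κ, by intro k hk; omega, by intro k hk; omega⟩
  | succ m ih =>
    intro hm
    obtain ⟨F, hF1, hF2⟩ := ih (by omega)
    have hY : ∀ tb, 4096 * ((Finset.range m).biUnion (fun k => useC d0 (F k) tb)).card ≤ n := by
      intro tb
      have h1 : ((Finset.range m).biUnion (fun k => useC d0 (F k) tb)).card ≤ m * (2 * K * L) := by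
        calc _ ≤ ∑ k ∈ Finset.range m, (useC d0 (F k) tb).card := Finset.card_biUnion_le
          _ ≤ ∑ k ∈ Finset.range m, 2 * K * L := by
              apply Finset.sum_le_sum
              intro k hk
              exact useC_card d0 (F k) tb (hF1 k (Finset.mem_range.1 hk)).2.1
          _ = m * (2 * K * L) := by rw [Finset.sum_const, Finset.card_range, smul_eq_mul]
      have h2 : m * (2 * K * L) ≤ q * (2 * K * L) := Nat.mul_le_mul_right _ (by omega)
      omega
    obtain ⟨κ, hκ1, hκ2⟩ := hone _ _ (hY false) (hY true)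
    have hκ3 : ∀ tb, ∀ k < m, ∀ l l' t t', t < cfLen (F k) l → t' < cfLen κ l' →
        lb tb (cfEd d0 (F k) l t) ≠ lb tb (cfEd d0 κ l' t') := by
      intro tb k hk l l' t t' ht ht' he
      have h1 := mem_useC d0 (F k) tb l t ht
      rw [he] at h1
      have h2 : lb tb (cfEd d0 κ l' t') ∈
          (Finset.range m).biUnion (fun k => useC d0 (F k) tb) :=
        Finset.mem_biUnion.2 ⟨k, Finset.mem_range.2 hk, h1⟩
      cases tb
      · exact (hκ2 l' t' ht').1 h2
      · exact (hκ2 l' t' ht').2 h2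
    refine ⟨fun k => if k < m then F k else κ, ?_, ?_⟩
    · intro k hk
      by_cases hkm : k < m
      · simp only [hkm, if_true]; exact hF1 k hkm
      · simp only [hkm, if_false]; exact hκ1
    · intro k hk k' hk' hne tb l l' t t' ht ht'
      by_cases hkm : k < m
      · by_cases hkm' : k' < m
        · simp only [hkm, hkm', if_true] at ht ht' ⊢
          exact hF2 k hkm k' hkm' hne tb l l' t t' ht ht'
        · simp only [hkm, hkm', if_true, if_false] at ht ht' ⊢
          exact hκ3 tb k hkm l l' t t' ht ht'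
      · by_cases hkm' : k' < m
        · simp only [hkm, hkm', if_true, if_false] at ht ht' ⊢
          exact (hκ3 tb k' hkm' l' l t' t ht' ht).symm
        · omega

end H583T
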