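import Pool.Agent.H583R2.TSI.VDefs

namespace H583T
open Finset

/-- sums of products of sequential weights -/
theorem vseq_prod (n M : ℕ) (w : Fin n → (Fin n → Fin M) → ℝ) (W : ℝ) (hW : 0 ≤ W)
    (h0 : ∀ j x, 0 ≤ w j x)
    (hdep : ∀ j x x', (∀ i, i ≤ j → x i = x' i) → w j x = w j x')
    (hmean : ∀ j x, ∑ y : Fin M, w j (Function.update x j y) ≤ W) :
    ∑ x : Fin n → Fin M, ∏ j, w j x ≤ W ^ n := by
  induction n with
  | zero =>
    rw [Fintype.sum_unique]
    simp
  | succ n ih =>
    rcases Nat.eq_zero_or_pos M with hM | hM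
    · subst hM
      have : IsEmpty (Fin (n + 1) → Fin 0) := ⟨fun x => (x 0).elim0⟩
      rw [Fintype.sum_empty]
      positivity
    · let y0 : Fin M := ⟨0, hM⟩
      rw [← Equiv.sum_comp (Fin.snocEquiv (fun _ : Fin (n + 1) => Fin M)),
        Fintype.sum_prod_type_right]
      have h1 : ∀ (x : Fin n → Fin M) (y : Fin M),
          ∏ j, w j ((Fin.snocEquiv (fun _ : Fin (n + 1) => Fin M)) (y, x)) =
          (∏ j : Fin n, w j.castSucc (Fin.snoc (α := fun _ => Fin M) x y0)) *
            w (Fin.last n) (Function.update (Fin.snoc (α := fun _ => Fin M) x y0) (Fin.last n) y) := by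
        intro x y
        have e : (Fin.snocEquiv (fun _ : Fin (n + 1) => Fin M)) (y, x) =
            Fin.snoc (α := fun _ => Fin M) x y := rfl
        rw [e, Fin.prod_univ_castSucc]
        congr 1
        · apply Finset.prod_congr rfl
          intro j _
          apply hdep
          intro i hi
          have hlt : i.val < n := lt_of_le_of_lt (Fin.le_def.mp hi) (by simp)
          have : i = (⟨i.val, hlt⟩ : Fin n).castSucc := by ext; rfl
          rw [this, Fin.snoc_castSucc, Fin.snoc_castSucc]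
        · congr 1
          rw [Fin.update_snoc_last]
      have h2 : ∀ x : Fin n → Fin M, ∑ y : Fin M,
          ∏ j, w j ((Fin.snocEquiv (fun _ : Fin (n + 1) => Fin M)) (y, x)) ≤
          (∏ j : Fin n, w j.castSucc (Fin.snoc (α := fun _ => Fin M) x y0)) * W := by
        intro x
        rw [Finset.sum_congr rfl (fun y _ => h1 x y), ← Finset.mul_sum]
        exact mul_le_mul_of_nonneg_left (hmean _ _) (Finset.prod_nonneg fun j _ => h0 _ _)
      refine (Finset.sum_le_sum fun x _ => h2 x).trans ?_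
      rw [← Finset.sum_mul, pow_succ]
      apply mul_le_mul_of_nonneg_right _ hW
      apply ih (fun j x => w j.castSucc (Fin.snoc (α := fun _ => Fin M) x y0))
      · intro j x
        exact h0 _ _
      · intro j x x' hx
        apply hdep
        intro i hi
        have hlt : i.val < n := lt_of_le_of_lt (Fin.le_def.mp hi) (by simp)
        have hi2 : i = (⟨i.val, hlt⟩ : Fin n).castSucc := by ext; rfl
        rw [hi2, Fin.snoc_castSucc, Fin.snoc_castSucc]
        apply hx
        rw [Fin.le_def]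
        exact Fin.le_def.mp hi
      · intro j x
        have h3 : ∀ y : Fin M, w j.castSucc (Fin.snoc (α := fun _ => Fin M)
            (Function.update x j y) y0) =
            w j.castSucc (Function.update (Fin.snoc (α := fun _ => Fin M) x y0) j.castSucc y) := by
          intro y
          rw [Fin.snoc_update]
        rw [Finset.sum_congr rfl (fun y _ => h3 y)]
        exact hmean _ _

theorem vseq_half {F : ℝ} (h0 : 0 ≤ F) (h1 : F ≤ 1) : (1 / 2 : ℝ) ^ F ≤ 1 - F / 2 := by
  have h := Real.geom_mean_le_arith_mean2_weighted (w₁ := F) (w₂ := 1 - F) (p₁ := 1 / 2)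
    (p₂ := 1) h0 (by linarith) (by norm_num) (by norm_num) (by ring)
  rw [Real.one_rpow, mul_one] at h
  linarith

/-! ### U1 sequential lower tail (exponential moments, induction on `n`) -/
theorem seq_tail (n M : ℕ) (F : Fin n → (Fin n → Fin M) → ℝ) (mu s : ℝ)
    (hmu0 : 0 ≤ mu) (hmu : mu ≤ 1)
    (h0 : ∀ j x, 0 ≤ F j x) (h1 : ∀ j x, F j x ≤ 1)
    (hdep : ∀ j x x', (∀ i, i ≤ j → x i = x' i) → F j x = F j x')
    (hmean : ∀ j x, mu * M ≤ ∑ y : Fin M, F j (Function.update x j y)) :
    (((univ : Finset (Fin n → Fin M)).filter (fun x => ∑ j, F j x ≤ s)).card : ℝ) ≤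
      (M : ℝ) ^ n * (2 : ℝ) ^ s * (1 - mu / 2) ^ n := by
  have hM : (0 : ℝ) ≤ M := Nat.cast_nonneg _
  have hW : 0 ≤ (M : ℝ) * (1 - mu / 2) := mul_nonneg hM (by linarith)
  have hkey := vseq_prod n M (fun j x => (1 / 2 : ℝ) ^ F j x) ((M : ℝ) * (1 - mu / 2)) hW
    (fun j x => by positivity)
    (fun j x x' hx => by
      change (1 / 2 : ℝ) ^ F j x = (1 / 2 : ℝ) ^ F j x'
      rw [hdep j x x' hx])
    (fun j x => by
      calc ∑ y : Fin M, (1 / 2 : ℝ) ^ F j (Function.update x j y)
          ≤ ∑ y : Fin M, (1 - F j (Function.update x j y) / 2) :=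
            Finset.sum_le_sum fun y _ => vseq_half (h0 _ _) (h1 _ _)
        _ = M - (∑ y : Fin M, F j (Function.update x j y)) / 2 := by
            rw [Finset.sum_sub_distrib, ← Finset.sum_div, Finset.sum_const, Finset.card_univ,
              Fintype.card_fin, nsmul_eq_mul, mul_one]
        _ ≤ (M : ℝ) * (1 - mu / 2) := by
            have := hmean j x
            linarith)
  have h2s : (0 : ℝ) < (2 : ℝ) ^ s := by positivity
  calc (((univ : Finset (Fin n → Fin M)).filter (fun x => ∑ j, F j x ≤ s)).card : ℝ)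
      = ∑ x ∈ (univ : Finset (Fin n → Fin M)).filter (fun x => ∑ j, F j x ≤ s), (1 : ℝ) := by
        rw [Finset.sum_const, nsmul_eq_mul, mul_one]
    _ ≤ ∑ x ∈ (univ : Finset (Fin n → Fin M)).filter (fun x => ∑ j, F j x ≤ s),
        (2 : ℝ) ^ s * ∏ j, (1 / 2 : ℝ) ^ F j x := by
        apply Finset.sum_le_sum
        intro x hx
        have hx2 := (Finset.mem_filter.mp hx).2
        rw [← Real.rpow_sum_of_pos (by norm_num : (0 : ℝ) < 1 / 2)]
        have h3 : (1 / 2 : ℝ) ^ (∑ j, F j x) = (2 : ℝ) ^ (-(∑ j, F j x)) := by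
          rw [one_div, Real.inv_rpow (by norm_num), Real.rpow_neg (by norm_num)]
        rw [h3, ← Real.rpow_add (by norm_num)]
        apply Real.one_le_rpow (by norm_num)
        linarith
    _ ≤ ∑ x : Fin n → Fin M, (2 : ℝ) ^ s * ∏ j, (1 / 2 : ℝ) ^ F j x := by
        apply Finset.sum_le_sum_of_subset_of_nonneg (Finset.filter_subset _ _)
        intro x _ _
        exact mul_nonneg h2s.le (Finset.prod_nonneg fun j _ => by positivity)
    _ = (2 : ℝ) ^ s * ∑ x : Fin n → Fin M, ∏ j, (1 / 2 : ℝ) ^ F j x := by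
        rw [Finset.mul_sum]
    _ ≤ (2 : ℝ) ^ s * ((M : ℝ) * (1 - mu / 2)) ^ n := mul_le_mul_of_nonneg_left hkey h2s.le
    _ = _ := by rw [mul_pow]; ring

end H583T
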