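import Pool.Agent.H583R2.TSI.VDefs
import Pool.Agent.H583R2.TSI.VSeq

namespace H583T
open Finset

namespace Ph2

theorem inj_card {M : ℕ} (c : ℕ) (Q : Finset ℕ) (P : Fin M → Prop) [DecidablePred P]
    (h : ∀ y, P y → c + (y : ℕ) ∈ Q) :
    ((univ : Finset (Fin M)).filter P).card ≤ Q.card := by
  apply card_le_card_of_injOn (fun y : Fin M => c + (y : ℕ))
  · intro y hy
    simp only [coe_filter, mem_univ, true_and] at hy
    exact h y hy
  · intro y _ y' _ heq
    simp only at heq
    exact Fin.ext (by omega)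

theorem mean {n M B q0 D : ℕ} (Q : Finset ℕ) (p : ℕ → ℕ) (hQc : Q.card = q0)
    (hB : ∀ c, (Q.filter (fun z => p z = c)).card ≤ B)
    (hq : q0 * n ≤ 2 * (D * M)) (hnB : 32 * (n * B) ≤ M)
    (a : Fin n → Fin M) (N : Fin M → Finset (Fin n)) (hN1 : ∀ b, (N b).card ≤ D)
    (hN2 : ∀ b, ∀ i ∈ N b, (a i : ℕ) + (b : ℕ) ∈ Q)
    (hN3 : D * M ≤ 8 * ∑ b, (N b).card)
    (Y : Finset (Fin n)) (hY : 64 * Y.card ≤ n) (x : Fin n → Fin M) (j : Fin n) :
    D * M ≤ 16 * ∑ y : Fin M, (stV p a N (Function.update x j y) j \ Y).card := by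
  classical
  -- pointwise inequality
  have h1 : ∀ y : Fin M, (N y).card ≤ (stV p a N (Function.update x j y) j \ Y).card +
      (Y.filter (fun i => i ∈ N y)).card +
      ∑ j' : Fin n, ((N (x j')).filter (fun i => i ∈ N y ∧
        p ((a i : ℕ) + (x j' : ℕ)) = p ((a i : ℕ) + (y : ℕ)))).card := by
    intro y
    have hsub : N y ⊆ (stV p a N (Function.update x j y) j \ Y) ∪ (Y.filter (fun i => i ∈ N y)) ∪
        (univ : Finset (Fin n)).biUnion (fun j' => (N (x j')).filter (fun i => i ∈ N y ∧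
          p ((a i : ℕ) + (x j' : ℕ)) = p ((a i : ℕ) + (y : ℕ)))) := by
      intro i hi
      by_cases hiY : i ∈ Y
      · simp only [mem_union, mem_filter]
        exact Or.inl (Or.inr ⟨hiY, hi⟩)
      · by_cases hex : ∃ j' : Fin n, j' < j ∧ i ∈ N (x j') ∧
            p ((a i : ℕ) + (x j' : ℕ)) = p ((a i : ℕ) + (y : ℕ))
        · obtain ⟨j', _, hj1, hj2⟩ := hex
          simp only [mem_union, mem_biUnion, mem_univ, true_and, mem_filter]
          exact Or.inr ⟨j', hj1, hi, hj2⟩
        · push Not at hex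
          simp only [mem_union, mem_sdiff, stV, mem_filter, Function.update_self]
          refine Or.inl (Or.inl ⟨⟨hi, fun j' hj' hm => ?_⟩, hiY⟩)
          rw [Function.update_of_ne hj'.ne] at hm ⊢
          exact hex j' hj' hm
    refine (card_le_card hsub).trans ?_
    refine (card_union_le _ _).trans ?_
    refine Nat.add_le_add (card_union_le _ _) card_biUnion_le
  -- second sum
  have h2 : ∑ y : Fin M, (Y.filter (fun i => i ∈ N y)).card ≤ Y.card * q0 := by
    calc ∑ y : Fin M, (Y.filter (fun i => i ∈ N y)).card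
        = ∑ i ∈ Y, ((univ : Finset (Fin M)).filter (fun y => i ∈ N y)).card := by
          simp only [card_filter]
          rw [sum_comm]
      _ ≤ ∑ _i ∈ Y, q0 := by
          apply sum_le_sum
          intro i _
          rw [← hQc]
          exact inj_card (a i : ℕ) Q _ (fun y hy => hN2 y i hy)
      _ = _ := by rw [sum_const, smul_eq_mul]
  -- third sum
  have h3 : ∑ y : Fin M, ∑ j' : Fin n, ((N (x j')).filter (fun i => i ∈ N y ∧
        p ((a i : ℕ) + (x j' : ℕ)) = p ((a i : ℕ) + (y : ℕ)))).card ≤ n * (D * B) := by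
    calc ∑ y : Fin M, ∑ j' : Fin n, ((N (x j')).filter (fun i => i ∈ N y ∧
        p ((a i : ℕ) + (x j' : ℕ)) = p ((a i : ℕ) + (y : ℕ)))).card
        = ∑ j' : Fin n, ∑ i ∈ N (x j'), ((univ : Finset (Fin M)).filter (fun y => i ∈ N y ∧
            p ((a i : ℕ) + (x j' : ℕ)) = p ((a i : ℕ) + (y : ℕ)))).card := by
          simp only [card_filter]
          rw [sum_comm]
          apply sum_congr rfl
          intro j' _
          rw [sum_comm]
      _ ≤ ∑ _j' : Fin n, D * B := by
          apply sum_le_sum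
          intro j' _
          calc ∑ i ∈ N (x j'), ((univ : Finset (Fin M)).filter (fun y => i ∈ N y ∧
                p ((a i : ℕ) + (x j' : ℕ)) = p ((a i : ℕ) + (y : ℕ)))).card
              ≤ ∑ _i ∈ N (x j'), B := by
                apply sum_le_sum
                intro i _
                refine le_trans (inj_card (a i : ℕ)
                  (Q.filter (fun z => p z = p ((a i : ℕ) + (x j' : ℕ)))) _ ?_) (hB _)
                intro y hy
                rw [mem_filter]
                exact ⟨hN2 y i hy.1, hy.2.symm⟩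
            _ = (N (x j')).card * B := by rw [sum_const, smul_eq_mul]
            _ ≤ D * B := Nat.mul_le_mul_right _ (hN1 _)
      _ = n * (D * B) := by rw [sum_const, card_univ, Fintype.card_fin, smul_eq_mul]
  have h4 : ∑ y : Fin M, (N y).card ≤
      ∑ y : Fin M, (stV p a N (Function.update x j y) j \ Y).card + Y.card * q0 +
        n * (D * B) := by
    refine (sum_le_sum (fun y _ => h1 y)).trans ?_
    rw [sum_add_distrib, sum_add_distrib]
    exact Nat.add_le_add (Nat.add_le_add_left h2 _) h3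
  have h5 : 32 * (Y.card * q0) ≤ D * M := by
    have : 64 * Y.card * q0 ≤ n * q0 := Nat.mul_le_mul_right _ hY
    nlinarith
  have h6 : 32 * (n * (D * B)) ≤ D * M := by
    have : D * (32 * (n * B)) ≤ D * M := Nat.mul_le_mul_left _ hnB
    nlinarith
  omega

end Ph2

/-! ### U3 phase 2 : the columns `b`, for fixed `a` -/
theorem phase2 (n M B q0 D : ℕ) (hD1 : 1 ≤ D) (Q : Finset ℕ) (p : ℕ → ℕ) (hQc : Q.card = q0)
    (hB : ∀ c, (Q.filter (fun z => p z = c)).card ≤ B)
    (hq : q0 * n ≤ 2 * (D * M)) (hnB : 32 * (n * B) ≤ M)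
    (a : Fin n → Fin M) (N : Fin M → Finset (Fin n)) (hN1 : ∀ b, (N b).card ≤ D)
    (hN2 : ∀ b, ∀ i ∈ N b, (a i : ℕ) + (b : ℕ) ∈ Q)
    (hN3 : D * M ≤ 8 * ∑ b, (N b).card)
    (Y : Finset (Fin n)) (hY : 64 * Y.card ≤ n) :
    (((univ : Finset (Fin n → Fin M)).filter
      (fun b => 64 * ∑ j, (stV p a N b j \ Y).card ≤ n * D)).card : ℝ) ≤
        (M : ℝ) ^ n * (49 / 50) ^ n := by
  have hD0 : (0 : ℝ) < D := by exact_mod_cast hD1
  have h := seq_tail n M (fun j b => ((stV p a N b j \ Y).card : ℝ) / D) (1 / 16) ((n : ℝ) / 64)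
    (by norm_num) (by norm_num) (fun j x => by positivity)
    (fun j x => by
      rw [div_le_one hD0]
      have h1 : (stV p a N x j \ Y).card ≤ D :=
        (card_le_card sdiff_subset).trans ((card_le_card (filter_subset _ _)).trans (hN1 _))
      exact_mod_cast h1)
    (fun j x x' hxx => by
      have : stV p a N x j = stV p a N x' j := by
        unfold stV
        rw [hxx j le_rfl]
        apply filter_congr
        intro i _
        constructor
        · intro hh j' hj' hm
          rw [← hxx j' hj'.le] at hm ⊢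
          exact hh j' hj' hm
        · intro hh j' hj' hm
          rw [hxx j' hj'.le] at hm ⊢
          exact hh j' hj' hm
      simp only [this])
    (fun j x => by
      rw [← sum_div, le_div_iff₀ hD0]
      have h1 := Ph2.mean Q p hQc hB hq hnB a N hN1 hN2 hN3 Y hY x j
      have h2 : ((D * M : ℕ) : ℝ) ≤
          ((16 * ∑ y : Fin M, (stV p a N (Function.update x j y) j \ Y).card : ℕ) : ℝ) := by
        exact_mod_cast h1
      push_cast at h2
      linarith)
  have hset : (univ : Finset (Fin n → Fin M)).filter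
      (fun b => 64 * ∑ j, (stV p a N b j \ Y).card ≤ n * D) ⊆
      (univ : Finset (Fin n → Fin M)).filter
        (fun x => ∑ j, ((stV p a N x j \ Y).card : ℝ) / D ≤ (n : ℝ) / 64) := by
    intro b hb
    rw [mem_filter] at hb ⊢
    refine ⟨mem_univ _, ?_⟩
    rw [← sum_div, div_le_div_iff₀ hD0 (by norm_num)]
    have h2 : ((64 * ∑ j, (stV p a N b j \ Y).card : ℕ) : ℝ) ≤ ((n * D : ℕ) : ℝ) := by
      exact_mod_cast hb.2
    push_cast at h2
    linarith
  have h1 : (((univ : Finset (Fin n → Fin M)).filter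
      (fun b => 64 * ∑ j, (stV p a N b j \ Y).card ≤ n * D)).card : ℝ) ≤
      (((univ : Finset (Fin n → Fin M)).filter
        (fun x => ∑ j, ((stV p a N x j \ Y).card : ℝ) / D ≤ (n : ℝ) / 64)).card : ℝ) := by
    exact_mod_cast card_le_card hset
  refine (h1.trans h).trans ?_
  rw [mul_assoc]
  apply mul_le_mul_of_nonneg_left _ (by positivity)
  have e1 : (2 : ℝ) ^ ((n : ℝ) / 64) = ((2 : ℝ) ^ (1 / 64 : ℝ)) ^ n := by
    rw [← Real.rpow_natCast, ← Real.rpow_mul (by norm_num)]
    congr 1
    ring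
  rw [e1, ← mul_pow]
  apply pow_le_pow_left₀ (by positivity)
  have h2 : (2 : ℝ) ^ (1 / 64 : ℝ) ≤ 784 / 775 := by
    have h3 : (2 : ℝ) ≤ (784 / 775 : ℝ) ^ 64 := by norm_num
    calc (2 : ℝ) ^ (1 / 64 : ℝ) ≤ ((784 / 775 : ℝ) ^ 64) ^ (1 / 64 : ℝ) :=
          Real.rpow_le_rpow (by norm_num) h3 (by norm_num)
      _ = 784 / 775 := by
          rw [← Real.rpow_natCast, ← Real.rpow_mul (by norm_num)]
          norm_num
  calc (2 : ℝ) ^ (1 / 64 : ℝ) * (1 - 1 / 16 / 2) ≤ 784 / 775 * (1 - 1 / 16 / 2) := by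
        apply mul_le_mul_of_nonneg_right h2 (by norm_num)
    _ = 49 / 50 := by norm_num

end H583T
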