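import Pool.Agent.H583R2.TSI.VPhase1
import Pool.Agent.H583R2.TSI.VPh2

namespace H583T
open Finset

/-- the number of small sets -/
theorem vtyp_small (n : ℕ) :
    (((univ : Finset (Finset (Fin n))).filter (fun Y => 4096 * Y.card ≤ n)).card : ℝ) ≤
      (401 / 400 : ℝ) ^ n * (1025 / 1024 : ℝ) ^ n := by
  have hc : (1024 : ℝ) ≤ (401 / 400 : ℝ) ^ 4096 := by
    have h1 : (2 : ℝ) ≤ (401 / 400 : ℝ) ^ 400 := by
      have := one_add_mul_le_pow (a := (1 / 400 : ℝ)) (by norm_num) 400
      norm_num at this ⊢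
      linarith
    calc (1024 : ℝ) = 2 ^ 10 := by norm_num
      _ ≤ ((401 / 400 : ℝ) ^ 400) ^ 10 := pow_le_pow_left₀ (by norm_num) h1 10
      _ = (401 / 400 : ℝ) ^ 4000 := by rw [← pow_mul]
      _ ≤ (401 / 400 : ℝ) ^ 4096 := pow_le_pow_right₀ (by norm_num) (by norm_num)
  have hsum : ∑ Y : Finset (Fin n), (1 / 1024 : ℝ) ^ Y.card = (1025 / 1024 : ℝ) ^ n := by
    have h := Finset.prod_one_add (univ : Finset (Fin n)) (f := fun _ => (1 / 1024 : ℝ))
    rw [Finset.prod_const, Finset.card_univ, Fintype.card_fin, Finset.powerset_univ] at h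
    rw [show (1025 / 1024 : ℝ) = 1 + 1 / 1024 by norm_num, h]
    apply Finset.sum_congr rfl
    intro Y _
    rw [Finset.prod_const]
  rw [← hsum, Finset.mul_sum]
  calc (((univ : Finset (Finset (Fin n))).filter (fun Y => 4096 * Y.card ≤ n)).card : ℝ)
      = ∑ Y ∈ (univ : Finset (Finset (Fin n))).filter (fun Y => 4096 * Y.card ≤ n), (1 : ℝ) := by
        rw [Finset.sum_const, nsmul_eq_mul, mul_one]
    _ ≤ ∑ Y ∈ (univ : Finset (Finset (Fin n))).filter (fun Y => 4096 * Y.card ≤ n),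
        (401 / 400 : ℝ) ^ n * (1 / 1024 : ℝ) ^ Y.card := by
        apply Finset.sum_le_sum
        intro Y hY
        have hY2 := (Finset.mem_filter.mp hY).2
        have h1 : (1024 : ℝ) ^ Y.card ≤ (401 / 400 : ℝ) ^ n := by
          calc (1024 : ℝ) ^ Y.card ≤ ((401 / 400 : ℝ) ^ 4096) ^ Y.card :=
                pow_le_pow_left₀ (by norm_num) hc _
            _ = (401 / 400 : ℝ) ^ (4096 * Y.card) := by rw [← pow_mul]
            _ ≤ (401 / 400 : ℝ) ^ n := pow_le_pow_right₀ (by norm_num) hY2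
        rw [one_div, inv_pow]
        have h2 : (0 : ℝ) < (1024 : ℝ) ^ Y.card := by positivity
        rw [← div_eq_mul_inv, le_div_iff₀ h2]
        linarith
    _ ≤ ∑ Y : Finset (Fin n), (401 / 400 : ℝ) ^ n * (1 / 1024 : ℝ) ^ Y.card := by
        apply Finset.sum_le_sum_of_subset_of_nonneg (Finset.filter_subset _ _)
        intro Y _ _
        positivity

/-- sufficient condition for `TypV` -/
theorem vtyp_suff {n M D : ℕ} (Q : Finset ℕ) (p : ℕ → ℕ) (a b : Fin n → Fin M)
    (N : Fin M → Finset (Fin n)) (hN1 : ∀ b, (N b).card ≤ D)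
    (hN2 : ∀ b, ∀ i ∈ N b, (a i : ℕ) + (b : ℕ) ∈ Q)
    (hN4 : ∀ b, ∀ i ∈ N b, ∀ i' ∈ N b,
        p ((a i : ℕ) + (b : ℕ)) = p ((a i' : ℕ) + (b : ℕ)) → i = i')
    (h : ∀ Y : Finset (Fin n), 4096 * Y.card ≤ n →
      n * D < 64 * ∑ j, (stV p a N b j \ Y).card) : TypV Q p D (a, b) := by
  classical
  intro Yr Yc hr hc
  have hst : ∀ j, stV p a N b j ⊆ N (b j) := fun j => Finset.filter_subset _ _
  let E1 : Finset (Fin n × Fin n) := (univ : Finset (Fin n × Fin n)).filter
    (fun e => e.2 ∉ Yc ∧ e.1 ∈ stV p a N b e.2 \ Yr)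
  have hmem : ∀ e : Fin n × Fin n, e ∈ E1 ↔ e.2 ∉ Yc ∧ e.1 ∈ stV p a N b e.2 ∧ e.1 ∉ Yr := by
    intro e
    simp [E1, Finset.mem_sdiff]
  have hcard : E1.card = ∑ j, if j ∉ Yc then (stV p a N b j \ Yr).card else 0 := by
    rw [Finset.card_filter, Fintype.sum_prod_type_right]
    apply Finset.sum_congr rfl
    intro j _
    by_cases hj : j ∉ Yc
    · rw [if_pos hj]
      simp only [hj, not_false_eq_true, true_and]
      rw [← Finset.card_filter]
      congr 1
      ext i
      simp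
    · rw [if_neg hj]
      simp only [hj, false_and, if_false, Finset.sum_const_zero]
  refine ⟨E1, ?_, ?_, ?_⟩
  · have h1 := h Yr hr
    have h2 : ∑ j, (stV p a N b j \ Yr).card ≤ E1.card + Yc.card * D := by
      rw [hcard]
      have h3 : Yc.card * D = ∑ j, if j ∈ Yc then D else 0 := by
        rw [← Finset.sum_filter, Finset.sum_const, smul_eq_mul]
        congr 2
        ext j; simp
      rw [h3, ← Finset.sum_add_distrib]
      apply Finset.sum_le_sum
      intro j _
      by_cases hj : j ∈ Yc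
      · rw [if_neg (not_not.mpr hj), if_pos hj, zero_add]
        exact (Finset.card_le_card (Finset.sdiff_subset.trans (hst j))).trans (hN1 _)
      · rw [if_pos hj, if_neg hj, add_zero]
    have h4 : 4096 * (Yc.card * D) ≤ n * D := by
      have := Nat.mul_le_mul_right D hc
      rw [mul_assoc] at this
      exact this
    omega
  · intro e he
    obtain ⟨h1, h2, h3⟩ := (hmem e).mp he
    exact ⟨hN2 _ _ (hst _ h2), h3, h1⟩
  · intro e he e' he' hp hor
    obtain ⟨h1, h2, h3⟩ := (hmem e).mp he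
    obtain ⟨h1', h2', h3'⟩ := (hmem e').mp he'
    obtain ⟨i, j⟩ := e
    obtain ⟨i', j'⟩ := e'
    simp only [zz] at h1 h2 h3 h1' h2' h3' hp hor
    rcases hor with hor | hor
    · subst hor
      rcases lt_trichotomy j j' with hlt | hlt | hlt
      · exfalso
        have h4 := (Finset.mem_filter.mp h2').2 j hlt (hst _ h2)
        exact h4 hp
      · rw [hlt]
      · exfalso
        have h4 := (Finset.mem_filter.mp h2).2 j' hlt (hst _ h2')
        exact h4 hp.symm
    · subst hor
      have h4 := hN4 (b j) i (hst _ h2) i' (hst _ h2') hp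
      rw [h4]

/-! ### U4 typical inputs -/
open Classical in
theorem typical (n M B q0 D : ℕ) (hD1 : 1 ≤ D) (Q : Finset ℕ) (p : ℕ → ℕ)
    (hQ : ∀ z ∈ Q, M ≤ 2 * z + 2 ∧ 2 * z + 2 ≤ 3 * M) (hQc : Q.card = q0)
    (hB : ∀ c, (Q.filter (fun z => p z = c)).card ≤ B)
    (hD : D * M ≤ q0 * n) (hq : q0 * n ≤ 2 * (D * M)) (hnB : 32 * (n * B) ≤ M) :
    (((univ : Finset (Inp n M)).filter (fun ω => ¬ TypV Q p D ω)).card : ℝ) ≤
      2 * (99 / 100) ^ n * ((M : ℝ) ^ n * (M : ℝ) ^ n) := by
  rcases Nat.eq_zero_or_pos n with hn | hn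
  · subst hn
    have h1 : ((univ : Finset (Inp 0 M)).filter (fun ω => ¬ TypV Q p D ω)).card ≤ 1 := by
      refine (Finset.card_filter_le _ _).trans ?_
      rw [Finset.card_univ]
      simp [Inp]
    have h2 : (((univ : Finset (Inp 0 M)).filter (fun ω => ¬ TypV Q p D ω)).card : ℝ) ≤ 1 := by
      exact_mod_cast h1
    simp only [pow_zero, mul_one]
    linarith
  · have hDB : 16 * (D * B) ≤ q0 := by
      have h1 : 32 * (D * B) * n ≤ q0 * n := by
        calc 32 * (D * B) * n = D * (32 * (n * B)) := by ring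
          _ ≤ D * M := Nat.mul_le_mul_left D hnB
          _ ≤ q0 * n := hD
      have h2 := Nat.le_of_mul_le_mul_right h1 hn
      omega
    obtain ⟨N, hN1, hN2, hN4, hN5⟩ := phase1 n M B q0 D Q p hQ hQc hB hD hDB
    have hM0 : (0 : ℝ) ≤ (M : ℝ) ^ n := by positivity
    let Aset : Finset (Inp n M) := univ.filter (fun ω => 8 * ∑ b, (N ω.1 b).card < D * M)
    let CY : Finset (Fin n) → Finset (Inp n M) := fun Y => univ.filter (fun ω =>
      D * M ≤ 8 * ∑ b, (N ω.1 b).card ∧ 64 * ∑ j, (stV p ω.1 (N ω.1) ω.2 j \ Y).card ≤ n * D)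
    let SY : Finset (Finset (Fin n)) := univ.filter (fun Y => 4096 * Y.card ≤ n)
    have hcov : (univ : Finset (Inp n M)).filter (fun ω => ¬ TypV Q p D ω) ⊆
        Aset ∪ SY.biUnion CY := by
      intro ω hω
      have hω2 := (Finset.mem_filter.mp hω).2
      rw [Finset.mem_union]
      rcases Nat.lt_or_ge (8 * ∑ b, (N ω.1 b).card) (D * M) with hb | hb
      · left
        exact Finset.mem_filter.mpr ⟨Finset.mem_univ _, hb⟩
      · right
        by_contra hcon
        apply hω2
        apply vtyp_suff Q p ω.1 ω.2 (N ω.1) (hN1 ω.1) (hN2 ω.1) (hN4 ω.1)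
        intro Y hY
        by_contra hlt
        push Not at hlt
        apply hcon
        rw [Finset.mem_biUnion]
        exact ⟨Y, Finset.mem_filter.mpr ⟨Finset.mem_univ _, hY⟩,
          Finset.mem_filter.mpr ⟨Finset.mem_univ _, hb, hlt⟩⟩
    have hA : (Aset.card : ℝ) ≤ (93 / 100) ^ n * ((M : ℝ) ^ n * (M : ℝ) ^ n) := by
      have h1 : Aset = ((univ : Finset (Fin n → Fin M)).filter
          (fun a => 8 * ∑ b, (N a b).card < D * M)) ×ˢ (univ : Finset (Fin n → Fin M)) := by
        ext ω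
        simp [Aset]
      rw [h1, Finset.card_product, Finset.card_univ, Fintype.card_fun, Fintype.card_fin,
        Fintype.card_fin]
      push_cast
      have := mul_le_mul_of_nonneg_right hN5 hM0
      linarith
    have hC : ∀ Y ∈ SY, ((CY Y).card : ℝ) ≤ (49 / 50) ^ n * ((M : ℝ) ^ n * (M : ℝ) ^ n) := by
      intro Y hY
      have hY2 := (Finset.mem_filter.mp hY).2
      have h1 : ((CY Y).card : ℝ) = ∑ a : Fin n → Fin M,
          (((univ : Finset (Fin n → Fin M)).filter (fun b => D * M ≤ 8 * ∑ b, (N a b).card ∧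
            64 * ∑ j, (stV p a (N a) b j \ Y).card ≤ n * D)).card : ℝ) := by
        have h2 : (CY Y).card = ∑ a : Fin n → Fin M,
          ((univ : Finset (Fin n → Fin M)).filter (fun b => D * M ≤ 8 * ∑ b, (N a b).card ∧
            64 * ∑ j, (stV p a (N a) b j \ Y).card ≤ n * D)).card := by
          rw [Finset.card_filter, Fintype.sum_prod_type]
          apply Finset.sum_congr rfl
          intro a _
          rw [Finset.card_filter]
        rw [h2]
        push_cast
        rfl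
      rw [h1]
      have h3 : ∀ a : Fin n → Fin M,
          (((univ : Finset (Fin n → Fin M)).filter (fun b => D * M ≤ 8 * ∑ b, (N a b).card ∧
            64 * ∑ j, (stV p a (N a) b j \ Y).card ≤ n * D)).card : ℝ) ≤
          (M : ℝ) ^ n * (49 / 50) ^ n := by
        intro a
        by_cases hb : D * M ≤ 8 * ∑ b, (N a b).card
        · simp only [hb, true_and]
          exact phase2 n M B q0 D hD1 Q p hQc hB hq hnB a (N a) (hN1 a) (hN2 a) hb Y (by omega)
        · simp only [hb, false_and, Finset.filter_false, Finset.card_empty, Nat.cast_zero]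
          positivity
      refine (Finset.sum_le_sum fun a _ => h3 a).trans ?_
      rw [Finset.sum_const, Finset.card_univ, Fintype.card_fun, Fintype.card_fin,
        Fintype.card_fin, nsmul_eq_mul]
      push_cast
      apply le_of_eq
      ring
    have hSY : (SY.card : ℝ) ≤ (401 / 400 : ℝ) ^ n * (1025 / 1024 : ℝ) ^ n := vtyp_small n
    have hCC : ((SY.biUnion CY).card : ℝ) ≤ (99 / 100) ^ n * ((M : ℝ) ^ n * (M : ℝ) ^ n) := by
      calc ((SY.biUnion CY).card : ℝ) ≤ ∑ Y ∈ SY, ((CY Y).card : ℝ) := by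
            exact_mod_cast Finset.card_biUnion_le
        _ ≤ ∑ Y ∈ SY, (49 / 50) ^ n * ((M : ℝ) ^ n * (M : ℝ) ^ n) := Finset.sum_le_sum hC
        _ = (SY.card : ℝ) * ((49 / 50) ^ n * ((M : ℝ) ^ n * (M : ℝ) ^ n)) := by
            rw [Finset.sum_const, nsmul_eq_mul]
        _ ≤ ((401 / 400 : ℝ) ^ n * (1025 / 1024 : ℝ) ^ n) *
              ((49 / 50) ^ n * ((M : ℝ) ^ n * (M : ℝ) ^ n)) :=
            mul_le_mul_of_nonneg_right hSY (by positivity)
        _ = ((401 / 400) * (1025 / 1024) * (49 / 50)) ^ n * ((M : ℝ) ^ n * (M : ℝ) ^ n) := by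
            rw [mul_pow, mul_pow]; ring
        _ ≤ (99 / 100) ^ n * ((M : ℝ) ^ n * (M : ℝ) ^ n) := by
            apply mul_le_mul_of_nonneg_right _ (by positivity)
            exact pow_le_pow_left₀ (by norm_num) (by norm_num) n
    have h93 : (93 / 100 : ℝ) ^ n ≤ (99 / 100) ^ n := pow_le_pow_left₀ (by norm_num) (by norm_num) n
    have hMM : 0 ≤ (M : ℝ) ^ n * (M : ℝ) ^ n := by positivity
    calc (((univ : Finset (Inp n M)).filter (fun ω => ¬ TypV Q p D ω)).card : ℝ)
        ≤ ((Aset ∪ SY.biUnion CY).card : ℝ) := by exact_mod_cast Finset.card_le_card hcov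
      _ ≤ (Aset.card : ℝ) + ((SY.biUnion CY).card : ℝ) := by
          exact_mod_cast Finset.card_union_le _ _
      _ ≤ (93 / 100) ^ n * ((M : ℝ) ^ n * (M : ℝ) ^ n) +
          (99 / 100) ^ n * ((M : ℝ) ^ n * (M : ℝ) ^ n) := add_le_add hA hCC
      _ ≤ _ := by nlinarith

end H583T
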