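import Pool.Agent.H583R2.TSI.VEnt
import Pool.Agent.H583R2.TSI.VFam
import Pool.Agent.H583R2.TSI.VTyp

/-! The finite form of the lower bound with a cache. -/

namespace H583T
open Finset

open Classical in
theorem multi_probe_finite (n M S K d d' D q q0 : ℕ) {G : Type} [Fintype G]
    (hn : 1 ≤ n) (hM : 1 ≤ M) (hK1 : 1 ≤ K) (hd : 1 ≤ d) (hD : 1 ≤ D) (hq : 1 ≤ q) (hS : 1 ≤ S)
    (gam : Inp n M → G) (Qs : G → Finset ℕ) (u : G → ℕ → ℕ)
    (acc : G → ℕ → ℕ → ℕ → ℕ → Bool) (mem : Inp n M → ℕ → ℕ)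
    (hQm : ∀ g, ∀ z ∈ Qs g, M ≤ 2 * z + 2 ∧ 2 * z + 2 ≤ 3 * M)
    (hu : ∀ g z, u g z < S) (hmem : ∀ ω s, mem ω s < 2 * M)
    (hsound : ∀ ω, ∀ z ∈ Qs (gam ω), ∀ s, s < S →
      acc (gam ω) z (mem ω (u (gam ω) z)) s (mem ω s) = true →
        ∃ i j, (ω.1 i : ℕ) + (ω.2 j : ℕ) = z)
    (hcomp : ∀ ω e, zz ω e ∈ Qs (gam ω) → ∃ s, s < S ∧
      acc (gam ω) (zz ω e) (mem ω (u (gam ω) (zz ω e))) s (mem ω s) = true)
    (N1 : ℝ) (hN1 : 0 < N1)
    (hbigQ : (M : ℝ) ^ n * (M : ℝ) ^ n ≤ N1 *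
      (((univ : Finset (Inp n M)).filter (fun ω => q0 ≤ (Qs (gam ω)).card)).card : ℝ))
    (hq0M : q0 ≤ M)
    (H0 : 32 * (n * (M / S + 1)) ≤ M) (HD1 : D * M ≤ q0 * n) (HD2 : q0 * n ≤ 2 * (D * M))
    (H1 : 128 * (S * (16 * d) ^ 2) ≤ n * D)
    (H2 : K + 2 * K * 2 ^ (2 * K + 1) + d' ≤ d)
    (H3 : n ^ 2 * (2 * K * (16 * d)) ^ K < d' ^ (2 * K))
    (H7 : 4096 * (q * (2 * K * 2 ^ (2 * K + 1))) ≤ n)
    (H8 : (Fintype.card G : ℝ) * (2 * (99 / 100) ^ n) * (2 * N1) ≤ 1)
    (H9 : 2 ^ (2 * K + 3) * (((2 * K : ℕ) : ℝ) + 8) *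
      (2 / q * Real.log (2 * N1 * (Fintype.card G : ℝ) *
        (Fintype.card (Cfg n S K (2 ^ (2 * K + 1))) : ℝ) ^ q) +
        Real.log (2 * (n : ℝ) ^ 2)) < Real.log M) : False := by
  set L := 2 ^ (2 * K + 1) with hL
  have hSpos : 0 < S := hS
  set W : ℝ := (M : ℝ) ^ n * (M : ℝ) ^ n with hW
  have hWpos : 0 < W := by
    have : (0 : ℝ) < M := by exact_mod_cast hM
    positivity
  have hcardO : (Fintype.card (Inp n M) : ℝ) = W := by
    have : Fintype.card (Inp n M) = M ^ n * M ^ n := by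
      simp [Inp, Fintype.card_prod, Fintype.card_pi, Fintype.card_fin, Finset.prod_const]
    rw [this]; push_cast; rfl
  -- query sets of equal size
  have hQ'0 : ∀ g, ∃ Q' : Finset ℕ, Q' ⊆ Qs g ∧ (q0 ≤ (Qs g).card → Q'.card = q0) ∧
      Q'.card ≤ q0 := by
    intro g
    by_cases h : q0 ≤ (Qs g).card
    · obtain ⟨Q', h1, h2⟩ := Finset.exists_subset_card_eq h
      exact ⟨Q', h1, fun _ => h2, h2.le⟩
    · exact ⟨∅, by simp, fun h' => absurd h' h, by simp⟩
  choose Q' hQ'sub hQ'card hQ'le using hQ'0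
  -- refined classes
  have hp0 : ∀ g, ∃ p : ℕ → ℕ, (∀ e ∈ Q' g, ∀ e' ∈ Q' g, p e = p e' → u g e = u g e') ∧
      (∀ e ∈ Q' g, ((Q' g).filter (fun e' => p e' = p e)).card ≤ M / S + 1) ∧
      ((Q' g).image p).card ≤ ((Q' g).image (u g)).card + (Q' g).card / (M / S + 1) :=
    fun g => refine_part (u g) (Q' g) (M / S + 1) (Nat.le_add_left 1 _)
  choose p hp1 hp2 hp3 using hp0
  have hpQ : ∀ g, ((Q' g).image (p g)).card ≤ 2 * S := by
    intro g
    have h1 : ((Q' g).image (u g)).card ≤ S := by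
      calc _ ≤ (Finset.range S).card := by
            apply Finset.card_le_card
            intro a ha
            obtain ⟨z, hz, rfl⟩ := Finset.mem_image.1 ha
            exact Finset.mem_range.2 (hu g z)
        _ = S := Finset.card_range S
    have h2 : (Q' g).card / (M / S + 1) ≤ S := by
      apply Nat.div_le_of_le_mul
      have h3 := Nat.div_add_mod M S
      have h4 := Nat.mod_lt M hSpos
      have h5 := hQ'le g
      nlinarith
    have h3 := hp3 g
    omega
  have hpB : ∀ g c, ((Q' g).filter (fun z => p g z = c)).card ≤ M / S + 1 := by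
    intro g c
    by_cases hc : ∃ z ∈ Q' g, p g z = c
    · obtain ⟨z, hz, rfl⟩ := hc
      exact hp2 g z hz
    · have : (Q' g).filter (fun z => p g z = c) = ∅ := by
        apply Finset.filter_eq_empty_iff.2
        intro z hz hzc
        exact hc ⟨z, hz, hzc⟩
      rw [this]
      simp
  -- typical inputs
  set Om1 : Finset (Inp n M) := univ.filter (fun ω => q0 ≤ (Qs (gam ω)).card) with hOm1
  set Om2 : Finset (Inp n M) := Om1.filter (fun ω => TypV (Q' (gam ω)) (p (gam ω)) D ω) with hOm2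
  have hbad : ((Om1 \ Om2).card : ℝ) ≤ (Fintype.card G : ℝ) * (2 * (99 / 100) ^ n * W) := by
    have hsub : Om1 \ Om2 ⊆ ((univ : Finset G).filter (fun g => q0 ≤ (Qs g).card)).biUnion
        (fun g => (univ : Finset (Inp n M)).filter (fun ω => ¬ TypV (Q' g) (p g) D ω)) := by
      intro ω hω
      have h1 := (Finset.mem_sdiff.1 hω).1
      have h2 := (Finset.mem_sdiff.1 hω).2
      rw [Finset.mem_biUnion]
      refine ⟨gam ω, ?_, ?_⟩
      · exact Finset.mem_filter.2 ⟨Finset.mem_univ _, (Finset.mem_filter.1 h1).2⟩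
      · exact Finset.mem_filter.2 ⟨Finset.mem_univ _, fun h =>
          h2 (Finset.mem_filter.2 ⟨h1, h⟩)⟩
    have h1 : ((Om1 \ Om2).card : ℝ) ≤ ∑ g ∈ (univ : Finset G).filter (fun g => q0 ≤ (Qs g).card),
        (((univ : Finset (Inp n M)).filter (fun ω => ¬ TypV (Q' g) (p g) D ω)).card : ℝ) := by
      have := (Finset.card_le_card hsub).trans Finset.card_biUnion_le
      exact_mod_cast this
    refine h1.trans ?_
    calc _ ≤ ∑ g ∈ (univ : Finset G).filter (fun g => q0 ≤ (Qs g).card),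
          (2 * (99 / 100) ^ n * W) := by
          apply Finset.sum_le_sum
          intro g hg
          have hg' := (Finset.mem_filter.1 hg).2
          exact typical n M (M / S + 1) q0 D hD (Q' g) (p g)
            (fun z hz => hQm g z (hQ'sub g hz)) (hQ'card g hg') (hpB g) HD1 HD2 H0
      _ = (((univ : Finset G).filter (fun g => q0 ≤ (Qs g).card)).card : ℝ) *
          (2 * (99 / 100) ^ n * W) := by rw [Finset.sum_const, nsmul_eq_mul]
      _ ≤ (Fintype.card G : ℝ) * (2 * (99 / 100) ^ n * W) := by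
          apply mul_le_mul_of_nonneg_right _ (by positivity)
          exact_mod_cast Finset.card_le_univ _
  have hOm2card : W ≤ 2 * N1 * (Om2.card : ℝ) := by
    have h1 : (Om1.card : ℝ) = (Om2.card : ℝ) + ((Om1 \ Om2).card : ℝ) := by
      have h2 : Om2 ⊆ Om1 := Finset.filter_subset _ _
      have h3 := Finset.card_sdiff_add_card_eq_card h2
      have h4 : Om1.card = Om2.card + (Om1 \ Om2).card := by omega
      exact_mod_cast h4
    have h2 : 2 * N1 * ((Fintype.card G : ℝ) * (2 * (99 / 100) ^ n * W)) ≤ W := by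
      calc _ = ((Fintype.card G : ℝ) * (2 * (99 / 100) ^ n) * (2 * N1)) * W := by ring
        _ ≤ 1 * W := mul_le_mul_of_nonneg_right H8 hWpos.le
        _ = W := one_mul W
    have h3 : 2 * N1 * ((Om1 \ Om2).card : ℝ) ≤ W :=
      (mul_le_mul_of_nonneg_left hbad (by positivity)).trans h2
    rw [h1] at hbigQ
    nlinarith
  have d0 : Fin n × Fin n := (⟨0, hn⟩, ⟨0, hn⟩)
  -- the restricted acceptance predicate
  set ac : G → ℕ → ℕ → ℕ → ℕ → Bool := fun g z c s c' => acc g z c s c' && decide (z ∈ Q' g)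
    with hac
  have hneC : Nonempty (Cfg n S K L) :=
    ⟨(true, ⟨0, hSpos⟩, fun _ => (⟨0, by omega⟩, fun _ => d0, fun _ => ⟨0, hSpos⟩))⟩
  have hex : ∀ ω : Inp n M, ∃ F : Fin q → Cfg n S K L, ω ∈ Om2 →
      (∀ k, GoodC (u (gam ω)) (ac (gam ω)) mem d0 ω (F k)) ∧
      (∀ k k', k ≠ k' → ∀ tb l l' t t', t < cfLen (F k) l → t' < cfLen (F k') l' →
        lb tb (cfEd d0 (F k) l t) ≠ lb tb (cfEd d0 (F k') l' t')) := by
    intro ω
    by_cases hω : ω ∈ Om2
    · have htyp : TypV (Q' (gam ω)) (p (gam ω)) D ω := (Finset.mem_filter.1 hω).2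
      obtain ⟨F, hF1, hF2⟩ := many_cfg (q := q) hneC (u (gam ω)) (ac (gam ω)) mem d0 ω
        (fun Yr Yc hYr hYc => typ_cfg (d := d) (d' := d') hn hK1 hd hSpos hD (u (gam ω))
          (hu (gam ω)) (ac (gam ω)) mem d0 (p (gam ω)) (Q' (gam ω)) (hp1 (gam ω)) (hpQ (gam ω))
          H1 H2 H3 ω htyp (by
            intro e he
            obtain ⟨s, hs1, hs2⟩ := hcomp ω e (hQ'sub _ he)
            refine ⟨s, hs1, ?_⟩
            rw [hac]
            simp only [hs2, he, decide_true, Bool.and_self]) Yr Yc hYr hYc) H7 q le_rfl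
      refine ⟨fun k => F k, fun _ => ⟨fun k => hF1 k k.2, ?_⟩⟩
      intro k k' hne
      exact hF2 k k.2 k' k'.2 (fun h => hne (Fin.ext h))
    · obtain ⟨κ⟩ := hneC
      exact ⟨fun _ => κ, fun h => absurd h hω⟩
  choose F hF using hex
  -- pigeonhole
  obtain ⟨κ, hκ⟩ : ∃ κ : G × (Fin q → Cfg n S K L),
      Om2.card ≤ Fintype.card (G × (Fin q → Cfg n S K L)) *
        (Om2.filter (fun ω => (gam ω, F ω) = κ)).card := by
    by_contra hcon
    push Not at hcon
    have h1 : Om2.card = ∑ κ : G × (Fin q → Cfg n S K L),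
        (Om2.filter (fun ω => (gam ω, F ω) = κ)).card :=
      Finset.card_eq_sum_card_fiberwise (fun _ _ => Finset.mem_coe.2 (Finset.mem_univ _))
    have hOm2pos : 0 < Om2.card := by
      rcases Nat.eq_zero_or_pos Om2.card with h | h
      · rw [h] at hOm2card
        simp at hOm2card
        linarith
      · exact h
    obtain ⟨ω0, _⟩ := Finset.card_pos.1 hOm2pos
    have hne : (univ : Finset (G × (Fin q → Cfg n S K L))).Nonempty :=
      ⟨(gam ω0, F ω0), Finset.mem_univ _⟩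
    have h2 : ∑ κ : G × (Fin q → Cfg n S K L), Fintype.card (G × (Fin q → Cfg n S K L)) *
        (Om2.filter (fun ω => (gam ω, F ω) = κ)).card <
          ∑ κ : G × (Fin q → Cfg n S K L), Om2.card :=
      Finset.sum_lt_sum_of_nonempty hne (fun κ _ => hcon κ)
    rw [← Finset.mul_sum, ← h1, Finset.sum_const, Finset.card_univ, smul_eq_mul] at h2
    exact lt_irrefl _ h2
  obtain ⟨g, Fc⟩ := κ
  set O := Om2.filter (fun ω => (gam ω, F ω) = (g, Fc)) with hOdef
  set NT : ℝ := 2 * N1 * (Fintype.card G : ℝ) * (Fintype.card (Cfg n S K L) : ℝ) ^ q with hNT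
  have hcardpair : (Fintype.card (G × (Fin q → Cfg n S K L)) : ℝ) =
      (Fintype.card G : ℝ) * (Fintype.card (Cfg n S K L) : ℝ) ^ q := by
    rw [Fintype.card_prod, Fintype.card_pi, Finset.prod_const, Finset.card_univ, Fintype.card_fin]
    push_cast
    rfl
  have hO : W ≤ NT * (O.card : ℝ) := by
    calc W ≤ 2 * N1 * (Om2.card : ℝ) := hOm2card
      _ ≤ 2 * N1 * ((Fintype.card (G × (Fin q → Cfg n S K L)) : ℝ) * (O.card : ℝ)) := by
          apply mul_le_mul_of_nonneg_left _ (by positivity)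
          exact_mod_cast hκ
      _ = NT * (O.card : ℝ) := by rw [hcardpair, hNT]; ring
  have hOne : O.Nonempty := by
    rw [← Finset.card_pos]
    rcases Nat.eq_zero_or_pos O.card with h | h
    · rw [h] at hO
      simp at hO
      linarith
    · exact h
  have hOcard : (O.card : ℝ) ≤ W := by
    rw [← hcardO]
    exact_mod_cast Finset.card_le_univ _
  have hNT1 : 1 ≤ NT := by
    by_contra hlt
    push Not at hlt
    have h1 : (0 : ℝ) < O.card := by exact_mod_cast Finset.card_pos.2 hOne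
    have h2 : NT * (O.card : ℝ) < W := by nlinarith
    linarith
  have hOg : ∀ ω ∈ O, gam ω = g ∧ F ω = Fc ∧ ω ∈ Om2 := by
    intro ω hω
    rw [hOdef, Finset.mem_filter] at hω
    have h1 := congrArg Prod.fst hω.2
    have h2 := congrArg Prod.snd hω.2
    exact ⟨h1, h2, hω.1⟩
  have hgood : ∀ ω ∈ O, (∀ k, GoodC (u g) (ac g) mem d0 ω (Fc k)) ∧
      (∀ k k', k ≠ k' → ∀ tb l l' t t', t < cfLen (Fc k) l → t' < cfLen (Fc k') l' →
        lb tb (cfEd d0 (Fc k) l t) ≠ lb tb (cfEd d0 (Fc k') l' t')) := by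
    intro ω hω
    obtain ⟨h1, h2, h3⟩ := hOg ω hω
    have := hF ω h3
    rw [h1, h2] at this
    exact this
  have hsoundV : SoundV S (u g) (ac g) mem O := by
    refine ⟨hmem, ?_⟩
    intro ω hω z _ s hs hacc
    obtain ⟨h1, _, _⟩ := hOg ω hω
    rw [hac] at hacc
    simp only [Bool.and_eq_true, decide_eq_true_eq] at hacc
    apply hsound ω z _ s hs
    · rw [h1]; exact hacc.1
    · rw [h1]; exact hQ'sub g hacc.2
  obtain ⟨ω0, hω0⟩ := hOne
  obtain ⟨b1, b2⟩ := hgood ω0 hω0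
  exact no_big_OV hn hM hNT1 hq S (u g) (ac g) mem O hsoundV ⟨ω0, hω0⟩ hO
    (fun k => (Fc k).1) (fun k => ((Fc k).2.1 : ℕ)) (le_refl _)
    (fun k => cfLen (Fc k)) (fun k => cfEd d0 (Fc k)) (fun k => cfCe (Fc k))
    (fun k => (b1 k).1) (fun k => (b1 k).2.1) (fun k => (b1 k).2.2.1)
    (fun k => (b1 k).2.2.2.1)
    (fun ω hω k => ((hgood ω hω).1 k).2.2.2.2.1) (fun k => (b1 k).2.2.2.2.2.1)
    (fun k => (b1 k).2.2.2.2.2.2) b2 H9

end H583T
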