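import Pool.Agent.H583R2.TSI.CfgLog
import Pool.Agent.H583R2.TSI.VDefs

/-! Choice of parameters for the `T`-probe lower bound. -/

namespace H583T
open Finset

theorem u5_pow (m n : ℕ) (h : 200 * m ≤ n) : (2 : ℝ) ^ m ≤ (201 / 200 : ℝ) ^ n := by
  have h1 : (2 : ℝ) ≤ (201 / 200 : ℝ) ^ 200 := by
    have := one_add_mul_le_pow (a := (1 / 200 : ℝ)) (by norm_num) 200
    calc (2 : ℝ) = 1 + (200 : ℕ) * (1 / 200 : ℝ) := by norm_num
      _ ≤ (1 + 1 / 200) ^ 200 := this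
      _ = (201 / 200 : ℝ) ^ 200 := by norm_num
  calc (2 : ℝ) ^ m ≤ ((201 / 200 : ℝ) ^ 200) ^ m := pow_le_pow_left₀ (by norm_num) h1 m
    _ = (201 / 200 : ℝ) ^ (200 * m) := (pow_mul _ _ _).symm
    _ ≤ (201 / 200 : ℝ) ^ n := pow_le_pow_right₀ (by norm_num) h

theorem u5_D (M n P q0 D : ℕ) (hM : 0 < M) (hnM : n ≤ M) (hP : 8 * P ≤ n) (hP0 : 0 < P)
    (hq0 : q0 = M / (2 * P)) (hD : D = q0 * n / M) :
    n < 4 * P * D := by
  have h1 : M < (q0 + 1) * (2 * P) := by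
    rw [hq0]
    have := Nat.lt_mul_div_succ M (b := 2 * P) (by omega)
    linarith [Nat.mul_comm (2 * P) (M / (2 * P) + 1)]
  have h2 : q0 * n < (D + 1) * M := by
    rw [hD]
    have := Nat.lt_mul_div_succ (q0 * n) (b := M) hM
    linarith [Nat.mul_comm M (q0 * n / M + 1)]
  have hn0 : 0 < n := by omega
  have h3 : n * M < n * ((q0 + 1) * (2 * P)) := Nat.mul_lt_mul_of_pos_left h1 hn0
  have h4 : 2 * P * (q0 * n) < 2 * P * ((D + 1) * M) := Nat.mul_lt_mul_of_pos_left h2 (by omega)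
  have h5 : 2 * P * n ≤ 2 * P * M := Nat.mul_le_mul_left _ hnM
  have h6 : n * M < (2 * P * (D + 2)) * M := by nlinarith
  have h7 : n < 2 * P * (D + 2) := lt_of_mul_lt_mul_right h6 (Nat.zero_le _)
  nlinarith

/-- the product of the space and the number of blocks -/
theorem u5_SP (t : ℕ) (ht : 1 ≤ t) (n S w k c X η : ℝ) (hn : 1 ≤ n) (hS : 1 ≤ S)
    (hk0 : 0 ≤ k) (hk : k * n ≤ c * S * w) (hc : 0 ≤ c) (hX : 0 < X)
    (hX8 : n ^ η = X ^ 8) (hwt : w ^ (t - 1) ≤ X ^ 2) (hSt : S ≤ n ^ (1 + 1 / (t : ℝ) - η / t)) :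
    S * k ^ (t - 1) * X ^ 6 ≤ c ^ (t - 1) * n ^ 2 := by
  have hn0 : 0 < n := by linarith
  have htR : (0 : ℝ) < t := by exact_mod_cast ht
  have h1 : S ^ t * X ^ 8 ≤ n ^ (t + 1) := by
    have e1 : S ^ t ≤ (n ^ (1 + 1 / (t : ℝ) - η / t)) ^ t := pow_le_pow_left₀ (by linarith) hSt t
    have e2 : (n ^ (1 + 1 / (t : ℝ) - η / t)) ^ t * n ^ η = n ^ (t + 1) := by
      rw [← Real.rpow_natCast (n ^ (1 + 1 / (t : ℝ) - η / t)) t, ← Real.rpow_mul hn0.le,
        ← Real.rpow_add hn0, ← Real.rpow_natCast n (t + 1)]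
      congr 1
      push_cast
      field_simp
      ring
    rw [← hX8]
    calc S ^ t * n ^ η ≤ (n ^ (1 + 1 / (t : ℝ) - η / t)) ^ t * n ^ η :=
          mul_le_mul_of_nonneg_right e1 (by positivity)
      _ = n ^ (t + 1) := e2
  have h2 : k ^ (t - 1) * n ^ (t - 1) ≤ c ^ (t - 1) * S ^ (t - 1) * w ^ (t - 1) := by
    rw [← mul_pow, ← mul_pow, ← mul_pow]
    exact pow_le_pow_left₀ (by positivity) hk _
  have h3 : S * k ^ (t - 1) * n ^ (t - 1) ≤ c ^ (t - 1) * S ^ t * X ^ 2 := by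
    have e : S ^ t = S * S ^ (t - 1) := by
      rw [← pow_succ']; congr 1; omega
    calc S * k ^ (t - 1) * n ^ (t - 1) = S * (k ^ (t - 1) * n ^ (t - 1)) := by ring
      _ ≤ S * (c ^ (t - 1) * S ^ (t - 1) * w ^ (t - 1)) :=
          mul_le_mul_of_nonneg_left h2 (by linarith)
      _ = c ^ (t - 1) * S ^ t * w ^ (t - 1) := by rw [e]; ring
      _ ≤ c ^ (t - 1) * S ^ t * X ^ 2 := mul_le_mul_of_nonneg_left hwt (by positivity)
  have h4 : (S * k ^ (t - 1) * X ^ 6) * (n ^ (t - 1) * X ^ 2) ≤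
      (c ^ (t - 1) * n ^ 2) * (n ^ (t - 1) * X ^ 2) := by
    have e : n ^ (t + 1) = n ^ 2 * n ^ (t - 1) := by
      rw [← pow_add]; congr 1; omega
    calc (S * k ^ (t - 1) * X ^ 6) * (n ^ (t - 1) * X ^ 2)
        = (S * k ^ (t - 1) * n ^ (t - 1)) * X ^ 8 := by ring
      _ ≤ (c ^ (t - 1) * S ^ t * X ^ 2) * X ^ 8 := mul_le_mul_of_nonneg_right h3 (by positivity)
      _ = c ^ (t - 1) * X ^ 2 * (S ^ t * X ^ 8) := by ring
      _ ≤ c ^ (t - 1) * X ^ 2 * n ^ (t + 1) := mul_le_mul_of_nonneg_left h1 (by positivity)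
      _ = (c ^ (t - 1) * n ^ 2) * (n ^ (t - 1) * X ^ 2) := by rw [e]; ring
  exact le_of_mul_le_mul_right h4 (by positivity)

theorem paramsV (t : ℕ) (ht : 1 ≤ t) (ε : ℝ) (hε : 0 < ε) :
    ∃ (K : ℕ) (δ C : ℝ) (n0 : ℕ), 1 ≤ K ∧ 0 < δ ∧
      ∀ n : ℕ, n0 ≤ n → ∀ w κ S0 : ℕ, C * Real.logb 2 n ≤ w → (w : ℝ) ^ (t - 1) ≤ (n : ℝ) ^ δ →
        (κ : ℝ) * w ≤ δ * n → (S0 : ℝ) ≤ (n : ℝ) ^ (1 + 1 / (t : ℝ) - ε) →
        ∃ S k d d' q D q0 : ℕ, S0 ≤ S ∧ 1 ≤ S ∧ 1 ≤ k ∧ 1 ≤ d ∧ 2 ≤ w ∧ 1 ≤ n ∧ 1 ≤ D ∧ 1 ≤ q ∧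
          32 * (n * (2 ^ (w - 1) / S + 1)) ≤ 2 ^ (w - 1) ∧
          D * 2 ^ (w - 1) ≤ q0 * n ∧ q0 * n ≤ 2 * (D * 2 ^ (w - 1)) ∧
          128 * (S * (16 * d) ^ 2) ≤ n * D ∧
          K + 2 * K * 2 ^ (2 * K + 1) + d' ≤ d ∧
          n ^ 2 * (2 * K * (16 * d)) ^ K < d' ^ (2 * K) ∧
          4096 * (q * (2 * K * 2 ^ (2 * K + 1))) ≤ n ∧
          q0 * (2 * k ^ (t - 1)) ≤ 2 ^ (w - 1) ∧
          ((2 : ℝ) ^ w) ^ (κ + (t - 1) * (S / k + 1)) * (2 * (99 / 100) ^ n) *
            (2 * (2 * (k : ℝ) ^ (t - 1))) ≤ 1 ∧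
          2 ^ (2 * K + 3) * (((2 * K : ℕ) : ℝ) + 8) *
            (2 / q * Real.log (2 * (2 * (k : ℝ) ^ (t - 1)) *
                ((2 : ℝ) ^ w) ^ (κ + (t - 1) * (S / k + 1)) *
                (Fintype.card (Cfg n S K (2 ^ (2 * K + 1))) : ℝ) ^ q) +
              Real.log (2 * (n : ℝ) ^ 2)) < Real.log ((2 ^ (w - 1) : ℕ) : ℝ) := by
  have htR : (1 : ℝ) ≤ t := by exact_mod_cast ht
  have htR0 : (0 : ℝ) < t := by linarith
  -- the exponent
  set η : ℝ := min (t * ε) (1 / 2) with hη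
  have hηpos : 0 < η := lt_min (by positivity) (by norm_num)
  have hη2 : η ≤ 1 / 2 := min_le_right _ _
  have hηε : η / t ≤ ε := by
    rw [div_le_iff₀ htR0]
    linarith [min_le_left (t * ε) (1 / 2 : ℝ), mul_comm (t : ℝ) ε]
  have hηt : η / t ≤ 1 / (2 * t) := by
    rw [div_le_div_iff₀ htR0 (by positivity)]
    nlinarith
  obtain ⟨K, hK⟩ := exists_nat_gt (32 / η)
  have hKpos : 0 < K := by
    have : (0 : ℝ) < K := lt_trans (by positivity) hK
    exact_mod_cast this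
  have hKη : 32 < η * K := by
    rw [div_lt_iff₀ hηpos] at hK
    linarith
  set L : ℕ := 2 ^ (2 * K + 1) with hL
  have hLpos : 0 < L := by positivity
  set A : ℝ := 2 ^ (2 * K + 3) * (((2 * K : ℕ) : ℝ) + 8) with hA
  have hApos : 0 ≤ A := by positivity
  set Bc : ℝ := 65536 * (K : ℝ) * L + 2 * (3 + (L : ℝ) * (8 * (K : ℝ) + 3)) + 3 with hBc
  have hBcpos : 0 ≤ Bc := by positivity
  set c1 : ℝ := (801 * (t : ℝ)) ^ (t - 1) with hc1
  have hc1pos : 0 < c1 := by positivity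
  set δ : ℝ := min (η / 4) (1 / 1000) with hδ
  have hδpos : 0 < δ := lt_min (by positivity) (by norm_num)
  have hδη : δ ≤ η / 4 := min_le_left _ _
  have hδ1 : δ ≤ 1 / 1000 := min_le_right _ _
  set C : ℝ := A * Bc + 4 with hC
  have hC4 : 4 ≤ C := by
    have := mul_nonneg hApos hBcpos
    rw [hC]; linarith
  -- eventual conditions
  have t1 : Filter.Tendsto (fun n : ℕ => (n : ℝ) ^ (η / 16)) Filter.atTop Filter.atTop :=
    (tendsto_rpow_atTop (by positivity)).comp tendsto_natCast_atTop_atTop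
  have t2 : Filter.Tendsto (fun n : ℕ => (n : ℝ) ^ (1 / 2 : ℝ)) Filter.atTop Filter.atTop :=
    (tendsto_rpow_atTop (by positivity)).comp tendsto_natCast_atTop_atTop
  have t3 : Filter.Tendsto (fun n : ℕ => (n : ℝ) ^ (η / 8)) Filter.atTop Filter.atTop :=
    (tendsto_rpow_atTop (by positivity)).comp tendsto_natCast_atTop_atTop
  have t4 : Filter.Tendsto (fun n : ℕ => (n : ℝ) ^ (1 / (2 * (t : ℝ)))) Filter.atTop
      Filter.atTop :=
    (tendsto_rpow_atTop (by positivity)).comp tendsto_natCast_atTop_atTop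
  have t5 : Filter.Tendsto (fun n : ℕ => (n : ℝ) * (201 / 200 * (99 / 100) : ℝ) ^ n)
      Filter.atTop (nhds 0) :=
    tendsto_self_mul_const_pow_of_lt_one (by norm_num) (by norm_num)
  have e1 := t1.eventually_ge_atTop (256 * (K : ℝ))
  have e2 := t2.eventually_ge_atTop (800 * t : ℝ)
  have e3 := t3.eventually_ge_atTop (2 * ((K : ℝ) + 2 * K * L) + 2 + 131072 * c1)
  have e4 := t4.eventually_ge_atTop (64 : ℝ)
  have e5 := t5.eventually_lt_const (show (0 : ℝ) < 1 by norm_num)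
  have e6 := Filter.eventually_ge_atTop (128 + (2 * K + 1) + 8192 * K * L)
  obtain ⟨n0, hn0⟩ := Filter.eventually_atTop.1 (((e1.and e2).and (e3.and e4)).and (e5.and e6))
  refine ⟨K, δ, C, n0, hKpos, hδpos, ?_⟩
  intro n hn w κ S0 hCw hwt hκ hS0
  obtain ⟨⟨⟨f1, f2⟩, ⟨f3, f4⟩⟩, ⟨f5, f6⟩⟩ := hn0 n hn
  have hn128 : 128 ≤ n := by omega
  have hnK : 2 * K + 1 ≤ n := by omega
  have hnKL : 8192 * K * L ≤ n := by omega
  have hn128R : (128 : ℝ) ≤ n := by exact_mod_cast hn128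
  have hnpos : (0 : ℝ) < n := by linarith
  have hn1 : (1 : ℝ) ≤ n := by linarith
  -- logarithms
  have hlog2 : 0 < Real.log 2 := Real.log_pos (by norm_num)
  have hlog2' : Real.log 2 < 1 := by linarith [Real.log_two_lt_d9]
  have hlogn7 : 7 * Real.log 2 ≤ Real.log n := by
    have := Real.log_le_log (by norm_num) hn128R
    have h5 : Real.log 128 = 7 * Real.log 2 := by
      rw [show (128 : ℝ) = 2 ^ 7 by norm_num, Real.log_pow]; push_cast; ring
    linarith
  have hlogn1 : 1 ≤ Real.log n := by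
    have := Real.log_two_gt_d9
    linarith
  have hlognn : Real.log n ≤ n := by
    have := Real.log_le_sub_one_of_pos hnpos
    linarith
  have hwlog : C * Real.log n ≤ w * Real.log 2 := by
    have : C * Real.logb 2 n * Real.log 2 ≤ w * Real.log 2 :=
      mul_le_mul_of_nonneg_right hCw hlog2.le
    rwa [mul_assoc, Real.logb, div_mul_cancel₀ _ hlog2.ne'] at this
  have hw2 : 2 ≤ w := by
    have h1 : 4 * Real.log n ≤ w * Real.log 2 :=
      le_trans (mul_le_mul_of_nonneg_right hC4 (by linarith)) hwlog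
    have h2 : 28 * Real.log 2 ≤ w * Real.log 2 := by linarith
    have h3 : (28 : ℝ) ≤ w := le_of_mul_le_mul_right h2 hlog2
    have h4 : 28 ≤ w := by exact_mod_cast h3
    omega
  have hlogw : Real.log ((2 ^ (w - 1) : ℕ) : ℝ) = (w : ℝ) * Real.log 2 - Real.log 2 := by
    push_cast
    rw [Real.log_pow, Nat.cast_sub (by omega)]
    push_cast; ring
  set M : ℕ := 2 ^ (w - 1) with hM
  have hMpos : 0 < M := by positivity
  have hM64 : 64 * n ≤ M := by
    have h1 : Real.log (64 * (n : ℝ)) ≤ Real.log ((M : ℕ) : ℝ) := by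
      rw [hlogw, Real.log_mul (by norm_num) hnpos.ne']
      have h5 : Real.log 64 = 6 * Real.log 2 := by
        rw [show (64 : ℝ) = 2 ^ 6 by norm_num, Real.log_pow]; push_cast; ring
      have h6 : 4 * Real.log n ≤ C * Real.log n :=
        mul_le_mul_of_nonneg_right hC4 (by linarith)
      rw [h5]
      linarith
    have h2 : 64 * (n : ℝ) ≤ (M : ℝ) :=
      (Real.log_le_log_iff (by positivity) (by exact_mod_cast hMpos)).1 h1
    exact_mod_cast h2
  -- the powers of `n`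
  set X : ℝ := (n : ℝ) ^ (η / 8) with hX
  have hXpos : 0 < X := by positivity
  have hX1 : 1 ≤ X := by
    have : 0 ≤ 2 * ((K : ℝ) + 2 * K * L) := by positivity
    linarith
  have hX8 : (n : ℝ) ^ η = X ^ 8 := by
    rw [hX, ← Real.rpow_natCast ((n : ℝ) ^ (η / 8)) 8, ← Real.rpow_mul hnpos.le]
    congr 1; push_cast; ring
  have hX2 : X ^ 2 = (n : ℝ) ^ (η / 4) := by
    rw [hX, ← Real.rpow_natCast ((n : ℝ) ^ (η / 8)) 2, ← Real.rpow_mul hnpos.le]
    congr 1; push_cast; ring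
  have hwX : (w : ℝ) ^ (t - 1) ≤ X ^ 2 := by
    rw [hX2]
    exact le_trans hwt (Real.rpow_le_rpow_of_exponent_le hn1 hδη)
  have hXc : 131072 * c1 ≤ X ^ 4 := by
    have h1 : 131072 * c1 ≤ X := by
      have : 0 ≤ 2 * ((K : ℝ) + 2 * K * L) := by positivity
      linarith
    calc 131072 * c1 ≤ X := h1
      _ = X ^ 1 := (pow_one X).symm
      _ ≤ X ^ 4 := pow_le_pow_right₀ hX1 (by norm_num)
  -- the space
  set S : ℕ := max S0 (64 * n) with hS
  have hS64 : 64 * n ≤ S := le_max_right _ _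
  have hS64R : 64 * (n : ℝ) ≤ S := by exact_mod_cast hS64
  have hS1 : 1 ≤ S := by omega
  have hSR1 : (1 : ℝ) ≤ S := by exact_mod_cast hS1
  have hSle : (S : ℝ) ≤ (n : ℝ) ^ (1 + 1 / (t : ℝ) - η / t) := by
    rw [hS]
    push_cast
    apply max_le
    · refine le_trans hS0 (Real.rpow_le_rpow_of_exponent_le hn1 ?_)
      linarith
    · have h1 : (n : ℝ) ^ (1 + 1 / (2 * (t : ℝ))) ≤ (n : ℝ) ^ (1 + 1 / (t : ℝ) - η / t) := by
        apply Real.rpow_le_rpow_of_exponent_le hn1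
        have : 1 / (t : ℝ) = 1 / (2 * t) + 1 / (2 * t) := by field_simp; norm_num
        linarith
      have h2 : (n : ℝ) ^ (1 + 1 / (2 * (t : ℝ))) = n * (n : ℝ) ^ (1 / (2 * (t : ℝ))) := by
        rw [Real.rpow_add hnpos, Real.rpow_one]
      have h3 : (n : ℝ) * 64 ≤ n * (n : ℝ) ^ (1 / (2 * (t : ℝ))) :=
        mul_le_mul_of_nonneg_left f4 hnpos.le
      linarith
  -- the number of blocks
  set k : ℕ := ⌈800 * (t : ℝ) * S * w / n⌉₊ with hk
  have hwR : (2 : ℝ) ≤ w := by exact_mod_cast hw2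
  have hkge : 800 * (t : ℝ) * S * w / n ≤ k := Nat.le_ceil _
  have hkle : (k : ℝ) * n ≤ (801 * t) * S * w := by
    have h1 : (k : ℝ) < 800 * (t : ℝ) * S * w / n + 1 := Nat.ceil_lt_add_one (by positivity)
    have h2 : (n : ℝ) ≤ t * S * w := by
      have : (1 : ℝ) * S * 1 ≤ t * S * w := by gcongr; linarith
      linarith
    have h3 : (k : ℝ) * n < (800 * (t : ℝ) * S * w / n + 1) * n :=
      mul_lt_mul_of_pos_right h1 hnpos
    have h4 : (800 * (t : ℝ) * S * w / n + 1) * n = 800 * (t : ℝ) * S * w + n := by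
      field_simp
    rw [h4] at h3
    linarith
  have hk1 : 1 ≤ k := by
    rw [hk]
    exact Nat.one_le_ceil_iff.2 (by positivity)
  have hkR1 : (1 : ℝ) ≤ k := by exact_mod_cast hk1
  have hSP := u5_SP t ht n S w k (801 * t) X η hn1 hSR1 (by linarith) hkle
    (by positivity) hXpos hX8 hwX hSle
  rw [← hc1] at hSP
  set P : ℕ := k ^ (t - 1) with hP
  have hP0 : 0 < P := by positivity
  have hPR : ((P : ℕ) : ℝ) = (k : ℝ) ^ (t - 1) := by rw [hP]; push_cast; ring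
  have hPR1 : (1 : ℝ) ≤ P := by exact_mod_cast hP0
  rw [← hPR] at hSP
  have hSP2 : 131072 * ((S : ℝ) * P) * X ^ 2 ≤ n ^ 2 := by
    have h1 : (131072 * ((S : ℝ) * P) * X ^ 2) * X ^ 4 ≤ n ^ 2 * X ^ 4 := by
      calc (131072 * ((S : ℝ) * P) * X ^ 2) * X ^ 4 = 131072 * (S * P * X ^ 6) := by ring
        _ ≤ 131072 * (c1 * n ^ 2) := by linarith
        _ = (131072 * c1) * n ^ 2 := by ring
        _ ≤ X ^ 4 * n ^ 2 := mul_le_mul_of_nonneg_right hXc (by positivity)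
        _ = n ^ 2 * X ^ 4 := by ring
    exact le_of_mul_le_mul_right h1 (by positivity)
  have hSP3 : 131072 * ((S : ℝ) * P) ≤ n ^ 2 := by
    have : (1 : ℝ) ≤ X ^ 2 := one_le_pow₀ hX1
    have h2 : 131072 * ((S : ℝ) * P) * 1 ≤ 131072 * ((S : ℝ) * P) * X ^ 2 := by gcongr
    linarith
  have hP8R : 8 * (P : ℝ) ≤ n := by
    have h1 : 131072 * (64 * (n : ℝ) * P) ≤ n ^ 2 := by
      have : 64 * (n : ℝ) * P ≤ S * P := by gcongr
      linarith
    have h2 : (131072 * 64 * (P : ℝ)) * n ≤ n * n := by linarith [sq (n : ℝ)]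
    have h3 : 131072 * 64 * (P : ℝ) ≤ n := le_of_mul_le_mul_right h2 hnpos
    linarith
  have hP8 : 8 * P ≤ n := by exact_mod_cast hP8R
  have hSn2 : S ≤ n ^ 2 := by
    have h1 : (S : ℝ) * 1 ≤ S * P := by gcongr
    have h2 : (S : ℝ) ≤ (n : ℝ) ^ 2 := by
      have : (0 : ℝ) ≤ S * P := by positivity
      linarith
    exact_mod_cast h2
  set q0 : ℕ := M / (2 * P) with hq0
  set D : ℕ := q0 * n / M with hD
  have hnM : n ≤ M := by omega
  have hnD := u5_D M n P q0 D hMpos hnM hP8 hP0 hq0 hD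
  have hD1 : 1 ≤ D := by
    rcases Nat.eq_zero_or_pos D with h | h
    · rw [h] at hnD; omega
    · exact h
  -- the degree
  set d : ℕ := ⌊X⌋₊ with hd
  have hdX : (d : ℝ) ≤ X := Nat.floor_le hXpos.le
  have hXd : X < d + 1 := Nat.lt_floor_add_one X
  set dd : ℕ := K + 2 * K * L with hdd
  have hddR : (dd : ℝ) = (K : ℝ) + 2 * K * L := by rw [hdd]; push_cast; ring
  have hdge : 2 * (dd : ℝ) + 1 < d := by
    rw [hddR]
    have : 0 < 131072 * c1 := by positivity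
    linarith
  have hdge' : 2 * dd + 1 < d := by exact_mod_cast hdge
  -- the number of columns
  set q : ℕ := n / (8192 * K * L) with hq
  have hKL0 : 0 < 8192 * K * L := by positivity
  have hq1 : 1 ≤ q := (Nat.one_le_div_iff hKL0).2 hnKL
  have hqR1 : (1 : ℝ) ≤ q := by exact_mod_cast hq1
  have hqle : q * (8192 * K * L) ≤ n := Nat.div_mul_le_self _ _
  have hqge : (n : ℝ) ≤ q * (16384 * K * L) := by
    have h1 : n < 8192 * K * L * (q + 1) := Nat.lt_mul_div_succ n hKL0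
    have h3 : 8192 * K * L * 1 ≤ 8192 * K * L * q := Nat.mul_le_mul_left _ hq1
    have e1 : 8192 * K * L * (q + 1) = 8192 * K * L * q + 8192 * K * L * 1 := by ring
    have e2 : q * (16384 * K * L) = 8192 * K * L * q + 8192 * K * L * q := by ring
    have h2 : n ≤ q * (16384 * K * L) := by linarith
    exact_mod_cast h2
  -- the exponent
  set E : ℕ := κ + (t - 1) * (S / k + 1) with hE
  have hwE : 200 * (w * E) ≤ n := by
    have h1 : ((S / k : ℕ) : ℝ) ≤ n / (800 * t * w) := by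
      have e1 : ((S / k : ℕ) : ℝ) ≤ (S : ℝ) / k := Nat.cast_div_le
      have e2 : (S : ℝ) / k ≤ n / (800 * t * w) := by
        rw [div_le_div_iff₀ (by linarith) (by positivity)]
        rw [div_le_iff₀ hnpos] at hkge
        linarith
      linarith
    have h2 : ((t - 1 : ℕ) : ℝ) * w ≤ n / 800 := by
      rcases Nat.lt_or_ge t 2 with h | h
      · have : t - 1 = 0 := by omega
        rw [this]
        push_cast
        have : (0 : ℝ) ≤ n / 800 := by positivity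
        linarith
      · have e1 : (w : ℝ) ≤ (w : ℝ) ^ (t - 1) := by
          calc (w : ℝ) = (w : ℝ) ^ 1 := (pow_one _).symm
            _ ≤ (w : ℝ) ^ (t - 1) := pow_le_pow_right₀ (by linarith) (by omega)
        have e2 : (n : ℝ) ^ δ ≤ (n : ℝ) ^ (1 / 2 : ℝ) :=
          Real.rpow_le_rpow_of_exponent_le hn1 (by linarith)
        have e3 : (n : ℝ) ^ (1 / 2 : ℝ) * (n : ℝ) ^ (1 / 2 : ℝ) = n := by
          rw [← Real.rpow_add hnpos]; norm_num
        have e4 : ((t - 1 : ℕ) : ℝ) ≤ t := by exact_mod_cast Nat.sub_le _ _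
        have e5 : (w : ℝ) ≤ (n : ℝ) ^ (1 / 2 : ℝ) := by linarith
        have e6 : ((t - 1 : ℕ) : ℝ) * w ≤ t * (n : ℝ) ^ (1 / 2 : ℝ) := by gcongr
        have e7 : 800 * t * (n : ℝ) ^ (1 / 2 : ℝ) ≤
            (n : ℝ) ^ (1 / 2 : ℝ) * (n : ℝ) ^ (1 / 2 : ℝ) := by gcongr
        linarith
    have h3 : ((t - 1 : ℕ) : ℝ) * ((S / k : ℕ) : ℝ) * w ≤ n / 800 := by
      have e4 : ((t - 1 : ℕ) : ℝ) ≤ t := by exact_mod_cast Nat.sub_le _ _
      calc ((t - 1 : ℕ) : ℝ) * ((S / k : ℕ) : ℝ) * w ≤ t * (n / (800 * t * w)) * w := by gcongr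
        _ = n / 800 := by
          field_simp
    have h4 : (κ : ℝ) * w ≤ n / 1000 := by
      have : δ * n ≤ 1 / 1000 * n := mul_le_mul_of_nonneg_right hδ1 hnpos.le
      linarith
    have h5 : 200 * ((w : ℝ) * E) ≤ n := by
      have : (E : ℝ) = κ + ((t - 1 : ℕ) : ℝ) * (((S / k : ℕ) : ℝ) + 1) := by
        rw [hE]; push_cast; ring
      rw [this]
      have e : (w : ℝ) * (κ + ((t - 1 : ℕ) : ℝ) * (((S / k : ℕ) : ℝ) + 1)) =
        (κ : ℝ) * w + ((t - 1 : ℕ) : ℝ) * ((S / k : ℕ) : ℝ) * w + ((t - 1 : ℕ) : ℝ) * w := by ring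
      rw [e]
      linarith
    exact_mod_cast h5
  have hpowE : ((2 : ℝ) ^ w) ^ E ≤ (201 / 200 : ℝ) ^ n := by
    rw [← pow_mul]
    exact u5_pow _ _ hwE
  refine ⟨S, k, d, d - dd, q, D, q0, le_max_left _ _, hS1, hk1, by omega, hw2, by omega, hD1,
    hq1, ?_, ?_, ?_, ?_, by omega, ?_, ?_, ?_, ?_, ?_⟩
  · -- columns
    have h1 : M / S * S ≤ M := Nat.div_mul_le_self _ _
    have h2 : M / S * (64 * n) ≤ M / S * S := Nat.mul_le_mul_left _ hS64
    have e : 2 * (32 * (n * (M / S + 1))) = M / S * (64 * n) + 64 * n := by ring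
    linarith
  · exact Nat.div_mul_le_self _ _
  · have h1 : q0 * n < M * (D + 1) := Nat.lt_mul_div_succ (q0 * n) hMpos
    have h2 : M * 1 ≤ M * D := Nat.mul_le_mul_left _ hD1
    have e1 : 2 * (D * M) = M * D + M * D := by ring
    have e2 : M * (D + 1) = M * D + M * 1 := by ring
    linarith
  · have h1 : (128 * ((S : ℝ) * (16 * d) ^ 2)) * (4 * P) ≤ (n * D) * (4 * P) := by
      calc (128 * ((S : ℝ) * (16 * d) ^ 2)) * (4 * P) = 131072 * (S * P) * (d : ℝ) ^ 2 := by ring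
        _ ≤ 131072 * (S * P) * X ^ 2 := by gcongr
        _ ≤ n ^ 2 := hSP2
        _ = n * n := sq _
        _ ≤ n * (4 * P * D) := by
          have : (n : ℝ) ≤ 4 * P * D := by exact_mod_cast hnD.le
          gcongr
        _ = (n * D) * (4 * P) := by ring
    have h2 : (128 * ((S : ℝ) * (16 * d) ^ 2)) ≤ (n * D) :=
      le_of_mul_le_mul_right h1 (by positivity)
    exact_mod_cast h2
  · -- degrees
    have hd2 : (d : ℝ) / 2 ≤ ((d - dd : ℕ) : ℝ) := by
      rw [Nat.cast_sub (by omega)]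
      linarith
    have hdX2 : X / 2 ≤ (d : ℝ) := by
      have : (1 : ℝ) ≤ d := by
        have : 1 ≤ d := by omega
        exact_mod_cast this
      linarith
    have hKR : (0 : ℝ) < K := by exact_mod_cast hKpos
    have hX16 : X = (n : ℝ) ^ (η / 16) * (n : ℝ) ^ (η / 16) := by
      rw [hX, ← Real.rpow_add hnpos]; congr 1; ring
    have hqq : (n : ℝ) ^ (η / 16) ≤ (d : ℝ) / (128 * K) := by
      rw [le_div_iff₀ (by positivity)]
      have hY : (0 : ℝ) < (n : ℝ) ^ (η / 16) := by positivity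
      have hYY : (n : ℝ) ^ (η / 16) * (256 * K) ≤ (n : ℝ) ^ (η / 16) * (n : ℝ) ^ (η / 16) :=
        mul_le_mul_of_nonneg_left f1 hY.le
      linarith
    have hpow : (n : ℝ) ^ 2 < ((n : ℝ) ^ (η / 16)) ^ K := by
      rw [← Real.rpow_natCast ((n : ℝ) ^ (η / 16)) K, ← Real.rpow_mul hnpos.le,
        ← Real.rpow_natCast (n : ℝ) 2]
      apply Real.rpow_lt_rpow_of_exponent_lt
      · linarith
      · push_cast; linarith
    have h2 : (n : ℝ) ^ 2 * (2 * K * (16 * d)) ^ K < ((d - dd : ℕ) : ℝ) ^ (2 * K) := by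
      have hdpos : (0 : ℝ) < d := by linarith
      calc (n : ℝ) ^ 2 * (2 * K * (16 * d)) ^ K
          < ((n : ℝ) ^ (η / 16)) ^ K * (2 * K * (16 * d)) ^ K := by gcongr
        _ ≤ ((d : ℝ) / (128 * K)) ^ K * (2 * K * (16 * d)) ^ K := by gcongr
        _ = ((d : ℝ) / 2) ^ (2 * K) := by
            rw [← mul_pow, pow_mul]
            congr 1
            field_simp
            ring
        _ ≤ ((d - dd : ℕ) : ℝ) ^ (2 * K) := by gcongr
    exact_mod_cast h2
  · calc 4096 * (q * (2 * K * L)) = q * (8192 * K * L) := by ring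
      _ ≤ n := hqle
  · exact Nat.div_mul_le_self _ _
  · rw [← hPR]
    have h1 : (2 : ℝ) * (2 * (2 * P)) ≤ n := by linarith
    calc ((2 : ℝ) ^ w) ^ E * (2 * (99 / 100) ^ n) * (2 * (2 * (P : ℝ)))
        = ((2 : ℝ) ^ w) ^ E * (99 / 100) ^ n * (2 * (2 * (2 * P))) := by ring
      _ ≤ (201 / 200 : ℝ) ^ n * (99 / 100) ^ n * n := by gcongr
      _ = (n : ℝ) * (201 / 200 * (99 / 100) : ℝ) ^ n := by rw [mul_pow]; ring
      _ ≤ 1 := f5.le
  · rw [← hPR, hlogw]
    have hcfg := cfg_log_le n S K L (by omega) hnK hSn2 hS1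
    have hcpos : 0 < Fintype.card (Cfg n S K L) := by
      rw [cfg_card]
      positivity
    have hcposR : (0 : ℝ) < (Fintype.card (Cfg n S K L) : ℝ) := by exact_mod_cast hcpos
    have hcfg2 : Real.log (Fintype.card (Cfg n S K L) : ℝ) ≤
        (3 + (L : ℝ) * (8 * (K : ℝ) + 3)) * Real.log n := by
      refine le_trans (Real.log_le_log hcposR ?_) hcfg
      push_cast
      linarith
    have hlog2n : Real.log (2 * (n : ℝ) ^ 2) ≤ 3 * Real.log n := by
      rw [Real.log_mul (by norm_num) (by positivity), Real.log_pow]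
      push_cast; linarith
    have hl1 : Real.log (2 * (2 * (P : ℝ)) * ((2 : ℝ) ^ w) ^ E *
        (Fintype.card (Cfg n S K L) : ℝ) ^ q) ≤
        2 * n + q * Real.log (Fintype.card (Cfg n S K L) : ℝ) := by
      have g0 : Real.log ((Fintype.card (Cfg n S K L) : ℝ) ^ q) =
          q * Real.log (Fintype.card (Cfg n S K L) : ℝ) := by rw [Real.log_pow]
      rw [Real.log_mul (by positivity) (by positivity), Real.log_mul (by positivity)
        (by positivity), g0]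
      have g1 : Real.log (2 * (2 * (P : ℝ))) ≤ n := by
        have : Real.log (2 * (2 * (P : ℝ))) ≤ Real.log n :=
          Real.log_le_log (by positivity) (by linarith)
        linarith
      have g2 : Real.log (((2 : ℝ) ^ w) ^ E) ≤ n := by
        rw [← pow_mul, Real.log_pow]
        have : ((w * E : ℕ) : ℝ) * Real.log 2 ≤ ((w * E : ℕ) : ℝ) * 1 := by gcongr
        have h2 : (200 : ℝ) * ((w * E : ℕ) : ℝ) ≤ n := by exact_mod_cast hwE
        have h3 : (0 : ℝ) ≤ ((w * E : ℕ) : ℝ) := by positivity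
        linarith
      linarith
    have hl2 : 2 / (q : ℝ) * Real.log (2 * (2 * (P : ℝ)) * ((2 : ℝ) ^ w) ^ E *
        (Fintype.card (Cfg n S K L) : ℝ) ^ q) ≤
        65536 * (K : ℝ) * L + 2 * Real.log (Fintype.card (Cfg n S K L) : ℝ) := by
      have hq0' : (0 : ℝ) < q := by linarith
      calc 2 / (q : ℝ) * Real.log (2 * (2 * (P : ℝ)) * ((2 : ℝ) ^ w) ^ E *
            (Fintype.card (Cfg n S K L) : ℝ) ^ q)
          ≤ 2 / (q : ℝ) * (2 * n + q * Real.log (Fintype.card (Cfg n S K L) : ℝ)) := by gcongr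
        _ ≤ 2 / (q : ℝ) * (2 * (q * (16384 * K * L)) +
              q * Real.log (Fintype.card (Cfg n S K L) : ℝ)) := by gcongr
        _ = 65536 * (K : ℝ) * L + 2 * Real.log (Fintype.card (Cfg n S K L) : ℝ) := by
            field_simp
            ring
    calc A * (2 / (q : ℝ) * Real.log (2 * (2 * (P : ℝ)) * ((2 : ℝ) ^ w) ^ E *
            (Fintype.card (Cfg n S K L) : ℝ) ^ q) + Real.log (2 * (n : ℝ) ^ 2))
        ≤ A * (Bc * Real.log n) := by
          apply mul_le_mul_of_nonneg_left _ hApos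
          rw [hBc]
          have : 65536 * (K : ℝ) * L ≤ 65536 * (K : ℝ) * L * Real.log n :=
            le_mul_of_one_le_right (by positivity) hlogn1
          linarith
      _ = (A * Bc) * Real.log n := by ring
      _ < (w : ℝ) * Real.log 2 - Real.log 2 := by
          rw [hC] at hwlog
          have e : (A * Bc + 4) * Real.log n = A * Bc * Real.log n + 4 * Real.log n := by ring
          rw [e] at hwlog
          linarith

end H583T
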