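import Pool.Agent.H583R2.TSI.VSim
import Pool.Agent.H583R2.TSI.VPar

/-! The lower bound for schemes given by functions. -/

namespace H583T
open Finset

theorem no_scheme (t : ℕ) (ht : 1 ≤ t) (ε : ℝ) (hε : 0 < ε) :
    ∃ (δ C : ℝ) (n0 : ℕ), 0 < δ ∧
      ∀ n : ℕ, n0 ≤ n → ∀ w κ S : ℕ, C * Real.logb 2 n ≤ w → (w : ℝ) ^ (t - 1) ≤ (n : ℝ) ^ δ →
        (κ : ℝ) * w ≤ δ * n → (S : ℝ) ≤ (n : ℝ) ^ (1 + 1 / (t : ℝ) - ε) →
        ∀ (next : (Fin κ → Fin (2 ^ w)) → ℕ → List (Fin (2 ^ w)) → Fin S)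
          (accept : (Fin κ → Fin (2 ^ w)) → ℕ → List (Fin (2 ^ w)) → Fin S → Fin (2 ^ w) → Bool),
        ¬ ∀ A₁ A₂ : Fin n → Fin (2 ^ w), ∃ (cache : Fin κ → Fin (2 ^ w))
          (mem : Fin S → Fin (2 ^ w)), ∀ z < 2 ^ w,
          ((∃ s, accept cache z (rd next cache mem z t) s (mem s) = true) ↔
            ∃ i j, (A₁ i : ℕ) + (A₂ j : ℕ) = z) := by
  obtain ⟨K, δ, C, n0, hK, hδ, hall⟩ := paramsV t ht ε hε
  refine ⟨δ, C, n0, hδ, ?_⟩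
  intro n hn w κ S0 hw hwd hκ hS next accept hsol
  obtain ⟨S, k, d, d', q, D, q0, a1, a2, a3, a4, a5, a6, a7, a8, a9, a10, a11, a12, a13, a14,
    a15, a16, a17, a18⟩ := hall n hn w κ S0 hw hwd hκ hS
  exact scheme_finite t w κ n S0 S K k d d' D q q0 ht a5 next accept hsol a6 hK a4 a7 a8 a2 a3 a1
    a9 a10 a11 a12 a13 a14 a15 a16 a17 a18

end H583T
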