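import Pool.Agent.H583R2.TSI.VDefs
import Pool.Agent.H583R2.TSI.VSeq

/-! Phase 1: choice of the rows for every column value. -/

namespace H583T
open Finset


section ph1
variable {n M : ℕ} (Q : Finset ℕ) (p : ℕ → ℕ) (D : ℕ)

/-- the condition for adding the row `i` to the set `S` -/
def ph1c (a : Fin n → Fin M) (b : Fin M) (S : Finset (Fin n)) (i : Fin n) : Prop :=
  S.card < D ∧ (a i : ℕ) + (b : ℕ) ∈ Q ∧
    ∀ i' ∈ S, p ((a i' : ℕ) + (b : ℕ)) ≠ p ((a i : ℕ) + (b : ℕ))

open Classical in
/-- the set of rows after `i` steps -/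
noncomputable def ph1 (a : Fin n → Fin M) (b : Fin M) : ℕ → Finset (Fin n)
  | 0 => ∅
  | i + 1 => if h : i < n then
      (if ph1c Q p D a b (ph1 a b i) ⟨i, h⟩ then insert ⟨i, h⟩ (ph1 a b i) else ph1 a b i)
      else ph1 a b i

theorem ph1_succ (a : Fin n → Fin M) (b : Fin M) (i : Fin n) :
    ph1 Q p D a b (i.val + 1) =
      (open Classical in if ph1c Q p D a b (ph1 Q p D a b i.val) i then
        insert i (ph1 Q p D a b i.val) else ph1 Q p D a b i.val) := by
  classical
  rw [ph1, dif_pos i.isLt]

theorem ph1_mem (a : Fin n → Fin M) (b : Fin M) (i : ℕ) (j : Fin n) :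
    j ∈ ph1 Q p D a b i ↔ j.val < i ∧ ph1c Q p D a b (ph1 Q p D a b j.val) j := by
  classical
  induction i with
  | zero => simp [ph1]
  | succ i ih =>
    rw [ph1]
    by_cases h : i < n
    · rw [dif_pos h]
      by_cases hc : ph1c Q p D a b (ph1 Q p D a b i) ⟨i, h⟩
      · rw [if_pos hc, Finset.mem_insert, ih]
        constructor
        · rintro (h1 | h1)
          · subst h1; exact ⟨Nat.lt_succ_self i, hc⟩
          · exact ⟨h1.1.trans (Nat.lt_succ_self i), h1.2⟩
        · rintro ⟨h1, h2⟩
          rcases Nat.lt_succ_iff_lt_or_eq.1 h1 with h3 | h3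
          · exact Or.inr ⟨h3, h2⟩
          · exact Or.inl (Fin.ext h3)
      · rw [if_neg hc, ih]
        constructor
        · rintro ⟨h1, h2⟩; exact ⟨h1.trans (Nat.lt_succ_self i), h2⟩
        · rintro ⟨h1, h2⟩
          rcases Nat.lt_succ_iff_lt_or_eq.1 h1 with h3 | h3
          · exact ⟨h3, h2⟩
          · exfalso
            have : j = ⟨i, h⟩ := Fin.ext h3
            subst this
            exact hc h2
    · rw [dif_neg h, ih]
      have := j.isLt
      constructor
      · rintro ⟨h1, h2⟩; exact ⟨by omega, h2⟩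
      · rintro ⟨h1, h2⟩; exact ⟨by omega, h2⟩

theorem ph1_card_le (a : Fin n → Fin M) (b : Fin M) (i : ℕ) :
    (ph1 Q p D a b i).card ≤ D := by
  classical
  induction i with
  | zero => simp [ph1]
  | succ i ih =>
    rw [ph1]
    split_ifs with h hc
    · exact (Finset.card_insert_le _ _).trans hc.1
    · exact ih
    · exact ih

theorem ph1_sub (a : Fin n → Fin M) (b : Fin M) {i j : ℕ} (h : i ≤ j) :
    ph1 Q p D a b i ⊆ ph1 Q p D a b j := by
  intro x hx
  rw [ph1_mem] at hx ⊢
  exact ⟨hx.1.trans_le h, hx.2⟩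

theorem ph1_congr (a a' : Fin n → Fin M) (b : Fin M) (i : ℕ)
    (h : ∀ j : Fin n, j.val < i → a j = a' j) : ph1 Q p D a b i = ph1 Q p D a' b i := by
  classical
  induction i with
  | zero => simp [ph1]
  | succ i ih =>
    have ih' := ih (fun j hj => h j (hj.trans (Nat.lt_succ_self i)))
    rw [ph1, ph1, ih']
    by_cases hn : i < n
    · rw [dif_pos hn, dif_pos hn]
      have hc : ph1c Q p D a b (ph1 Q p D a' b i) ⟨i, hn⟩ ↔
          ph1c Q p D a' b (ph1 Q p D a' b i) ⟨i, hn⟩ := by
        unfold ph1c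
        rw [h ⟨i, hn⟩ (Nat.lt_succ_self i)]
        refine and_congr Iff.rfl (and_congr Iff.rfl ?_)
        refine forall_congr' fun i' => forall_congr' fun hi' => ?_
        rw [h i' (((ph1_mem Q p D a' b i i').1 hi').1.trans (Nat.lt_succ_self i))]
      by_cases h1 : ph1c Q p D a' b (ph1 Q p D a' b i) ⟨i, hn⟩
      · rw [if_pos h1, if_pos (hc.2 h1)]
      · rw [if_neg h1, if_neg (fun h2 => h1 (hc.1 h2))]
    · rw [dif_neg hn, dif_neg hn]

end ph1

/-- for fixed `y` the number of `b` with `y + b` in a set `R` is at most the size of `R` -/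
theorem ph1_count_le {M : ℕ} (R : Finset ℕ) (P : Fin M → Prop) [DecidablePred P] (f : Fin M → ℕ)
    (hf : Function.Injective f) (hP : ∀ b, P b → f b ∈ R) :
    ((univ : Finset (Fin M)).filter P).card ≤ R.card := by
  refine Finset.card_le_card_of_injOn f ?_ (fun x _ y _ h => hf h)
  intro b hb
  exact hP b (Finset.mem_filter.1 hb).2

theorem ph1_count_z {M z : ℕ} (h1 : M ≤ 2 * z + 2) (h2 : 2 * z + 2 ≤ 3 * M) :
    M ≤ 2 * ((univ : Finset (Fin M × Fin M)).filter (fun yb => (yb.1 : ℕ) + yb.2 = z)).card := by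
  rcases Nat.eq_zero_or_pos M with hM | hM
  · omega
  have h3 : (Finset.Icc (z + 1 - M) (min z (M - 1))).card ≤
      ((univ : Finset (Fin M × Fin M)).filter (fun yb => (yb.1 : ℕ) + yb.2 = z)).card := by
    refine Finset.card_le_card_of_injOn
      (fun y => (⟨y % M, Nat.mod_lt _ hM⟩, ⟨(z - y) % M, Nat.mod_lt _ hM⟩)) ?_ ?_
    · intro y hy
      have hy' := Finset.mem_Icc.1 hy
      have e1 : y ≤ z := hy'.2.trans (min_le_left _ _)
      have e2 : y ≤ M - 1 := hy'.2.trans (min_le_right _ _)
      have e3 : y % M = y := Nat.mod_eq_of_lt (by omega)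
      have e4 : (z - y) % M = z - y := Nat.mod_eq_of_lt (by omega)
      simp only [Finset.coe_filter, Finset.mem_univ, true_and, Set.mem_ofPred_eq]
      rw [e3, e4]; omega
    · intro y hy y' hy' h
      have hy := Finset.mem_Icc.1 hy
      have hy' := Finset.mem_Icc.1 hy'
      have e2 : y ≤ M - 1 := hy.2.trans (min_le_right _ _)
      have e2' : y' ≤ M - 1 := hy'.2.trans (min_le_right _ _)
      have e3 : y % M = y := Nat.mod_eq_of_lt (by omega)
      have e3' : y' % M = y' := Nat.mod_eq_of_lt (by omega)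
      have := congrArg (fun q : Fin M × Fin M => (q.1 : ℕ)) h
      simp only [] at this
      omega
  rw [Nat.card_Icc] at h3
  have : M ≤ 2 * (min z (M - 1) + 1 - (z + 1 - M)) := by
    rcases le_total z (M - 1) with h | h
    · rw [min_eq_left h]; omega
    · rw [min_eq_right h]; omega
  omega

theorem ph1_first {M q0 : ℕ} (Q : Finset ℕ)
    (hQ : ∀ z ∈ Q, M ≤ 2 * z + 2 ∧ 2 * z + 2 ≤ 3 * M) (hQc : Q.card = q0) :
    q0 * M ≤ 2 * ∑ y : Fin M, ((univ : Finset (Fin M)).filter
      (fun b : Fin M => (y : ℕ) + (b : ℕ) ∈ Q)).card := by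
  have h1 : ∑ y : Fin M, ((univ : Finset (Fin M)).filter (fun b : Fin M => (y : ℕ) + (b : ℕ) ∈ Q)).card =
      ((univ : Finset (Fin M × Fin M)).filter (fun yb => (yb.1 : ℕ) + yb.2 ∈ Q)).card := by
    simp_rw [Finset.card_filter]
    rw [← Finset.univ_product_univ, Finset.sum_product]
  have h2 : ((univ : Finset (Fin M × Fin M)).filter (fun yb => (yb.1 : ℕ) + yb.2 ∈ Q)).card =
      ∑ z ∈ Q, ((univ : Finset (Fin M × Fin M)).filter (fun yb => (yb.1 : ℕ) + yb.2 = z)).card := by
    rw [Finset.card_eq_sum_card_fiberwise (f := fun yb : Fin M × Fin M => (yb.1 : ℕ) + yb.2)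
      (t := Q)]
    · refine Finset.sum_congr rfl fun z hz => ?_
      congr 1
      ext yb
      simp only [Finset.mem_filter, Finset.mem_univ, true_and]
      constructor
      · rintro ⟨_, h⟩; exact h
      · intro h; exact ⟨h ▸ hz, h⟩
    · intro yb hyb
      exact (Finset.mem_filter.1 hyb).2
  rw [h1, h2, Finset.mul_sum, ← hQc, ← smul_eq_mul, ← Finset.sum_const]
  exact Finset.sum_le_sum fun z hz => ph1_count_z (hQ z hz).1 (hQ z hz).2

theorem ph1_const (n : ℕ) : (2 : ℝ) ^ ((n : ℝ) / 8) * (1 - (5 / 16 : ℝ) / 2) ^ n ≤ (93 / 100) ^ n := by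
  have h1 : (2 : ℝ) ^ ((n : ℝ) / 8) = ((2 : ℝ) ^ (1 / 8 : ℝ)) ^ n := by
    rw [← Real.rpow_natCast, ← Real.rpow_mul (by norm_num)]
    congr 1; ring
  rw [h1, ← mul_pow]
  apply pow_le_pow_left₀ (by positivity)
  have h2 : (2 : ℝ) ^ (1 / 8 : ℝ) ≤ 110 / 100 := by
    have h3 : ((110 / 100 : ℝ) ^ (8 : ℕ)) ^ (1 / 8 : ℝ) = 110 / 100 := by
      rw [← Real.rpow_natCast, ← Real.rpow_mul (by norm_num)]
      norm_num
    rw [← h3]
    apply Real.rpow_le_rpow (by norm_num) (by norm_num) (by norm_num)
  nlinarith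

theorem phase1 (n M B q0 D : ℕ) (Q : Finset ℕ) (p : ℕ → ℕ)
    (hQ : ∀ z ∈ Q, M ≤ 2 * z + 2 ∧ 2 * z + 2 ≤ 3 * M) (hQc : Q.card = q0)
    (hB : ∀ c, (Q.filter (fun z => p z = c)).card ≤ B)
    (hD : D * M ≤ q0 * n) (hDB : 16 * (D * B) ≤ q0) :
    ∃ N : (Fin n → Fin M) → Fin M → Finset (Fin n),
      (∀ a b, (N a b).card ≤ D) ∧
      (∀ a b, ∀ i ∈ N a b, (a i : ℕ) + (b : ℕ) ∈ Q) ∧
      (∀ a b, ∀ i ∈ N a b, ∀ i' ∈ N a b,
        p ((a i : ℕ) + (b : ℕ)) = p ((a i' : ℕ) + (b : ℕ)) → i = i') ∧
      (((univ : Finset (Fin n → Fin M)).filter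
        (fun a => 8 * ∑ b, (N a b).card < D * M)).card : ℝ) ≤ (M : ℝ) ^ n * (93 / 100) ^ n := by
  classical
  refine ⟨fun a b => ph1 Q p D a b n, fun a b => ph1_card_le Q p D a b n, ?_, ?_, ?_⟩
  · intro a b i hi
    exact ((ph1_mem Q p D a b n i).1 hi).2.2.1
  · intro a b i hi i' hi' h
    have h1 := (ph1_mem Q p D a b n i).1 hi
    have h2 := (ph1_mem Q p D a b n i').1 hi'
    rcases lt_trichotomy i i' with h3 | h3 | h3
    · exact absurd h (h2.2.2.2 i ((ph1_mem Q p D a b _ i).2 ⟨h3, h1.2⟩))
    · exact h3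
    · exact absurd h.symm (h1.2.2.2 i' ((ph1_mem Q p D a b _ i').2 ⟨h3, h2.2⟩))
  rcases Nat.eq_zero_or_pos q0 with hq0 | hq0
  · have hDM : D * M = 0 := by
      rw [hq0, zero_mul] at hD; omega
    rw [hDM]
    simp only [not_lt_zero, Finset.filter_false, Finset.card_empty, Nat.cast_zero]
    positivity
  -- the functions
  have hq0R : (0 : ℝ) < q0 := by exact_mod_cast hq0
  obtain ⟨U, hU⟩ : ∃ U : Fin n → (Fin n → Fin M) → Finset (Fin M), U = fun i a =>
    (univ : Finset (Fin M)).filter (fun b => (ph1 Q p D a b i.val).card < D) := ⟨_, rfl⟩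
  obtain ⟨CC, hCC⟩ : ∃ CC : Fin n → (Fin n → Fin M) → Finset (Fin M), CC = fun i a =>
    (univ : Finset (Fin M)).filter (fun b => ph1c Q p D a b (ph1 Q p D a b i.val) i) := ⟨_, rfl⟩
  obtain ⟨F, hF⟩ : ∃ F : Fin n → (Fin n → Fin M) → ℝ, F = fun i a =>
    if 7 * M ≤ 8 * (U i a).card then ((CC i a).card : ℝ) / q0 else 1 := ⟨_, rfl⟩
  have hCCle : ∀ i a, (CC i a).card ≤ q0 := by
    intro i a
    rw [hCC, ← hQc]
    refine ph1_count_le Q _ (fun b => (a i : ℕ) + (b : ℕ)) ?_ ?_
    · intro x y h; exact Fin.ext (by simpa using h)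
    · intro b hb; exact hb.2.1
  have hF0 : ∀ j x, 0 ≤ F j x := by
    intro j x
    rw [hF]; simp only []
    split_ifs
    · positivity
    · exact zero_le_one
  have hF1 : ∀ j x, F j x ≤ 1 := by
    intro j x
    rw [hF]; simp only []
    split_ifs
    · rw [div_le_one hq0R]
      exact_mod_cast hCCle j x
    · exact le_rfl
  have hUdep : ∀ j x x', (∀ i : Fin n, i < j → x i = x' i) → U j x = U j x' := by
    intro j x x' h
    rw [hU]; simp only []
    ext b
    simp only [Finset.mem_filter, Finset.mem_univ, true_and]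
    rw [ph1_congr Q p D x x' b j.val (fun i hi => h i hi)]
  have hFdep : ∀ j x x', (∀ i : Fin n, i ≤ j → x i = x' i) → F j x = F j x' := by
    intro j x x' h
    have h1 := hUdep j x x' (fun i hi => h i hi.le)
    have h2 : CC j x = CC j x' := by
      rw [hCC]; simp only []
      ext b
      simp only [Finset.mem_filter, Finset.mem_univ, true_and]
      rw [ph1_congr Q p D x x' b j.val (fun i hi => h i (le_of_lt hi))]
      unfold ph1c
      rw [h j le_rfl]
      refine and_congr Iff.rfl (and_congr Iff.rfl ?_)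
      refine forall_congr' fun i' => forall_congr' fun hi' => ?_
      rw [h i' (le_of_lt ((ph1_mem Q p D x' b j.val i').1 hi').1)]
    rw [hF]; simp only []
    rw [h1, h2]
  have hmean : ∀ j x, (5 / 16 : ℝ) * M ≤ ∑ y : Fin M, F j (Function.update x j y) := by
    intro j x
    have hup : ∀ y, U j (Function.update x j y) = U j x := fun y => hUdep j _ _ (fun i hi =>
      Function.update_of_ne (ne_of_lt hi) _ _)
    have hphi : ∀ y b, ph1 Q p D (Function.update x j y) b j.val = ph1 Q p D x b j.val :=
      fun y b => ph1_congr Q p D _ _ b j.val (fun i hi =>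
        Function.update_of_ne (by intro h; rw [h] at hi; exact lt_irrefl _ hi) _ _)
    by_cases hc : 7 * M ≤ 8 * (U j x).card
    · have hFy : ∀ y, F j (Function.update x j y) = ((CC j (Function.update x j y)).card : ℝ) / q0 := by
        intro y
        rw [hF]; simp only []
        rw [hup y, if_pos hc]
      rw [Finset.sum_congr rfl (fun y _ => hFy y), ← Finset.sum_div, le_div_iff₀ hq0R]
      -- pointwise lower bound
      have hpt : ∀ y : Fin M, ((univ : Finset (Fin M)).filter (fun b : Fin M => (y : ℕ) + (b : ℕ) ∈ Q)).card ≤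
          (CC j (Function.update x j y)).card +
          ((univ : Finset (Fin M)).filter (fun b : Fin M => b ∉ U j x ∧ (y : ℕ) + (b : ℕ) ∈ Q)).card +
          ∑ b : Fin M, ∑ i' ∈ ph1 Q p D x b j.val,
            if ((y : ℕ) + (b : ℕ) ∈ Q ∧ p ((y : ℕ) + (b : ℕ)) = p ((x i' : ℕ) + (b : ℕ)))
              then 1 else 0 := by
        intro y
        rw [hCC]
        simp_rw [Finset.card_filter]
        rw [← Finset.sum_add_distrib, ← Finset.sum_add_distrib]
        refine Finset.sum_le_sum fun b _ => ?_
        by_cases hyb : (y : ℕ) + (b : ℕ) ∈ Q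
        · rw [if_pos hyb]
          by_cases hbU : b ∈ U j x
          · by_cases hcl : ∃ i' ∈ ph1 Q p D x b j.val,
                p ((x i' : ℕ) + (b : ℕ)) = p ((y : ℕ) + (b : ℕ))
            · obtain ⟨i', hi', he⟩ := hcl
              have : 1 ≤ ∑ i' ∈ ph1 Q p D x b j.val,
                  if ((y : ℕ) + (b : ℕ) ∈ Q ∧ p ((y : ℕ) + (b : ℕ)) = p ((x i' : ℕ) + (b : ℕ)))
                    then 1 else 0 := by
                refine le_trans ?_ (Finset.single_le_sum (f := fun i' =>
                  if ((y : ℕ) + (b : ℕ) ∈ Q ∧ p ((y : ℕ) + (b : ℕ)) = p ((x i' : ℕ) + (b : ℕ)))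
                    then 1 else 0) (fun _ _ => Nat.zero_le _) hi')
                rw [if_pos ⟨hyb, he.symm⟩]
              omega
            · have hcond : ph1c Q p D (Function.update x j y) b
                  (ph1 Q p D (Function.update x j y) b j.val) j := by
                rw [hphi]
                refine ⟨?_, ?_, ?_⟩
                · rw [hU] at hbU
                  exact (Finset.mem_filter.1 hbU).2
                · rw [Function.update_self]; exact hyb
                · intro i' hi' he
                  apply hcl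
                  refine ⟨i', hi', ?_⟩
                  have hne : i' ≠ j := by
                    intro h
                    have := ((ph1_mem Q p D x b j.val i').1 hi').1
                    rw [h] at this
                    exact lt_irrefl _ this
                  rw [Function.update_self, Function.update_of_ne hne] at he
                  exact he
              rw [if_pos hcond]
              omega
          · rw [if_pos (⟨hbU, hyb⟩ : b ∉ U j x ∧ (y : ℕ) + (b : ℕ) ∈ Q)]
            omega
        · rw [if_neg hyb]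
          exact Nat.zero_le _
      have hsum := Finset.sum_le_sum (fun y (_ : y ∈ (univ : Finset (Fin M))) => hpt y)
      rw [Finset.sum_add_distrib, Finset.sum_add_distrib] at hsum
      have hsecond : ∑ y : Fin M, ((univ : Finset (Fin M)).filter
          (fun b : Fin M => b ∉ U j x ∧ (y : ℕ) + (b : ℕ) ∈ Q)).card ≤ (M - (U j x).card) * q0 := by
        have e1 : ∑ y : Fin M, ((univ : Finset (Fin M)).filter
          (fun b : Fin M => b ∉ U j x ∧ (y : ℕ) + (b : ℕ) ∈ Q)).card =
          ∑ b ∈ (univ : Finset (Fin M)).filter (fun b => b ∉ U j x),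
            ((univ : Finset (Fin M)).filter (fun y : Fin M => (y : ℕ) + (b : ℕ) ∈ Q)).card := by
          simp_rw [Finset.card_filter]
          rw [Finset.sum_comm, Finset.sum_filter]
          refine Finset.sum_congr rfl fun b _ => ?_
          by_cases hb : b ∉ U j x
          · simp [hb]
          · simp [hb]
        rw [e1]
        have e2 : ((univ : Finset (Fin M)).filter (fun b => b ∉ U j x)).card = M - (U j x).card := by
          rw [← Finset.compl_filter, Finset.card_compl, Fintype.card_fin]
          simp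
        rw [← e2, ← smul_eq_mul, ← Finset.sum_const]
        refine Finset.sum_le_sum fun b _ => ?_
        rw [← hQc]
        exact ph1_count_le Q _ (fun y => (y : ℕ) + (b : ℕ))
          (fun x y h => Fin.ext (by simpa using h)) (fun y hy => hy)
      have hthird : ∑ y : Fin M, ∑ b : Fin M, ∑ i' ∈ ph1 Q p D x b j.val,
            (if ((y : ℕ) + (b : ℕ) ∈ Q ∧ p ((y : ℕ) + (b : ℕ)) = p ((x i' : ℕ) + (b : ℕ)))
              then 1 else 0) ≤ M * (D * B) := by
        rw [Finset.sum_comm]
        have e1 : ∀ b : Fin M, ∑ y : Fin M, ∑ i' ∈ ph1 Q p D x b j.val,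
            (if ((y : ℕ) + (b : ℕ) ∈ Q ∧ p ((y : ℕ) + (b : ℕ)) = p ((x i' : ℕ) + (b : ℕ)))
              then 1 else 0) ≤ D * B := by
          intro b
          rw [Finset.sum_comm]
          have e2 : ∀ i' ∈ ph1 Q p D x b j.val, ∑ y : Fin M,
            (if ((y : ℕ) + (b : ℕ) ∈ Q ∧ p ((y : ℕ) + (b : ℕ)) = p ((x i' : ℕ) + (b : ℕ)))
              then 1 else 0) ≤ B := by
            intro i' _
            rw [← Finset.card_filter]
            refine le_trans (ph1_count_le (Q.filter
              (fun z => p z = p ((x i' : ℕ) + (b : ℕ)))) _ (fun y => (y : ℕ) + (b : ℕ))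
              (fun x y h => Fin.ext (by simpa using h)) ?_) (hB _)
            intro y hy
            exact Finset.mem_filter.2 hy
          refine (Finset.sum_le_sum e2).trans ?_
          rw [Finset.sum_const, smul_eq_mul]
          exact Nat.mul_le_mul_right _ (ph1_card_le Q p D x b j.val)
        refine (Finset.sum_le_sum fun b _ => e1 b).trans ?_
        rw [Finset.sum_const, smul_eq_mul, Finset.card_univ, Fintype.card_fin]
      have hfirst := ph1_first Q hQ hQc
      have hUM : (U j x).card ≤ M := by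
        simpa using Finset.card_le_univ (U j x)
      -- put together
      have hA : q0 * M ≤ 2 * (∑ y : Fin M, (CC j (Function.update x j y)).card +
          (M - (U j x).card) * q0 + M * (D * B)) := by
        refine hfirst.trans (Nat.mul_le_mul_left 2 (hsum.trans ?_))
        exact add_le_add (add_le_add le_rfl hsecond) hthird
      have hAR : (q0 : ℝ) * M ≤ 2 * (∑ y : Fin M, ((CC j (Function.update x j y)).card : ℝ) +
          ((M : ℝ) - (U j x).card) * q0 + M * (D * B)) := by
        have := (Nat.cast_le (α := ℝ)).2 hA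
        push_cast [Nat.cast_sub hUM] at this
        exact this
      have hUR : (7 : ℝ) * M ≤ 8 * (U j x).card := by exact_mod_cast hc
      have hDBR : (16 : ℝ) * (D * B) ≤ q0 := by exact_mod_cast hDB
      have hMR : (0 : ℝ) ≤ M := Nat.cast_nonneg M
      have t1 : ((M : ℝ) - (U j x).card) * q0 ≤ (M / 8) * q0 := by
        apply mul_le_mul_of_nonneg_right _ hq0R.le
        linarith
      have t2 : (M : ℝ) * (D * B) ≤ M * (q0 / 16) := by
        apply mul_le_mul_of_nonneg_left _ hMR
        linarith
      linarith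
    · have hFy : ∀ y, F j (Function.update x j y) = 1 := by
        intro y
        rw [hF]; simp only []
        rw [hup y, if_neg hc]
      rw [Finset.sum_congr rfl (fun y _ => hFy y)]
      simp only [Finset.sum_const, Finset.card_univ, Fintype.card_fin, nsmul_eq_mul, mul_one]
      have hMR : (0 : ℝ) ≤ M := Nat.cast_nonneg M
      linarith
  have htail := seq_tail n M F (5 / 16) ((n : ℝ) / 8) (by norm_num) (by norm_num) hF0 hF1 hFdep hmean
  have hsub : ((univ : Finset (Fin n → Fin M)).filter
        (fun a => 8 * ∑ b, (ph1 Q p D a b n).card < D * M)) ⊆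
      ((univ : Finset (Fin n → Fin M)).filter (fun x => ∑ j, F j x ≤ (n : ℝ) / 8)) := by
    intro a ha
    rw [Finset.mem_filter] at ha ⊢
    refine ⟨Finset.mem_univ _, ?_⟩
    by_contra hcon
    push Not at hcon
    have ha2 := ha.2
    by_cases hall : ∀ i, 7 * M ≤ 8 * (U i a).card
    · have hFi : ∀ i, F i a = ((CC i a).card : ℝ) / q0 := by
        intro i
        rw [hF]; simp only []
        rw [if_pos (hall i)]
      rw [Finset.sum_congr rfl (fun i _ => hFi i), ← Finset.sum_div, lt_div_iff₀ hq0R] at hcon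
      have hcount : ∑ b : Fin M, (ph1 Q p D a b n).card = ∑ i : Fin n, (CC i a).card := by
        have e1 : ∀ b : Fin M, (ph1 Q p D a b n).card =
            ∑ i : Fin n, if ph1c Q p D a b (ph1 Q p D a b i.val) i then 1 else 0 := by
          intro b
          rw [← Finset.card_filter]
          congr 1
          ext i
          rw [ph1_mem, Finset.mem_filter]
          have := i.isLt
          constructor
          · rintro ⟨_, h⟩; exact ⟨Finset.mem_univ _, h⟩
          · rintro ⟨_, h⟩; exact ⟨this, h⟩
        rw [Finset.sum_congr rfl (fun b _ => e1 b), Finset.sum_comm]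
        refine Finset.sum_congr rfl fun i _ => ?_
        rw [hCC, ← Finset.card_filter]
      have hc1 : (8 : ℝ) * ∑ i : Fin n, ((CC i a).card : ℝ) < D * M := by
        have := (Nat.cast_lt (α := ℝ)).2 ha2
        rw [hcount] at this
        push_cast at this
        exact this
      have hDR : (D : ℝ) * M ≤ q0 * n := by exact_mod_cast hD
      linarith
    · push Not at hall
      obtain ⟨i, hi⟩ := hall
      have h1 : (M - (U i a).card) * D ≤ ∑ b : Fin M, (ph1 Q p D a b n).card := by
        have e2 : ((univ : Finset (Fin M)).filter (fun b => b ∉ U i a)).card = M - (U i a).card := by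
          rw [← Finset.compl_filter, Finset.card_compl, Fintype.card_fin]
          simp
        rw [← e2, ← smul_eq_mul, ← Finset.sum_const]
        refine le_trans (Finset.sum_le_sum fun b hb => ?_)
          (Finset.sum_le_sum_of_subset (Finset.filter_subset _ _))
        have hb' := (Finset.mem_filter.1 hb).2
        rw [hU] at hb'
        simp only [Finset.mem_filter, Finset.mem_univ, true_and, not_lt] at hb'
        exact hb'.trans (Finset.card_le_card (ph1_sub Q p D a b i.isLt.le))
      have h2 : M * D ≤ 8 * ((M - (U i a).card) * D) := by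
        have : M ≤ 8 * (M - (U i a).card) := by omega
        calc M * D ≤ (8 * (M - (U i a).card)) * D := Nat.mul_le_mul_right _ this
          _ = _ := by ring
      have h3 : M * D = D * M := Nat.mul_comm _ _
      omega
  calc (((univ : Finset (Fin n → Fin M)).filter
        (fun a => 8 * ∑ b, (ph1 Q p D a b n).card < D * M)).card : ℝ)
      ≤ (((univ : Finset (Fin n → Fin M)).filter (fun x => ∑ j, F j x ≤ (n : ℝ) / 8)).card : ℝ) := by
        exact_mod_cast Finset.card_le_card hsub
    _ ≤ _ := htail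
    _ = (M : ℝ) ^ n * ((2 : ℝ) ^ ((n : ℝ) / 8) * (1 - (5 / 16 : ℝ) / 2) ^ n) := by ring
    _ ≤ (M : ℝ) ^ n * (93 / 100) ^ n :=
        mul_le_mul_of_nonneg_left (ph1_const n) (by positivity)

end H583T
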