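import Pool.Agent.H583R2.TSI.VFin

/-! Simulation of the first probes by sampled cells. -/

namespace H583T
open Finset

/-- contents read by the first probes, latest first -/
def rd {w κ S : ℕ} (next : (Fin κ → Fin (2 ^ w)) → ℕ → List (Fin (2 ^ w)) → Fin S)
    (cache : Fin κ → Fin (2 ^ w)) (mem : Fin S → Fin (2 ^ w)) (z : ℕ) : ℕ → List (Fin (2 ^ w))
  | 0 => []
  | t + 1 => mem (next cache z (rd next cache mem z t)) :: rd next cache mem z t

/-- simulated contents: stage `τ` uses the sampled cells -/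
def srd {w κ S m r : ℕ} (k : ℕ)
    (next : (Fin κ → Fin (2 ^ w)) → ℕ → List (Fin (2 ^ w)) → Fin S)
    (g : (Fin κ → Fin (2 ^ w)) × (Fin m → Fin r → Fin (2 ^ w))) (z : ℕ) :
    ℕ → List (Fin (2 ^ w))
  | 0 => []
  | t + 1 =>
    (if h : t < m ∧ (next g.1 z (srd k next g z t) : ℕ) / k < r then
      g.2 ⟨t, h.1⟩ ⟨(next g.1 z (srd k next g z t) : ℕ) / k, h.2⟩
    else ⟨0, by positivity⟩) :: srd k next g z t

/-- the sampled part of the memory -/
def smp {w S m : ℕ} (k r : ℕ) (col : Fin m → Fin k) (mem : Fin S → Fin (2 ^ w)) :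
    Fin m → Fin r → Fin (2 ^ w) :=
  fun τ l => if h : (l : ℕ) * k + (col τ : ℕ) < S then mem ⟨(l : ℕ) * k + (col τ : ℕ), h⟩
    else ⟨0, by positivity⟩

theorem smp_get {w S m : ℕ} (k r : ℕ) (col : Fin m → Fin k)
    (mem : Fin S → Fin (2 ^ w)) (τ : Fin m) (s : Fin S) (hs : (s : ℕ) % k = col τ)
    (h2 : (s : ℕ) / k < r) :
    smp k r col mem τ ⟨(s : ℕ) / k, h2⟩ = mem s := by
  unfold smp
  have h1 : (s : ℕ) / k * k + (col τ : ℕ) = s := by
    rw [← hs]
    rw [mul_comm]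
    exact Nat.div_add_mod _ _
  have h3 : (s : ℕ) / k * k + (col τ : ℕ) < S := by rw [h1]; exact s.2
  rw [dif_pos h3]
  congr 1
  exact Fin.ext h1

theorem div_lt_r {S k : ℕ} (s : Fin S) : (s : ℕ) / k < S / k + 1 := by
  have := Nat.div_le_div_right (c := k) s.2.le
  omega

/-- if the simulated colours match, the simulated contents are the true contents -/
theorem srd_eq_of_sim {w κ S m k : ℕ}
    (next : (Fin κ → Fin (2 ^ w)) → ℕ → List (Fin (2 ^ w)) → Fin S)
    (cache : Fin κ → Fin (2 ^ w)) (mem : Fin S → Fin (2 ^ w)) (col : Fin m → Fin k) (z : ℕ)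
    (t : ℕ) (ht : t ≤ m)
    (h : ∀ τ : Fin m, (τ : ℕ) < t → (next cache z
      (srd k next (cache, smp k (S / k + 1) col mem) z τ) : ℕ) % k = col τ) :
    srd k next (cache, smp k (S / k + 1) col mem) z t = rd next cache mem z t := by
  induction t with
  | zero => rfl
  | succ t ih =>
    have ih' := ih (by omega) (fun τ hτ => h τ (by omega))
    have h1 := h ⟨t, by omega⟩ (Nat.lt_succ_self t)
    simp only at h1
    rw [srd, rd]
    have hlt : (next cache z (srd k next (cache, smp k (S / k + 1) col mem) z t) : ℕ) / k <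
      S / k + 1 := div_lt_r _
    rw [dif_pos ⟨by omega, hlt⟩]
    have e := smp_get k (S / k + 1) col mem ⟨t, by omega⟩ _ h1 hlt
    show smp k (S / k + 1) col mem ⟨t, by omega⟩ ⟨_, hlt⟩ :: _ = _
    rw [e, ih']

/-- if the true colours match, the simulated contents are the true contents -/
theorem srd_eq_of_real {w κ S m k : ℕ}
    (next : (Fin κ → Fin (2 ^ w)) → ℕ → List (Fin (2 ^ w)) → Fin S)
    (cache : Fin κ → Fin (2 ^ w)) (mem : Fin S → Fin (2 ^ w)) (col : Fin m → Fin k) (z : ℕ)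
    (t : ℕ) (ht : t ≤ m)
    (h : ∀ τ : Fin m, (τ : ℕ) < t → (next cache z (rd next cache mem z τ) : ℕ) % k = col τ) :
    srd k next (cache, smp k (S / k + 1) col mem) z t = rd next cache mem z t := by
  induction t with
  | zero => rfl
  | succ t ih =>
    have ih' := ih (by omega) (fun τ hτ => h τ (by omega))
    have h1 := h ⟨t, by omega⟩ (Nat.lt_succ_self t)
    simp only at h1
    rw [← ih'] at h1
    rw [srd, rd]
    have hlt : (next cache z (srd k next (cache, smp k (S / k + 1) col mem) z t) : ℕ) / k <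
      S / k + 1 := div_lt_r _
    rw [dif_pos ⟨by omega, hlt⟩]
    have e := smp_get k (S / k + 1) col mem ⟨t, by omega⟩ _ h1 hlt
    show smp k (S / k + 1) col mem ⟨t, by omega⟩ ⟨_, hlt⟩ :: _ = _
    rw [e, ih']

open Classical in
/-- the finite form for schemes -/
theorem scheme_finite (t w κ n S0 S K k d d' D q q0 : ℕ) (ht : 1 ≤ t) (hw : 2 ≤ w)
    (next : (Fin κ → Fin (2 ^ w)) → ℕ → List (Fin (2 ^ w)) → Fin S0)
    (accept : (Fin κ → Fin (2 ^ w)) → ℕ → List (Fin (2 ^ w)) → Fin S0 → Fin (2 ^ w) → Bool)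
    (hsol : ∀ A₁ A₂ : Fin n → Fin (2 ^ w), ∃ (cache : Fin κ → Fin (2 ^ w))
      (mem : Fin S0 → Fin (2 ^ w)), ∀ z < 2 ^ w,
      ((∃ s, accept cache z (rd next cache mem z t) s (mem s) = true) ↔
        ∃ i j, (A₁ i : ℕ) + (A₂ j : ℕ) = z))
    (hn : 1 ≤ n) (hK1 : 1 ≤ K) (hd : 1 ≤ d) (hD : 1 ≤ D) (hq : 1 ≤ q) (hS : 1 ≤ S) (hk : 1 ≤ k)
    (hS0 : S0 ≤ S)
    (H0 : 32 * (n * (2 ^ (w - 1) / S + 1)) ≤ 2 ^ (w - 1)) (HD1 : D * 2 ^ (w - 1) ≤ q0 * n)
    (HD2 : q0 * n ≤ 2 * (D * 2 ^ (w - 1)))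
    (H1 : 128 * (S * (16 * d) ^ 2) ≤ n * D)
    (H2 : K + 2 * K * 2 ^ (2 * K + 1) + d' ≤ d)
    (H3 : n ^ 2 * (2 * K * (16 * d)) ^ K < d' ^ (2 * K))
    (H7 : 4096 * (q * (2 * K * 2 ^ (2 * K + 1))) ≤ n)
    (H6 : q0 * (2 * k ^ (t - 1)) ≤ 2 ^ (w - 1))
    (H8 : ((2 : ℝ) ^ w) ^ (κ + (t - 1) * (S / k + 1)) * (2 * (99 / 100) ^ n) *
      (2 * (2 * (k : ℝ) ^ (t - 1))) ≤ 1)
    (H9 : 2 ^ (2 * K + 3) * (((2 * K : ℕ) : ℝ) + 8) *
      (2 / q * Real.log (2 * (2 * (k : ℝ) ^ (t - 1)) *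
        ((2 : ℝ) ^ w) ^ (κ + (t - 1) * (S / k + 1)) *
        (Fintype.card (Cfg n S K (2 ^ (2 * K + 1))) : ℝ) ^ q) +
        Real.log (2 * (n : ℝ) ^ 2)) < Real.log ((2 ^ (w - 1) : ℕ) : ℝ)) : False := by
  set M : ℕ := 2 ^ (w - 1) with hMdef
  have hMpos : 1 ≤ M := Nat.one_le_two_pow
  have h2M : 2 ^ w = 2 * M := by
    rw [hMdef, ← pow_succ']
    congr 1; omega
  have hMlt : ∀ x : Fin M, (x : ℕ) < 2 ^ w := fun x => by
    have := x.2
    omega
  -- choose the memory
  choose cache memF hmem using fun (ω : Inp n M) =>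
    hsol (fun i => ⟨(ω.1 i : ℕ), hMlt _⟩) (fun j => ⟨(ω.2 j : ℕ), hMlt _⟩)
  simp only at hmem
  -- queries
  set mid : Finset ℕ := Finset.Ico (M / 2) (M / 2 + M) with hmid
  have hmidc : mid.card = M := by rw [hmid, Nat.card_Ico]; omega
  have hmid2 : ∀ z ∈ mid, M ≤ 2 * z + 2 ∧ 2 * z + 2 ≤ 3 * M := by
    intro z hz
    rw [hmid, Finset.mem_Ico] at hz
    omega
  -- true colours
  have hkpos : 0 < k := hk
  let rc : Inp n M → ℕ → Fin (t - 1) → Fin k := fun ω z τ =>
    ⟨(next (cache ω) z (rd next (cache ω) (memF ω) z τ) : ℕ) % k, Nat.mod_lt _ hkpos⟩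
  -- the best colour vector
  obtain ⟨col, hcol⟩ : ∃ col : Fin (t - 1) → Fin k,
      Fintype.card (Inp n M) * M ≤ k ^ (t - 1) *
        ∑ ω : Inp n M, (mid.filter (fun z => rc ω z = col)).card := by
    by_contra hcon
    push Not at hcon
    have h1 : ∑ col : Fin (t - 1) → Fin k, ∑ ω : Inp n M,
        (mid.filter (fun z => rc ω z = col)).card = Fintype.card (Inp n M) * M := by
      rw [Finset.sum_comm]
      have h2 : ∀ ω : Inp n M, ∑ col : Fin (t - 1) → Fin k,
          (mid.filter (fun z => rc ω z = col)).card = M := by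
        intro ω
        rw [← Finset.card_eq_sum_card_fiberwise (s := mid) (f := fun z => rc ω z)
          (t := (univ : Finset (Fin (t - 1) → Fin k)))
          (fun _ _ => Finset.mem_coe.2 (Finset.mem_univ _)), hmidc]
      rw [Finset.sum_congr rfl (fun ω _ => h2 ω), Finset.sum_const, Finset.card_univ, smul_eq_mul]
    have hne : (univ : Finset (Fin (t - 1) → Fin k)).Nonempty :=
      ⟨fun _ => ⟨0, hkpos⟩, Finset.mem_univ _⟩
    have h3 : ∑ col : Fin (t - 1) → Fin k, (k ^ (t - 1) *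
        ∑ ω : Inp n M, (mid.filter (fun z => rc ω z = col)).card) <
        ∑ col : Fin (t - 1) → Fin k, Fintype.card (Inp n M) * M :=
      Finset.sum_lt_sum_of_nonempty hne (fun col _ => hcon col)
    rw [← Finset.mul_sum, h1, Finset.sum_const, Finset.card_univ, smul_eq_mul,
      Fintype.card_pi, Finset.prod_const, Finset.card_univ, Fintype.card_fin,
      Fintype.card_fin] at h3
    exact lt_irrefl _ h3
  -- the cache type
  let G : Type := (Fin κ → Fin (2 ^ w)) × (Fin (t - 1) → Fin (S / k + 1) → Fin (2 ^ w))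
  have hrle : S0 / k + 1 ≤ S / k + 1 := by
    have := Nat.div_le_div_right (c := k) hS0
    omega
  -- restriction of the sampled contents to the addresses below `S0 / k + 1`
  let rs : G → (Fin κ → Fin (2 ^ w)) × (Fin (t - 1) → Fin (S0 / k + 1) → Fin (2 ^ w)) :=
    fun g => (g.1, fun τ l => g.2 τ ⟨l, by have := l.2; omega⟩)
  let gam : Inp n M → G := fun ω => (cache ω, fun τ l =>
    if h : (l : ℕ) < S0 / k + 1 then smp k (S0 / k + 1) col (memF ω) τ ⟨l, h⟩
    else ⟨0, by positivity⟩)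
  have hrs : ∀ ω, rs (gam ω) = (cache ω, smp k (S0 / k + 1) col (memF ω)) := by
    intro ω
    show ((cache ω, fun τ l => _) : _ × _) = _
    congr 1
    funext τ l
    have hl := l.2
    exact dif_pos hl
  let Qs : G → Finset ℕ := fun g => mid.filter (fun z => ∀ τ : Fin (t - 1),
    (next g.1 z (srd k next (rs g) z τ) : ℕ) % k = col τ)
  let u : G → ℕ → ℕ := fun g z => (next g.1 z (srd k next (rs g) z (t - 1)) : ℕ)
  let acc : G → ℕ → ℕ → ℕ → ℕ → Bool := fun g z c s c' =>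
    if h : c < 2 ^ w ∧ s < S0 ∧ c' < 2 ^ w then
      accept g.1 z (⟨c, h.1⟩ :: srd k next (rs g) z (t - 1)) ⟨s, h.2.1⟩ ⟨c', h.2.2⟩
    else false
  let mem : Inp n M → ℕ → ℕ := fun ω s => if h : s < S0 then (memF ω ⟨s, h⟩ : ℕ) else 0
  have hmemv : ∀ ω (s : Fin S0), mem ω (s : ℕ) = (memF ω s : ℕ) := by
    intro ω s
    show (if h : (s : ℕ) < S0 then (memF ω ⟨s, h⟩ : ℕ) else 0) = _
    rw [dif_pos s.2]
  -- contents are simulated correctly on `Qs`
  have hsim : ∀ ω, ∀ z ∈ Qs (gam ω),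
      srd k next (rs (gam ω)) z (t - 1) = rd next (cache ω) (memF ω) z (t - 1) := by
    intro ω z hz
    have h1 := (Finset.mem_filter.1 hz).2
    rw [hrs] at h1 ⊢
    exact srd_eq_of_sim next (cache ω) (memF ω) col z (t - 1) le_rfl (fun τ _ => h1 τ)
  have hread : ∀ ω z, rd next (cache ω) (memF ω) z t =
      memF ω (next (cache ω) z (rd next (cache ω) (memF ω) z (t - 1))) ::
        rd next (cache ω) (memF ω) z (t - 1) := by
    intro ω z
    obtain ⟨t', rfl⟩ : ∃ t', t = t' + 1 := ⟨t - 1, by omega⟩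
    rfl
  have hu' : ∀ ω, ∀ z ∈ Qs (gam ω), u (gam ω) z =
      (next (cache ω) z (rd next (cache ω) (memF ω) z (t - 1)) : ℕ) := by
    intro ω z hz
    show (next (cache ω) z (srd k next (rs (gam ω)) z (t - 1)) : ℕ) = _
    rw [hsim ω z hz]
  have haccv : ∀ ω, ∀ z ∈ Qs (gam ω), ∀ s : Fin S0,
      acc (gam ω) z (mem ω (u (gam ω) z)) s (mem ω s) =
        accept (cache ω) z (rd next (cache ω) (memF ω) z t) s (memF ω s) := by
    intro ω z hz s
    rw [hu' ω z hz, hmemv, hmemv]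
    show (if h : (memF ω _ : ℕ) < 2 ^ w ∧ (s : ℕ) < S0 ∧ (memF ω s : ℕ) < 2 ^ w then
      accept (cache ω) z (⟨(memF ω _ : ℕ), h.1⟩ :: srd k next (rs (gam ω)) z (t - 1)) ⟨s, h.2.1⟩
        ⟨(memF ω s : ℕ), h.2.2⟩ else false) = _
    rw [dif_pos ⟨(memF ω _).2, s.2, (memF ω s).2⟩, hsim ω z hz, hread ω z]
  have hcardI : (Fintype.card (Inp n M) : ℝ) = (M : ℝ) ^ n * (M : ℝ) ^ n := by
    have : Fintype.card (Inp n M) = M ^ n * M ^ n := by
      simp [Inp, Fintype.card_prod, Fintype.card_pi, Fintype.card_fin, Finset.prod_const]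
    rw [this]; push_cast; rfl
  have hcardG : (Fintype.card G : ℝ) = ((2 : ℝ) ^ w) ^ (κ + (t - 1) * (S / k + 1)) := by
    have h1 : Fintype.card G = (2 ^ w) ^ κ * ((2 ^ w) ^ (S / k + 1)) ^ (t - 1) := by
      simp [G, Fintype.card_prod, Fintype.card_pi, Fintype.card_fin, Finset.prod_const]
    rw [h1]
    push_cast
    rw [← pow_mul ((2 : ℝ) ^ w) (S / k + 1) (t - 1), ← pow_add, mul_comm (S / k + 1) (t - 1)]
  refine multi_probe_finite n M S K d d' D q q0 hn hMpos hK1 hd hD hq hS gam Qs u acc mem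
    ?_ ?_ ?_ ?_ ?_ (2 * (k : ℝ) ^ (t - 1)) (by positivity) ?_ ?_ H0 HD1 HD2 H1 H2 H3 H7 ?_ ?_
  · intro g z hz
    exact hmid2 z (Finset.mem_filter.1 hz).1
  · intro g z
    exact lt_of_lt_of_le (next g.1 z (srd k next (rs g) z (t - 1))).2 hS0
  · intro ω s
    show (if h : s < S0 then (memF ω ⟨s, h⟩ : ℕ) else 0) < 2 * M
    split_ifs with h
    · rw [← h2M]; exact (memF ω ⟨s, h⟩).2
    · omega
  · -- soundness
    intro ω z hz s _ hacc
    have hs0 : s < S0 := by
      by_contra hcon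
      have hfalse : acc (gam ω) z (mem ω (u (gam ω) z)) s (mem ω s) = false := by
        show (if h : _ ∧ s < S0 ∧ _ then _ else false) = false
        rw [dif_neg (fun h => hcon h.2.1)]
      rw [hfalse] at hacc
      exact absurd hacc (by simp)
    have h1 := haccv ω z hz ⟨s, hs0⟩
    simp only at h1
    rw [h1] at hacc
    have hz2 : z < 2 ^ w := by
      have := hmid2 z (Finset.mem_filter.1 hz).1
      omega
    exact (hmem ω z hz2).1 ⟨⟨s, hs0⟩, hacc⟩
  · -- completeness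
    intro ω e he
    have hz2 : zz ω e < 2 ^ w := by rw [h2M]; exact zz_lt ω e
    obtain ⟨s, hs⟩ := (hmem ω (zz ω e) hz2).2 ⟨e.1, e.2, rfl⟩
    refine ⟨s, lt_of_lt_of_le s.2 hS0, ?_⟩
    rw [haccv ω _ he s]
    exact hs
  · -- density
    have hZ : ∀ ω, mid.filter (fun z => rc ω z = col) ⊆ Qs (gam ω) := by
      intro ω z hz
      obtain ⟨h1, h2⟩ := Finset.mem_filter.1 hz
      have h3 : ∀ τ : Fin (t - 1),
          (next (cache ω) z (rd next (cache ω) (memF ω) z τ) : ℕ) % k = col τ := by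
        intro τ
        have := congrFun h2 τ
        exact congrArg Fin.val this
      refine Finset.mem_filter.2 ⟨h1, ?_⟩
      intro τ
      have h4 : srd k next (rs (gam ω)) z τ = rd next (cache ω) (memF ω) z τ := by
        rw [hrs]
        exact srd_eq_of_real next (cache ω) (memF ω) col z τ τ.2.le (fun τ' _ => h3 τ')
      rw [h4]
      exact h3 τ
    set Om1 : Finset (Inp n M) := (univ : Finset (Inp n M)).filter
      (fun ω => q0 ≤ (Qs (gam ω)).card) with hOm1
    have hsum : ∑ ω : Inp n M, (mid.filter (fun z => rc ω z = col)).card ≤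
        Om1.card * M + Fintype.card (Inp n M) * q0 := by
      calc _ ≤ ∑ ω : Inp n M, ((if ω ∈ Om1 then M else 0) + q0) := by
            apply Finset.sum_le_sum
            intro ω _
            by_cases hω : ω ∈ Om1
            · rw [if_pos hω]
              have := Finset.card_filter_le mid (fun z => rc ω z = col)
              rw [hmidc] at this
              omega
            · rw [if_neg hω]
              have h1 : ¬ q0 ≤ (Qs (gam ω)).card := fun h =>
                hω (Finset.mem_filter.2 ⟨Finset.mem_univ _, h⟩)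
              have h2 := Finset.card_le_card (hZ ω)
              omega
        _ = Om1.card * M + Fintype.card (Inp n M) * q0 := by
            rw [Finset.sum_add_distrib, Finset.sum_const, Finset.card_univ, smul_eq_mul,
              ← Finset.sum_filter, Finset.sum_const, smul_eq_mul]
            congr 2
            simp
    rw [← hcardI]
    have hMR : (0 : ℝ) < M := by exact_mod_cast hMpos
    have h4 : Fintype.card (Inp n M) * M ≤ k ^ (t - 1) *
        (Om1.card * M + Fintype.card (Inp n M) * q0) :=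
      hcol.trans (Nat.mul_le_mul_left _ hsum)
    have h4' : (Fintype.card (Inp n M) : ℝ) * M ≤ (k : ℝ) ^ (t - 1) *
        ((Om1.card : ℝ) * M + (Fintype.card (Inp n M) : ℝ) * q0) := by exact_mod_cast h4
    have h5 : (q0 : ℝ) * (2 * (k : ℝ) ^ (t - 1)) ≤ M := by exact_mod_cast H6
    have h6 : (Fintype.card (Inp n M) : ℝ) * ((q0 : ℝ) * (2 * (k : ℝ) ^ (t - 1))) ≤
        (Fintype.card (Inp n M) : ℝ) * M :=
      mul_le_mul_of_nonneg_left h5 (Nat.cast_nonneg _)
    have h7 : (Fintype.card (Inp n M) : ℝ) * M ≤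
        (2 * (k : ℝ) ^ (t - 1) * (Om1.card : ℝ)) * M := by nlinarith
    exact le_of_mul_le_mul_right h7 hMR
  · -- q0 ≤ M
    have h1 : 1 ≤ 2 * k ^ (t - 1) := by
      have : 1 ≤ k ^ (t - 1) := Nat.one_le_pow _ _ hkpos
      omega
    calc q0 = q0 * 1 := (mul_one _).symm
      _ ≤ q0 * (2 * k ^ (t - 1)) := Nat.mul_le_mul_left _ h1
      _ ≤ M := H6
  · rw [hcardG]; exact H8
  · rw [hcardG]; exact H9

end H583T
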